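import Pool.Agent.H96R3.BC.Stmts

/-!
# Task SEL of project BIGCOEF: the wrapper to the Selberg class

Adapted from `Pool.Agent.H902R3.Task469I` and `Pool.Agent.H394R3.PF.TaskPFW`.
-/

set_option autoImplicit false

namespace Pool.Agent.H878.BCSel

open Finset Pool.Agent.H96R3.BC
open Pool.Agent.H469R10.HO (TaskF uu)
open Pool.Agent.H336R4.PF (SS)

section coeff

variable {y : ℕ → ℝ}

theorem cf_zero : cf y 0 = 0 := by
  unfold cf
  rw [if_neg not_squarefree_zero]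

theorem cf_one : cf y 1 = 1 := by
  unfold cf
  rw [if_pos squarefree_one]
  simp

theorem cf_prime {p : ℕ} (hp : p.Prime) : cf y p = y p := by
  unfold cf
  rw [if_pos hp.squarefree, hp.primeFactors, Finset.prod_singleton]

theorem cf_prime_pow {p e : ℕ} (hp : p.Prime) (he : 2 ≤ e) : cf y (p ^ e) = 0 := by
  unfold cf
  rw [if_neg]
  intro h
  have h1 : p * p ∣ p ^ e := by
    rw [← sq]; exact pow_dvd_pow p he
  exact hp.one_lt.ne' (Nat.isUnit_iff.1 (h p h1))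

theorem cf_mul {a b : ℕ} (hab : Nat.Coprime a b) : cf y (a * b) = cf y a * cf y b := by
  unfold cf
  by_cases ha : Squarefree a
  · by_cases hb : Squarefree b
    · rw [if_pos ((Nat.squarefree_mul hab).2 ⟨ha, hb⟩), if_pos ha, if_pos hb,
        Nat.Coprime.primeFactors_mul hab, Finset.prod_union hab.disjoint_primeFactors]
    · rw [if_neg (fun h => hb ((Nat.squarefree_mul hab).1 h).2), if_neg hb, mul_zero]
  · rw [if_neg (fun h => ha ((Nat.squarefree_mul hab).1 h).1), if_neg ha, zero_mul]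

end coeff

/-- complex coefficients -/
noncomputable def ff (y : ℕ → ℝ) (n : ℕ) : ℂ := ((cf y n : ℝ) : ℂ)

/-- logarithm coefficients on prime powers -/
noncomputable def bb (y : ℕ → ℝ) (n : ℕ) : ℂ :=
  (-1) ^ (n.factorization n.minFac + 1) * ((y n.minFac : ℝ) : ℂ) ^ (n.factorization n.minFac) /
    (n.factorization n.minFac : ℂ)

theorem bb_pow {y : ℕ → ℝ} {p k : ℕ} (hp : p.Prime) (hk : k ≠ 0) :
    bb y (p ^ k) = (-1) ^ (k + 1) * ((y p : ℝ) : ℂ) ^ k / (k : ℂ) := by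
  unfold bb
  rw [hp.pow_minFac hk, hp.factorization_pow, Finsupp.single_eq_same]

/-- logarithm coefficients, supported on the prime powers -/
noncomputable def bt (y : ℕ → ℝ) (n : ℕ) : ℂ := by
  classical exact if IsPrimePow n then bb y n else 0

theorem bt_pow {y : ℕ → ℝ} {p k : ℕ} (hp : p.Prime) : bt y (p ^ (k + 1)) = bb y (p ^ (k + 1)) := by
  unfold bt
  rw [if_pos]
  exact hp.isPrimePow.pow (by omega)

theorem bt_zero {y : ℕ → ℝ} {n : ℕ} (hn : ¬ IsPrimePow n) : bt y n = 0 := by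
  unfold bt
  rw [if_neg hn]

theorem norm_bb_le {y : ℕ → ℝ} {p k : ℕ} (hp : p.Prime) (hk : 1 ≤ k) :
    ‖bb y (p ^ k)‖ ≤ |y p| ^ k := by
  rw [bb_pow hp (by omega), norm_div, norm_mul, norm_pow, norm_pow, norm_neg, norm_one, one_pow,
    one_mul, Complex.norm_real, Real.norm_eq_abs, Complex.norm_natCast]
  have h2 : (1 : ℝ) ≤ k := by exact_mod_cast hk
  exact div_le_self (pow_nonneg (abs_nonneg _) _) h2

theorem norm_bt_le {y : ℕ → ℝ} (hy : ∀ p : ℕ, p.Prime → |y p| ≤ (p : ℝ) ^ (1 / 4 : ℝ)) (n : ℕ) :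
    ‖bt y n‖ ≤ 1 * (n : ℝ) ^ (1 / 4 : ℝ) := by
  rw [one_mul]
  by_cases h : IsPrimePow n
  · unfold bt
    rw [if_pos h]
    obtain ⟨p, k, hp, hk, rfl⟩ := h
    have hp' := Nat.prime_iff.2 hp
    refine (norm_bb_le hp' (by omega)).trans ?_
    have h1 : |y p| ^ k ≤ ((p : ℝ) ^ (1 / 4 : ℝ)) ^ k :=
      pow_le_pow_left₀ (abs_nonneg _) (hy p hp') k
    refine h1.trans_eq ?_
    rw [Nat.cast_pow, ← Real.rpow_natCast, ← Real.rpow_natCast, ← Real.rpow_mul (by positivity),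
      ← Real.rpow_mul (by positivity), mul_comm]
  · rw [bt_zero h, norm_zero]
    positivity

/-- the Ramanujan bound -/
def Ra (y : ℕ → ℝ) : Prop := ∀ ε : ℝ, 0 < ε → ∃ C : ℝ, ∀ n : ℕ, 1 ≤ n → |cf y n| ≤ C * (n : ℝ) ^ ε

theorem summable_term {y : ℕ → ℝ} (hR : Ra y) {s : ℂ} (hs : 1 < s.re) : LSeriesSummable (ff y) s := by
  obtain ⟨C, hC⟩ := hR ((s.re - 1) / 2) (by linarith)
  apply LSeriesSummable_of_le_const_mul_rpow (x := 1 + (s.re - 1) / 2) (by linarith)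
  refine ⟨C, fun n hn => ?_⟩
  unfold ff
  rw [Complex.norm_real, Real.norm_eq_abs]
  have := hC n (Nat.one_le_iff_ne_zero.2 hn)
  rw [show 1 + (s.re - 1) / 2 - 1 = (s.re - 1) / 2 by ring]
  exact this

theorem z_norm_le {y : ℕ → ℝ} (hy : ∀ p : ℕ, p.Prime → |y p| ≤ (p : ℝ) ^ (1 / 4 : ℝ)) {s : ℂ}
    (hs : 1 < s.re) {p : ℕ} (hp : p.Prime) :
    ‖((y p : ℝ) : ℂ) * (p : ℂ) ^ (-s)‖ ≤ (2 : ℝ) ^ (-(3 / 4) : ℝ) := by
  have hpos : (0 : ℝ) < p := by exact_mod_cast hp.pos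
  rw [norm_mul, Complex.norm_real, Real.norm_eq_abs]
  have h2 : ‖(p : ℂ) ^ (-s)‖ = (p : ℝ) ^ (-s.re) := by
    rw [show (p : ℂ) = ((p : ℝ) : ℂ) by push_cast; rfl,
      Complex.norm_cpow_eq_rpow_re_of_pos hpos, Complex.neg_re]
  rw [h2]
  calc |y p| * (p : ℝ) ^ (-s.re) ≤ (p : ℝ) ^ (1 / 4 : ℝ) * (p : ℝ) ^ (-s.re) := by
        gcongr
        exact hy p hp
    _ = (p : ℝ) ^ (1 / 4 + -s.re : ℝ) := by rw [Real.rpow_add hpos]
    _ ≤ (p : ℝ) ^ (-(3 / 4) : ℝ) := by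
        apply Real.rpow_le_rpow_of_exponent_le
        · exact_mod_cast hp.one_lt.le
        · linarith
    _ ≤ (2 : ℝ) ^ (-(3 / 4) : ℝ) := by
        apply Real.rpow_le_rpow_of_nonpos (by norm_num)
        · exact_mod_cast hp.two_le
        · norm_num

theorem two_lt : (2 : ℝ) ^ (-(3 / 4) : ℝ) < 1 :=
  Real.rpow_lt_one_of_one_lt_of_neg (by norm_num) (by norm_num)

theorem euler {y : ℕ → ℝ} (hR : Ra y) (hy : ∀ p : ℕ, p.Prime → |y p| ≤ (p : ℝ) ^ (1 / 4 : ℝ))
    {s : ℂ} (hs : 1 < s.re) :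
    HasProd (fun p : Nat.Primes =>
        Complex.exp (∑' k : ℕ, bb y ((p : ℕ) ^ (k + 1)) *
          ((p : ℕ) : ℂ) ^ (-(((k + 1 : ℕ) : ℂ) * s))))
        (LSeries (ff y) s) := by
  have hsum := summable_term hR hs
  set g : ℕ → ℂ := LSeries.term (ff y) s with hg
  have hg0 : g 0 = 0 := by rw [hg]; exact LSeries.term_zero _ _
  have hg1 : g 1 = 1 := by
    rw [hg, LSeries.term_of_ne_zero one_ne_zero]
    simp [ff, cf_one]
  have hgm : ∀ {a b : ℕ}, Nat.Coprime a b → g (a * b) = g a * g b := by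
    intro a b hab
    rcases Nat.eq_zero_or_pos a with ha | ha
    · subst ha; rw [zero_mul, hg0, zero_mul]
    rcases Nat.eq_zero_or_pos b with hb | hb
    · subst hb; rw [mul_zero, hg0, mul_zero]
    rw [hg, LSeries.term_of_ne_zero (Nat.mul_pos ha hb).ne', LSeries.term_of_ne_zero ha.ne',
      LSeries.term_of_ne_zero hb.ne']
    unfold ff
    rw [cf_mul hab]
    push_cast
    rw [Complex.natCast_mul_natCast_cpow]
    ring
  have hE := EulerProduct.eulerProduct_hasProd hg1 hgm (by exact hsum.norm) hg0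
  have hL : (∑' n, g n) = LSeries (ff y) s := rfl
  rw [hL] at hE
  convert hE using 1
  funext p
  have hp := p.2
  have hpc : ((p : ℕ) : ℂ) ≠ 0 := by exact_mod_cast hp.ne_zero
  -- the local factor
  have hloc : (∑' e : ℕ, g ((p : ℕ) ^ e)) = 1 + ((y p : ℝ) : ℂ) * ((p : ℕ) : ℂ) ^ (-s) := by
    rw [tsum_eq_sum (s := Finset.range 2)]
    · rw [Finset.sum_range_succ, Finset.sum_range_one, pow_zero, pow_one, hg1, hg,
        LSeries.term_of_ne_zero hp.ne_zero]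
      unfold ff
      rw [cf_prime hp, Complex.cpow_neg]
      rfl
    · intro e he
      rw [Finset.mem_range, not_lt] at he
      rw [hg, LSeries.term_of_ne_zero (pow_ne_zero _ hp.ne_zero)]
      unfold ff
      rw [cf_prime_pow hp he]
      simp
  rw [hloc]
  have hzn : ‖((y p : ℝ) : ℂ) * ((p : ℕ) : ℂ) ^ (-s)‖ < 1 := (z_norm_le hy hs hp).trans_lt two_lt
  set z : ℂ := ((y p : ℝ) : ℂ) * ((p : ℕ) : ℂ) ^ (-s) with hz
  have hlog := Complex.hasSum_taylorSeries_log hzn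
  have hterm : ∀ k : ℕ, bb y ((p : ℕ) ^ (k + 1)) * ((p : ℕ) : ℂ) ^ (-(((k + 1 : ℕ) : ℂ) * s)) =
      (-1) ^ (k + 1 + 1) * z ^ (k + 1) / ((k + 1 : ℕ) : ℂ) := by
    intro k
    rw [bb_pow hp (show k + 1 ≠ 0 by omega), hz, mul_pow]
    have : (((p : ℕ) : ℂ) ^ (-s)) ^ (k + 1) = ((p : ℕ) : ℂ) ^ (-(((k + 1 : ℕ) : ℂ) * s)) := by
      rw [← Complex.cpow_nat_mul]
      congr 1
      ring
    rw [this]
    ring
  have hsumk : HasSum (fun k : ℕ => bb y ((p : ℕ) ^ (k + 1)) *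
      ((p : ℕ) : ℂ) ^ (-(((k + 1 : ℕ) : ℂ) * s))) (Complex.log (1 + z)) := by
    simp_rw [hterm]
    rw [hasSum_nat_add_iff (f := fun n : ℕ => (-1) ^ (n + 1) * z ^ n / (n : ℂ)) 1]
    simpa using hlog
  rw [hsumk.tsum_eq, Complex.exp_log]
  intro h0
  have : z = -1 := by linear_combination h0
  rw [this, norm_neg, norm_one] at hzn
  exact lt_irrefl _ hzn

theorem term_bt {y : ℕ → ℝ} {s : ℂ} (p : Nat.Primes) (k : ℕ) :
      ((LSeries.term (bt y) s ∘ Subtype.val) ∘ Nat.Primes.prodNatEquiv) (p, k) =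
      bb y ((p : ℕ) ^ (k + 1)) * ((p : ℕ) : ℂ) ^ (-(((k + 1 : ℕ) : ℂ) * s)) := by
  simp only [Function.comp_apply, Nat.Primes.coe_prodNatEquiv_apply]
  rw [LSeries.term_of_ne_zero (pow_ne_zero _ p.2.ne_zero), bt_pow p.2, Complex.cpow_neg,
    Complex.natCast_cpow_natCast_mul, div_eq_mul_inv]
  push_cast
  rfl

theorem supp_bt {y : ℕ → ℝ} {s : ℂ} :
    Function.support (LSeries.term (bt y) s) ⊆ {n | IsPrimePow n} := by
  intro n hn
  by_contra hcon
  apply hn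
  rcases eq_or_ne n 0 with rfl | h0
  · exact LSeries.term_zero _ _
  · rw [LSeries.term_of_ne_zero h0, bt_zero hcon, zero_div]

theorem summable_bt {y : ℕ → ℝ} (hR : Ra y) (hy : ∀ p : ℕ, p.Prime → |y p| ≤ (p : ℝ) ^ (1 / 4 : ℝ))
    {s : ℂ} (hs : 1 < s.re) : LSeriesSummable (bt y) s := by
  have hsum := (summable_term hR hs).norm
  -- the sizes at the primes
  set x : Nat.Primes → ℝ := fun p => ‖((y p : ℝ) : ℂ) * ((p : ℕ) : ℂ) ^ (-s)‖ with hx
  have hx0 : ∀ p, 0 ≤ x p := fun p => norm_nonneg _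
  have hx1 : ∀ p, x p ≤ (2 : ℝ) ^ (-(3 / 4) : ℝ) := fun p => z_norm_le hy hs p.2
  have hx2 : ∀ p, x p < 1 := fun p => (hx1 p).trans_lt two_lt
  have hxs : Summable x := by
    have h1 : Summable (fun p : Nat.Primes => ‖LSeries.term (ff y) s (p : ℕ)‖) :=
      hsum.comp_injective (i := fun p : Nat.Primes => (p : ℕ)) Subtype.val_injective
    refine h1.congr fun p => ?_
    change ‖LSeries.term (ff y) s (p : ℕ)‖ = ‖((y p : ℝ) : ℂ) * ((p : ℕ) : ℂ) ^ (-s)‖
    rw [LSeries.term_of_ne_zero p.2.ne_zero]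
    unfold ff
    rw [cf_prime p.2, Complex.cpow_neg, div_eq_mul_inv]
  have hgeo : Summable (fun q : Nat.Primes × ℕ => x q.1 ^ (q.2 + 1)) := by
    rw [summable_prod_of_nonneg (fun q => pow_nonneg (hx0 _) _)]
    have hs1 : ∀ p : Nat.Primes, HasSum (fun k : ℕ => x p ^ (k + 1)) (x p * (1 - x p)⁻¹) := by
      intro p
      have := (hasSum_geometric_of_lt_one (hx0 p) (hx2 p)).mul_left (x p)
      refine this.congr_fun ?_ |> fun h => h
      intro k
      ring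
    refine ⟨fun p => (hs1 p).summable, ?_⟩
    have h2 : ∀ p : Nat.Primes, ∑' k : ℕ, x p ^ (k + 1) = x p * (1 - x p)⁻¹ := fun p => (hs1 p).tsum_eq
    simp only [h2]
    refine Summable.of_nonneg_of_le (fun p => ?_) (fun p => ?_)
      (hxs.mul_right (1 - (2 : ℝ) ^ (-(3 / 4) : ℝ))⁻¹)
    · exact mul_nonneg (hx0 p) (inv_nonneg.2 (by linarith [hx2 p]))
    · apply mul_le_mul_of_nonneg_left _ (hx0 p)
      apply inv_anti₀
      · linarith [two_lt]
      · linarith [hx1 p]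
  have hprod : Summable ((LSeries.term (bt y) s ∘ Subtype.val) ∘ Nat.Primes.prodNatEquiv) := by
    refine Summable.of_norm_bounded hgeo fun q => ?_
    obtain ⟨p, k⟩ := q
    rw [term_bt, norm_mul]
    have h3 : ((p : ℕ) : ℂ) ^ (-(((k + 1 : ℕ) : ℂ) * s)) = (((p : ℕ) : ℂ) ^ (-s)) ^ (k + 1) := by
      rw [← Complex.cpow_nat_mul]
      congr 1
      ring
    have h4 : x p = |y p| * ‖((p : ℕ) : ℂ) ^ (-s)‖ := by
      rw [hx]
      simp only [norm_mul, Complex.norm_real, Real.norm_eq_abs]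
    change _ ≤ x p ^ (k + 1)
    rw [h3, norm_pow, h4, mul_pow]
    exact mul_le_mul_of_nonneg_right (norm_bb_le p.2 (by omega)) (by positivity)
  have h5 : Summable (LSeries.term (bt y) s ∘ (Subtype.val : {n : ℕ // IsPrimePow n} → ℕ)) :=
    (Equiv.summable_iff Nat.Primes.prodNatEquiv).1 hprod
  have h6 : Summable (LSeries.term (bt y) s ∘ (Subtype.val : ({n : ℕ | IsPrimePow n} : Set ℕ) → ℕ)) := h5
  rw [summable_subtype_iff_indicator, Set.indicator_eq_self.2 supp_bt] at h6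
  exact h6

theorem exp_bt {y : ℕ → ℝ} (hR : Ra y) (hy : ∀ p : ℕ, p.Prime → |y p| ≤ (p : ℝ) ^ (1 / 4 : ℝ))
    {s : ℂ} (hs : 1 < s.re) : LSeries (ff y) s = Complex.exp (LSeries (bt y) s) := by
  have hE := euler hR hy hs
  have hsum : LSeriesSummable (bt y) s := summable_bt hR hy hs
  have h1 : HasSum (LSeries.term (bt y) s) (LSeries (bt y) s) := hsum.hasSum
  have h2 := (hasSum_subtype_iff_of_support_subset supp_bt).2 h1
  have h3 : HasSum ((LSeries.term (bt y) s ∘ Subtype.val) ∘ Nat.Primes.prodNatEquiv)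
      (LSeries (bt y) s) := (Equiv.hasSum_iff Nat.Primes.prodNatEquiv).2 h2
  have h4 : HasSum (fun p : Nat.Primes => ∑' k : ℕ, bb y ((p : ℕ) ^ (k + 1)) *
      ((p : ℕ) : ℂ) ^ (-(((k + 1 : ℕ) : ℂ) * s))) (LSeries (bt y) s) := by
    apply h3.prod_fiberwise
    intro p
    have h5 : Summable (fun k : ℕ =>
        ((LSeries.term (bt y) s ∘ Subtype.val) ∘ Nat.Primes.prodNatEquiv) (p, k)) :=
      h3.summable.prod_factor p
    have h6 := h5.hasSum
    simp only [term_bt] at h6 ⊢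
    exact h6
  exact hE.unique h4.cexp

/-- The entire function. -/
noncomputable def FF (c lam : ℝ) (Λ : ℂ → ℂ) (s : ℂ) : ℂ :=
  Complex.exp ((Real.log c : ℂ) * ((lam : ℂ) * s)) *
    (Λ ((lam : ℂ) * s + 2) * (Complex.Gamma ((lam : ℂ) * s + 2))⁻¹)

theorem FF_diff {c lam : ℝ} {Λ : ℂ → ℂ} (hΛ : Differentiable ℂ Λ) :
    Differentiable ℂ (FF c lam Λ) := by
  unfold FF
  have h1 : Differentiable ℂ (fun s : ℂ => (lam : ℂ) * s + 2) := by fun_prop
  have h2 : Differentiable ℂ (fun z : ℂ => (Complex.Gamma z)⁻¹) :=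
    Complex.differentiable_one_div_Gamma
  have h3 := hΛ.comp h1
  have h4 := h2.comp h1
  have h5 : Differentiable ℂ (fun s : ℂ => Complex.exp ((Real.log c : ℂ) * ((lam : ℂ) * s))) := by
    fun_prop
  exact h5.mul (h3.mul h4)

theorem uu_pos {c lam : ℝ} (hc : 0 < c) {n : ℕ} (hn : 1 ≤ n) : 0 < uu c lam n := by
  unfold uu
  have : (0 : ℝ) < n := by exact_mod_cast hn
  positivity

theorem uu_log {c lam : ℝ} (hc : 0 < c) {n : ℕ} (hn : 1 ≤ n) :
    Real.log (uu c lam n) = Real.log c + 1 / lam * Real.log n := by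
  unfold uu
  have h : (0 : ℝ) < n := by exact_mod_cast hn
  rw [Real.log_mul hc.ne' (Real.rpow_pos_of_pos h _).ne', Real.log_rpow h]

theorem pow_eq_exp {x : ℝ} (hx : 0 < x) (z : ℂ) :
    ((x : ℝ) : ℂ) ^ z = Complex.exp ((Real.log x : ℂ) * z) := by
  rw [Complex.cpow_def_of_ne_zero (by exact_mod_cast hx.ne'), Complex.ofReal_log hx.le]

theorem FF_series {c lam : ℝ} {y : ℕ → ℝ} {Λ : ℂ → ℂ} (hc : 0 < c) (hl : 0 < lam)
    {s : ℂ}
    (h : HasSum (fun n : ℕ => if n = 0 then 0 else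
      ((cf y n * uu c lam n ^ 2 : ℝ) : ℂ) *
        ((uu c lam n : ℝ) : ℂ) ^ (-((lam : ℂ) * s + 2)))
      (Λ ((lam : ℂ) * s + 2) * (Complex.Gamma ((lam : ℂ) * s + 2))⁻¹)) :
    FF c lam Λ s = LSeries (ff y) s := by
  have h2 := h.mul_left (Complex.exp ((Real.log c : ℂ) * ((lam : ℂ) * s)))
  change HasSum _ (FF c lam Λ s) at h2
  rw [← h2.tsum_eq]
  unfold LSeries
  congr 1
  funext n
  rcases Nat.eq_zero_or_pos n with h0 | h0
  · subst h0
    simp [LSeries.term_zero]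
  · rw [if_neg h0.ne', LSeries.term_of_ne_zero h0.ne']
    have hn : (0 : ℝ) < n := by exact_mod_cast h0
    have hu := uu_pos (lam := lam) hc h0
    have hlc : ((lam : ℝ) : ℂ) ≠ 0 := by exact_mod_cast hl.ne'
    unfold ff
    have e1 : (uu c lam n) ^ 2 =
        Real.exp (2 * (Real.log c + 1 / lam * Real.log n)) := by
      rw [← uu_log hc h0]
      conv_lhs => rw [← Real.exp_log hu]
      rw [← Real.exp_nat_mul]
      push_cast
      rfl
    have e3 : ((n : ℕ) : ℂ) ^ s = Complex.exp ((Real.log n : ℂ) * s) := by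
      rw [show ((n : ℕ) : ℂ) = ((n : ℝ) : ℂ) by push_cast; rfl]
      exact pow_eq_exp hn s
    have e5 : ∀ a y : ℂ, a / Complex.exp y = a * Complex.exp (-y) := by
      intro a y; rw [Complex.exp_neg, div_eq_mul_inv]
    rw [pow_eq_exp hu, uu_log hc h0, e1, e3, e5]
    push_cast
    have e4 : ∀ a b c' d : ℂ, Complex.exp a * (b * Complex.exp c' * Complex.exp d) =
        b * Complex.exp (a + c' + d) := by
      intro a b c' d
      rw [Complex.exp_add, Complex.exp_add]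
      ring
    rw [e4]
    congr 2
    field_simp
    ring

theorem growth_aux (a : ℝ) : ∃ K : ℝ, ∀ x : ℝ, 0 ≤ x → a * (1 + x) ^ 2 ≤ x ^ 3 + K := by
  refine ⟨|a| * (1 + (4 * |a| + 1)) ^ 2, fun x hx => ?_⟩
  have ha : a ≤ |a| := le_abs_self a
  have ha0 : 0 ≤ |a| := abs_nonneg a
  have h1 : a * (1 + x) ^ 2 ≤ |a| * (1 + x) ^ 2 := by gcongr
  refine h1.trans ?_
  by_cases h : x ≤ 4 * |a| + 1
  · have h2 : |a| * (1 + x) ^ 2 ≤ |a| * (1 + (4 * |a| + 1)) ^ 2 := by gcongr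
    have h3 : 0 ≤ x ^ 3 := by positivity
    linarith
  · push Not at h
    have hx1 : 1 ≤ x := by linarith
    have h2 : |a| * (1 + x) ^ 2 ≤ x ^ 3 := by
      calc |a| * (1 + x) ^ 2 ≤ |a| * (2 * x) ^ 2 := by
            gcongr
            linarith
        _ = (4 * |a|) * x ^ 2 := by ring
        _ ≤ x * x ^ 2 := by
            gcongr
            linarith
        _ = x ^ 3 := by ring
    have h3 : 0 ≤ |a| * (1 + (4 * |a| + 1)) ^ 2 := by positivity
    linarith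

theorem FF_growth {c lam : ℝ} (hl : 1 ≤ lam) {Λ : ℂ → ℂ} {C : ℝ}
    (h : ∀ z : ℂ, ‖Λ z * (Complex.Gamma z)⁻¹‖ ≤ Real.exp (C * (1 + ‖z‖) ^ 2)) :
    ∃ ρ C' : ℝ, ∀ s : ℂ, ‖FF c lam Λ s‖ ≤ C' * Real.exp (‖s‖ ^ ρ) := by
  have hl0 : 0 < lam := by linarith
  obtain ⟨K, hK⟩ := growth_aux (|Real.log c| * lam + |C| * (2 * lam + 2) ^ 2)
  refine ⟨3, Real.exp K, fun s => ?_⟩
  have hx : 0 ≤ ‖s‖ := norm_nonneg s
  have hK' := hK ‖s‖ hx
  unfold FF
  rw [norm_mul, Complex.norm_exp]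
  have h1 : (((Real.log c : ℂ) * ((lam : ℂ) * s))).re ≤
      |Real.log c| * lam * (1 + ‖s‖) ^ 2 := by
    refine (Complex.re_le_norm _).trans ?_
    rw [norm_mul, Complex.norm_real, Real.norm_eq_abs, mul_assoc]
    gcongr
    rw [norm_mul, Complex.norm_real, Real.norm_of_nonneg hl0.le]
    gcongr
    nlinarith
  have h2 : ‖Λ ((lam : ℂ) * s + 2) * (Complex.Gamma ((lam : ℂ) * s + 2))⁻¹‖ ≤
      Real.exp (|C| * (2 * lam + 2) ^ 2 * (1 + ‖s‖) ^ 2) := by
    refine (h _).trans ?_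
    apply Real.exp_le_exp.2
    have h3 : ‖(lam : ℂ) * s + 2‖ ≤ lam * ‖s‖ + 2 := by
      refine (norm_add_le _ _).trans ?_
      rw [norm_mul, Complex.norm_real, Real.norm_of_nonneg hl0.le]
      norm_num
    have h4 : 1 + ‖(lam : ℂ) * s + 2‖ ≤ (2 * lam + 2) * (1 + ‖s‖) := by
      nlinarith [mul_nonneg hl0.le hx]
    calc C * (1 + ‖(lam : ℂ) * s + 2‖) ^ 2
        ≤ |C| * (1 + ‖(lam : ℂ) * s + 2‖) ^ 2 := by
          gcongr
          exact le_abs_self C
      _ ≤ |C| * ((2 * lam + 2) * (1 + ‖s‖)) ^ 2 := by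
          gcongr
      _ = _ := by ring
  calc Real.exp _ * ‖Λ ((lam : ℂ) * s + 2) * (Complex.Gamma ((lam : ℂ) * s + 2))⁻¹‖
      ≤ Real.exp (|Real.log c| * lam * (1 + ‖s‖) ^ 2) *
        Real.exp (|C| * (2 * lam + 2) ^ 2 * (1 + ‖s‖) ^ 2) := by
        gcongr
    _ = Real.exp ((|Real.log c| * lam + |C| * (2 * lam + 2) ^ 2) * (1 + ‖s‖) ^ 2) := by
        rw [← Real.exp_add]; ring_nf
    _ ≤ Real.exp (‖s‖ ^ 3 + K) := Real.exp_le_exp.2 hK'
    _ = Real.exp K * Real.exp (‖s‖ ^ (3 : ℝ)) := by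
        rw [Real.exp_add, mul_comm]
        congr 2
        rw [← Real.rpow_natCast]
        norm_num

/-- identity theorem -/
theorem FF_eq {c lam : ℝ} {y : ℕ → ℝ} {Λ : ℂ → ℂ} (hΛ : Differentiable ℂ Λ) (hR : Ra y)
    (h : ∀ s : ℂ, 2 < s.re → FF c lam Λ s = LSeries (ff y) s) {s : ℂ} (hs : 1 < s.re) :
    FF c lam Λ s = LSeries (ff y) s := by
  have hU : IsPreconnected {z : ℂ | 1 < z.re} := (convex_halfSpace_re_gt 1).isPreconnected
  have hab : ∀ z : ℂ, 1 < z.re → LSeries.abscissaOfAbsConv (ff y) < z.re := by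
    intro z hz
    obtain ⟨C, hC⟩ := hR ((z.re - 1) / 2) (by linarith)
    have h1 : LSeries.abscissaOfAbsConv (ff y) ≤ ((z.re - 1) / 2 : ℝ) + 1 := by
      apply LSeries.abscissaOfAbsConv_le_of_le_const_mul_rpow
      refine ⟨C, fun n hn => ?_⟩
      unfold ff
      rw [Complex.norm_real, Real.norm_eq_abs]
      exact hC n (Nat.one_le_iff_ne_zero.2 hn)
    refine lt_of_le_of_lt h1 ?_
    have h2 : (z.re - 1) / 2 + 1 < z.re := by linarith
    exact_mod_cast h2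
  have h1 : AnalyticOnNhd ℂ (FF c lam Λ) {z : ℂ | 1 < z.re} := fun z _ =>
    (FF_diff hΛ).analyticAt z
  have h2 : AnalyticOnNhd ℂ (LSeries (ff y)) {z : ℂ | 1 < z.re} := by
    apply (LSeries_analyticOnNhd (ff y)).mono
    intro z hz
    exact hab z hz
  have h3 : FF c lam Λ =ᶠ[nhds (3 : ℂ)] LSeries (ff y) := by
    have ho : IsOpen {z : ℂ | 2 < z.re} := isOpen_lt continuous_const Complex.continuous_re
    have hm : (3 : ℂ) ∈ {z : ℂ | 2 < z.re} := by
      change (2 : ℝ) < (3 : ℂ).re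
      norm_num
    filter_upwards [ho.mem_nhds hm] with z hz
    exact h z hz
  have h4 := h1.eqOn_of_preconnected_of_eventuallyEq h2 hU (z₀ := (3 : ℂ)) (by
    change (1 : ℝ) < (3 : ℂ).re
    norm_num) h3
  exact h4 hs

/-- completed function -/
theorem FF_completed {c lam : ℝ} {Λ : ℂ → ℂ} {s : ℂ}
    (hs : ∀ n : ℕ, ((lam : ℝ) : ℂ) * s + 2 ≠ -(n : ℂ)) :
    ((Real.exp (-(lam * Real.log c)) : ℝ) : ℂ) ^ s *
      Complex.Gamma (((lam : ℝ) : ℂ) * s + 2) * FF c lam Λ s =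
        Λ (((lam : ℝ) : ℂ) * s + 2) := by
  have hG := Complex.Gamma_ne_zero hs
  rw [pow_eq_exp (Real.exp_pos _), Real.log_exp]
  unfold FF
  have h1 : Complex.exp ((((-(lam * Real.log c) : ℝ)) : ℂ) * s) *
      Complex.exp ((Real.log c : ℂ) * (((lam : ℝ) : ℂ) * s)) = 1 := by
    rw [← Complex.exp_add, ← Complex.exp_zero]
    push_cast
    congr 1
    ring
  have h2 := inv_mul_cancel₀ hG
  linear_combination (Λ (((lam : ℝ) : ℂ) * s + 2)) * (Complex.Gamma (((lam : ℝ) : ℂ) * s + 2))⁻¹ *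
    Complex.Gamma (((lam : ℝ) : ℂ) * s + 2) * h1 + Λ (((lam : ℝ) : ℂ) * s + 2) * h2

theorem vv_eq (Q j₀ : ℕ) (hj : 2 ≤ j₀) (n : ℕ) :
    vv Q j₀ n = uu (((j₀ : ℝ) ^ (2 * Q)) ^ (-(1 / (4 * (Q : ℝ))))) (4 * (Q : ℝ)) n := by
  unfold vv uu
  have hj0 : (0 : ℝ) < (j₀ : ℝ) ^ (2 * Q) := by positivity
  rw [Real.div_rpow (by positivity) hj0.le, Real.rpow_neg hj0.le, div_eq_mul_inv, mul_comm]

theorem taskSel : TaskSel := by
  intro hF Q j₀ y hQ hj hR hy hrel
  obtain ⟨c, hcdef⟩ : ∃ c : ℝ, c = ((j₀ : ℝ) ^ (2 * Q)) ^ (-(1 / (4 * (Q : ℝ)))) := ⟨_, rfl⟩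
  obtain ⟨lam, hlam⟩ : ∃ lam : ℝ, lam = 4 * (Q : ℝ) := ⟨_, rfl⟩
  have hvv : ∀ n, vv Q j₀ n = uu c lam n := by
    intro n
    rw [vv_eq Q j₀ hj n, hcdef, hlam]
  have hj0 : (0 : ℝ) < (j₀ : ℝ) := by
    have : (2 : ℝ) ≤ j₀ := by exact_mod_cast hj
    linarith
  have hc : 0 < c := by rw [hcdef]; positivity
  have hQ1 : (1 : ℝ) ≤ Q := by exact_mod_cast hQ
  have hl4 : 4 ≤ lam := by rw [hlam]; linarith
  have hl : 0 < lam := by linarith
  have hu0 : uu c lam 0 = 0 := by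
    unfold uu
    rw [Nat.cast_zero, Real.zero_rpow (by positivity), mul_zero]
  simp only [hvv] at hrel
  obtain ⟨Λ, hΛd, hΛfe, hΛc, hΛs, C, hΛg⟩ := hF c lam (lam + 4) hc (by linarith) (by linarith)
    (fun n => cf y n * uu c lam n ^ 2)
    (by simp [cf_zero])
    (by
      obtain ⟨C, hC⟩ := hR (1 / (2 * lam)) (by positivity)
      have hs : Summable (fun n : ℕ => (C * c ^ (-(lam + 1))) * (n : ℝ) ^ (-(1 + 1 / (2 * lam)))) := by
        apply Summable.mul_left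
        rw [Real.summable_nat_rpow]
        have : 0 < 1 / (2 * lam) := by positivity
        linarith
      refine Summable.of_nonneg_of_le (fun n => ?_) (fun n => ?_) hs
      · apply mul_nonneg (abs_nonneg _)
        apply Real.rpow_nonneg
        rcases Nat.eq_zero_or_pos n with h | h
        · rw [h, hu0]
        · exact (uu_pos hc h).le
      rcases Nat.eq_zero_or_pos n with h | h
      · subst h
        rw [cf_zero, zero_mul, abs_zero, zero_mul, Nat.cast_zero, Real.zero_rpow, mul_zero]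
        have : 0 < 1 / (2 * lam) := by positivity
        linarith
      · have hu := uu_pos (lam := lam) hc h
        have hn : (0 : ℝ) < n := by exact_mod_cast h
        rw [abs_mul, abs_of_pos (pow_pos hu _), mul_assoc, ← Real.rpow_natCast,
          ← Real.rpow_add hu]
        have e1 : ((2 : ℕ) : ℝ) + -((lam + 4) - 1) = -(lam + 1) := by push_cast; ring
        rw [e1]
        have e2 : uu c lam n ^ (-(lam + 1)) = c ^ (-(lam + 1)) * (n : ℝ) ^ (-(1 + 1 / lam)) := by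
          unfold uu
          rw [Real.mul_rpow hc.le (by positivity), ← Real.rpow_mul hn.le]
          congr 2
          field_simp
        rw [e2]
        calc |cf y n| * (c ^ (-(lam + 1)) * (n : ℝ) ^ (-(1 + 1 / lam)))
            ≤ (C * (n : ℝ) ^ (1 / (2 * lam))) * (c ^ (-(lam + 1)) * (n : ℝ) ^ (-(1 + 1 / lam))) := by
              apply mul_le_mul_of_nonneg_right (hC n h) (by positivity)
          _ = (C * c ^ (-(lam + 1))) * ((n : ℝ) ^ (1 / (2 * lam)) * (n : ℝ) ^ (-(1 + 1 / lam))) := by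
              ring
          _ = _ := by
              rw [← Real.rpow_add hn]
              congr 2
              field_simp
              try ring)
    1 (Or.inl rfl)
    (by
      intro t ht
      have h1 := hrel t ht
      have h2 : t ^ (lam + 4) = t ^ (4 * Q + 4) := by
        rw [← Real.rpow_natCast, hlam]
        push_cast
        rfl
      rw [h2, one_mul]
      exact h1)
  have hFser : ∀ s : ℂ, 2 < s.re → FF c lam Λ s = LSeries (ff y) s := by
    intro s hs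
    apply FF_series hc hl
    apply hΛs
    have h1 : (((lam : ℝ) : ℂ) * s + 2).re = lam * s.re + 2 := by simp
    rw [h1]
    nlinarith
  obtain ⟨ρ, C', hgr⟩ := FF_growth (c := c) (lam := lam) (by linarith) hΛg
  have hpole : ∀ s : ℂ, 0 < s.re → ∀ n : ℕ, ((lam : ℝ) : ℂ) * s + 2 ≠ -(n : ℂ) := by
    intro s hs n h
    have h1 := congrArg Complex.re h
    have h2 : (((lam : ℝ) : ℂ) * s + 2).re = lam * s.re + 2 := by simp
    rw [h2] at h1
    simp only [Complex.neg_re, Complex.natCast_re] at h1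
    have h3 : (0 : ℝ) ≤ n := Nat.cast_nonneg n
    have h4 := mul_pos hl hs
    linarith
  change SS (ff y)
  refine ⟨?_, ?_, ⟨0, FF c lam Λ, FF_diff hΛd, ⟨ρ, C', hgr⟩, ?_,
    ⟨Real.exp (-(lam * Real.log c)), Real.exp_pos _, 1, fun _ => lam, fun _ => 2, 1,
      fun _ => hl, fun _ => by norm_num, norm_one, ?_⟩⟩, ⟨bt y, ?_, 1 / 4, by norm_num, 1, ?_, ?_⟩⟩
  · unfold ff
    rw [cf_one]
    simp
  · intro e he
    obtain ⟨C, hC⟩ := hR e he
    refine ⟨C, fun n hn => ?_⟩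
    unfold ff
    rw [Complex.norm_real, Real.norm_eq_abs]
    exact hC n hn
  · intro s hs
    rw [pow_zero, one_mul]
    exact FF_eq hΛd hR hFser hs
  · intro s hs0 hs1
    have g1 := FF_completed (c := c) (lam := lam) (Λ := Λ) (s := s) (hpole s hs0)
    have g2 := FF_completed (c := c) (lam := lam) (Λ := Λ) (s := 1 - starRingEnd ℂ s)
      (hpole _ (by simp; linarith))
    simp only [pow_zero, div_one, Finset.univ_unique, Finset.prod_singleton]
    rw [g1, g2, one_mul, ← hΛc]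
    have h3 : starRingEnd ℂ (((lam : ℝ) : ℂ) * (1 - starRingEnd ℂ s) + 2) =
        (((lam + 4 : ℝ)) : ℂ) - (((lam : ℝ) : ℂ) * s + 2) := by
      rw [map_add, map_mul, map_sub, map_one, Complex.conj_conj, Complex.conj_ofReal]
      have h4 : starRingEnd ℂ (2 : ℂ) = 2 := Complex.conj_ofNat 2
      rw [h4]
      push_cast
      ring
    rw [h3, hΛfe]
    simp
  · intro n hn
    exact bt_zero hn
  · intro n _
    exact norm_bt_le hy n
  · intro s hs
    exact exp_bt hR hy hs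

end Pool.Agent.H878.BCSel
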