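import Pool.Agent.H878.Fun

open MeasureTheory Set Filter Topology
open scoped Pointwise ENNReal

namespace Pool.Agent.H878

open Heis

theorem sn_per (θ : ℝ) (n : ℤ) :
    Real.sin (2 * Real.pi * (θ + n)) = Real.sin (2 * Real.pi * θ) := by
  rw [mul_add, show 2 * Real.pi * (n : ℝ) = n * (2 * Real.pi) by ring, Real.sin_add_int_mul_two_pi]

/-- sine of the `k`-th phase -/
noncomputable def sn (k : ℕ) : Nil → ℝ := lft k (fun θ => Real.sin (2 * Real.pi * θ)) sn_per

theorem continuous_sn (k : ℕ) : Continuous (sn k) :=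
  continuous_lft k _ _ (by fun_prop)

/-- the transition region of the `k`-th phase -/
def BB (k : ℕ) : Set Nil := {x | |sn k x| < 1 / 2 ^ k}

theorem measurableSet_BB (k : ℕ) : MeasurableSet (BB k) :=
  (isOpen_lt (continuous_sn k).abs continuous_const).measurableSet

theorem sn_shift (k : ℕ) (x : Nil) : ∃ θ, sn k x = Real.sin (2 * Real.pi * θ) ∧
    ∀ t, sn k (of 0 t 0 • x) = Real.sin (2 * Real.pi * (θ + q k * t)) := by
  induction x using QuotientGroup.induction_on with
  | H g =>
    refine ⟨ph k g, rfl, fun t => ?_⟩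
    have : sn k (of 0 t 0 • (QuotientGroup.mk g : Nil)) =
      Real.sin (2 * Real.pi * ph k (of 0 t 0 * g)) := rfl
    rw [this, ph_y]

theorem BB_measure (k : ℕ) (hk : 2 ≤ k) : mu.real (BB k) ≤ 4 / 2 ^ k := by
  set n : ℕ := 2 ^ (k - 2) with hn
  have hn4 : (4:ℝ) * n = 2 ^ k := by
    rw [hn]; push_cast
    rw [show (4:ℝ) = 2 ^ 2 by norm_num, ← pow_add]; congr 1; omega
  have hq := q_posR k
  have h2k : (0:ℝ) < 2 ^ k := by positivity
  let T : ℕ → Heis := fun j => of 0 (j / (q k * 2 ^ k)) 0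
  let B : Fin n → Set Nil := fun j => (T j • ·) ⁻¹' BB k
  have hBm : ∀ j, MeasurableSet (B j) := fun j =>
    (measurable_const_smul (T j)) (measurableSet_BB k)
  have hBmu : ∀ j, mu.real (B j) = mu.real (BB k) := fun j => by
    rw [measureReal_def, measureReal_def, measure_preimage_smul]
  have hdisj : Pairwise (Function.onFun Disjoint B) := by
    have main : ∀ i j : Fin n, i < j → Disjoint (B i) (B j) := by
      intro i j hij
      rw [Set.disjoint_left]
      intro x hxi hxj
      obtain ⟨θ, -, hθ⟩ := sn_shift k x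
      have h1 : |sn k (T i • x)| < 1 / 2 ^ k := hxi
      have h2 : |sn k (T j • x)| < 1 / 2 ^ k := hxj
      rw [hθ] at h1 h2
      set a := 2 * Real.pi * (θ + q k * ((i:ℕ) / (q k * 2 ^ k))) with ha
      set b := 2 * Real.pi * (θ + q k * ((j:ℕ) / (q k * 2 ^ k))) with hb
      have hba : b - a = 2 * Real.pi * ((((j:ℕ):ℝ) - ((i:ℕ):ℝ)) / 2 ^ k) := by
        rw [ha, hb]; field_simp; ring
      have hij' : (1:ℝ) ≤ ((j:ℕ):ℝ) - ((i:ℕ):ℝ) := by
        have : (i:ℕ) + 1 ≤ (j:ℕ) := hij
        have : (((i:ℕ) + 1 : ℕ) : ℝ) ≤ ((j:ℕ):ℝ) := by exact_mod_cast this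
        push_cast at this; linarith
      have hjn : ((j:ℕ):ℝ) - ((i:ℕ):ℝ) ≤ n := by
        have : (j:ℕ) < n := j.2
        have : ((j:ℕ):ℝ) < n := by exact_mod_cast this
        have : (0:ℝ) ≤ ((i:ℕ):ℝ) := Nat.cast_nonneg _
        linarith
      set d := (((j:ℕ):ℝ) - ((i:ℕ):ℝ)) / 2 ^ k with hd
      have hd1 : 1 / 2 ^ k ≤ d := by rw [hd]; gcongr
      have hd2 : d ≤ 1 / 4 := by
        rw [hd, div_le_iff₀ h2k, ← hn4]; linarith
      have hd0 : 0 ≤ d := le_trans (by positivity) hd1
      have hpi := Real.pi_pos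
      have hj := Real.mul_le_sin (x := 2 * Real.pi * d) (by positivity) (by nlinarith)
      have hj' : 4 * d ≤ Real.sin (2 * Real.pi * d) := by
        refine le_trans (le_of_eq ?_) hj
        field_simp
        ring
      rw [← hba, Real.sin_sub] at hj'
      have hcb := Real.abs_cos_le_one b
      have hca := Real.abs_cos_le_one a
      have e1 : Real.sin b * Real.cos a ≤ 1 / 2 ^ k := by
        calc Real.sin b * Real.cos a ≤ |Real.sin b * Real.cos a| := le_abs_self _
          _ = |Real.sin b| * |Real.cos a| := abs_mul _ _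
          _ ≤ 1 / 2 ^ k * 1 := by
            apply mul_le_mul h2.le hca (abs_nonneg _) (by positivity)
          _ = _ := mul_one _
      have e2 : -(Real.cos b * Real.sin a) ≤ 1 / 2 ^ k := by
        calc -(Real.cos b * Real.sin a) ≤ |Real.cos b * Real.sin a| := neg_le_abs _
          _ = |Real.cos b| * |Real.sin a| := abs_mul _ _
          _ ≤ 1 * (1 / 2 ^ k) := by
            apply mul_le_mul hcb h1.le (abs_nonneg _) (by positivity)
          _ = _ := one_mul _
      have : (0:ℝ) < 1 / 2 ^ k := by positivity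
      linarith
    intro i j hij
    rcases lt_or_gt_of_ne hij with h | h
    · exact main i j h
    · exact (main j i h).symm
  have hsum : ∑ j : Fin n, mu.real (B j) ≤ 1 := by
    have h1 : mu.real (⋃ j, B j) = ∑ j : Fin n, mu.real (B j) := by
      rw [measureReal_iUnion_fintype hdisj hBm]
    rw [← h1]
    exact measureReal_le_one
  simp_rw [hBmu] at hsum
  rw [Finset.sum_const, Finset.card_univ, Fintype.card_fin, nsmul_eq_mul] at hsum
  rw [le_div_iff₀ h2k, ← hn4]
  linarith

/-- region where the block equals `4 ^ k` -/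
def Ap (k : ℕ) : Set Nil := {x | 1 / 2 ^ k ≤ sn k x}
/-- region where the block vanishes, also after half a turn it is `4 ^ k` -/
def Am (k : ℕ) : Set Nil := {x | sn k x ≤ -(1 / 2 ^ k)}

theorem measurableSet_Ap (k : ℕ) : MeasurableSet (Ap k) :=
  (isClosed_le continuous_const (continuous_sn k)).measurableSet
theorem measurableSet_Am (k : ℕ) : MeasurableSet (Am k) :=
  (isClosed_le (continuous_sn k) continuous_const).measurableSet

theorem Ap_eq_Am (k : ℕ) : mu.real (Ap k) = mu.real (Am k) := by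
  have hq := q_posR k
  have e : (of 0 (1 / (2 * q k)) 0 • · : Nil → Nil) ⁻¹' Am k = Ap k := by
    ext x
    obtain ⟨θ, h0, hθ⟩ := sn_shift k x
    simp only [mem_preimage, Am, Ap, mem_ofPred_eq]
    rw [hθ, h0]
    have : 2 * Real.pi * (θ + q k * (1 / (2 * q k))) = 2 * Real.pi * θ + Real.pi := by
      field_simp
    rw [this, Real.sin_add_pi]
    constructor <;> intro h <;> linarith
  rw [← e, measureReal_def, measureReal_def, measure_preimage_smul]

theorem Ap_measure (k : ℕ) (hk : 4 ≤ k) : 3 / 8 ≤ mu.real (Ap k) := by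
  have h1 : (univ : Set Nil) ⊆ Ap k ∪ Am k ∪ BB k := by
    intro x _
    by_cases h1 : 1 / 2 ^ k ≤ sn k x
    · exact Or.inl (Or.inl h1)
    · by_cases h2 : sn k x ≤ -(1 / 2 ^ k)
      · exact Or.inl (Or.inr h2)
      · refine Or.inr ?_
        change |sn k x| < 1 / 2 ^ k
        rw [abs_lt]
        exact ⟨by linarith, by linarith⟩
  have h2 : (1:ℝ) ≤ mu.real (Ap k) + mu.real (Am k) + mu.real (BB k) := by
    calc (1:ℝ) = mu.real univ := by simp
      _ ≤ mu.real (Ap k ∪ Am k ∪ BB k) := measureReal_mono h1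
      _ ≤ mu.real (Ap k ∪ Am k) + mu.real (BB k) := measureReal_union_le _ _
      _ ≤ _ := by gcongr; exact measureReal_union_le _ _
  have h3 := BB_measure k (by omega)
  have h4 : (4:ℝ) / 2 ^ k ≤ 1 / 4 := by
    have : (2:ℝ) ^ 4 ≤ 2 ^ k := pow_le_pow_right₀ (by norm_num) hk
    rw [div_le_div_iff₀ (by positivity) (by norm_num)]
    linarith
  rw [← Ap_eq_Am] at h2
  linarith

theorem Am_measure (k : ℕ) (hk : 4 ≤ k) : 3 / 8 ≤ mu.real (Am k) := by
  rw [← Ap_eq_Am]; exact Ap_measure k hk

/-- the special times at which the `k`-th phase has made half a turn -/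
noncomputable def tt (k : ℕ) : ℝ := 1 / (2 * ep k)

theorem tt_pos (k : ℕ) : 0 < tt k := by have := ep_pos k; unfold tt; positivity

theorem Hk_half_p (k : ℕ) (x : Nil) (hx : x ∈ Ap k) : Hk k (flo (tt k) x) - Hk k x = -4 ^ k := by
  induction x using QuotientGroup.induction_on with
  | H g =>
    have h0 : 1 / 2 ^ k ≤ Real.sin (2 * Real.pi * ph k g) := hx
    have e1 : Hk k (flo (tt k) (QuotientGroup.mk g)) = hh k (ph k (ex bet (tt k) * g)) := rfl
    have e2 : Hk k (QuotientGroup.mk g) = hh k (ph k g) := rfl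
    have hep := ep_pos k
    have e3 : ph k g + tt k * ep k = ph k g + 1 / 2 := by unfold tt; field_simp
    have hpos : (0:ℝ) < 1 / 2 ^ k := by positivity
    rw [e1, e2, ph_flow, e3, hh_eq_top k h0, hh_eq_zero k]
    · ring
    · rw [show 2 * Real.pi * (ph k g + 1 / 2) = 2 * Real.pi * ph k g + Real.pi by ring,
        Real.sin_add_pi]
      linarith

theorem Hk_half_m (k : ℕ) (x : Nil) (hx : x ∈ Am k) : Hk k (flo (tt k) x) - Hk k x = 4 ^ k := by
  induction x using QuotientGroup.induction_on with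
  | H g =>
    have h0 : Real.sin (2 * Real.pi * ph k g) ≤ -(1 / 2 ^ k) := hx
    have e1 : Hk k (flo (tt k) (QuotientGroup.mk g)) = hh k (ph k (ex bet (tt k) * g)) := rfl
    have e2 : Hk k (QuotientGroup.mk g) = hh k (ph k g) := rfl
    have hep := ep_pos k
    have e3 : ph k g + tt k * ep k = ph k g + 1 / 2 := by unfold tt; field_simp
    have hpos : (0:ℝ) < 1 / 2 ^ k := by positivity
    rw [e1, e2, ph_flow, e3, hh_eq_zero k (θ := ph k g) (by linarith), hh_eq_top k]
    · ring
    · rw [show 2 * Real.pi * (ph k g + 1 / 2) = 2 * Real.pi * ph k g + Real.pi by ring,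
        Real.sin_add_pi]
      linarith

theorem Hk_range (k : ℕ) (x y : Nil) : |Hk k x - Hk k y| ≤ 4 ^ k := by
  induction x using QuotientGroup.induction_on with
  | H g =>
    induction y using QuotientGroup.induction_on with
    | H g' =>
      have e1 : Hk k (QuotientGroup.mk g) = hh k (ph k g) := rfl
      have e2 : Hk k (QuotientGroup.mk g') = hh k (ph k g') := rfl
      rw [e1, e2, abs_le]
      have a1 := hh_nonneg k (ph k g)
      have a2 := hh_le k (ph k g)
      have b1 := hh_nonneg k (ph k g')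
      have b2 := hh_le k (ph k g')
      constructor <;> linarith

theorem sum_four (K : ℕ) : 3 * ∑ k ∈ Finset.range K, (4:ℝ) ^ k ≤ 4 ^ K := by
  induction K with
  | zero => simp
  | succ K ih => rw [Finset.sum_range_succ, pow_succ, mul_add]; linarith

/-- the orbit sum at time `tt K` is dominated by the `K`-th block -/
theorem sum_est (K : ℕ) (x : Nil) :
    |∑' k, (Hk k (flo (tt K) x) - Hk k x) - (Hk K (flo (tt K) x) - Hk K x)|
      ≤ 4 ^ K / 3 + 1 := by
  set d : ℕ → ℝ := fun k => Hk k (flo (tt K) x) - Hk k x with hd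
  have hsum : Summable d := summable_diff _ _
  have h1 : ∑' k, d k = ∑ k ∈ Finset.range (K + 1), d k + ∑' k, d (k + (K + 1)) :=
    (hsum.sum_add_tsum_nat_add (K + 1)).symm
  rw [h1, Finset.sum_range_succ]
  have h2 : |∑ k ∈ Finset.range K, d k| ≤ 4 ^ K / 3 := by
    calc |∑ k ∈ Finset.range K, d k| ≤ ∑ k ∈ Finset.range K, |d k| :=
          Finset.abs_sum_le_sum_abs _ _
      _ ≤ ∑ k ∈ Finset.range K, (4:ℝ) ^ k := Finset.sum_le_sum (fun k _ => Hk_range k _ _)
      _ ≤ 4 ^ K / 3 := by have := sum_four K; linarith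
  have h3 : |∑' k, d (k + (K + 1))| ≤ 1 := by
    have hb : ∀ k, ‖d (k + (K + 1))‖ ≤ 1 / 2 ^ (k + 2) := by
      intro k
      rw [Real.norm_eq_abs]
      refine (Hk_flow_diff _ _ _).trans ?_
      have hr := ep_ratio K (k + (K + 1)) (by omega)
      have hep := ep_pos K
      rw [abs_of_pos (tt_pos K)]
      calc tt K * (ep (k + (K + 1)) * CC (k + (K + 1)) 0)
          ≤ tt K * (1 / 2 ^ (k + (K + 1) + 2) * ep K) :=
            mul_le_mul_of_nonneg_left hr (tt_pos K).le
        _ = 1 / 2 ^ (k + (K + 1) + 2) * (1 / 2) := by unfold tt; field_simp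
        _ ≤ 1 / 2 ^ (k + 2) * 1 := by
            gcongr
            · norm_num
            · omega
            · norm_num
        _ = _ := mul_one _
    have := tsum_of_norm_bounded summable_geo.hasSum hb
    rw [tsum_geo, Real.norm_eq_abs] at this
    linarith
  have e : (∑ k ∈ Finset.range K, d k + d K + ∑' k, d (k + (K + 1))) - d K =
      ∑ k ∈ Finset.range K, d k + ∑' k, d (k + (K + 1)) := by ring
  rw [e]
  exact (abs_add_le _ _).trans (add_le_add h2 h3)

/-- **The time change is measurably non-trivial.** -/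
theorem nontrivial_alp : ¬ ∃ (c : ℝ) (u : Nil → ℝ), Measurable u ∧
    ∀ t : ℝ, ∀ᵐ x ∂mu, u (flo t x) - u x = ∫ s in (0:ℝ)..t, (alp (flo s x) - c) := by
  rintro ⟨c, u, hu, hcob⟩
  -- tightness
  obtain ⟨N, hN⟩ : ∃ N : ℕ, mu.real {x | (N:ℝ) < |u x|} < 1 / 16 := by
    have hanti : Antitone (fun N : ℕ => {x | (N:ℝ) < |u x|}) := by
      intro a b hab x hx
      have : (a:ℝ) ≤ b := by exact_mod_cast hab
      exact lt_of_le_of_lt this hx
    have hlim := tendsto_measure_iInter_atTop (μ := mu)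
      (s := fun N : ℕ => {x | (N:ℝ) < |u x|})
      (fun N => (measurableSet_lt measurable_const hu.abs).nullMeasurableSet) hanti
      ⟨0, measure_ne_top _ _⟩
    have he : (⋂ N : ℕ, {x | (N:ℝ) < |u x|}) = ∅ := by
      ext x
      simp only [mem_iInter, mem_ofPred_eq, mem_empty_iff_false, iff_false, not_forall, not_lt]
      exact exists_nat_ge _
    rw [he, measure_empty] at hlim
    have hlim2 : Tendsto (fun N : ℕ => mu.real {x | (N:ℝ) < |u x|}) atTop (𝓝 0) := by
      have := (ENNReal.tendsto_toReal (by simp : (0:ℝ≥0∞) ≠ ⊤)).comp hlim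
      rw [ENNReal.toReal_zero] at this
      exact this
    exact ((tendsto_order.1 hlim2).2 (1/16) (by norm_num)).exists
  -- choose K
  obtain ⟨K, hK4, hK⟩ : ∃ K : ℕ, 4 ≤ K ∧ (4 * N + 3 : ℝ) < 4 ^ K := by
    obtain ⟨n, hn⟩ := pow_unbounded_of_one_lt (4 * N + 3 : ℝ) (by norm_num : (1:ℝ) < 4)
    exact ⟨max n 4, le_max_right _ _, hn.trans_le
      (pow_le_pow_right₀ (by norm_num) (le_max_left _ _))⟩
  set t := tt K with ht
  have hmp : MeasurePreserving (flo t) mu mu := measurePreserving_smul (ex bet t) mu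
  have hbad : mu.real {x | ¬ |u (flo t x) - u x| ≤ 2 * N} ≤ 1 / 8 := by
    have hsub : {x | ¬ |u (flo t x) - u x| ≤ 2 * N} ⊆
        (flo t) ⁻¹' {x | (N:ℝ) < |u x|} ∪ {x | (N:ℝ) < |u x|} := by
      intro x hx
      by_contra hcon
      simp only [mem_union, mem_preimage, mem_ofPred_eq, not_or, not_lt] at hcon
      apply hx
      calc |u (flo t x) - u x| ≤ |u (flo t x)| + |u x| := abs_sub _ _
        _ ≤ 2 * N := by linarith [hcon.1, hcon.2]
    have hpre : mu.real ((flo t) ⁻¹' {x | (N:ℝ) < |u x|}) = mu.real {x | (N:ℝ) < |u x|} := by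
      rw [measureReal_def, measureReal_def, hmp.measure_preimage
        (measurableSet_lt measurable_const hu.abs).nullMeasurableSet]
    calc _ ≤ mu.real ((flo t) ⁻¹' {x | (N:ℝ) < |u x|} ∪ {x | (N:ℝ) < |u x|}) :=
          measureReal_mono hsub
      _ ≤ mu.real ((flo t) ⁻¹' {x | (N:ℝ) < |u x|}) + mu.real {x | (N:ℝ) < |u x|} :=
          measureReal_union_le _ _
      _ ≤ 1 / 8 := by rw [hpre]; linarith
  have hex : ∀ A : Set Nil, 3 / 8 ≤ mu.real A → ∃ x ∈ A, |u (flo t x) - u x| ≤ 2 * N ∧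
      u (flo t x) - u x = ∫ s in (0:ℝ)..t, (alp (flo s x) - c) := by
    intro A hA
    by_contra hcon
    push Not at hcon
    have hsub : A ⊆ {x | ¬ |u (flo t x) - u x| ≤ 2 * N} ∪
        {x | ¬ (u (flo t x) - u x = ∫ s in (0:ℝ)..t, (alp (flo s x) - c))} := by
      intro x hx
      by_cases h : |u (flo t x) - u x| ≤ 2 * N
      · exact Or.inr (hcon x hx h)
      · exact Or.inl h
    have hz : mu.real {x | ¬ (u (flo t x) - u x = ∫ s in (0:ℝ)..t, (alp (flo s x) - c))} = 0 := by
      rw [measureReal_def, ae_iff.1 (hcob t)]; simp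
    have := (measureReal_mono hsub).trans (measureReal_union_le (μ := mu) _ _)
    rw [hz] at this
    linarith
  obtain ⟨x, hxA, hx1, hx2⟩ := hex _ (Ap_measure K hK4)
  obtain ⟨y, hyA, hy1, hy2⟩ := hex _ (Am_measure K hK4)
  have hint : ∀ z : Nil, ∫ s in (0:ℝ)..t, (alp (flo s z) - c) =
      t + ∑' k, (Hk k (flo t z) - Hk k z) - t * c := by
    intro z
    have i1 : IntervalIntegrable (fun s => alp (flo s z)) volume 0 t :=
      (continuous_alp.comp (continuous_flo_left z)).intervalIntegrable _ _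
    have i2 : IntervalIntegrable (fun _ : ℝ => c) volume 0 t :=
      continuous_const.intervalIntegrable _ _
    rw [intervalIntegral.integral_sub i1 i2, integral_alp]
    simp
  rw [hint] at hx2 hy2
  have sx := sum_est K x
  have sy := sum_est K y
  rw [Hk_half_p K x hxA] at sx
  rw [Hk_half_m K y hyA] at sy
  rw [abs_le] at sx sy hx1 hy1
  have a1 := sx.2
  have a2 := sy.1
  have a3 := hx1.1
  have a4 := hy1.2
  rw [hx2] at a3
  rw [hy2] at a4
  have h4K : (0:ℝ) < 4 ^ K := by positivity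
  linarith

end Pool.Agent.H878
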