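import Pool.Agent.H878.TC
import Pool.Agent.H878.Triv

open MeasureTheory Set Filter Topology
open scoped Pointwise ENNReal

namespace Pool.Agent.H878

open Heis

theorem rk_per (k : ℕ) (θ : ℝ) (n : ℤ) :
    hh k (θ + n) - (round (hh k (θ + n)) : ℝ) = hh k θ - (round (hh k θ) : ℝ) := by
  rw [hh_add_int]

/-- signed distance of the `k`-th block to the nearest integer -/
noncomputable def rk (k : ℕ) : Nil → ℝ := lft k (fun θ => hh k θ - (round (hh k θ) : ℝ)) (rk_per k)

theorem rk_eq (k : ℕ) (x : Nil) : rk k x = Hk k x - (round (Hk k x) : ℝ) := by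
  induction x using QuotientGroup.induction_on with
  | H g => rfl

theorem continuous_Hk (k : ℕ) : Continuous (Hk k) :=
  continuous_lft k _ _ (hh_contDiff k).continuous

theorem measurable_rk (k : ℕ) : Measurable (rk k) := by
  have e : rk k = fun x => Hk k x - ((⌊Hk k x + 1 / 2⌋ : ℤ) : ℝ) := by
    funext x
    rw [rk_eq, round_eq]
  rw [e]
  have h1 : Measurable (Hk k) := (continuous_Hk k).measurable
  have h2 : Measurable (fun x => ⌊Hk k x + 1 / 2⌋) := (h1.add_const _).floor
  have h3 : Measurable (fun n : ℤ => (n : ℝ)) := measurable_from_top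
  exact h1.sub (h3.comp h2)

theorem rk_zero (k : ℕ) (x : Nil) (hx : x ∉ BB k) : rk k x = 0 := by
  rw [rk_eq]
  have h1 : ¬ |sn k x| < 1 / 2 ^ k := hx
  rw [not_lt, le_abs] at h1
  have hv : Hk k x = 0 ∨ Hk k x = 4 ^ k := by
    induction x using QuotientGroup.induction_on with
    | H g =>
      have e1 : sn k (QuotientGroup.mk g) = Real.sin (2 * Real.pi * ph k g) := rfl
      have e2 : Hk k (QuotientGroup.mk g) = hh k (ph k g) := rfl
      rw [e1] at h1
      rw [e2]
      rcases h1 with h1 | h1
      · exact Or.inr (hh_eq_top k h1)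
      · left
        apply hh_eq_zero
        have : (0:ℝ) < 1 / 2 ^ k := by positivity
        linarith
  rcases hv with hv | hv
  · rw [hv]; simp
  · rw [hv]
    have : ((4:ℝ) ^ k) = (((4 ^ k : ℤ)) : ℝ) := by push_cast; rfl
    rw [this, round_intCast, sub_self]

/-- the set on which the sum of the blocks converges modulo one -/
def Om : Set Nil := {x | Summable (fun k => rk k x)}

theorem measurableSet_Om : MeasurableSet Om := by
  have e : Om = {x | ∑' k, ENNReal.ofReal |rk k x| ≠ ⊤} := by
    ext x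
    change Summable (fun k => rk k x) ↔ _
    rw [← summable_abs_iff]
    constructor
    · intro h
      exact h.tsum_ofReal_ne_top
    · intro h
      have := ENNReal.summable_toReal h
      refine this.congr (fun k => ?_)
      rw [ENNReal.toReal_ofReal (abs_nonneg _)]
  rw [e]
  have hm : Measurable (fun x => ∑' k, ENNReal.ofReal |rk k x|) :=
    Measurable.tsum (fun k => (measurable_rk k).abs.ennreal_ofReal)
  exact (hm (measurableSet_singleton ⊤)).compl

theorem ae_Om : ∀ᵐ x ∂mu, x ∈ Om := by
  have hsum : ∑' k, mu (BB k) ≠ ⊤ := by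
    have h1 : ∀ k, mu (BB (k + 2)) ≤ ENNReal.ofReal (4 * (1 / 2 ^ (k + 2))) := by
      intro k
      have := BB_measure (k + 2) (by omega)
      rw [measureReal_def] at this
      rw [← ENNReal.ofReal_toReal (measure_ne_top mu (BB (k + 2)))]
      apply ENNReal.ofReal_le_ofReal
      refine this.trans (le_of_eq ?_)
      ring
    have h2 : ∑' k, mu (BB (k + 2)) ≠ ⊤ := by
      refine ne_top_of_le_ne_top ?_ (ENNReal.tsum_le_tsum h1)
      exact (summable_geo.mul_left 4).tsum_ofReal_ne_top
    have h3 : ∀ f : ℕ → ℝ≥0∞, ∑' k, f k = ∑ k ∈ Finset.range 2, f k + ∑' k, f (k + 2) := by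
      intro f
      exact (Summable.sum_add_tsum_nat_add' (f := f) (k := 2) ENNReal.summable).symm
    rw [h3 (fun k => mu (BB k))]
    exact ENNReal.add_ne_top.2 ⟨(ENNReal.sum_lt_top.2 (fun k _ => measure_lt_top _ _)).ne, h2⟩
  filter_upwards [ae_eventually_notMem hsum] with x hx
  change Summable (fun k => rk k x)
  obtain ⟨K, hK⟩ := eventually_atTop.1 hx
  refine summable_of_hasFiniteSupport ((Set.finite_lt_nat K).subset (fun k hk => ?_))
  by_contra hcon
  exact hk (rk_zero k x (hK k (not_lt.1 hcon)))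

/-- the sum of the blocks modulo one -/
noncomputable def RR (x : Nil) : ℝ := ∑' k, rk k x

theorem measurable_RR : Measurable RR := by
  have e : ∀ x, HasSum (fun k => Om.indicator (rk k) x) (RR x) := by
    intro x
    by_cases hx : x ∈ Om
    · have h1 : (fun k => Om.indicator (rk k) x) = fun k => rk k x := by
        funext k; rw [indicator_of_mem hx]
      rw [h1]
      exact Summable.hasSum hx
    · have h1 : (fun k => Om.indicator (rk k) x) = fun _ => 0 := by
        funext k; rw [indicator_of_notMem hx]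
      have h2 : RR x = 0 := tsum_eq_zero_of_not_summable hx
      rw [h1, h2]
      exact hasSum_zero
  refine measurable_of_tendsto_metrizable
    (f := fun (n : ℕ) x => ∑ k ∈ Finset.range n, Om.indicator (rk k) x) (fun n => ?_) ?_
  · exact Finset.measurable_sum _ (fun k _ => (measurable_rk k).indicator measurableSet_Om)
  · rw [tendsto_pi_nhds]
    intro x
    exact (e x).tendsto_sum_nat

/-- the first coordinate modulo one -/
noncomputable def base : Nil → UnitAddCircle := fun x => Quotient.liftOn' x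
  (fun g : Heis => (g.1 : UnitAddCircle)) (by
    intro g g' h
    have h1 : g⁻¹ * g' ∈ Gam := QuotientGroup.leftRel_apply.1 h
    obtain ⟨a, b, c, habc⟩ := h1
    have h2 : g' = g * of a b c := by rw [← habc]; group
    have h3 : g'.1 = g.1 + a := by rw [h2]; simp
    change (g.1 : UnitAddCircle) = (g'.1 : UnitAddCircle)
    rw [h3, AddCircle.coe_add]
    have : ((a : ℝ) : UnitAddCircle) = 0 := by
      rw [AddCircle.coe_eq_zero_iff]
      exact ⟨a, by simp⟩
    rw [this, add_zero])

theorem continuous_base : Continuous base := by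
  have : Continuous (fun g : Heis => (g.1 : UnitAddCircle)) :=
    (AddCircle.continuous_mk' 1).comp Heis.continuous_fst
  exact this.quotient_lift _

theorem base_flo (t : ℝ) (x : Nil) : base (flo t x) = base x + (t : UnitAddCircle) := by
  induction x using QuotientGroup.induction_on with
  | H g =>
    have e1 : base (flo t (QuotientGroup.mk g)) = (((ex bet t * g).1 : ℝ) : UnitAddCircle) := rfl
    have e2 : base (QuotientGroup.mk g) = ((g.1 : ℝ) : UnitAddCircle) := rfl
    rw [e1, e2, mul_1, AddCircle.coe_add, add_comm]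
    rfl

/-- the angle function -/
noncomputable def Th (x : Nil) : UnitAddCircle := base x + ((RR x : ℝ) : UnitAddCircle)

theorem measurable_Th : Measurable Th :=
  continuous_base.measurable.add (AddCircle.measurable_mk'.comp measurable_RR)

theorem Om_flo (t : ℝ) {x : Nil} (hx : x ∈ Om) : flo t x ∈ Om := by
  change Summable (fun k => rk k (flo t x))
  have h1 : Summable (fun k => |rk k x|) := (summable_abs_iff).2 hx
  have h2 : Summable (fun k => |Hk k (flo t x) - Hk k x|) := (summable_diff t x).abs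
  refine Summable.of_norm_bounded (h1.add h2) (fun k => ?_)
  rw [Real.norm_eq_abs, rk_eq, rk_eq]
  refine (round_le _ (round (Hk k x))).trans ?_
  have e : Hk k (flo t x) - (round (Hk k x) : ℝ) =
      (Hk k x - (round (Hk k x) : ℝ)) + (Hk k (flo t x) - Hk k x) := by ring
  rw [e]
  exact abs_add_le _ _

theorem Th_flo (t : ℝ) {x : Nil} (hx : x ∈ Om) :
    Th (flo t x) = Th x + ((aa t x : ℝ) : UnitAddCircle) := by
  have hs1 : Summable (fun k => rk k x) := hx
  have hs2 : Summable (fun k => rk k (flo t x)) := Om_flo t hx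
  have hs3 := summable_diff t x
  have haa : aa t x = t + ∑' k, (Hk k (flo t x) - Hk k x) := integral_alp t x
  -- the difference of the sums is an integer
  set n : ℕ → ℤ := fun k => round (Hk k x) - round (Hk k (flo t x)) with hn
  have hterm : ∀ k, rk k (flo t x) - rk k x - (Hk k (flo t x) - Hk k x) = n k := by
    intro k
    rw [rk_eq, rk_eq, hn]
    push_cast
    ring
  have hsum : HasSum (fun k => ((n k : ℤ) : ℝ))
      (RR (flo t x) - RR x - ∑' k, (Hk k (flo t x) - Hk k x)) := by
    have := (hs2.hasSum.sub hs1.hasSum).sub hs3.hasSum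
    simp only [hterm] at this
    exact this
  have hlim := hsum.tendsto_sum_nat
  have hcont : Continuous (fun y : ℝ => (y : UnitAddCircle)) := AddCircle.continuous_mk' 1
  have hlim2 := (hcont.tendsto _).comp hlim
  have hz : ∀ N : ℕ, ((∑ k ∈ Finset.range N, ((n k : ℤ) : ℝ) : ℝ) : UnitAddCircle) = 0 := by
    intro N
    rw [AddCircle.coe_eq_zero_iff]
    exact ⟨∑ k ∈ Finset.range N, n k, by simp⟩
  have hzero : ((RR (flo t x) - RR x - ∑' k, (Hk k (flo t x) - Hk k x) : ℝ) : UnitAddCircle)
      = 0 := by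
    refine tendsto_nhds_unique hlim2 ?_
    have : (fun y : ℝ => (y : UnitAddCircle)) ∘
        (fun N : ℕ => ∑ k ∈ Finset.range N, ((n k : ℤ) : ℝ)) = fun _ => 0 := by
      funext N
      exact hz N
    rw [this]
    exact tendsto_const_nhds
  unfold Th
  rw [base_flo, haa]
  have h2 : ((RR (flo t x) : ℝ) : UnitAddCircle) = ((RR x : ℝ) : UnitAddCircle) +
      ((∑' k, (Hk k (flo t x) - Hk k x) : ℝ) : UnitAddCircle) := by
    rw [AddCircle.coe_sub, AddCircle.coe_sub] at hzero
    have := sub_eq_zero.1 hzero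
    rw [sub_eq_iff_eq_add] at this
    rw [this, add_comm]
  rw [h2, AddCircle.coe_add]
  abel

theorem Om_psi (τ : ℝ) {x : Nil} (hx : x ∈ Om) : psi τ x ∈ Om := Om_flo _ hx

theorem Th_psi (τ : ℝ) {x : Nil} (hx : x ∈ Om) :
    Th (psi τ x) = Th x + ((τ : ℝ) : UnitAddCircle) := by
  have := Th_flo (bb τ x) hx
  rw [aa_bb] at this
  exact this

/-- the normalised invariant measure of the time-changed flow -/
noncomputable def nu : Measure Nil := (rho univ)⁻¹ • rho

theorem rho_univ_ne_zero : rho univ ≠ 0 := by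
  have := rho_univ_ge
  intro h
  rw [h] at this
  simp at this

theorem rho_univ_ne_top : rho univ ≠ ⊤ := measure_ne_top _ _

instance : IsProbabilityMeasure nu := ⟨by
  rw [nu, Measure.smul_apply, smul_eq_mul, ENNReal.inv_mul_cancel rho_univ_ne_zero
    rho_univ_ne_top]⟩

theorem nu_ac : nu ≪ mu := rho_ac.smul_left _

theorem map_psi_nu (τ : ℝ) : Measure.map (psi τ) nu = nu := by
  rw [nu, Measure.map_smul, map_psi_rho]

theorem measurable_psi (τ : ℝ) : Measurable (psi τ) := (continuous_psi_right τ).measurable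

theorem ae_Om_nu : ∀ᵐ x ∂nu, x ∈ Om := nu_ac.ae_le ae_Om

theorem map_Th : Measure.map Th nu = (volume : Measure UnitAddCircle) := by
  set κ := Measure.map Th nu with hκ
  have hprob : IsProbabilityMeasure κ := Measure.isProbabilityMeasure_map measurable_Th.aemeasurable
  have hinv : ∀ τ : ℝ, Measure.map (fun θ => (τ : UnitAddCircle) + θ) κ = κ := by
    intro τ
    rw [hκ, Measure.map_map (measurable_const_add _) measurable_Th]
    have h1 : (fun θ => (τ : UnitAddCircle) + θ) ∘ Th =ᵐ[nu] Th ∘ psi τ := by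
      filter_upwards [ae_Om_nu] with x hx
      simp only [Function.comp_apply]
      rw [Th_psi τ hx, add_comm]
    rw [Measure.map_congr h1, ← Measure.map_map measurable_Th (measurable_psi τ), map_psi_nu]
  have hleft : κ.IsAddLeftInvariant := by
    refine ⟨fun g => ?_⟩
    induction g using QuotientAddGroup.induction_on with
    | H τ => exact hinv τ
  have h2 := Measure.isAddInvariant_eq_smul_of_compactSpace κ (volume : Measure UnitAddCircle)
  have h3 : κ univ = 1 := measure_univ
  have h4 : (volume : Measure UnitAddCircle) univ = 1 := by simp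
  rw [h2, Measure.smul_apply, h4] at h3
  have h5 : (Measure.addHaarScalarFactor κ (volume : Measure UnitAddCircle)) = 1 := by
    have : ((Measure.addHaarScalarFactor κ (volume : Measure UnitAddCircle) : NNReal) : ℝ≥0∞)
        = 1 := by
      simpa using h3
    exact_mod_cast this
  rw [h2, h5, one_smul]

/-- half of the circle -/
def JJ : Set UnitAddCircle := Metric.closedBall 0 (1 / 4)

/-- the corresponding set in the nilmanifold -/
def AA : Set Nil := Th ⁻¹' JJ

theorem measurableSet_JJ : MeasurableSet JJ := measurableSet_closedBall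

theorem measurableSet_AA : MeasurableSet AA := measurable_Th measurableSet_JJ

theorem nu_AA : nu.real AA = 1 / 2 := by
  rw [measureReal_def, AA, ← Measure.map_apply measurable_Th measurableSet_JJ, map_Th, JJ,
    AddCircle.volume_closedBall, ENNReal.toReal_ofReal]
  · norm_num
  · norm_num

theorem image_psi (s : ℝ) (A : Set Nil) : psi s '' A = psi (-s) ⁻¹' A := by
  ext x
  constructor
  · rintro ⟨y, hy, rfl⟩
    rw [mem_preimage, ← psi_add, neg_add_cancel, psi_zero]
    exact hy
  · intro hx
    refine ⟨psi (-s) x, hx, ?_⟩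
    rw [← psi_add, add_neg_cancel, psi_zero]

theorem corr_eq (s : ℝ) : nu.real (psi s '' AA ∩ AA) =
    (volume : Measure UnitAddCircle).real {θ | θ - (s : UnitAddCircle) ∈ JJ ∧ θ ∈ JJ} := by
  have hm : MeasurableSet {θ : UnitAddCircle | θ - (s : UnitAddCircle) ∈ JJ ∧ θ ∈ JJ} :=
    ((measurable_sub_const (s : UnitAddCircle)) measurableSet_JJ).inter measurableSet_JJ
  rw [measureReal_def, measureReal_def, ← map_Th, Measure.map_apply measurable_Th hm]
  congr 1
  refine measure_congr ?_
  rw [eventuallyEq_set]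
  filter_upwards [ae_Om_nu] with x hx
  rw [image_psi]
  have h1 : Th (psi (-s) x) = Th x - (s : UnitAddCircle) := by
    rw [Th_psi _ hx, AddCircle.coe_neg, sub_eq_add_neg]
  simp only [mem_inter_iff, mem_preimage, AA, mem_ofPred_eq, h1]

theorem coe_norm_le (s : ℝ) (m : ℕ) (h0 : (m:ℝ) ≤ s) (h1 : s ≤ m + 1 / 16) :
    ‖(s : UnitAddCircle)‖ ≤ 1 / 16 := by
  have e : (s : UnitAddCircle) = ((s - m : ℝ) : UnitAddCircle) := by
    rw [AddCircle.coe_sub]
    have : ((m : ℝ) : UnitAddCircle) = 0 := by
      rw [AddCircle.coe_eq_zero_iff]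
      exact ⟨m, by simp⟩
    rw [this, sub_zero]
  rw [e]
  refine (QuotientAddGroup.norm_mk_le_norm).trans ?_
  rw [Real.norm_eq_abs, abs_of_nonneg (by linarith)]
  linarith

theorem corr_ge (s : ℝ) (m : ℕ) (h0 : (m:ℝ) ≤ s) (h1 : s ≤ m + 1 / 16) :
    3 / 8 ≤ nu.real (psi s '' AA ∩ AA) := by
  rw [corr_eq]
  have hsub : Metric.closedBall (0 : UnitAddCircle) (3 / 16) ⊆
      {θ | θ - (s : UnitAddCircle) ∈ JJ ∧ θ ∈ JJ} := by
    intro θ hθ
    rw [mem_closedBall_zero_iff] at hθ
    constructor
    · rw [JJ, mem_closedBall_zero_iff]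
      refine (norm_sub_le _ _).trans ?_
      have := coe_norm_le s m h0 h1
      linarith
    · rw [JJ, mem_closedBall_zero_iff]
      linarith
  have h2 := measureReal_mono (μ := (volume : Measure UnitAddCircle)) hsub
  refine le_trans (le_of_eq ?_) h2
  rw [measureReal_def, AddCircle.volume_closedBall, ENNReal.toReal_ofReal]
  · norm_num
  · norm_num

theorem measurable_corr : Measurable (fun s : ℝ => nu.real (psi s '' AA ∩ AA)) := by
  simp_rw [corr_eq]
  have hm : MeasurableSet {p : ℝ × UnitAddCircle |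
      p.2 - (p.1 : UnitAddCircle) ∈ JJ ∧ p.2 ∈ JJ} := by
    have h1 : Measurable (fun p : ℝ × UnitAddCircle => p.2 - (p.1 : UnitAddCircle)) :=
      measurable_snd.sub (AddCircle.measurable_mk'.comp measurable_fst)
    exact (h1 measurableSet_JJ).inter (measurable_snd measurableSet_JJ)
  exact (measurable_measure_prodMk_left hm).ennreal_toReal

/-- the correlation function of the set `AA` with itself -/
noncomputable def ww (s : ℝ) : ℝ := |nu.real (psi s '' AA ∩ AA) - nu.real AA * nu.real AA|

theorem ww_nonneg (s : ℝ) : 0 ≤ ww s := abs_nonneg _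

theorem ww_le (s : ℝ) : ww s ≤ 2 := by
  unfold ww
  have h1 : nu.real (psi s '' AA ∩ AA) ≤ 1 := measureReal_le_one
  have h2 : 0 ≤ nu.real (psi s '' AA ∩ AA) := measureReal_nonneg
  rw [nu_AA, abs_le]
  constructor <;> linarith

theorem measurable_ww : Measurable ww := (measurable_corr.sub_const _).abs

theorem ww_int (a b : ℝ) : IntervalIntegrable ww volume a b := by
  rw [intervalIntegrable_iff]
  refine Measure.integrableOn_of_bounded (M := 2) (by simp) measurable_ww.aestronglyMeasurable ?_
  refine ae_of_all _ (fun s => ?_)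
  rw [Real.norm_eq_abs, abs_of_nonneg (ww_nonneg s)]
  exact ww_le s

theorem ww_ge (s : ℝ) (m : ℕ) (h0 : (m:ℝ) ≤ s) (h1 : s ≤ m + 1 / 16) : 1 / 8 ≤ ww s := by
  unfold ww
  have := corr_ge s m h0 h1
  rw [nu_AA]
  refine le_trans ?_ (le_abs_self _)
  linarith

theorem ww_unit (m : ℕ) : 1 / 128 ≤ ∫ s in (m:ℝ)..(m + 1 : ℕ), ww s := by
  have h1 : ∫ s in (m:ℝ)..(m + 1 / 16 : ℝ), ww s + 0 ≤ ∫ s in (m:ℝ)..(m + 1 : ℕ), ww s := by
    simp only [add_zero]
    rw [← intervalIntegral.integral_add_adjacent_intervals (ww_int (m:ℝ) (m + 1 / 16))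
      (ww_int (m + 1 / 16) ((m + 1 : ℕ) : ℝ))]
    have : 0 ≤ ∫ s in (m + 1 / 16 : ℝ)..((m + 1 : ℕ) : ℝ), ww s :=
      intervalIntegral.integral_nonneg (by push_cast; linarith) (fun s _ => ww_nonneg s)
    linarith
  have h2 : ∫ _ in (m:ℝ)..(m + 1 / 16 : ℝ), (1 / 8 : ℝ) ≤ ∫ s in (m:ℝ)..(m + 1 / 16 : ℝ), ww s :=
    intervalIntegral.integral_mono_on (by linarith) (by simp) (ww_int _ _)
      (fun s hs => ww_ge s m hs.1 hs.2)
  simp only [add_zero] at h1
  refine le_trans (le_of_eq ?_) (h2.trans h1)
  rw [intervalIntegral.integral_const, smul_eq_mul]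
  ring

theorem ww_sum (n : ℕ) : (n : ℝ) / 128 ≤ ∫ s in (0:ℝ)..(n:ℝ), ww s := by
  induction n with
  | zero => simp
  | succ n ih =>
    rw [← intervalIntegral.integral_add_adjacent_intervals (ww_int 0 n)
      (ww_int n ((n + 1 : ℕ) : ℝ))]
    have := ww_unit n
    push_cast at this ⊢
    linarith

theorem not_tendsto_ww : ¬ Tendsto (fun T : ℝ => T⁻¹ * ∫ s in (0:ℝ)..T, ww s) atTop (𝓝 0) := by
  intro h
  have h1 : Tendsto (fun n : ℕ => (n:ℝ)⁻¹ * ∫ s in (0:ℝ)..(n:ℝ), ww s) atTop (𝓝 0) :=
    h.comp tendsto_natCast_atTop_atTop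
  have h2 : ∀ᶠ n : ℕ in atTop, (1 / 128 : ℝ) ≤ (n:ℝ)⁻¹ * ∫ s in (0:ℝ)..(n:ℝ), ww s := by
    filter_upwards [eventually_gt_atTop 0] with n hn
    have hn' : (0:ℝ) < n := by exact_mod_cast hn
    have := ww_sum n
    rw [← div_eq_inv_mul, le_div_iff₀ hn']
    linarith
  have := ge_of_tendsto h1 h2
  norm_num at this

theorem not_tendsto_corr : ¬ Tendsto (fun t : ℝ => nu.real (psi t '' AA ∩ AA)) atTop
    (𝓝 (nu.real AA * nu.real AA)) := by
  intro h
  have h1 : Tendsto (fun n : ℕ => nu.real (psi (n:ℝ) '' AA ∩ AA)) atTop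
      (𝓝 (nu.real AA * nu.real AA)) := h.comp tendsto_natCast_atTop_atTop
  have h2 : ∀ᶠ n : ℕ in atTop, (3 / 8 : ℝ) ≤ nu.real (psi (n:ℝ) '' AA ∩ AA) :=
    Eventually.of_forall (fun n => corr_ge n n le_rfl (by linarith))
  have := ge_of_tendsto h1 h2
  rw [nu_AA] at this
  norm_num at this

end Pool.Agent.H878
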