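import Mathlib

open Set Filter Topology

namespace Pool.Agent.H878

/-- the profile functions: `0` on half of the circle, `4^k` on most of the other half -/
noncomputable def hh (k : ℕ) (θ : ℝ) : ℝ :=
  4 ^ k * Real.smoothTransition (2 ^ k * Real.sin (2 * Real.pi * θ))

theorem hh_contDiff (k : ℕ) : ContDiff ℝ ((⊤ : ℕ∞) : WithTop ℕ∞) (hh k) := by
  unfold hh
  refine contDiff_const.mul (Real.smoothTransition.contDiff.comp ?_)
  exact contDiff_const.mul (Real.contDiff_sin.comp (contDiff_const.mul contDiff_id))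

theorem hh_periodic (k : ℕ) (θ : ℝ) : hh k (θ + 1) = hh k θ := by
  unfold hh
  rw [mul_add, mul_one, Real.sin_add_two_pi]

theorem hh_add_int (k : ℕ) (θ : ℝ) (n : ℤ) : hh k (θ + n) = hh k θ := by
  have h : Function.Periodic (hh k) 1 := hh_periodic k
  have := h.int_mul n θ
  simpa using this

theorem hh_nonneg (k : ℕ) (θ : ℝ) : 0 ≤ hh k θ :=
  mul_nonneg (by positivity) (Real.smoothTransition.nonneg _)

theorem hh_le (k : ℕ) (θ : ℝ) : hh k θ ≤ 4 ^ k := by
  unfold hh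
  have := Real.smoothTransition.le_one (2 ^ k * Real.sin (2 * Real.pi * θ))
  nlinarith [pow_pos (show (0:ℝ) < 4 by norm_num) k]

theorem hh_eq_zero (k : ℕ) {θ : ℝ} (h : Real.sin (2 * Real.pi * θ) ≤ 0) : hh k θ = 0 := by
  unfold hh
  rw [Real.smoothTransition.zero_of_nonpos, mul_zero]
  exact mul_nonpos_of_nonneg_of_nonpos (by positivity) h

theorem hh_eq_top (k : ℕ) {θ : ℝ} (h : 1 / 2 ^ k ≤ Real.sin (2 * Real.pi * θ)) :
    hh k θ = 4 ^ k := by
  unfold hh
  rw [Real.smoothTransition.one_of_one_le, mul_one]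
  have h2 : (0:ℝ) < 2 ^ k := by positivity
  rw [div_le_iff₀ h2] at h
  linarith

theorem dhh_contDiff (k : ℕ) : ContDiff ℝ ((⊤ : ℕ∞) : WithTop ℕ∞) (deriv (hh k)) := by
  have h := hh_contDiff k
  exact ((contDiff_infty_iff_deriv).1 h).2

theorem dhh_periodic (k : ℕ) (θ : ℝ) : deriv (hh k) (θ + 1) = deriv (hh k) θ := by
  rw [← deriv_comp_add_const]
  congr 1
  funext x
  exact hh_periodic k x

theorem dhh_add_int (k : ℕ) (θ : ℝ) (n : ℤ) : deriv (hh k) (θ + n) = deriv (hh k) θ := by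
  have h : Function.Periodic (deriv (hh k)) 1 := dhh_periodic k
  have := h.int_mul n θ
  simpa using this

theorem exists_bound (k m : ℕ) : ∃ C : ℕ, ∀ θ, ‖iteratedFDeriv ℝ m (deriv (hh k)) θ‖ ≤ C := by
  have hper : Function.Periodic (iteratedFDeriv ℝ m (deriv (hh k))) 1 := by
    intro θ
    rw [← iteratedFDeriv_comp_add_right]
    congr 1
    funext x
    exact dhh_periodic k x
  have hcont : Continuous (iteratedFDeriv ℝ m (deriv (hh k))) :=
    (dhh_contDiff k).continuous_iteratedFDeriv (by exact_mod_cast le_top)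
  have hb := hper.isBounded_of_continuous (by norm_num) hcont
  obtain ⟨C, hC⟩ := hb.exists_norm_le
  obtain ⟨n, hn⟩ := exists_nat_ge C
  exact ⟨n, fun θ => (hC _ (mem_range_self θ)).trans hn⟩

/-- a bound for the `m`-th derivative of `deriv (hh k)` -/
noncomputable def CC (k m : ℕ) : ℕ := (exists_bound k m).choose

theorem CC_spec (k m : ℕ) (θ : ℝ) : ‖iteratedFDeriv ℝ m (deriv (hh k)) θ‖ ≤ CC k m :=
  (exists_bound k m).choose_spec θ

theorem CC_spec0 (k : ℕ) (θ : ℝ) : |deriv (hh k) θ| ≤ CC k 0 := by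
  have := CC_spec k 0 θ
  rwa [norm_iteratedFDeriv_zero, Real.norm_eq_abs] at this

/-- growth requirement -/
noncomputable def DD (k q : ℕ) : ℕ :=
  2 ^ (k + 3) * (q + 1) * (1 + ∑ m ∈ Finset.range (k + 1), CC k m * (2 * q) ^ m) + 2

theorem DD_ge_two (k q : ℕ) : 2 ≤ DD k q := by unfold DD; omega

theorem DD_ge_pow (k q : ℕ) : 2 ^ (k + 3) ≤ DD k q := by
  unfold DD
  have : 2 ^ (k + 3) * 1 * 1 ≤ 2 ^ (k + 3) * (q + 1) *
    (1 + ∑ m ∈ Finset.range (k + 1), CC k m * (2 * q) ^ m) := by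
    gcongr <;> omega
  omega

theorem DD_ge_C (k q m : ℕ) (hm : m ≤ k) : 2 ^ (k + 3) * (CC k m * (2 * q) ^ m) ≤ DD k q := by
  unfold DD
  have h1 : CC k m * (2 * q) ^ m ≤ ∑ m ∈ Finset.range (k + 1), CC k m * (2 * q) ^ m :=
    Finset.single_le_sum (f := fun m => CC k m * (2 * q) ^ m) (fun _ _ => Nat.zero_le _)
      (Finset.mem_range.2 (by omega))
  have : 2 ^ (k + 3) * 1 * (CC k m * (2 * q) ^ m) ≤ 2 ^ (k + 3) * (q + 1) *
    (1 + ∑ m ∈ Finset.range (k + 1), CC k m * (2 * q) ^ m) := by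
    gcongr
    · omega
    · omega
  rw [mul_one] at this
  omega

theorem DD_ge_q (k q : ℕ) : 2 ^ (k + 3) * q * CC k 0 ≤ DD k q := by
  unfold DD
  have h1 : CC k 0 * (2 * q) ^ 0 ≤ ∑ m ∈ Finset.range (k + 1), CC k m * (2 * q) ^ m :=
    Finset.single_le_sum (f := fun m => CC k m * (2 * q) ^ m) (fun _ _ => Nat.zero_le _)
      (Finset.mem_range.2 (by omega))
  rw [pow_zero, mul_one] at h1
  have : 2 ^ (k + 3) * q * (CC k 0) ≤ 2 ^ (k + 3) * (q + 1) *
    (1 + ∑ m ∈ Finset.range (k + 1), CC k m * (2 * q) ^ m) := by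
    gcongr
    · omega
    · omega
  omega

/-- the sequence of pairs (denominator, numerator) -/
noncomputable def qp : ℕ → ℕ × ℕ
  | 0 => (1, 0)
  | (k + 1) => ((qp k).1 * DD k (qp k).1, (qp k).2 * DD k (qp k).1 + 1)

/-- denominators -/
noncomputable def q (k : ℕ) : ℕ := (qp k).1
/-- numerators -/
noncomputable def p (k : ℕ) : ℕ := (qp k).2
/-- ratios -/
noncomputable def NN (k : ℕ) : ℕ := DD k (q k)

theorem q_zero : q 0 = 1 := rfl
theorem p_zero : p 0 = 0 := rfl
theorem q_succ (k : ℕ) : q (k + 1) = q k * NN k := rfl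
theorem p_succ (k : ℕ) : p (k + 1) = p k * NN k + 1 := rfl

theorem NN_ge_two (k : ℕ) : 2 ≤ NN k := DD_ge_two _ _

theorem q_pos (k : ℕ) : 0 < q k := by
  induction k with
  | zero => rw [q_zero]; norm_num
  | succ k ih => rw [q_succ]; exact Nat.mul_pos ih (by have := NN_ge_two k; omega)

theorem q_posR (k : ℕ) : (0:ℝ) < q k := by exact_mod_cast q_pos k

theorem NN_posR (k : ℕ) : (0:ℝ) < NN k := by
  have := NN_ge_two k
  exact_mod_cast (by omega : 0 < NN k)

theorem q_mono_succ (k : ℕ) : q k ≤ q (k + 1) := by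
  rw [q_succ]
  have := NN_ge_two k
  exact Nat.le_mul_of_pos_right _ (by omega)

theorem q_mono : Monotone q := monotone_nat_of_le_succ q_mono_succ

/-- approximants -/
noncomputable def xx (k : ℕ) : ℝ := (p k : ℝ) / q k

theorem xx_succ (k : ℕ) : xx (k + 1) = xx k + 1 / q (k + 1) := by
  unfold xx
  rw [p_succ, q_succ]
  push_cast
  have h1 := q_posR k
  have h2 := NN_posR k
  field_simp

/-- upper approximants -/
noncomputable def yy (k : ℕ) : ℝ := xx k + 2 / q (k + 1)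

theorem xx_mono : Monotone xx := by
  refine monotone_nat_of_le_succ (fun k => ?_)
  rw [xx_succ]
  have := q_posR (k + 1)
  have : (0:ℝ) ≤ 1 / q (k + 1) := by positivity
  linarith

theorem yy_anti : Antitone yy := by
  refine antitone_nat_of_succ_le (fun k => ?_)
  unfold yy
  rw [xx_succ]
  have h1 := q_posR (k + 1)
  have h2 : (2:ℝ) / q (k + 1 + 1) ≤ 1 / q (k + 1) := by
    rw [q_succ (k + 1)]
    push_cast
    have h3 : (2:ℝ) ≤ NN (k + 1) := by exact_mod_cast NN_ge_two (k + 1)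
    rw [div_le_div_iff₀ (by positivity) h1]
    nlinarith
  have h4 : (2:ℝ) / q (k + 1) = 1 / q (k + 1) + 1 / q (k + 1) := by ring
  linarith

theorem xx_le_yy (j k : ℕ) : xx j ≤ yy k := by
  have h0 : ∀ k, xx k ≤ yy k := by
    intro k
    unfold yy
    have := q_posR (k + 1)
    have : (0:ℝ) ≤ 2 / q (k + 1) := by positivity
    linarith
  rcases le_total j k with h | h
  · exact (xx_mono h).trans (h0 k)
  · exact (h0 j).trans (yy_anti h)

/-- the slope -/
noncomputable def bet : ℝ := ⨆ k, xx k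

theorem xx_le_bet (k : ℕ) : xx k ≤ bet :=
  le_ciSup ⟨yy 0, by rintro _ ⟨j, rfl⟩; exact xx_le_yy j 0⟩ k

theorem bet_le_yy (k : ℕ) : bet ≤ yy k := ciSup_le (fun j => xx_le_yy j k)

/-- the small divisors `q_k β - p_k` -/
noncomputable def ep (k : ℕ) : ℝ := q k * bet - p k

theorem ep_ge (k : ℕ) : 1 / (NN k : ℝ) ≤ ep k := by
  have h := xx_le_bet (k + 1)
  rw [xx_succ] at h
  unfold ep
  have h1 := q_posR k
  have h2 := NN_posR k
  have h3 : (p k : ℝ) = q k * xx k := by unfold xx; field_simp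
  rw [h3]
  have h4 : 1 / (NN k : ℝ) = q k * (1 / q (k + 1)) := by
    rw [q_succ]; push_cast; field_simp
  rw [h4]
  nlinarith

theorem ep_le (k : ℕ) : ep k ≤ 2 / (NN k : ℝ) := by
  have h := bet_le_yy k
  unfold yy at h
  unfold ep
  have h1 := q_posR k
  have h2 := NN_posR k
  have h3 : (p k : ℝ) = q k * xx k := by unfold xx; field_simp
  rw [h3]
  have h4 : 2 / (NN k : ℝ) = q k * (2 / q (k + 1)) := by
    rw [q_succ]; push_cast; field_simp
  rw [h4]
  nlinarith

theorem ep_pos (k : ℕ) : 0 < ep k := lt_of_lt_of_le (by have := NN_posR k; positivity) (ep_ge k)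

theorem ep_small (k : ℕ) : ep k ≤ 1 / 2 ^ (k + 2) := by
  refine (ep_le k).trans ?_
  have h1 : (2:ℝ) ^ (k + 3) ≤ NN k := by exact_mod_cast DD_ge_pow k (q k)
  have h2 := NN_posR k
  rw [div_le_div_iff₀ h2 (by positivity)]
  calc 2 * (2:ℝ) ^ (k + 2) = 2 ^ (k + 3) := by ring
    _ ≤ 1 * NN k := by rw [one_mul]; exact h1

theorem ep_C (k m : ℕ) (hm : m ≤ k) : ep k * (CC k m * (2 * q k) ^ m) ≤ 1 / 2 ^ (k + 2) := by
  have h1 : (2:ℝ) ^ (k + 3) * (CC k m * (2 * q k) ^ m) ≤ NN k := by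
    exact_mod_cast DD_ge_C k (q k) m hm
  have h2 := NN_posR k
  have h3 : (0:ℝ) ≤ CC k m * (2 * q k) ^ m := by positivity
  calc ep k * (CC k m * (2 * q k) ^ m) ≤ 2 / (NN k : ℝ) * (CC k m * (2 * q k) ^ m) := by
        gcongr; exact ep_le k
    _ ≤ 1 / 2 ^ (k + 2) := by
        rw [div_mul_eq_mul_div, div_le_div_iff₀ h2 (by positivity)]
        calc 2 * ((CC k m : ℝ) * (2 * q k) ^ m) * 2 ^ (k + 2)
            = 2 ^ (k + 3) * (CC k m * (2 * q k) ^ m) := by ring
          _ ≤ 1 * NN k := by rw [one_mul]; exact h1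

theorem ep_C0 (k : ℕ) : ep k * CC k 0 ≤ 1 / 2 ^ (k + 2) := by
  have := ep_C k 0 (Nat.zero_le _)
  simpa using this

theorem ep_ratio (j k : ℕ) (hjk : j < k) : ep k * CC k 0 ≤ 1 / 2 ^ (k + 2) * ep j := by
  have h1 : (2:ℝ) ^ (k + 3) * q k * CC k 0 ≤ NN k := by
    exact_mod_cast DD_ge_q k (q k)
  have h2 := NN_posR k
  have hq := q_posR k
  have h4 : 1 / (q k : ℝ) ≤ ep j := by
    refine le_trans ?_ (ep_ge j)
    have h5 : (NN j : ℝ) ≤ q k := by
      have : NN j ≤ q k := by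
        calc NN j ≤ q j * NN j := Nat.le_mul_of_pos_left _ (q_pos j)
          _ = q (j + 1) := (q_succ j).symm
          _ ≤ q k := q_mono hjk
      exact_mod_cast this
    exact one_div_le_one_div_of_le (NN_posR j) h5
  calc ep k * CC k 0 ≤ 2 / (NN k : ℝ) * CC k 0 := by
        gcongr; exact ep_le k
    _ ≤ 1 / 2 ^ (k + 2) * (1 / q k) := by
        rw [div_mul_eq_mul_div, div_mul_div_comm, div_le_div_iff₀ h2 (by positivity)]
        calc 2 * (CC k 0 : ℝ) * (2 ^ (k + 2) * q k) = 2 ^ (k + 3) * q k * CC k 0 := by ring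
          _ ≤ 1 * 1 * NN k := by rw [one_mul, one_mul]; exact h1
    _ ≤ 1 / 2 ^ (k + 2) * ep j := by gcongr

theorem p_le_q (k : ℕ) : p k ≤ q k := by
  have h := xx_le_yy k 0
  have h1 : yy 0 ≤ 1 := by
    unfold yy xx
    rw [p_zero, q_zero, q_succ, q_zero]
    have : (2:ℝ) ≤ NN 0 := by exact_mod_cast NN_ge_two 0
    push_cast
    rw [zero_div, zero_add, one_mul, div_le_one (by linarith)]
    exact this
  have h2 : xx k ≤ 1 := h.trans h1
  unfold xx at h2
  rw [div_le_one (q_posR k)] at h2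
  exact_mod_cast h2

theorem bet_irrational : Irrational bet := by
  rintro ⟨r, hr⟩
  obtain ⟨k, hk⟩ : ∃ k : ℕ, (r.den : ℝ) < 2 ^ (k + 2) := by
    obtain ⟨n, hn⟩ := pow_unbounded_of_one_lt (r.den : ℝ) (by norm_num : (1:ℝ) < 2)
    refine ⟨n, hn.trans ?_⟩
    exact pow_lt_pow_right₀ (by norm_num) (by omega)
  have hb : (0:ℝ) < r.den := by exact_mod_cast r.den_pos
  have h1 := ep_pos k
  have h2 := ep_small k
  have h3 : ep k * r.den = ((q k * r.num - p k * r.den : ℤ) : ℝ) := by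
    unfold ep
    rw [← hr]
    push_cast
    have : ((r : ℚ) : ℝ) * r.den = r.num := by
      exact_mod_cast Rat.mul_den_eq_num r
    calc ((q k : ℝ) * r - p k) * r.den = q k * (r * r.den) - p k * r.den := by ring
      _ = _ := by rw [this]
  have h4 : (0:ℝ) < ep k * r.den := mul_pos h1 hb
  have h5 : ep k * r.den < 1 := by
    calc ep k * r.den ≤ 1 / 2 ^ (k + 2) * r.den := by gcongr
      _ < 1 := by
        rw [div_mul_eq_mul_div, one_mul, div_lt_one (by positivity)]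
        exact hk
  rw [h3] at h4 h5
  have h6 : (0:ℤ) < q k * r.num - p k * r.den := by exact_mod_cast h4
  have h7 : (q k * r.num - p k * r.den : ℤ) < 1 := by exact_mod_cast h5
  omega

end Pool.Agent.H878
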