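import Pool.Agent.H878.Heis3
import Pool.Agent.H878.Num

open MeasureTheory Set Filter Topology
open scoped Pointwise ENNReal

namespace Pool.Agent.H878

open Heis

/-- the `k`-th phase on the group -/
noncomputable def ph (k : ℕ) (g : Heis) : ℝ := q k * g.2.1 - p k * g.1

theorem ph_mul_gam (k : ℕ) (g : Heis) (a b c : ℤ) :
    ph k (g * of a b c) = ph k g + ((q k * b - p k * a : ℤ) : ℝ) := by
  unfold ph
  simp
  ring

theorem ph_flow (k : ℕ) (t : ℝ) (g : Heis) : ph k (ex bet t * g) = ph k g + t * ep k := by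
  unfold ph ep
  simp [ex]
  ring

theorem ph_y (k : ℕ) (t : ℝ) (g : Heis) : ph k (of 0 t 0 * g) = ph k g + q k * t := by
  unfold ph
  simp
  ring

theorem continuous_ph (k : ℕ) : Continuous (ph k) := by
  unfold ph
  exact (continuous_const.mul continuous_snd1).sub (continuous_const.mul Heis.continuous_fst)

/-- a periodic function of the `k`-th phase, as a function on the nilmanifold -/
noncomputable def lft {E : Type*} (k : ℕ) (F : ℝ → E) (hF : ∀ θ (n : ℤ), F (θ + n) = F θ) :
    Nil → E := fun x => Quotient.liftOn' x (fun g => F (ph k g)) (by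
      intro g g' h
      have h1 : g⁻¹ * g' ∈ Gam := QuotientGroup.leftRel_apply.1 h
      obtain ⟨a, b, c, habc⟩ := h1
      have h2 : g' = g * of a b c := by rw [← habc]; group
      simp only [h2]
      rw [ph_mul_gam, hF])

theorem lft_mk {E : Type*} (k : ℕ) (F : ℝ → E) (hF : ∀ θ (n : ℤ), F (θ + n) = F θ) (g : Heis) :
    lft k F hF (QuotientGroup.mk g) = F (ph k g) := rfl

theorem continuous_lft {E : Type*} [TopologicalSpace E] (k : ℕ) (F : ℝ → E)
    (hF : ∀ θ (n : ℤ), F (θ + n) = F θ) (hc : Continuous F) : Continuous (lft k F hF) := by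
  have : Continuous (fun g : Heis => F (ph k g)) := hc.comp (continuous_ph k)
  exact this.quotient_lift _

theorem measurable_lft {E : Type*} [MeasurableSpace E] (k : ℕ) (F : ℝ → E)
    (hF : ∀ θ (n : ℤ), F (θ + n) = F θ) (hc : Measurable F) : Measurable (lft k F hF) := by
  have h : Measurable (fun g : Heis => F (ph k g)) := hc.comp (continuous_ph k).measurable
  intro s hs
  exact measurableSet_quotient.2 (h hs)

/-- the building blocks of the time change -/
noncomputable def Hk (k : ℕ) : Nil → ℝ := lft k (hh k) (hh_add_int k)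

/-- their derivative along the phase -/
noncomputable def dHk (k : ℕ) : Nil → ℝ := lft k (deriv (hh k)) (dhh_add_int k)

/-- the time change function -/
noncomputable def alp (x : Nil) : ℝ := 1 + ∑' k, ep k * dHk k x

theorem alp_mk (g : Heis) :
    alp (QuotientGroup.mk g) = 1 + ∑' k, ep k * deriv (hh k) (ph k g) := rfl

theorem dHk_bound (k : ℕ) (x : Nil) : |dHk k x| ≤ CC k 0 := by
  induction x using QuotientGroup.induction_on with
  | H g => exact CC_spec0 k _

theorem term_bound (k : ℕ) (x : Nil) : ‖ep k * dHk k x‖ ≤ 1 / 2 ^ (k + 2) := by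
  rw [Real.norm_eq_abs, abs_mul, abs_of_pos (ep_pos k)]
  exact (mul_le_mul_of_nonneg_left (dHk_bound k x) (ep_pos k).le).trans (ep_C0 k)

theorem summable_geo : Summable (fun k : ℕ => (1:ℝ) / 2 ^ (k + 2)) := by
  have h : Summable (fun k : ℕ => (1 / 4 : ℝ) * (1 / 2) ^ k) :=
    (summable_geometric_of_lt_one (by norm_num) (by norm_num)).mul_left _
  refine h.congr (fun k => ?_)
  rw [pow_add, one_div_pow]
  field_simp
  norm_num

theorem tsum_geo : ∑' k : ℕ, (1:ℝ) / 2 ^ (k + 2) = 1 / 2 := by
  have h : ∀ k : ℕ, (1:ℝ) / 2 ^ (k + 2) = (1 / 4 : ℝ) * (1 / 2) ^ k := by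
    intro k
    rw [pow_add, one_div_pow]
    field_simp
    norm_num
  simp_rw [h]
  rw [tsum_mul_left, tsum_geometric_of_lt_one (by norm_num) (by norm_num)]
  norm_num

theorem summable_term (x : Nil) : Summable (fun k => ep k * dHk k x) :=
  Summable.of_norm_bounded summable_geo (fun k => term_bound k x)

theorem abs_tsum_term (x : Nil) : |∑' k, ep k * dHk k x| ≤ 1 / 2 := by
  rw [← tsum_geo, ← Real.norm_eq_abs]
  exact tsum_of_norm_bounded summable_geo.hasSum (fun k => term_bound k x)

theorem alp_ge (x : Nil) : 1 / 2 ≤ alp x := by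
  have := (abs_le.1 (abs_tsum_term x)).1
  unfold alp
  linarith

theorem alp_le (x : Nil) : alp x ≤ 3 / 2 := by
  have := (abs_le.1 (abs_tsum_term x)).2
  unfold alp
  linarith

theorem continuous_alp : Continuous alp := by
  unfold alp
  refine continuous_const.add ?_
  refine continuous_tsum (fun k => ?_) summable_geo (fun k x => term_bound k x)
  exact continuous_const.mul (continuous_lft k _ _ (dhh_contDiff k).continuous)

/-- the linear functional defining the phase -/
noncomputable def LL (k : ℕ) : (ℝ × ℝ × ℝ) →L[ℝ] ℝ :=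
  (q k : ℝ) • ((ContinuousLinearMap.fst ℝ ℝ ℝ).comp (ContinuousLinearMap.snd ℝ ℝ (ℝ × ℝ))) -
    (p k : ℝ) • (ContinuousLinearMap.fst ℝ ℝ (ℝ × ℝ))

theorem LL_apply (k : ℕ) (v : ℝ × ℝ × ℝ) : LL k v = q k * v.2.1 - p k * v.1 := by
  simp [LL]

theorem LL_norm (k : ℕ) : ‖LL k‖ ≤ 2 * q k := by
  refine ContinuousLinearMap.opNorm_le_bound _ (by positivity) (fun v => ?_)
  rw [LL_apply, Real.norm_eq_abs]
  have h1 : |v.1| ≤ ‖v‖ := norm_fst_le v
  have h2 : |v.2.1| ≤ ‖v‖ := (norm_fst_le v.2).trans (norm_snd_le v)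
  have hp : (p k : ℝ) ≤ q k := by exact_mod_cast p_le_q k
  have hq : (0:ℝ) ≤ q k := (q_posR k).le
  have hp0 : (0:ℝ) ≤ p k := Nat.cast_nonneg _
  have hv : 0 ≤ ‖v‖ := norm_nonneg v
  calc |(q k : ℝ) * v.2.1 - p k * v.1| ≤ |(q k : ℝ) * v.2.1| + |p k * v.1| := abs_sub _ _
    _ = q k * |v.2.1| + p k * |v.1| := by
        rw [abs_mul, abs_mul, abs_of_nonneg hq, abs_of_nonneg hp0]
    _ ≤ q k * ‖v‖ + q k * ‖v‖ := by gcongr
    _ = 2 * q k * ‖v‖ := by ring

theorem term_iter_bound (k m : ℕ) (hm : m ≤ k) (v : ℝ × ℝ × ℝ) :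
    ‖iteratedFDeriv ℝ m (fun v : ℝ × ℝ × ℝ => ep k * deriv (hh k) (LL k v)) v‖
      ≤ 1 / 2 ^ (k + 2) := by
  have hc : ContDiff ℝ ((⊤ : ℕ∞) : WithTop ℕ∞) (deriv (hh k) ∘ (LL k)) :=
    (dhh_contDiff k).comp (LL k).contDiff
  have e1 : (fun v : ℝ × ℝ × ℝ => ep k * deriv (hh k) (LL k v)) =
      (ep k) • (deriv (hh k) ∘ (LL k)) := by
    funext v; simp
  rw [e1, iteratedFDeriv_const_smul_apply (hc.contDiffAt.of_le (by exact_mod_cast le_top)),
    norm_smul, Real.norm_eq_abs, abs_of_pos (ep_pos k)]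
  rw [(LL k).iteratedFDeriv_comp_right (dhh_contDiff k) v (by exact_mod_cast le_top)]
  have h2 := ContinuousMultilinearMap.norm_compContinuousLinearMap_le
    (iteratedFDeriv ℝ m (deriv (hh k)) (LL k v)) (fun _ : Fin m => LL k)
  have h3 : ∏ _i : Fin m, ‖LL k‖ ≤ (2 * (q k : ℝ)) ^ m := by
    rw [Finset.prod_const, Finset.card_univ, Fintype.card_fin]
    exact pow_le_pow_left₀ (norm_nonneg _) (LL_norm k) m
  calc ep k * ‖(iteratedFDeriv ℝ m (deriv (hh k)) (LL k v)).compContinuousLinearMap
          fun _ => LL k‖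
      ≤ ep k * (‖iteratedFDeriv ℝ m (deriv (hh k)) (LL k v)‖ * ∏ _i : Fin m, ‖LL k‖) :=
        mul_le_mul_of_nonneg_left h2 (ep_pos k).le
    _ ≤ ep k * (CC k m * (2 * (q k : ℝ)) ^ m) := by
        refine mul_le_mul_of_nonneg_left ?_ (ep_pos k).le
        exact mul_le_mul (CC_spec k m _) h3 (Finset.prod_nonneg (fun _ _ => norm_nonneg _))
          (Nat.cast_nonneg _)
    _ ≤ 1 / 2 ^ (k + 2) := ep_C k m hm

theorem alp_smooth : ContDiff ℝ ((⊤ : ℕ∞) : WithTop ℕ∞)
    (fun v : ℝ × ℝ × ℝ => alp (QuotientGroup.mk (of v.1 v.2.1 v.2.2))) := by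
  have e : (fun v : ℝ × ℝ × ℝ => alp (QuotientGroup.mk (of v.1 v.2.1 v.2.2))) =
      fun v => 1 + ∑' k, ep k * deriv (hh k) (LL k v) := by
    funext v
    rw [alp_mk]
    simp only [LL_apply]
    rfl
  rw [e]
  refine contDiff_const.add ?_
  refine contDiff_tsum_of_eventually (v := fun _ k => 1 / 2 ^ (k + 2)) (fun k => ?_)
    (fun _ _ => summable_geo) (fun m _ => ?_)
  · exact contDiff_const.mul ((dhh_contDiff k).comp (LL k).contDiff)
  · rw [Nat.cofinite_eq_atTop]
    filter_upwards [eventually_ge_atTop m] with k hk v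
    exact term_iter_bound k m hk v

/-- the flow -/
noncomputable def flo (t : ℝ) (x : Nil) : Nil := ex bet t • x

theorem Hk_lip (k : ℕ) (a b : ℝ) : |hh k a - hh k b| ≤ CC k 0 * |a - b| := by
  have hd : ∀ x ∈ (univ : Set ℝ), DifferentiableAt ℝ (hh k) x := fun x _ =>
    ((hh_contDiff k).differentiable (by simp)) x
  have := Convex.norm_image_sub_le_of_norm_deriv_le (f := hh k) (C := CC k 0) (x := b) (y := a)
    hd (fun x _ => by rw [Real.norm_eq_abs]; exact CC_spec0 k x) convex_univ (mem_univ _)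
    (mem_univ _)
  simpa [Real.norm_eq_abs] using this

theorem Hk_flow_diff (k : ℕ) (t : ℝ) (x : Nil) :
    |Hk k (flo t x) - Hk k x| ≤ |t| * (ep k * CC k 0) := by
  induction x using QuotientGroup.induction_on with
  | H g =>
    have e1 : Hk k (flo t (QuotientGroup.mk g)) = hh k (ph k (ex bet t * g)) := rfl
    have e2 : Hk k (QuotientGroup.mk g) = hh k (ph k g) := rfl
    rw [e1, e2, ph_flow]
    refine (Hk_lip k _ _).trans ?_
    rw [add_sub_cancel_left, abs_mul, abs_of_pos (ep_pos k)]
    exact le_of_eq (by ring)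

theorem summable_diff (t : ℝ) (x : Nil) : Summable (fun k => Hk k (flo t x) - Hk k x) := by
  refine Summable.of_norm_bounded (g := fun k => |t| * (1 / 2 ^ (k + 2)))
    (summable_geo.mul_left _) (fun k => ?_)
  rw [Real.norm_eq_abs]
  refine (Hk_flow_diff k t x).trans ?_
  exact mul_le_mul_of_nonneg_left (ep_C0 k) (abs_nonneg _)

theorem integral_term (k : ℕ) (t : ℝ) (x : Nil) :
    ∫ s in (0:ℝ)..t, ep k * dHk k (flo s x) = Hk k (flo t x) - Hk k x := by
  induction x using QuotientGroup.induction_on with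
  | H g =>
    have e0 : ∀ s : ℝ, ep k * dHk k (flo s (QuotientGroup.mk g)) =
        ep k * deriv (hh k) (ph k g + s * ep k) := by
      intro s
      have : dHk k (flo s (QuotientGroup.mk g)) = deriv (hh k) (ph k (ex bet s * g)) := rfl
      rw [this, ph_flow]
    have e1 : Hk k (flo t (QuotientGroup.mk g)) = hh k (ph k g + t * ep k) := by
      have : Hk k (flo t (QuotientGroup.mk g)) = hh k (ph k (ex bet t * g)) := rfl
      rw [this, ph_flow]
    have e2 : Hk k (QuotientGroup.mk g) = hh k (ph k g + 0 * ep k) := by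
      rw [zero_mul, add_zero]; rfl
    simp_rw [e0]
    rw [e1, e2]
    refine intervalIntegral.integral_eq_sub_of_hasDerivAt
      (f := fun s => hh k (ph k g + s * ep k)) (fun s _ => ?_) ?_
    · have hd : HasDerivAt (hh k) (deriv (hh k) (ph k g + s * ep k)) (ph k g + s * ep k) :=
        (((hh_contDiff k).differentiable (by simp)) _).hasDerivAt
      have hl : HasDerivAt (fun s : ℝ => ph k g + s * ep k) (ep k) s := by
        simpa using ((hasDerivAt_id s).mul_const (ep k)).const_add (ph k g)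
      have := hd.comp s hl
      rw [mul_comm] at this
      exact this
    · have : Continuous (fun s : ℝ => ep k * deriv (hh k) (ph k g + s * ep k)) :=
        continuous_const.mul ((dhh_contDiff k).continuous.comp (by fun_prop))
      exact this.intervalIntegrable _ _

theorem continuous_flo_left (x : Nil) : Continuous (fun t => flo t x) :=
  (continuous_ex bet).smul continuous_const

/-- the integral of the time change along orbits -/
theorem integral_alp (t : ℝ) (x : Nil) :
    ∫ s in (0:ℝ)..t, alp (flo s x) = t + ∑' k, (Hk k (flo t x) - Hk k x) := by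
  let f : ℕ → C(ℝ, ℝ) := fun k => ⟨fun s => ep k * dHk k (flo s x),
    continuous_const.mul ((continuous_lft k _ _ (dhh_contDiff k).continuous).comp
      (continuous_flo_left x))⟩
  have hs : Summable fun k : ℕ =>
      ‖(f k).restrict (⟨uIcc 0 t, isCompact_uIcc⟩ : TopologicalSpace.Compacts ℝ)‖ := by
    refine Summable.of_nonneg_of_le (fun _ => norm_nonneg _) (fun k => ?_) summable_geo
    rw [ContinuousMap.norm_le _ (by positivity)]
    intro y
    exact term_bound k _
  have h1 := intervalIntegral.hasSum_intervalIntegral_of_summable_norm hs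
  have h2 : ∀ k, ∫ s in (0:ℝ)..t, f k s = Hk k (flo t x) - Hk k x := fun k => integral_term k t x
  simp_rw [h2] at h1
  have h3 : ∫ s in (0:ℝ)..t, alp (flo s x) =
      (∫ s in (0:ℝ)..t, (1:ℝ)) + ∫ s in (0:ℝ)..t, ∑' k, f k s := by
    rw [← intervalIntegral.integral_add]
    · rfl
    · exact continuous_const.intervalIntegrable _ _
    · have : Continuous (fun s => alp (flo s x) - 1) :=
        (continuous_alp.comp (continuous_flo_left x)).sub continuous_const
      have e : (fun s => ∑' k, f k s) = fun s => alp (flo s x) - 1 := by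
        funext s
        change _ = (1 + ∑' k, ep k * dHk k (flo s x)) - 1
        rw [add_sub_cancel_left]
        rfl
      rw [e]
      exact this.intervalIntegrable _ _
  rw [h3, ← h1.tsum_eq]
  simp

end Pool.Agent.H878
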