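import Mathlib

open MeasureTheory Set Filter Topology
open scoped Pointwise ENNReal

namespace Pool.Agent.H878

/-- The Heisenberg group of real upper unitriangular matrices
`[[1, x, z], [0, 1, y], [0, 0, 1]]`, written as triples `(x, y, z)`. -/
def Heis : Type := ℝ × ℝ × ℝ

namespace Heis

instance : TopologicalSpace Heis := inferInstanceAs (TopologicalSpace (ℝ × ℝ × ℝ))
instance : MeasurableSpace Heis := inferInstanceAs (MeasurableSpace (ℝ × ℝ × ℝ))
instance : BorelSpace Heis := inferInstanceAs (BorelSpace (ℝ × ℝ × ℝ))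
instance : T2Space Heis := inferInstanceAs (T2Space (ℝ × ℝ × ℝ))
instance : PolishSpace Heis := inferInstanceAs (PolishSpace (ℝ × ℝ × ℝ))
instance : SecondCountableTopology Heis :=
  inferInstanceAs (SecondCountableTopology (ℝ × ℝ × ℝ))
instance : LocallyCompactSpace Heis := inferInstanceAs (LocallyCompactSpace (ℝ × ℝ × ℝ))
noncomputable instance : MeasureSpace Heis := inferInstanceAs (MeasureSpace (ℝ × ℝ × ℝ))

/-- matrix multiplication in the coordinates `(x, y, z)` -/
instance : Mul Heis := ⟨fun g h => (g.1 + h.1, g.2.1 + h.2.1, g.2.2 + h.2.2 + g.1 * h.2.1)⟩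
instance : One Heis := ⟨((0 : ℝ), (0 : ℝ), (0 : ℝ))⟩
instance : Inv Heis := ⟨fun g => (-g.1, -g.2.1, -g.2.2 + g.1 * g.2.1)⟩

theorem ext0 {g h : Heis} (h1 : g.1 = h.1) (h2 : g.2.1 = h.2.1) (h3 : g.2.2 = h.2.2) :
    g = h := Prod.ext h1 (Prod.ext h2 h3)

instance : Group Heis := Group.ofLeftAxioms
  (fun a b c => by
    apply ext0
    · change a.1 + b.1 + c.1 = a.1 + (b.1 + c.1); ring
    · change a.2.1 + b.2.1 + c.2.1 = a.2.1 + (b.2.1 + c.2.1); ring
    · change (a.2.2 + b.2.2 + a.1 * b.2.1) + c.2.2 + (a.1 + b.1) * c.2.1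
        = a.2.2 + (b.2.2 + c.2.2 + b.1 * c.2.1) + a.1 * (b.2.1 + c.2.1)
      ring)
  (fun a => by
    apply ext0
    · change 0 + a.1 = a.1; ring
    · change 0 + a.2.1 = a.2.1; ring
    · change 0 + a.2.2 + 0 * a.2.1 = a.2.2; ring)
  (fun a => by
    apply ext0
    · change -a.1 + a.1 = 0; ring
    · change -a.2.1 + a.2.1 = 0; ring
    · change (-a.2.2 + a.1 * a.2.1) + a.2.2 + (-a.1) * a.2.1 = 0; ring)

/-- the element of the Heisenberg group with coordinates `(x, y, z)` -/
def of (x y z : ℝ) : Heis := ((x, y, z) : ℝ × ℝ × ℝ)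

theorem of_mul (x y z x' y' z' : ℝ) :
    of x y z * of x' y' z' = of (x + x') (y + y') (z + z' + x * y') := rfl

theorem of_surj (g : Heis) : g = of g.1 g.2.1 g.2.2 := rfl

@[simp] theorem of_1 (x y z : ℝ) : (of x y z).1 = x := rfl
@[simp] theorem of_2 (x y z : ℝ) : (of x y z).2.1 = y := rfl
@[simp] theorem of_3 (x y z : ℝ) : (of x y z).2.2 = z := rfl

@[simp] theorem mul_1 (g h : Heis) : (g * h).1 = g.1 + h.1 := rfl
@[simp] theorem mul_2 (g h : Heis) : (g * h).2.1 = g.2.1 + h.2.1 := rfl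
@[simp] theorem mul_3 (g h : Heis) : (g * h).2.2 = g.2.2 + h.2.2 + g.1 * h.2.1 := rfl
@[simp] theorem inv_1 (g : Heis) : (g⁻¹).1 = - g.1 := rfl
@[simp] theorem inv_2 (g : Heis) : (g⁻¹).2.1 = - g.2.1 := rfl
@[simp] theorem inv_3 (g : Heis) : (g⁻¹).2.2 = - g.2.2 + g.1 * g.2.1 := rfl
@[simp] theorem one_1 : (1 : Heis).1 = 0 := rfl
@[simp] theorem one_2 : (1 : Heis).2.1 = 0 := rfl
@[simp] theorem one_3 : (1 : Heis).2.2 = 0 := rfl


theorem continuous_fst : Continuous (fun g : Heis => g.1) :=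
  (_root_.continuous_fst : Continuous (fun g : ℝ × ℝ × ℝ => g.1))
theorem continuous_snd1 : Continuous (fun g : Heis => g.2.1) :=
  (by fun_prop : Continuous (fun g : ℝ × ℝ × ℝ => g.2.1))
theorem continuous_snd2 : Continuous (fun g : Heis => g.2.2) :=
  (by fun_prop : Continuous (fun g : ℝ × ℝ × ℝ => g.2.2))

theorem continuous_of {α : Type*} [TopologicalSpace α] {f g h : α → ℝ} (hf : Continuous f)
    (hg : Continuous g) (hh : Continuous h) : Continuous (fun a => of (f a) (g a) (h a)) :=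
  (hf.prodMk (hg.prodMk hh) : Continuous (fun a => ((f a, g a, h a) : ℝ × ℝ × ℝ)))

instance : IsTopologicalGroup Heis where
  continuous_mul := by
    refine continuous_of (f := fun p : Heis × Heis => p.1.1 + p.2.1)
      (g := fun p : Heis × Heis => p.1.2.1 + p.2.2.1)
      (h := fun p : Heis × Heis => p.1.2.2 + p.2.2.2 + p.1.1 * p.2.2.1) ?_ ?_ ?_
    · exact (continuous_fst.comp _root_.continuous_fst).add
        (continuous_fst.comp _root_.continuous_snd)
    · exact (continuous_snd1.comp _root_.continuous_fst).add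
        (continuous_snd1.comp _root_.continuous_snd)
    · exact ((continuous_snd2.comp _root_.continuous_fst).add
        (continuous_snd2.comp _root_.continuous_snd)).add
        ((continuous_fst.comp _root_.continuous_fst).mul
        (continuous_snd1.comp _root_.continuous_snd))
  continuous_inv := by
    refine continuous_of (f := fun p : Heis => -p.1)
      (g := fun p : Heis => -p.2.1)
      (h := fun p : Heis => -p.2.2 + p.1 * p.2.1) ?_ ?_ ?_
    · exact continuous_fst.neg
    · exact continuous_snd1.neg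
    · exact continuous_snd2.neg.add (continuous_fst.mul continuous_snd1)

/-- The lattice of integer points. -/
def Gam : Subgroup Heis where
  carrier := {g | ∃ a b c : ℤ, g = of a b c}
  mul_mem' := by
    rintro _ _ ⟨a, b, c, rfl⟩ ⟨a', b', c', rfl⟩
    exact ⟨a + a', b + b', c + c' + a * b', by rw [of_mul]; push_cast; rfl⟩
  one_mem' := ⟨0, 0, 0, by apply ext0 <;> simp⟩
  inv_mem' := by
    rintro _ ⟨a, b, c, rfl⟩
    exact ⟨-a, -b, -c + a * b, by apply ext0 <;> simp⟩

theorem mem_Gam {g : Heis} : g ∈ Gam ↔ ∃ a b c : ℤ, g = of a b c := Iff.rfl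

theorem of_mem_Gam (a b c : ℤ) : of a b c ∈ Gam := ⟨a, b, c, rfl⟩

instance : Countable Gam := by
  have : (Gam : Set Heis) = Set.range (fun p : ℤ × ℤ × ℤ => of p.1 p.2.1 p.2.2) := by
    ext g
    constructor
    · rintro ⟨a, b, c, rfl⟩
      exact ⟨(a, b, c), rfl⟩
    · rintro ⟨⟨a, b, c⟩, rfl⟩
      exact ⟨a, b, c, rfl⟩
  have h2 : (Gam : Set Heis).Countable := by
    rw [this]; exact Set.countable_range _
  exact h2.to_subtype

theorem isClosed_Gam : IsClosed (Gam : Set Heis) := by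
  have : (Gam : Set Heis) =
      (fun g : Heis => g.1) ⁻¹' (Set.range ((↑) : ℤ → ℝ)) ∩
      ((fun g : Heis => g.2.1) ⁻¹' (Set.range ((↑) : ℤ → ℝ)) ∩
      (fun g : Heis => g.2.2) ⁻¹' (Set.range ((↑) : ℤ → ℝ))) := by
    ext g
    constructor
    · rintro ⟨a, b, c, rfl⟩
      exact ⟨⟨a, rfl⟩, ⟨b, rfl⟩, ⟨c, rfl⟩⟩
    · rintro ⟨⟨a, ha⟩, ⟨b, hb⟩, ⟨c, hc⟩⟩
      exact ⟨a, b, c, by apply ext0 <;> simp_all⟩
  rw [this]
  have hZ : IsClosed (Set.range ((↑) : ℤ → ℝ)) := Int.isClosedEmbedding_coe_real.isClosed_range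
  exact (hZ.preimage continuous_fst).inter
    ((hZ.preimage continuous_snd1).inter (hZ.preimage continuous_snd2))

end Heis

open Heis

/-- The Heisenberg nilmanifold `G ⧸ Γ`. -/
abbrev Nil : Type := Heis ⧸ Gam

instance : T3Space Nil := by
  have : IsClosed (Gam : Set Heis) := isClosed_Gam
  infer_instance

instance : SecondCountableTopology Nil := inferInstance

instance : BorelSpace Nil := inferInstance

end Pool.Agent.H878
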