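import Pool.Agent.H878.Heis

open MeasureTheory Set Filter Topology
open scoped Pointwise ENNReal

namespace Pool.Agent.H878

open Heis

theorem mp_left (a b c : ℝ) : MeasurePreserving
    (fun p : ℝ × ℝ × ℝ => ((a + p.1, b + p.2.1, c + p.2.2 + a * p.2.1) : ℝ × ℝ × ℝ))
    volume volume := by
  have h1 : MeasurePreserving (fun p : ℝ × ℝ => ((b + p.1, c + p.2 + a * p.1) : ℝ × ℝ))
      (volume.prod volume) (volume.prod volume) := by
    refine MeasurePreserving.skew_product (g := fun y z => c + z + a * y)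
      (measurePreserving_add_left volume b) ?_ ?_
    · exact Continuous.measurable (by simp only [Function.uncurry_def]; fun_prop)
    · refine Filter.Eventually.of_forall (fun y => ?_)
      have h := (measurePreserving_add_left (volume : Measure ℝ) (c + a * y)).map_eq
      have e : (fun z => c + z + a * y) = (fun z => c + a * y + z) := by funext z; ring
      rw [e]; exact h
  exact (measurePreserving_add_left (volume : Measure ℝ) a).prod h1

theorem mp_right (a b c : ℝ) : MeasurePreserving
    (fun p : ℝ × ℝ × ℝ => ((p.1 + a, p.2.1 + b, p.2.2 + c + p.1 * b) : ℝ × ℝ × ℝ))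
    volume volume := by
  refine MeasurePreserving.skew_product (μa := (volume : Measure ℝ)) (μb := (volume : Measure ℝ))
    (μc := (volume : Measure (ℝ × ℝ))) (μd := (volume : Measure (ℝ × ℝ)))
    (f := fun x : ℝ => x + a)
    (g := fun (x : ℝ) (q : ℝ × ℝ) => ((q.1 + b, q.2 + c + x * b) : ℝ × ℝ))
    (measurePreserving_add_right volume a) ?_ ?_
  · exact Continuous.measurable (by simp only [Function.uncurry_def]; fun_prop)
  · refine Filter.Eventually.of_forall (fun x => ?_)
    have h := ((measurePreserving_add_right (volume : Measure ℝ) b).prod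
      (measurePreserving_add_right (volume : Measure ℝ) (c + x * b))).map_eq
    have e : (fun q : ℝ × ℝ => ((q.1 + b, q.2 + c + x * b) : ℝ × ℝ)) =
        Prod.map (fun y : ℝ => y + b) (fun z : ℝ => z + (c + x * b)) := by
      funext q
      simp only [Prod.map]
      refine Prod.ext rfl ?_
      simp only
      ring
    rw [e]; exact h

instance : (volume : Measure Heis).IsMulLeftInvariant where
  map_mul_left_eq_self g := by
    have h := (mp_left g.1 g.2.1 g.2.2).map_eq
    have e : (fun p : ℝ × ℝ × ℝ => ((g.1 + p.1, g.2.1 + p.2.1, g.2.2 + p.2.2 + g.1 * p.2.1) :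
      ℝ × ℝ × ℝ)) = (fun p : Heis => g * p) := rfl
    rw [e] at h
    exact h

instance : (volume : Measure Heis).IsMulRightInvariant where
  map_mul_right_eq_self g := by
    have h := (mp_right g.1 g.2.1 g.2.2).map_eq
    have e : (fun p : ℝ × ℝ × ℝ => ((p.1 + g.1, p.2.1 + g.2.1, p.2.2 + g.2.2 + p.1 * g.2.1) :
      ℝ × ℝ × ℝ)) = (fun p : Heis => p * g) := rfl
    rw [e] at h
    exact h

instance : SigmaFinite (volume : Measure Heis) :=
  inferInstanceAs (SigmaFinite (volume : Measure (ℝ × ℝ × ℝ)))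

/-- the unit cube -/
def cube : Set Heis := {g | (0 ≤ g.1 ∧ g.1 < 1) ∧ (0 ≤ g.2.1 ∧ g.2.1 < 1) ∧ 0 ≤ g.2.2 ∧ g.2.2 < 1}

theorem cube_eq : cube = ((Ico (0:ℝ) 1) ×ˢ ((Ico (0:ℝ) 1) ×ˢ (Ico (0:ℝ) 1)) : Set (ℝ × ℝ × ℝ)) := by
  ext g
  exact Iff.rfl

theorem measurableSet_cube : MeasurableSet cube := by
  rw [cube_eq]
  exact measurableSet_Ico.prod (measurableSet_Ico.prod measurableSet_Ico)

theorem volume_cube : (volume : Measure Heis) cube = 1 := by
  have : (volume : Measure (ℝ × ℝ × ℝ))
      ((Ico (0:ℝ) 1) ×ˢ ((Ico (0:ℝ) 1) ×ˢ (Ico (0:ℝ) 1))) = 1 := by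
    rw [Measure.volume_eq_prod, Measure.prod_prod, Measure.volume_eq_prod, Measure.prod_prod]
    simp
  rw [cube_eq]
  exact this

theorem cube_unique (g : Heis) : ∃! γ : Gam.op, γ • g ∈ cube := by
  set a : ℤ := ⌊g.1⌋ with ha
  set b : ℤ := ⌊g.2.1⌋ with hb
  set c : ℤ := ⌊g.2.2 - g.1 * b⌋ with hc
  refine ⟨⟨MulOpposite.op (of ((-a : ℤ) : ℝ) ((-b : ℤ) : ℝ) ((-c : ℤ) : ℝ)), ?_⟩, ?_, ?_⟩
  · exact of_mem_Gam _ _ _
  · change g * (of ((-a : ℤ) : ℝ) ((-b : ℤ) : ℝ) ((-c : ℤ) : ℝ)) ∈ cube
    simp only [cube, mem_ofPred_eq, mul_1, mul_2, mul_3, of_1, of_2, of_3]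
    push_cast
    have h1 := Int.floor_le g.1
    have h2 := Int.lt_floor_add_one g.1
    have h3 := Int.floor_le g.2.1
    have h4 := Int.lt_floor_add_one g.2.1
    have h5 := Int.floor_le (g.2.2 - g.1 * b)
    have h6 := Int.lt_floor_add_one (g.2.2 - g.1 * b)
    rw [← ha] at h1 h2
    rw [← hb] at h3 h4
    rw [← hc] at h5 h6
    refine ⟨⟨by linarith, by linarith⟩, ⟨by linarith, by linarith⟩, by linarith, by linarith⟩
  · rintro ⟨γ, hγ⟩ hm
    obtain ⟨a', b', c', h⟩ := hγ
    have hγ' : γ = MulOpposite.op (of a' b' c') := by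
      rw [← h]; simp
    subst hγ'
    change g * (of a' b' c') ∈ cube at hm
    simp only [cube, mem_ofPred_eq, mul_1, mul_2, mul_3, of_1, of_2, of_3] at hm
    obtain ⟨⟨h1, h2⟩, ⟨h3, h4⟩, h5, h6⟩ := hm
    have ea : a = -a' := by
      rw [ha, Int.floor_eq_iff]; push_cast; constructor <;> linarith
    have eb : b = -b' := by
      rw [hb, Int.floor_eq_iff]; push_cast; constructor <;> linarith
    have ec : c = -c' := by
      rw [hc, Int.floor_eq_iff]; push_cast
      have : (b : ℝ) = -b' := by rw [eb]; push_cast; rfl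
      rw [this]
      constructor <;> linarith
    apply Subtype.ext
    change MulOpposite.op (of a' b' c') = MulOpposite.op _
    rw [ea, eb, ec]
    simp

instance : Countable Gam.op :=
  (Subgroup.equivOp Gam).symm.injective.countable

theorem isFundamentalDomain_cube : IsFundamentalDomain Gam.op cube (volume : Measure Heis) :=
  IsFundamentalDomain.mk' measurableSet_cube.nullMeasurableSet cube_unique

/-- Haar probability measure on the Heisenberg nilmanifold. -/
noncomputable def mu : Measure Nil :=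
  Measure.map (QuotientGroup.mk : Heis → Nil) ((volume : Measure Heis).restrict cube)

theorem continuous_mk : Continuous (QuotientGroup.mk : Heis → Nil) := continuous_quotient_mk'

theorem measurable_mk : Measurable (QuotientGroup.mk : Heis → Nil) := continuous_mk.measurable

instance : IsProbabilityMeasure mu := by
  refine ⟨?_⟩
  rw [mu, Measure.map_apply measurable_mk MeasurableSet.univ, preimage_univ,
    Measure.restrict_apply_univ, volume_cube]

instance : HasFundamentalDomain Gam.op Heis (volume : Measure Heis) :=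
  ⟨⟨cube, isFundamentalDomain_cube⟩⟩

instance : QuotientMeasureEqMeasurePreimage (volume : Measure Heis) mu :=
  isFundamentalDomain_cube.quotientMeasureEqMeasurePreimage_quotientMeasure

instance : SMulInvariantMeasure Heis Nil mu :=
  MeasureTheory.QuotientMeasureEqMeasurePreimage.smulInvariantMeasure_quotient
    (volume : Measure Heis)

theorem volume_preimage_mk {s : Set Nil} (hs : MeasurableSet s) (h : mu s = 0) :
    (volume : Measure Heis) ((QuotientGroup.mk : Heis → Nil) ⁻¹' s) = 0 := by
  have := isFundamentalDomain_cube.absolutelyContinuous_map (μ := (volume : Measure Heis))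
  have h2 := this h
  rwa [Measure.map_apply measurable_mk hs] at h2

instance : ContinuousSMul Heis Nil := inferInstance

instance : CompactSpace Nil := by
  have hc : IsCompact ((Icc (0:ℝ) 1) ×ˢ ((Icc (0:ℝ) 1) ×ˢ (Icc (0:ℝ) 1)) : Set (ℝ × ℝ × ℝ)) :=
    isCompact_Icc.prod (isCompact_Icc.prod isCompact_Icc)
  have hc2 : IsCompact ((QuotientGroup.mk : Heis → Nil) ''
    ((Icc (0:ℝ) 1) ×ˢ ((Icc (0:ℝ) 1) ×ˢ (Icc (0:ℝ) 1)) : Set (ℝ × ℝ × ℝ))) :=
    IsCompact.image hc continuous_mk
  refine ⟨?_⟩
  convert hc2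
  symm
  rw [Set.eq_univ_iff_forall]
  intro x
  induction x using QuotientGroup.induction_on with
  | H g =>
    obtain ⟨⟨γ, hγ⟩, hm, -⟩ := cube_unique g
    refine ⟨g * γ.unop, ?_, ?_⟩
    · have : g * γ.unop ∈ cube := hm
      rw [cube_eq] at this
      exact Set.prod_mono Ico_subset_Icc_self
        (Set.prod_mono Ico_subset_Icc_self Ico_subset_Icc_self) this
    · exact QuotientGroup.mk_mul_of_mem g hγ

instance : ErgodicSMul Heis Nil mu where
  aeconst_of_forall_preimage_smul_ae_eq {s} hsm hs := by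
    have h1 : EventuallyConst ((QuotientGroup.mk : Heis → Nil) ⁻¹' s)
        (ae (volume : Measure Heis)) := by
      refine ErgodicSMul.aeconst_of_forall_preimage_smul_ae_eq (G := Heis)
        (measurable_mk hsm) (fun g => ?_)
      have h2 := hs g
      rw [ae_eq_set] at h2 ⊢
      have e : (fun x : Heis => g • x) ⁻¹' ((QuotientGroup.mk : Heis → Nil) ⁻¹' s) =
          (QuotientGroup.mk : Heis → Nil) ⁻¹' ((fun x : Nil => g • x) ⁻¹' s) := rfl
      rw [e, ← preimage_sdiff, ← preimage_sdiff]
      have hm1 : MeasurableSet ((fun x : Nil => g • x) ⁻¹' s) :=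
        (measurable_const_smul g) hsm
      exact ⟨volume_preimage_mk (hm1.diff hsm) h2.1, volume_preimage_mk (hsm.diff hm1) h2.2⟩
    rw [eventuallyConst_set'] at h1 ⊢
    rcases h1 with h1 | h1
    · left
      rw [ae_eq_empty] at h1 ⊢
      rw [mu, Measure.map_apply measurable_mk hsm]
      exact le_antisymm ((Measure.restrict_apply_le _ _).trans h1.le) (by simp)
    · right
      rw [ae_eq_univ] at h1 ⊢
      rw [mu, Measure.map_apply measurable_mk hsm.compl]
      rw [preimage_compl]
      exact le_antisymm ((Measure.restrict_apply_le _ _).trans h1.le) (by simp)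

end Pool.Agent.H878
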