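import Pool.Agent.H878.Heis2

open MeasureTheory Set Filter Topology
open scoped Pointwise ENNReal symmDiff

namespace Pool.Agent.H878

open Heis

/-- the one-parameter subgroup `exp (t X)`, `X = (1, β, 0)` -/
noncomputable def ex (β t : ℝ) : Heis := of t (β * t) (β * t ^ 2 / 2)

/-- central elements -/
noncomputable def ce (c : ℝ) : Heis := of 0 0 c

theorem ex_add (β s t : ℝ) : ex β (s + t) = ex β s * ex β t := by
  apply ext0 <;> simp [ex] <;> ring

theorem ex_zero (β : ℝ) : ex β 0 = 1 := by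
  apply ext0 <;> simp [ex]

theorem ce_add (s t : ℝ) : ce (s + t) = ce s * ce t := by
  apply ext0 <;> simp [ce]

theorem ce_zero : ce 0 = 1 := by
  apply ext0 <;> simp [ce]

theorem ce_comm (c : ℝ) (g : Heis) : ce c * g = g * ce c := by
  apply ext0 <;> simp [ce] <;> ring

theorem ex_conj (β t s : ℝ) : ex β t * of 0 s 0 * (ex β t)⁻¹ = of 0 s (t * s) := by
  apply ext0 <;> simp [ex]
  ring

theorem continuous_ex (β : ℝ) : Continuous (ex β) := by
  unfold ex
  exact continuous_of (by fun_prop) (by fun_prop) (by fun_prop)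

theorem continuous_ce : Continuous ce := by
  unfold ce
  exact continuous_of (by fun_prop) (by fun_prop) (by fun_prop)

theorem gam_smul (a b k : ℤ) (g : Heis) :
    of (a : ℝ) b k • (QuotientGroup.mk g : Nil) =
      ce (a * g.2.1 - b * g.1) • (QuotientGroup.mk g : Nil) := by
  have h : of (a : ℝ) b k * g = ce (a * g.2.1 - b * g.1) * (g * of (a : ℝ) b k) := by
    apply ext0 <;> simp [ce] <;> ring
  have h1 : of (a : ℝ) b k • (QuotientGroup.mk g : Nil) =
      QuotientGroup.mk (of (a : ℝ) b k * g) := rfl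
  rw [h1, h]
  have h2 : (QuotientGroup.mk (ce (a * g.2.1 - b * g.1) * (g * of (a : ℝ) b k)) : Nil) =
      ce (a * g.2.1 - b * g.1) • (QuotientGroup.mk (g * of (a : ℝ) b k) : Nil) := rfl
  rw [h2]
  congr 1
  exact QuotientGroup.mk_mul_of_mem g (of_mem_Gam a b k)

theorem ce_int_smul (n : ℤ) (x : Nil) : ce n • x = x := by
  induction x using QuotientGroup.induction_on with
  | H g =>
    have h1 : ce n • (QuotientGroup.mk g : Nil) = QuotientGroup.mk (ce n * g) := rfl
    rw [h1, ce_comm]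
    refine QuotientGroup.mk_mul_of_mem g ?_
    exact ⟨0, 0, n, by simp [ce]⟩

/-- for a lattice element the action on the nilmanifold is fibrewise central -/
theorem exists_ce_of_mem {γ : Heis} (hγ : γ ∈ Gam) (x : Nil) : ∃ c : ℝ, γ • x = ce c • x := by
  obtain ⟨a, b, k, rfl⟩ := hγ
  induction x using QuotientGroup.induction_on with
  | H g => exact ⟨_, gam_smul a b k g⟩

/-- a subgroup containing the flow direction, the centre and the lattice is dense -/
theorem dense_of_mem {β : ℝ} (hβ : Irrational β) (S : Subgroup Heis) (h1 : ∀ t, ex β t ∈ S)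
    (h2 : ∀ c, ce c ∈ S) (h3 : ∀ γ ∈ Gam, γ ∈ S) : Dense (S : Set Heis) := by
  have hy : ∀ u : ℝ, of 0 u 0 ∈ S.topologicalClosure := by
    have hd : Dense (AddSubgroup.closure {1, β} : Set ℝ) := by
      rw [dense_addSubgroupClosure_pair_iff]
      have : (1 : ℝ) / β = β⁻¹ := by simp
      rw [this]
      exact hβ.inv
    have hsub : (AddSubgroup.closure {1, β} : Set ℝ) ⊆
        (fun u : ℝ => of 0 u 0) ⁻¹' (S.topologicalClosure : Set Heis) := by
      intro u hu
      obtain ⟨m, n, hmn⟩ := AddSubgroup.mem_closure_pair.1 hu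
      apply Subgroup.le_topologicalClosure
      -- u = m + n β
      have hu2 : u = m + n * β := by rw [← hmn]; simp
      have e : of 0 u 0 = (ce (β * n ^ 2 / 2)) * (of (((-n : ℤ)) : ℝ) (m : ℤ) ((0 : ℤ) : ℝ) *
          ex β n) * ce (0 - β * n ^ 2 / 2 - (β * n ^ 2 / 2 + (-n) * (β * n))) := by
        apply ext0 <;> simp [ce, ex, hu2] <;> ring
      change of 0 u 0 ∈ S
      rw [e]
      exact S.mul_mem (S.mul_mem (h2 _) (S.mul_mem (h3 _ (of_mem_Gam _ _ _)) (h1 _))) (h2 _)
    have hc : IsClosed ((fun u : ℝ => of 0 u 0) ⁻¹' (S.topologicalClosure : Set Heis)) :=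
      S.isClosed_topologicalClosure.preimage
        (continuous_of continuous_const continuous_id continuous_const)
    intro u
    have := hc.closure_subset_iff.2 hsub (hd u)
    exact this
  intro g
  have : g ∈ S.topologicalClosure := by
    have e : g = ex β g.1 * (of 0 (g.2.1 - β * g.1) 0 *
        ce (g.2.2 - β * g.1 ^ 2 / 2 - g.1 * (g.2.1 - β * g.1))) := by
      apply ext0 <;> simp [ce, ex]
      ring
    rw [e]
    exact mul_mem (S.le_topologicalClosure (h1 _))
      (mul_mem (hy _) (S.le_topologicalClosure (h2 _)))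
  exact this

instance : mu.InnerRegular := inferInstance

/-- the family of translations as continuous maps depending continuously on the group element -/
theorem tendsto_symmDiff (s : Set Nil) (hs : MeasurableSet s) {ι : Type*} {l : Filter ι}
    {g : ι → Heis} {g₀ : Heis} (hg : Tendsto g l (𝓝 g₀)) :
    Tendsto (fun i => mu (((g i • ·) ⁻¹' s) ∆ ((g₀ • ·) ⁻¹' s))) l (𝓝 0) := by
  let f : C(Heis × Nil, Nil) := ⟨(· • ·).uncurry, continuous_smul⟩
  have hfg : Tendsto (fun i => f.curry (g i)) l (𝓝 (f.curry g₀)) :=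
    (f.curry.continuous.tendsto g₀).comp hg
  have h1 : ∀ᶠ i in l, MeasurePreserving (f.curry (g i)) mu mu :=
    Eventually.of_forall (fun i => (measurePreserving_smul (g i) mu :
      MeasurePreserving (fun x => g i • x) mu mu))
  have h2 : MeasurePreserving (f.curry g₀) mu mu :=
    (measurePreserving_smul g₀ mu : MeasurePreserving (fun x => g₀ • x) mu mu)
  have h3 := tendsto_measure_symmDiff_preimage_nhds_zero hfg h1 h2 hs.nullMeasurableSet
    (measure_ne_top _ _)
  exact h3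

theorem symmDiff_conj (s : Set Nil) (hs : MeasurableSet s) (h g : Heis)
    (hh : (h • ·) ⁻¹' s =ᵐ[mu] s) :
    mu ((((h * g * h⁻¹) • ·) ⁻¹' s) ∆ s) = mu (((g • ·) ⁻¹' s) ∆ s) := by
  have e : (((h * g * h⁻¹) • ·) ⁻¹' s) =
      (h⁻¹ • ·) ⁻¹' ((g • ·) ⁻¹' ((h • ·) ⁻¹' s)) := by
    ext x
    simp only [mem_preimage, mul_smul]
  have hm : MeasurableSet ((g • ·) ⁻¹' s : Set Nil) := (measurable_const_smul g) hs
  have h1 : (g • ·) ⁻¹' ((h • ·) ⁻¹' s) =ᵐ[mu] ((g • ·) ⁻¹' s : Set Nil) :=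
    (measurePreserving_smul g mu).quasiMeasurePreserving.preimage_ae_eq hh
  have h2 : (h⁻¹ • ·) ⁻¹' ((g • ·) ⁻¹' ((h • ·) ⁻¹' s)) =ᵐ[mu]
      ((h⁻¹ • ·) ⁻¹' ((g • ·) ⁻¹' s) : Set Nil) :=
    (measurePreserving_smul h⁻¹ mu).quasiMeasurePreserving.preimage_ae_eq h1
  have h3 : (h⁻¹ • ·) ⁻¹' ((h • ·) ⁻¹' s) =ᵐ[mu] ((h⁻¹ • ·) ⁻¹' s : Set Nil) :=
    (measurePreserving_smul h⁻¹ mu).quasiMeasurePreserving.preimage_ae_eq hh
  have h4 : (h⁻¹ • ·) ⁻¹' ((h • ·) ⁻¹' s) = s := by
    ext x; simp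
  rw [h4] at h3
  rw [e, measure_congr (h2.symmDiff h3), ← preimage_symmDiff]
  exact (measurePreserving_smul h⁻¹ mu).measure_preimage (hm.symmDiff hs).nullMeasurableSet

/-- Mautner phenomenon: flow invariant sets are invariant under the centre. -/
theorem ce_invariant {β : ℝ} (s : Set Nil) (hs : MeasurableSet s)
    (h : ∀ t, (ex β t • ·) ⁻¹' s =ᵐ[mu] s) (c : ℝ) : (ce c • ·) ⁻¹' s =ᵐ[mu] s := by
  rw [← measure_symmDiff_eq_zero_iff]
  have hnhds : Tendsto (fun r : ℝ => r) (𝓝[≠] (0 : ℝ)) (𝓝 0) := tendsto_nhdsWithin_of_tendsto_nhds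
    tendsto_id
  have c1 : Tendsto (fun r : ℝ => of 0 r c) (𝓝[≠] (0 : ℝ)) (𝓝 (ce c)) := by
    have : Continuous (fun r : ℝ => of 0 r c) :=
      continuous_of continuous_const continuous_id continuous_const
    exact (this.tendsto 0).comp hnhds
  have c2 : Tendsto (fun r : ℝ => of 0 r 0) (𝓝[≠] (0 : ℝ)) (𝓝 1) := by
    have : Continuous (fun r : ℝ => of 0 r 0) :=
      continuous_of continuous_const continuous_id continuous_const
    exact (this.tendsto 0).comp hnhds
  have t1 := tendsto_symmDiff s hs c1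
  have t2 := tendsto_symmDiff s hs c2
  have key : ∀ᶠ r in 𝓝[≠] (0 : ℝ), mu (((ce c • ·) ⁻¹' s) ∆ s) ≤
      mu (((of 0 r c • ·) ⁻¹' s) ∆ ((ce c • ·) ⁻¹' s)) +
      mu (((of 0 r 0 • ·) ⁻¹' s) ∆ (((1 : Heis) • ·) ⁻¹' s)) := by
    filter_upwards [self_mem_nhdsWithin] with r hr
    have hr' : r ≠ 0 := hr
    have e1 : of 0 r c = ex β (c / r) * of 0 r 0 * (ex β (c / r))⁻¹ := by
      rw [ex_conj, div_mul_cancel₀ c hr']
    have e2 : mu (((of 0 r c • ·) ⁻¹' s) ∆ s) = mu (((of 0 r 0 • ·) ⁻¹' s) ∆ s) := by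
      rw [e1]
      exact symmDiff_conj s hs _ _ (h _)
    have e3 : (((1 : Heis) • ·) ⁻¹' s : Set Nil) = s := by ext x; simp
    rw [e3, ← e2, symmDiff_comm ((of 0 r c • ·) ⁻¹' s)]
    exact measure_symmDiff_le _ _ _
  have := le_of_tendsto_of_tendsto tendsto_const_nhds (t1.add t2) key
  simpa using this

end Pool.Agent.H878
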