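import Pool.Agent.H878.Heis3

open MeasureTheory Set Filter Topology
open scoped Pointwise ENNReal symmDiff

namespace Pool.Agent.H878

open Heis

theorem measurable_smul_pair {f : ℝ → Heis} (hf : Continuous f) :
    Measurable (fun p : ℝ × Nil => f p.1 • p.2) := by
  have : Continuous (fun p : ℝ × Nil => f p.1 • p.2) :=
    (hf.comp _root_.continuous_fst).smul _root_.continuous_snd
  exact this.measurable

/-- centre-invariant sets are (a.e.) invariant under the lattice -/
theorem gam_invariant (s : Set Nil) (hs : MeasurableSet s)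
    (h : ∀ c : ℝ, (ce c • ·) ⁻¹' s =ᵐ[mu] s) {γ : Heis} (hγ : γ ∈ Gam) :
    (γ • ·) ⁻¹' s =ᵐ[mu] s := by
  have hm : MeasurableSet {p : ℝ × Nil | ce p.1 • p.2 ∈ s} :=
    (measurable_smul_pair continuous_ce) hs
  have h1 : ∀ᵐ x ∂mu, ∀ᵐ c ∂(volume : Measure ℝ), (ce c • x ∈ s ↔ x ∈ s) := by
    rw [Measure.ae_ae_comm]
    · exact ae_of_all _ fun c => (h c).mem_iff
    · have m1 : MeasurableSet {p : Nil × ℝ | ce p.2 • p.1 ∈ s} :=
        hm.preimage (measurable_swap)
      have m2 : MeasurableSet {p : Nil × ℝ | p.1 ∈ s} := hs.preimage measurable_fst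
      exact (m1.mem.iff m2.mem).setOf
  have h2 : ∀ᵐ x ∂mu, ∀ᵐ c ∂(volume : Measure ℝ), (ce c • (γ • x) ∈ s ↔ γ • x ∈ s) :=
    (measurePreserving_smul γ mu).quasiMeasurePreserving.ae h1
  have key : ∀ᵐ x ∂mu, (γ • x ∈ s ↔ x ∈ s) := by
    filter_upwards [h1, h2] with x hx1 hx2
    obtain ⟨τ, hτ⟩ := exists_ce_of_mem hγ x
    have hx3 : ∀ᵐ c ∂(volume : Measure ℝ), (ce (c + τ) • x ∈ s ↔ x ∈ s) :=
      (measurePreserving_add_right (volume : Measure ℝ) τ).quasiMeasurePreserving.ae hx1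
    obtain ⟨c, hc1, hc2⟩ := (hx2.and hx3).exists
    rw [← hc1, ← hc2, hτ, ce_add, mul_smul]
  exact eventuallyEq_set.2 key

/-- ergodicity of the Heisenberg nilflow of irrational slope -/
theorem flow_ergodic {β : ℝ} (hβ : Irrational β) (s : Set Nil) (hs : MeasurableSet s)
    (h : ∀ t, (ex β t • ·) ⁻¹' s =ᵐ[mu] s) : EventuallyConst s (ae mu) := by
  have hc := ce_invariant s hs h
  have hg : ∀ γ ∈ Gam, (γ • ·) ⁻¹' s =ᵐ[mu] s := fun γ hγ => gam_invariant s hs hc hγ
  have conv : ∀ g : Heis, (g • ·) ⁻¹' s =ᵐ[mu] s → g ∈ MulAction.aestabilizer Heis mu s := by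
    intro g hg
    have h1 : (g⁻¹ : Heis) ∈ MulAction.aestabilizer Heis mu s := by
      rw [MulAction.mem_aestabilizer]
      rw [← preimage_smul_inv, inv_inv]
      exact hg
    simpa using inv_mem h1
  refine aeconst_of_dense_aestabilizer_smul (G := Heis) hs.nullMeasurableSet ?_
  exact dense_of_mem hβ _ (fun t => conv _ (h t)) (fun c => conv _ (hc c))
    (fun γ hγ => conv _ (hg γ hγ))

/-- an absolutely continuous invariant probability measure is `mu` -/
theorem eq_mu_of_ac {β : ℝ} (hβ : Irrational β) (ν : Measure Nil) [IsProbabilityMeasure ν]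
    (hν : ∀ t, Measure.map (ex β t • ·) ν = ν) (hac : ν ≪ mu) : ν = mu := by
  have hmp : ∀ t, MeasurePreserving (ex β t • · : Nil → Nil) ν ν := fun t =>
    ⟨measurable_const_smul _, hν t⟩
  set s : Set Nil := {x | ν.rnDeriv mu x < 1} with hsdef
  have hs : MeasurableSet s := Measure.measurable_rnDeriv _ _ measurableSet_Iio
  have hinv : ∀ t, (ex β t • ·) ⁻¹' s =ᵐ[mu] s := by
    intro t
    have := (hmp t).rnDeriv_comp_aeEq (measurePreserving_smul (ex β t) mu)
    rw [eventuallyEq_set]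
    filter_upwards [this] with x hx
    simp only [Function.comp_apply] at hx
    simp only [hsdef, mem_preimage, mem_ofPred_eq, hx]
  have hconst := flow_ergodic hβ s hs hinv
  rw [eventuallyConst_set'] at hconst
  rcases hconst with h0 | h1
  · have hge : ∀ᵐ x ∂mu, 1 ≤ ν.rnDeriv mu x := by
      rw [ae_eq_empty] at h0
      have : ∀ᵐ x ∂mu, x ∉ s := measure_eq_zero_iff_ae_notMem.1 h0
      filter_upwards [this] with x hx
      exact not_lt.1 hx
    have hle : mu ≤ ν := by
      refine Measure.le_iff.2 fun A hA => ?_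
      calc mu A = ∫⁻ _ in A, 1 ∂mu := by simp
        _ ≤ ∫⁻ x in A, ν.rnDeriv mu x ∂mu := lintegral_mono_ae (ae_restrict_of_ae hge)
        _ = ν A := Measure.setLIntegral_rnDeriv hac A
    exact (Measure.eq_of_le_of_measure_univ_eq hle (by simp)).symm
  · exfalso
    rw [ae_eq_univ] at h1
    have hlt : ∀ᵐ x ∂mu, ν.rnDeriv mu x < 1 := by
      have : ∀ᵐ x ∂mu, x ∉ sᶜ := measure_eq_zero_iff_ae_notMem.1 h1
      filter_upwards [this] with x hx
      simpa [hsdef] using hx
    have e1 : ∫⁻ x, ν.rnDeriv mu x ∂mu = 1 := by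
      rw [Measure.lintegral_rnDeriv hac]; simp
    have e2 : ∫⁻ x, ν.rnDeriv mu x ∂mu < ∫⁻ _, 1 ∂mu := by
      refine lintegral_strict_mono (IsProbabilityMeasure.ne_zero mu) (by fun_prop) ?_ hlt
      rw [e1]; simp
    rw [e1] at e2
    simp at e2

end Pool.Agent.H878
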