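import Pool.Agent.H878.Heis4

open MeasureTheory Set Filter Topology
open scoped Pointwise ENNReal symmDiff

namespace Pool.Agent.H878

open Heis

/-- average of a measure along the centre, over `(0, δ]` (unnormalised) -/
noncomputable def cav (ν : Measure Nil) (δ : ℝ) : Measure Nil :=
  Measure.map (fun p : ℝ × Nil => ce p.1 • p.2) ((volume.restrict (Ioc 0 δ)).prod ν)

theorem cav_lintegral (ν : Measure Nil) [IsProbabilityMeasure ν] (δ : ℝ) {f : Nil → ℝ≥0∞}
    (hf : Measurable f) :
    ∫⁻ x, f x ∂(cav ν δ) = ∫⁻ x, (∫⁻ c in Ioc 0 δ, f (ce c • x)) ∂ν := by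
  rw [cav, lintegral_map hf (measurable_smul_pair continuous_ce), lintegral_prod_symm']
  exact hf.comp (measurable_smul_pair continuous_ce)

theorem cav_lintegral' (ν : Measure Nil) [IsProbabilityMeasure ν] (δ : ℝ) {f : Nil → ℝ≥0∞}
    (hf : Measurable f) :
    ∫⁻ x, f x ∂(cav ν δ) = ∫⁻ c in Ioc 0 δ, ∫⁻ x, f (ce c • x) ∂ν := by
  rw [cav, lintegral_map hf (measurable_smul_pair continuous_ce), lintegral_prod]
  exact (hf.comp (measurable_smul_pair continuous_ce)).aemeasurable

theorem cav_univ (ν : Measure Nil) [IsProbabilityMeasure ν] {δ : ℝ} :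
    cav ν δ univ = ENNReal.ofReal δ := by
  rw [cav, Measure.map_apply (measurable_smul_pair continuous_ce) MeasurableSet.univ,
    preimage_univ, ← univ_prod_univ, Measure.prod_prod]
  simp

instance (ν : Measure Nil) [IsProbabilityMeasure ν] : IsProbabilityMeasure (cav ν 1) :=
  ⟨by rw [cav_univ]; simp⟩

/-- periodicity of the central orbit integral -/
theorem orbit_integral_shift (f : Nil → ℝ≥0∞) (τ : ℝ) (x : Nil) :
    ∫⁻ c in Ioc (0:ℝ) 1, f (ce c • (ce τ • x)) = ∫⁻ c in Ioc (0:ℝ) 1, f (ce c • x) := by
  have hper : ∀ c : ℝ, f (ce (c + 1) • x) = f (ce c • x) := by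
    intro c
    rw [ce_add, mul_smul]
    have := ce_int_smul 1 x
    push_cast at this
    rw [this]
  have e1 : ∀ c : ℝ, ce c • (ce τ • x) = ce (c + τ) • x := by
    intro c; rw [ce_add, mul_smul]
  simp_rw [e1]
  have h1 : ∫⁻ c in Ioc (0:ℝ) 1, f (ce (c + τ) • x) = ∫⁻ c in Ioc τ (τ + 1), f (ce c • x) := by
    have hmp := (measurePreserving_add_right (volume : Measure ℝ) τ)
    have h2 := hmp.setLIntegral_comp_preimage_emb
      (MeasurableEquiv.addRight τ).measurableEmbedding (fun c => f (ce c • x)) (Ioc τ (τ + 1))
    rw [← h2]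
    congr 2
    ext c
    simp only [mem_preimage, mem_Ioc]
    constructor
    · rintro ⟨h, h'⟩; constructor <;> linarith
    · rintro ⟨h, h'⟩; constructor <;> linarith
  rw [h1]
  have d0 := isAddFundamentalDomain_Ioc (zero_lt_one' ℝ) 0
  have dτ := isAddFundamentalDomain_Ioc (zero_lt_one' ℝ) τ
  rw [zero_add] at d0
  refine dτ.setLIntegral_eq d0 (fun c => f (ce c • x)) ?_
  rintro ⟨g, hg⟩ c
  obtain ⟨n, rfl⟩ := AddSubgroup.mem_zmultiples_iff.1 hg
  have e3 : ((⟨n • (1:ℝ), hg⟩ : AddSubgroup.zmultiples (1:ℝ)) +ᵥ c) = c + n := by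
    change n • (1:ℝ) + c = c + n
    simp; ring
  rw [e3, ce_add, mul_smul, ce_int_smul]

/-- the centre average of a flow-invariant measure is invariant under the whole group -/
theorem cav_invariant {β : ℝ} (hβ : Irrational β) (ν : Measure Nil) [IsProbabilityMeasure ν]
    (hν : ∀ t, Measure.map (ex β t • ·) ν = ν) (g : Heis) :
    Measure.map (g • ·) (cav ν 1) = cav ν 1 := by
  -- the stabiliser subgroup
  let S : Subgroup Heis :=
    { carrier := {g | Measure.map (g • · : Nil → Nil) (cav ν 1) = cav ν 1}
      mul_mem' := by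
        intro a b ha hb
        have ha' : Measure.map (a • · : Nil → Nil) (cav ν 1) = cav ν 1 := ha
        have hb' : Measure.map (b • · : Nil → Nil) (cav ν 1) = cav ν 1 := hb
        change Measure.map ((a * b) • · : Nil → Nil) (cav ν 1) = cav ν 1
        have : ((a * b) • · : Nil → Nil) = (a • · : Nil → Nil) ∘ (b • · : Nil → Nil) := by
          funext x; simp [mul_smul]
        rw [this, ← Measure.map_map (measurable_const_smul a) (measurable_const_smul b), hb', ha']
      one_mem' := by
        change Measure.map ((1 : Heis) • · : Nil → Nil) (cav ν 1) = cav ν 1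
        have : ((1 : Heis) • · : Nil → Nil) = id := by funext x; simp
        rw [this, Measure.map_id]
      inv_mem' := by
        intro a ha
        have ha' : Measure.map (a • · : Nil → Nil) (cav ν 1) = cav ν 1 := ha
        change Measure.map (a⁻¹ • · : Nil → Nil) (cav ν 1) = cav ν 1
        nth_rewrite 1 [← ha']
        rw [Measure.map_map (measurable_const_smul a⁻¹) (measurable_const_smul a)]
        have : (a⁻¹ • · : Nil → Nil) ∘ (a • · : Nil → Nil) = id := by funext x; simp
        rw [this, Measure.map_id] }
  have mem_S : ∀ g, g ∈ S ↔ Measure.map (g • · : Nil → Nil) (cav ν 1) = cav ν 1 :=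
    fun g => Iff.rfl
  have mem_S' : ∀ g, (∀ f : Nil → ℝ≥0∞, Measurable f →
      ∫⁻ x, f (g • x) ∂(cav ν 1) = ∫⁻ x, f x ∂(cav ν 1)) → g ∈ S := by
    intro g hg
    rw [mem_S]
    refine Measure.ext_of_lintegral _ (fun f hf => ?_)
    rw [lintegral_map hf (measurable_const_smul g)]
    exact hg f hf
  have h1 : ∀ t, ex β t ∈ S := by
    intro t
    refine mem_S' _ (fun f hf => ?_)
    rw [cav_lintegral' ν 1 (f := fun x => f (ex β t • x)) (hf.comp (measurable_const_smul _)),
      cav_lintegral' ν 1 hf]
    refine lintegral_congr (fun c => ?_)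
    have e1 : ∀ x : Nil, f (ex β t • ce c • x) = f (ce c • (ex β t • x)) := by
      intro x
      rw [← mul_smul, ← mul_smul, ce_comm]
    simp_rw [e1]
    have := lintegral_map (μ := ν) (f := fun x => f (ce c • x)) (g := (ex β t • · : Nil → Nil))
      (hf.comp (measurable_const_smul _)) (measurable_const_smul _)
    rw [hν t] at this
    exact this.symm
  have h2 : ∀ c, ce c ∈ S := by
    intro τ
    refine mem_S' _ (fun f hf => ?_)
    rw [cav_lintegral ν 1 (f := fun x => f (ce τ • x)) (hf.comp (measurable_const_smul _)),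
      cav_lintegral ν 1 hf]
    refine lintegral_congr (fun x => ?_)
    have e1 : ∀ c : ℝ, f (ce τ • ce c • x) = f (ce c • (ce τ • x)) := by
      intro c
      rw [← mul_smul, ← mul_smul, ce_comm]
    simp_rw [e1]
    exact orbit_integral_shift f τ x
  have h3 : ∀ γ ∈ Gam, γ ∈ S := by
    intro γ hγ
    refine mem_S' _ (fun f hf => ?_)
    rw [cav_lintegral ν 1 (f := fun x => f (γ • x)) (hf.comp (measurable_const_smul _)),
      cav_lintegral ν 1 hf]
    refine lintegral_congr (fun x => ?_)
    obtain ⟨τ, hτ⟩ := exists_ce_of_mem hγ x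
    have e1 : ∀ c : ℝ, f (γ • ce c • x) = f (ce c • (ce τ • x)) := by
      intro c
      rw [← mul_smul, ← ce_comm, mul_smul, hτ]
    simp_rw [e1]
    exact orbit_integral_shift f τ x
  have hdense := dense_of_mem hβ S h1 h2 h3
  have hclosed : IsClosed (S : Set Heis) := by
    have e : (S : Set Heis) = ⋂ f : BoundedContinuousFunction Nil ℝ,
        {g : Heis | ∫ x, f (g • x) ∂(cav ν 1) = ∫ x, f x ∂(cav ν 1)} := by
      ext g
      simp only [mem_iInter, mem_ofPred_eq]
      constructor
      · intro hg f
        have hg' := (mem_S g).1 hg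
        have := integral_map (μ := cav ν 1) (φ := (g • · : Nil → Nil)) (f := f)
          (measurable_const_smul g).aemeasurable (f.continuous.aestronglyMeasurable)
        rw [hg'] at this
        exact this.symm
      · intro hg
        change g ∈ S
        rw [mem_S]
        have : IsProbabilityMeasure (Measure.map (g • · : Nil → Nil) (cav ν 1)) :=
          Measure.isProbabilityMeasure_map (measurable_const_smul g).aemeasurable
        refine ext_of_forall_integral_eq_of_IsFiniteMeasure (fun f => ?_)
        rw [integral_map (measurable_const_smul g).aemeasurable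
          (f.continuous.aestronglyMeasurable)]
        exact hg f
    rw [e]
    refine isClosed_iInter (fun f => ?_)
    refine isClosed_eq ?_ continuous_const
    refine continuous_of_dominated (bound := fun _ => ‖f‖) ?_ ?_ ?_ ?_
    · intro g
      exact (f.continuous.comp (continuous_const_smul g)).aestronglyMeasurable
    · intro g
      exact ae_of_all _ (fun x => f.norm_coe_le_norm _)
    · exact integrable_const _
    · exact ae_of_all _ (fun x => f.continuous.comp (continuous_id.smul continuous_const))
  have : g ∈ closure (S : Set Heis) := hdense g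
  rw [hclosed.closure_eq] at this
  exact this

/-- a finite measure invariant under the whole group is absolutely continuous -/
theorem ac_of_invariant (ν : Measure Nil) [IsProbabilityMeasure ν]
    (hν : ∀ g : Heis, Measure.map (g • ·) ν = ν) : ν ≪ mu := by
  refine Measure.AbsolutelyContinuous.mk (fun A hA h0 => ?_)
  have hm : Measurable (fun p : Heis × Nil => p.1 • p.2) :=
    (continuous_smul : Continuous (fun p : Heis × Nil => p.1 • p.2)).measurable
  have h1 : ∫⁻ g in cube, ν ((g • ·) ⁻¹' A) ∂(volume : Measure Heis) = ν A := by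
    have : ∀ g : Heis, ν ((g • ·) ⁻¹' A) = ν A := by
      intro g
      rw [← Measure.map_apply (measurable_const_smul g) hA, hν g]
    simp_rw [this]
    simp [volume_cube]
  have h2 : ∫⁻ g in cube, ν ((g • ·) ⁻¹' A) ∂(volume : Measure Heis) =
      ∫⁻ x, ((volume : Measure Heis).restrict cube) ((· • x) ⁻¹' A) ∂ν := by
    have hAm : MeasurableSet ((fun p : Heis × Nil => p.1 • p.2) ⁻¹' A) := hm hA
    have e1 := Measure.prod_apply (μ := (volume : Measure Heis).restrict cube) (ν := ν) hAm
    have e2 := Measure.prod_apply_symm (μ := (volume : Measure Heis).restrict cube) (ν := ν) hAm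
    rw [e1] at e2
    exact e2
  rw [← h1, h2]
  have h3 : ∀ x : Nil, ((volume : Measure Heis).restrict cube) ((· • x) ⁻¹' A) = 0 := by
    intro x
    induction x using QuotientGroup.induction_on with
    | H h =>
      have e : ((· • (QuotientGroup.mk h : Nil)) ⁻¹' A : Set Heis) =
          (· * h) ⁻¹' ((QuotientGroup.mk : Heis → Nil) ⁻¹' A) := rfl
      refine le_antisymm ((Measure.restrict_apply_le _ _).trans ?_) (by simp)
      rw [e, measure_preimage_mul_right]
      exact (volume_preimage_mk hA h0).le
  simp_rw [h3]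
  simp

end Pool.Agent.H878
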