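import Pool.Agent.H878.Heis5

open MeasureTheory Set Filter Topology
open scoped Pointwise ENNReal symmDiff

namespace Pool.Agent.H878

open Heis

theorem cav_flow_invariant {β : ℝ} (ν : Measure Nil) [IsProbabilityMeasure ν]
    (hν : ∀ t, Measure.map (ex β t • ·) ν = ν) (δ t : ℝ) :
    Measure.map (ex β t • ·) (cav ν δ) = cav ν δ := by
  refine Measure.ext_of_lintegral _ (fun f hf => ?_)
  rw [lintegral_map hf (measurable_const_smul _)]
  rw [cav_lintegral' ν δ (f := fun x => f (ex β t • x)) (hf.comp (measurable_const_smul _)),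
    cav_lintegral' ν δ hf]
  refine lintegral_congr (fun c => ?_)
  have e1 : ∀ x : Nil, f (ex β t • ce c • x) = f (ce c • (ex β t • x)) := by
    intro x
    rw [← mul_smul, ← mul_smul, ce_comm]
  simp_rw [e1]
  have := lintegral_map (μ := ν) (f := fun x => f (ce c • x)) (g := (ex β t • · : Nil → Nil))
    (hf.comp (measurable_const_smul _)) (measurable_const_smul _)
  rw [hν t] at this
  exact this.symm

theorem cav_mono (ν : Measure Nil) [IsProbabilityMeasure ν] {δ : ℝ} (h1 : δ ≤ 1) :
    cav ν δ ≤ cav ν 1 := by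
  refine Measure.le_iff.2 fun A hA => ?_
  rw [cav, cav, Measure.map_apply (measurable_smul_pair continuous_ce) hA,
    Measure.map_apply (measurable_smul_pair continuous_ce) hA]
  rw [Measure.prod_apply ((measurable_smul_pair continuous_ce) hA),
    Measure.prod_apply ((measurable_smul_pair continuous_ce) hA)]
  exact lintegral_mono_set (Ioc_subset_Ioc le_rfl h1)

theorem cav_eq {β : ℝ} (hβ : Irrational β) (ν : Measure Nil) [IsProbabilityMeasure ν]
    (hν : ∀ t, Measure.map (ex β t • ·) ν = ν) {δ : ℝ} (h0 : 0 < δ) (h1 : δ ≤ 1) :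
    cav ν δ = ENNReal.ofReal δ • mu := by
  have hbar : cav ν 1 = mu := eq_mu_of_ac hβ (cav ν 1)
    (fun t => cav_invariant hβ ν hν _) (ac_of_invariant _ (fun g => cav_invariant hβ ν hν g))
  have hne : ENNReal.ofReal δ ≠ 0 := by
    rw [Ne, ENNReal.ofReal_eq_zero]; exact not_le.2 h0
  have hprob : IsProbabilityMeasure ((ENNReal.ofReal δ)⁻¹ • cav ν δ) := by
    refine ⟨?_⟩
    rw [Measure.smul_apply, cav_univ, smul_eq_mul, ENNReal.inv_mul_cancel hne (by simp)]
  have hac : cav ν δ ≪ mu := by
    rw [← hbar]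
    exact (cav_mono ν h1).absolutelyContinuous
  have h2 : ((ENNReal.ofReal δ)⁻¹ • cav ν δ) = mu := by
    refine eq_mu_of_ac hβ _ (fun t => ?_) (hac.smul_left _)
    rw [Measure.map_smul, cav_flow_invariant ν hν]
  rw [← h2, smul_smul, ENNReal.mul_inv_cancel hne (by simp), one_smul]

/-- **Unique ergodicity** of the Heisenberg nilflow in the direction `(1, β, 0)`, `β` irrational. -/
theorem unique_ergodic {β : ℝ} (hβ : Irrational β) (ν : Measure Nil) [IsProbabilityMeasure ν]
    (hν : ∀ t, Measure.map (ex β t • ·) ν = ν) : ν = mu := by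
  refine ext_of_forall_integral_eq_of_IsFiniteMeasure (fun f => ?_)
  set k : ℝ → ℝ := fun c => ∫ x, f (ce c • x) ∂ν with hk
  have kcont : Continuous k := by
    refine continuous_of_dominated (bound := fun _ => ‖f‖) ?_ ?_ ?_ ?_
    · intro c
      exact (f.continuous.comp (continuous_const_smul _)).aestronglyMeasurable
    · intro c
      exact ae_of_all _ (fun x => f.norm_coe_le_norm _)
    · exact integrable_const _
    · exact ae_of_all _ (fun x => f.continuous.comp (continuous_ce.smul continuous_const))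
  have hint : ∀ δ : ℝ, 0 < δ → δ ≤ 1 → ∫ c in (0:ℝ)..δ, k c = δ * ∫ x, f x ∂mu := by
    intro δ h0 h1
    have e1 : ∫ x, f x ∂(cav ν δ) = ∫ c in Ioc 0 δ, k c := by
      rw [cav, integral_map (measurable_smul_pair continuous_ce).aemeasurable
        f.continuous.aestronglyMeasurable]
      rw [integral_prod]
      have hc : Continuous (fun p : ℝ × Nil => f (ce p.1 • p.2)) :=
        f.continuous.comp ((continuous_ce.comp _root_.continuous_fst).smul _root_.continuous_snd)
      refine Integrable.of_bound hc.aestronglyMeasurable ‖f‖ ?_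
      exact ae_of_all _ (fun x => f.norm_coe_le_norm _)
    rw [cav_eq hβ ν hν h0 h1, integral_smul_measure] at e1
    rw [intervalIntegral.integral_of_le h0.le, ← e1, ENNReal.toReal_ofReal h0.le]
    rfl
  have hder : HasDerivAt (fun δ : ℝ => ∫ c in (0:ℝ)..δ, k c) (k 0) 0 :=
    intervalIntegral.integral_hasDerivAt_right (kcont.intervalIntegrable _ _)
      (kcont.stronglyMeasurableAtFilter _ _) kcont.continuousAt
  have ht := hder.tendsto_slope_zero_right
  simp only [zero_add, intervalIntegral.integral_same, sub_zero, smul_eq_mul] at ht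
  have ht2 : Tendsto (fun δ : ℝ => δ⁻¹ * ∫ c in (0:ℝ)..δ, k c) (𝓝[>] 0)
      (𝓝 (∫ x, f x ∂mu)) := by
    refine Tendsto.congr' ?_ tendsto_const_nhds
    filter_upwards [Ioc_mem_nhdsGT (zero_lt_one' ℝ)] with δ hδ
    rw [hint δ hδ.1 hδ.2, ← mul_assoc, inv_mul_cancel₀ hδ.1.ne', one_mul]
  have := tendsto_nhds_unique ht ht2
  rw [← this, hk]
  simp [ce_zero]

end Pool.Agent.H878
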