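import Mathlib

/-! Product weights on the binary cube, the product formula and the variance bound. -/

open Finset

namespace H878L

/-- the one-bit weight: bias `e` towards `0` -/
noncomputable def pb (e : ℝ) (b : ZMod 2) : ℝ := if b = 0 then (1 + e) / 2 else (1 - e) / 2

/-- the product weight on the cube -/
noncomputable def wt (e : ℝ) {n : ℕ} (x : Fin n → ZMod 2) : ℝ := ∏ i, pb e (x i)

lemma sum_zmod2 (f : ZMod 2 → ℝ) : ∑ b, f b = f 0 + f 1 := by
  exact Fin.sum_univ_two f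

lemma pb_zero (e : ℝ) : pb e 0 = (1 + e) / 2 := by simp [pb]
lemma pb_one (e : ℝ) : pb e 1 = (1 - e) / 2 := by simp [pb]

lemma zmod2_cases (b : ZMod 2) : b = 0 ∨ b = 1 := by
  revert b; decide

lemma zmod2_add_self (b : ZMod 2) : b + b = 0 := by
  revert b; decide

lemma pb_sum (e : ℝ) : ∑ b, pb e b = 1 := by
  rw [sum_zmod2, pb_zero, pb_one]; ring

lemma pb_pos {e : ℝ} (h0 : 0 ≤ e) (h1 : e < 1) (b : ZMod 2) : 0 < pb e b := by
  rcases zmod2_cases b with rfl | rfl
  · rw [pb_zero]; linarith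
  · rw [pb_one]; linarith

lemma pb_nonneg {e : ℝ} (h0 : 0 ≤ e) (h1 : e ≤ 1) (b : ZMod 2) : 0 ≤ pb e b := by
  rcases zmod2_cases b with rfl | rfl
  · rw [pb_zero]; linarith
  · rw [pb_one]; linarith

lemma wt_pos {e : ℝ} (h0 : 0 ≤ e) (h1 : e < 1) {n : ℕ} (x : Fin n → ZMod 2) : 0 < wt e x :=
  Finset.prod_pos fun i _ => pb_pos h0 h1 _

lemma wt_nonneg {e : ℝ} (h0 : 0 ≤ e) (h1 : e ≤ 1) {n : ℕ} (x : Fin n → ZMod 2) : 0 ≤ wt e x :=
  Finset.prod_nonneg fun i _ => pb_nonneg h0 h1 _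

lemma prod_formula {n : ℕ} (φ : Fin n → ZMod 2 → ℝ) :
    ∑ x : Fin n → ZMod 2, ∏ i, φ i (x i) = ∏ i, ∑ b, φ i b := by
  rw [Finset.prod_univ_sum]
  simp [Fintype.piFinset_univ]

lemma wt_sum (e : ℝ) (n : ℕ) : ∑ x : Fin n → ZMod 2, wt e x = 1 := by
  unfold wt
  rw [prod_formula (fun _ => pb e)]
  simp [pb_sum]

/-- marginals -/
lemma wt_marginal (e : ℝ) {n : ℕ} (a : Fin n) (g : ZMod 2 → ℝ) :
    ∑ x : Fin n → ZMod 2, wt e x * g (x a) = ∑ b, pb e b * g b := by
  have h : ∀ x : Fin n → ZMod 2, wt e x * g (x a) =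
      ∏ i, (pb e (x i) * (if i = a then g (x i) else 1)) := by
    intro x
    rw [Finset.prod_mul_distrib]
    congr 1
    rw [Finset.prod_ite_eq' Finset.univ a]
    simp
  simp_rw [h]
  rw [prod_formula (fun i b => pb e b * (if i = a then g b else 1))]
  rw [Finset.prod_eq_single a]
  · simp
  · intro i _ hi
    simp [hi, pb_sum]
  · simp

lemma hd_sum {n : ℕ} (x y : Fin n → ZMod 2) :
    hammingDist x y = ∑ i, if x i ≠ y i then 1 else 0 := by
  simp only [hammingDist, Finset.card_filter]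

/-- Efron-Stein on the cube: a `1`-Lipschitz function has variance at most `n / 4`. -/
lemma var_lip {e : ℝ} (h0 : 0 ≤ e) (h1 : e ≤ 1) : ∀ (n : ℕ) (f : (Fin n → ZMod 2) → ℝ),
    (∀ x y, |f x - f y| ≤ hammingDist x y) →
    ∑ x, wt e x * f x ^ 2 ≤ (∑ x, wt e x * f x) ^ 2 + n / 4 := by
  intro n
  induction n with
  | zero =>
    intro f _
    simp [wt]
  | succ n ih =>
    intro f hf
    have key : ∀ g : (Fin (n+1) → ZMod 2) → ℝ, ∑ x, wt e x * g x
        = ∑ b : ZMod 2, pb e b * ∑ y : Fin n → ZMod 2, wt e y * g (Fin.cons b y) := by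
      intro g
      rw [← (Fin.consEquiv (fun _ => ZMod 2)).sum_comp, Fintype.sum_prod_type]
      refine Finset.sum_congr rfl fun b _ => ?_
      rw [Finset.mul_sum]
      refine Finset.sum_congr rfl fun y _ => ?_
      have : wt e (Fin.cons b y : Fin (n+1) → ZMod 2) = pb e b * wt e y := by
        unfold wt
        rw [Fin.prod_univ_succ]
        simp
      simp only [Fin.consEquiv, Equiv.coe_fn_mk]
      rw [this]; ring
    set F : ZMod 2 → ℝ := fun b => ∑ y : Fin n → ZMod 2, wt e y * f (Fin.cons b y) with hF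
    have hIH : ∀ b, ∑ y : Fin n → ZMod 2, wt e y * f (Fin.cons b y) ^ 2 ≤ F b ^ 2 + n / 4 := by
      intro b
      apply ih (fun y => f (Fin.cons b y))
      intro x y
      refine (hf _ _).trans ?_
      have : hammingDist (Fin.cons b x : Fin (n+1) → ZMod 2) (Fin.cons b y) = hammingDist x y := by
        rw [hd_sum, hd_sum, Fin.sum_univ_succ]
        simp
      rw [this]
    have hdiff : |F 0 - F 1| ≤ 1 := by
      have : F 0 - F 1 = ∑ y : Fin n → ZMod 2, wt e y * (f (Fin.cons 0 y) - f (Fin.cons 1 y)) := by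
        simp only [hF, mul_sub, Finset.sum_sub_distrib]
      rw [this]
      refine (Finset.abs_sum_le_sum_abs _ _).trans ?_
      calc ∑ y : Fin n → ZMod 2, |wt e y * (f (Fin.cons 0 y) - f (Fin.cons 1 y))|
          ≤ ∑ y : Fin n → ZMod 2, wt e y * 1 := by
            refine Finset.sum_le_sum fun y _ => ?_
            rw [abs_mul, abs_of_nonneg (wt_nonneg h0 h1 y)]
            refine mul_le_mul_of_nonneg_left ?_ (wt_nonneg h0 h1 y)
            refine (hf _ _).trans ?_
            have : hammingDist (Fin.cons 0 y : Fin (n+1) → ZMod 2) (Fin.cons 1 y) ≤ 1 := by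
              rw [hd_sum, Fin.sum_univ_succ]
              simp
            exact_mod_cast this
        _ = 1 := by simp [wt_sum]
    rw [key, key]
    have h01 : ∑ b : ZMod 2, pb e b * ∑ y : Fin n → ZMod 2, wt e y * f (Fin.cons b y) ^ 2
        ≤ ∑ b : ZMod 2, pb e b * (F b ^ 2 + n / 4) :=
      Finset.sum_le_sum fun b _ => mul_le_mul_of_nonneg_left (hIH b) (pb_nonneg h0 h1 b)
    refine h01.trans ?_
    have h2 : ∑ b : ZMod 2, pb e b * ∑ y : Fin n → ZMod 2, wt e y * f (Fin.cons b y)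
        = ∑ b : ZMod 2, pb e b * F b := rfl
    rw [h2]
    simp only [sum_zmod2, pb_zero, pb_one]
    push_cast
    have h3 : (F 0 - F 1) ^ 2 ≤ 1 := by
      rw [← sq_abs]; nlinarith [abs_nonneg (F 0 - F 1)]
    nlinarith [sq_nonneg e, sq_nonneg (F 0 - F 1), mul_nonneg (sq_nonneg e) (sq_nonneg (F 0 - F 1))]

/-- Chebyshev for a `1`-Lipschitz function. -/
lemma cheb {e : ℝ} (h0 : 0 ≤ e) (h1 : e ≤ 1) (n : ℕ) (f : (Fin n → ZMod 2) → ℝ)
    (hf : ∀ x y, |f x - f y| ≤ hammingDist x y) {s : ℝ} (hs : 0 < s)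
    (P : (Fin n → ZMod 2) → Prop) [DecidablePred P]
    (hP : ∀ x, P x → s ≤ |f x - ∑ y, wt e y * f y|) :
    ∑ x with P x, wt e x ≤ n / 4 / s ^ 2 := by
  set m := ∑ y, wt e y * f y with hm
  have hv := var_lip h0 h1 n f hf
  have h2 : ∑ x, wt e x * (f x - m) ^ 2 ≤ n / 4 := by
    have : ∑ x, wt e x * (f x - m) ^ 2
        = ∑ x, wt e x * f x ^ 2 - 2 * m * ∑ x, wt e x * f x + m ^ 2 * ∑ x : Fin n → ZMod 2, wt e x := by
      rw [Finset.mul_sum (s := Finset.univ) (a := 2 * m), Finset.mul_sum (s := Finset.univ) (a := m ^ 2),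
        ← Finset.sum_sub_distrib, ← Finset.sum_add_distrib]
      refine Finset.sum_congr rfl fun x _ => ?_
      ring
    rw [this, wt_sum, ← hm]
    rw [← hm] at hv
    nlinarith
  rw [le_div_iff₀ (by positivity)]
  calc (∑ x with P x, wt e x) * s ^ 2 = ∑ x with P x, wt e x * s ^ 2 := by rw [Finset.sum_mul]
    _ ≤ ∑ x with P x, wt e x * (f x - m) ^ 2 := by
        refine Finset.sum_le_sum fun x hx => ?_
        have hx' := hP x (Finset.mem_filter.1 hx).2
        refine mul_le_mul_of_nonneg_left ?_ (wt_nonneg h0 h1 x)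
        rw [← sq_abs (f x - m)]
        exact pow_le_pow_left₀ hs.le hx' 2
    _ ≤ ∑ x, wt e x * (f x - m) ^ 2 :=
        Finset.sum_le_sum_of_subset_of_nonneg (Finset.filter_subset _ _)
          fun x _ _ => mul_nonneg (wt_nonneg h0 h1 x) (sq_nonneg _)
    _ ≤ n / 4 := h2

end H878L
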