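import Pool.Agent.H878.Levy9

/-! Large translations inside one block: density, asymptotic independence, and the final
contradiction for Type III. -/

open Finset Filter Topology MeasureTheory ProbabilityTheory

namespace H878L

/-- translation by `v` in block `j` -/
noncomputable def sg (j : ℕ) (v : KK j) : ZZ := Pi.single j v

lemma sg_same (j : ℕ) (v : KK j) : sg j v j = v := Pi.single_eq_same _ _
lemma sg_ne {i j : ℕ} (h : i ≠ j) (v : KK j) : sg j v i = 0 := Pi.single_eq_of_ne h _

lemma sg_mem (j : ℕ) (v : KK j) : sg j v ∈ FF := single_mem_FF j v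

lemma ZZ_add_self (z : ZZ) : z + z = 0 := by funext i; exact KK_add_self _

lemma sg_add_sg (j : ℕ) (v : KK j) (z : ZZ) : z + sg j v + sg j v = z := by
  rw [add_assoc, ZZ_add_self, add_zero]

theorem nu_map_single (j : ℕ) (v : KK j) :
    nu.map (fun z => z + sg j v) = nu.withDensity (fun z => ENNReal.ofReal (rho v (z j))) := by
  classical
  rw [nu_map]
  have : ∀ i, IsProbabilityMeasure ((bj i).map (fun x => x + sg j v i)) := fun i =>
    Measure.isProbabilityMeasure_map (Measurable.of_discrete).aemeasurable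
  symm
  refine Measure.eq_infinitePi _ fun s t ht => ?_
  set s' := insert j s with hs'
  set t' : ∀ i, Set (KK i) := fun i => if i ∈ s then t i else Set.univ with ht'
  have hbox : Set.pi (s : Set ℕ) t = Set.pi (s' : Set ℕ) t' := by
    ext z
    simp only [Set.mem_pi]
    constructor
    · intro h i _
      by_cases hi : i ∈ s
      · simp only [ht', hi, if_true]; exact h i hi
      · simp [ht', hi]
    · intro h i hi
      have hi' : i ∈ s := hi
      have := h i (by simp [hs', hi'])
      simpa only [ht', hi', if_true] using this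
  have hprod : ∏ i ∈ s, ((bj i).map (fun x => x + sg j v i)) (t i) =
      ∏ i ∈ s', ((bj i).map (fun x => x + sg j v i)) (t' i) := by
    have h1 : ∏ i ∈ s, ((bj i).map (fun x => x + sg j v i)) (t i) =
        ∏ i ∈ s, ((bj i).map (fun x => x + sg j v i)) (t' i) := by
      refine Finset.prod_congr rfl fun i hi => ?_
      simp only [ht', hi, if_true]
    rw [h1, hs']
    by_cases hj : j ∈ s
    · rw [Finset.insert_eq_of_mem hj]
    · rw [Finset.prod_insert hj]
      simp only [ht', hj, if_false, measure_univ, one_mul]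
  rw [hprod, hbox]
  have hBm : MeasurableSet (Set.pi (s' : Set ℕ) t') :=
    MeasurableSet.pi s'.countable_toSet fun i _ => MeasurableSet.of_discrete
  rw [withDensity_apply _ hBm]
  set f : ∀ i, KK i → ℝ := fun i => (t' i).indicator (rho (sg j v i)) with hf
  have hrho0 : ∀ i (x : KK i), rho 0 x = 1 := by
    intro i x
    unfold rho
    rw [add_zero, div_self (wje_pos x).ne']
  have h1 : ∀ z, (Set.pi (s' : Set ℕ) t').indicator (fun z => rho v (z j)) z = ∏ i ∈ s', f i (z i) := by
    intro z
    by_cases hz : z ∈ Set.pi (s' : Set ℕ) t'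
    · rw [Set.indicator_of_mem hz]
      have h2 : ∀ i ∈ s', f i (z i) = rho (sg j v i) (z i) := by
        intro i hi
        simp only [hf]
        rw [Set.indicator_of_mem (hz i hi)]
      rw [Finset.prod_congr rfl h2, Finset.prod_eq_single_of_mem j (by simp [hs'])]
      · rw [sg_same]
      · intro i _ hij
        rw [sg_ne hij, hrho0]
    · rw [Set.indicator_of_notMem hz]
      simp only [Set.mem_pi, not_forall] at hz
      obtain ⟨i, hi, hzi⟩ := hz
      symm
      refine Finset.prod_eq_zero (i := i) hi ?_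
      simp only [hf]
      rw [Set.indicator_of_notMem hzi]
  have hint : ∀ i, Integrable (f i) (bj i) := fun i => Integrable.of_finite
  have hint2 : Integrable (fun z : ZZ => rho v (z j)) nu := by
    have := integrable_prod_coord bj {j} (f := fun i => rho (sg j v i)) (fun i => Integrable.of_finite)
    refine this.congr (Eventually.of_forall fun z => ?_)
    simp only [Finset.prod_singleton, sg_same]
  rw [← ofReal_integral_eq_lintegral_ofReal hint2.integrableOn
    (Eventually.of_forall fun z => rho_nonneg _ _), ← integral_indicator hBm,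
    integral_congr_ae (Eventually.of_forall h1)]
  unfold nu
  rw [integral_prod_coord bj s' hint, ENNReal.ofReal_prod_of_nonneg]
  · refine Finset.prod_congr rfl fun i _ => ?_
    rw [bj_map, withDensity_apply _ MeasurableSet.of_discrete,
      ← ofReal_integral_eq_lintegral_ofReal (Integrable.of_finite)
        (Eventually.of_forall fun x => rho_nonneg _ _)]
    simp only [hf]
    rw [integral_indicator MeasurableSet.of_discrete]
  · intro i _
    refine integral_nonneg fun x => ?_
    exact Set.indicator_nonneg (fun x _ => rho_nonneg _ _) x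

/-- the chosen large vector of block `i+1` -/
def vv (i : ℕ) : KK (i+1) := fun a => if (a : ℕ) < 2 ^ (6 * kk i + 2) then 1 else 0

lemma hw_vv (i : ℕ) : hw (vv i) = 2 ^ (6 * kk i + 2) := by
  have h1 : hw (vv i) = #{a : Fin (kk (i+1)) | (a : ℕ) < 2 ^ (6 * kk i + 2)} := by
    unfold hw hammingNorm vv
    congr 1
    ext a
    simp only [Finset.mem_filter, Finset.mem_univ, true_and]
    by_cases h : (a : ℕ) < 2 ^ (6 * kk i + 2) <;> simp [h]
  rw [h1, Fin.card_filter_val_lt, kk_succ]
  apply min_eq_right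
  exact Nat.pow_le_pow_right (by norm_num) (by have := kk_pos i; omega)

lemma hw_vv_mul (i : ℕ) : (hw (vv i) : ℝ) * ee (i+1) ^ 2 = 4 := by
  rw [hw_vv, ee_succ, ← pow_mul]
  push_cast
  rw [show 3 * kk i * 2 = 6 * kk i by ring, pow_add, mul_right_comm, ← mul_pow]
  norm_num

lemma half_vv (i : ℕ) : 1 / 2 ≤ (nu.real {z | rho (vv i) (z (i+1)) ≤ 1 / 2}) := by
  classical
  have h1 : nu {z | z (i+1) ∈ {x : KK (i+1) | 1 / 2 < rho (vv i) x}} ≤ ENNReal.ofReal (1 / 2) := by
    rw [nu_eval]
    unfold bj
    rw [bm_apply (ee_nonneg _) (ee_le_one _)]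
    apply ENNReal.ofReal_le_ofReal
    have h := half_le (ee_nonneg (i+1)) (ee_lt (i+1)) (n := kk (i+1)) (vv i) (by
      have := hw_vv_mul i
      exact this.ge)
    refine (le_of_eq ?_).trans h
    refine Finset.sum_congr ?_ fun _ _ => rfl
    refine Finset.ext fun x => ?_
    have h3 : (1 / 2 < rho (vv i) x) ↔ wt (ee (i+1)) x / 2 < wt (n := kk (i+1)) (ee (i+1)) (x + vv i) := by
      have hp := wje_pos x
      unfold rho
      rw [lt_div_iff₀ hp]
      have : 1 / 2 * wj (ee (i+1)) x = wj (ee (i+1)) x / 2 := by ring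
      rw [this]
      exact Iff.rfl
    constructor
    · intro hx
      exact (@Finset.mem_filter (Fin (kk (i+1)) → ZMod 2) _ _ Finset.univ x).2
        ⟨@Finset.mem_univ (Fin (kk (i+1)) → ZMod 2) _ x, h3.1 (Finset.mem_filter.1 hx).2⟩
    · intro hx
      exact Finset.mem_filter.2 ⟨Finset.mem_univ _,
        h3.2 (@Finset.mem_filter (Fin (kk (i+1)) → ZMod 2) _ _ Finset.univ x |>.1 hx).2⟩
  have hm : MeasurableSet {z : ZZ | rho (vv i) (z (i+1)) ≤ 1 / 2} :=
    measurable_pi_apply (i+1) (MeasurableSet.of_discrete (s := {x : KK (i+1) | rho (vv i) x ≤ 1 / 2}))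
  have hc : {z : ZZ | z (i+1) ∈ {x : KK (i+1) | 1 / 2 < rho (vv i) x}} = {z | rho (vv i) (z (i+1)) ≤ 1 / 2}ᶜ := by
    ext z; simp
  rw [hc] at h1
  have h2 := probReal_compl_eq_one_sub (μ := nu) hm
  have h3 : nu.real ({z : ZZ | rho (vv i) (z (i+1)) ≤ 1 / 2}ᶜ) ≤ 1 / 2 := by
    rw [measureReal_def]
    exact ENNReal.toReal_le_of_le_ofReal (by norm_num) h1
  linarith

lemma chi2_vv (i : ℕ) : ∑ x : KK (i+1), wj (ee (i+1)) x * rho (vv i) x ^ 2 ≤ Real.exp 32 := by
  have h := chi2 (ee_nonneg (i+1)) (ee_lt (i+1)) (n := kk (i+1)) (vv i)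
  have h1 : ∑ x : KK (i+1), wj (ee (i+1)) x * rho (vv i) x ^ 2 =
      ∑ x : KK (i+1), wj (ee (i+1)) (x + vv i) ^ 2 / wj (ee (i+1)) x := by
    refine Finset.sum_congr rfl fun x _ => ?_
    unfold rho
    have := (wje_pos x).ne'
    field_simp
  rw [h1]
  refine (le_of_eq h).trans ?_
  set u := ee (i+1) ^ 2 with hu
  have hu0 : 0 ≤ u := sq_nonneg _
  have hu1 : u ≤ 1 / 4 := by
    rw [hu]; nlinarith [ee_nonneg (i+1), ee_le (i+1)]
  have h2 : (1 + 3 * u) / (1 - u) ≤ Real.exp (8 * u) := by
    have h3 : (1 + 3 * u) / (1 - u) ≤ 8 * u + 1 := by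
      rw [div_le_iff₀ (by linarith)]; nlinarith
    exact h3.trans (Real.add_one_le_exp _)
  have h4 : 0 ≤ (1 + 3 * u) / (1 - u) := div_nonneg (by linarith) (by linarith)
  have h5 := hw_vv_mul i
  calc ((1 + 3 * u) / (1 - u)) ^ hammingNorm (β := fun _ : Fin (kk (i+1)) => ZMod 2) (vv i)
      ≤ Real.exp (8 * u) ^ hammingNorm (β := fun _ : Fin (kk (i+1)) => ZMod 2) (vv i) :=
        pow_le_pow_left₀ h4 h2 _
    _ = Real.exp ((hw (vv i) : ℝ) * (8 * u)) := by rw [← Real.exp_nat_mul]; rfl
    _ = Real.exp 32 := by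
        congr 1
        rw [← hu] at h5
        linarith

/-- uniform absolute continuity of the large translations -/
lemma shift_small (i : ℕ) {D : Set ZZ} (hD : MeasurableSet D) {L : ℝ} (hL : 0 < L) :
    nu.real ((fun z => z + sg (i+1) (vv i)) ⁻¹' D) ≤ L * nu.real D + Real.exp 32 / L := by
  have hmap : nu ((fun z => z + sg (i+1) (vv i)) ⁻¹' D)
      = ∫⁻ z in D, ENNReal.ofReal (rho (vv i) (z (i+1))) ∂nu := by
    rw [← Measure.map_apply (meas_add_const _) hD, nu_map_single, withDensity_apply _ hD]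
  have hint : ∀ f : KK (i+1) → ℝ, Integrable (fun z : ZZ => f (z (i+1))) nu := by
    intro f
    have := (measurePreserving_eval_infinitePi bj (i+1)).integrable_comp_of_integrable
      (g := f) Integrable.of_finite
    exact this
  have hreal : nu.real ((fun z => z + sg (i+1) (vv i)) ⁻¹' D) = ∫ z in D, rho (vv i) (z (i+1)) ∂nu := by
    rw [measureReal_def, hmap, ← ofReal_integral_eq_lintegral_ofReal (hint (rho (vv i))).integrableOn
      (Eventually.of_forall fun z => rho_nonneg _ _), ENNReal.toReal_ofReal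
      (integral_nonneg fun z => rho_nonneg _ _)]
  rw [hreal]
  have hpt : ∀ r : ℝ, 0 ≤ r → r ≤ L + r ^ 2 / L := by
    intro r hr
    rcases le_total r L with h | h
    · have : 0 ≤ r ^ 2 / L := by positivity
      linarith
    · have : r ≤ r ^ 2 / L := by
        rw [le_div_iff₀ hL]; nlinarith
      linarith
  have hint2 : Integrable (fun z : ZZ => rho (vv i) (z (i+1)) ^ 2 / L) nu :=
    hint (fun x => rho (vv i) x ^ 2 / L)
  calc ∫ z in D, rho (vv i) (z (i+1)) ∂nu
      ≤ ∫ z in D, (L + rho (vv i) (z (i+1)) ^ 2 / L) ∂nu := by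
        refine integral_mono (hint (rho (vv i))).integrableOn
          ((integrable_const L).add hint2).integrableOn fun z => hpt _ (rho_nonneg _ _)
    _ = L * nu.real D + ∫ z in D, rho (vv i) (z (i+1)) ^ 2 / L ∂nu := by
        rw [integral_add (integrable_const L) hint2.integrableOn]
        simp [mul_comm]
    _ ≤ L * nu.real D + ∫ z, rho (vv i) (z (i+1)) ^ 2 / L ∂nu := by
        have := setIntegral_le_integral (s := D) hint2 (Eventually.of_forall fun z => by positivity)
        linarith
    _ ≤ L * nu.real D + Real.exp 32 / L := by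
        have h1 : ∫ z, rho (vv i) (z (i+1)) ^ 2 / L ∂nu = ∫ x, rho (vv i) x ^ 2 / L ∂(bj (i+1)) := by
          have h2 := (measurePreserving_eval_infinitePi bj (i+1))
          have h3 := integral_map (μ := nu) (φ := fun z : ZZ => z (i+1)) h2.measurable.aemeasurable
            (f := fun x : KK (i+1) => rho (vv i) x ^ 2 / L) (by
              exact (Measurable.of_discrete).aestronglyMeasurable)
          have h4 : nu.map (fun z : ZZ => z (i+1)) = bj (i+1) := h2.map_eq
          rw [h4] at h3
          exact h3.symm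
        rw [h1, integral_div, bj_integral]
        have := chi2_vv i
        gcongr

/-- asymptotic invariance contradicts concentration of the densities below one half -/
theorem no_level {A : Set ZZ} (hA : MeasurableSet A) (hpos : 0 < nu A)
    (h : ∀ i, nu (A ∩ (fun z => z + sg (i+1) (vv i)) ⁻¹' A ∩ {z | rho (vv i) (z (i+1)) ≤ 1 / 2}) = 0) :
    False := by
  set a := nu.real A with ha
  have ha0 : 0 < a := by
    rw [ha, measureReal_def]
    exact ENNReal.toReal_pos hpos.ne' (measure_ne_top _ _)
  set L : ℝ := 8 * Real.exp 32 / a with hL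
  have hL0 : 0 < L := by positivity
  set δ : ℝ := a / (16 * (3 + L)) with hδ
  have hδ0 : 0 < δ := by positivity
  have hdense := Measure.MeasureDense.of_generateFrom_isSetAlgebra_finite (μ := nu)
    (isSetAlgebra_measurableCylinders (α := KK)) (generateFrom_measurableCylinders).symm
  obtain ⟨C, hC, hAC⟩ := hdense.approx A hA (measure_ne_top _ _) δ hδ0
  obtain ⟨s, S, hS, rfl⟩ := (mem_measurableCylinders C).1 hC
  obtain ⟨i, hi⟩ : ∃ i, i + 1 ∉ s := by
    refine ⟨s.sup id, fun hmem => ?_⟩
    have := Finset.le_sup (f := id) hmem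
    simp only [id] at this; omega
  set C := cylinder s S with hCdef
  have hCm : MeasurableSet C := hS.cylinder
  set T : Set ZZ := {z | rho (vv i) (z (i+1)) ≤ 1 / 2} with hT
  have hTm : MeasurableSet T :=
    measurable_pi_apply (i+1) (MeasurableSet.of_discrete (s := {x : KK (i+1) | rho (vv i) x ≤ 1 / 2}))
  set τ : ZZ → ZZ := fun z => z + sg (i+1) (vv i) with hτ
  have hτm : Measurable τ := meas_add_const _
  -- independence
  have hindep : nu (C ∩ T) = nu C * nu T := by
    have h1 := iIndepFun_infinitePi (P := bj) (X := fun i (x : KK i) => x) (fun i => measurable_id)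
    have h2 := h1.indepFun_finset s {i+1} (by simpa using hi) (fun i => measurable_pi_apply i)
    have h3 := (indepFun_iff_measure_inter_preimage_eq_mul.1 h2) S
      ((fun y : (∀ k : ({i+1} : Finset ℕ), KK k) => y ⟨i+1, by simp⟩) ⁻¹' {x : KK (i+1) | rho (vv i) x ≤ 1 / 2})
      hS ((measurable_pi_apply _) (MeasurableSet.of_discrete))
    exact h3
  have hCT : nu.real (C ∩ T) = nu.real C * nu.real T := by
    rw [measureReal_def, hindep, ENNReal.toReal_mul]; rfl
  -- cylinder is invariant
  have hCinv : ∀ z, z ∈ C → τ z ∈ C := by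
    intro z hz
    rw [hCdef, mem_cylinder] at hz ⊢
    have : s.restrict (τ z) = s.restrict z := by
      funext k
      have hk : (k : ℕ) ≠ i + 1 := fun h => hi (h ▸ k.2)
      simp only [Finset.restrict, hτ, Pi.add_apply]
      rw [sg_ne hk, add_zero]
    rw [this]; exact hz
  -- approximations
  have hAC1 : nu.real (A \ C) ≤ δ := by
    rw [measureReal_def]
    refine ENNReal.toReal_le_of_le_ofReal hδ0.le ?_
    exact (measure_mono (by intro z hz; exact Or.inl hz)).trans hAC.le
  have hCA1 : nu.real (C \ A) ≤ δ := by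
    rw [measureReal_def]
    refine ENNReal.toReal_le_of_le_ofReal hδ0.le ?_
    exact (measure_mono (by intro z hz; exact Or.inr hz)).trans hAC.le
  have hCa : a - δ ≤ nu.real C := by
    have h1 : A ⊆ C ∪ (A \ C) := by intro z hz; by_cases h : z ∈ C; exacts [Or.inl h, Or.inr ⟨hz, h⟩]
    have h2 : nu.real A ≤ nu.real C + nu.real (A \ C) :=
      (measureReal_mono h1).trans (measureReal_union_le _ _)
    linarith
  have hThalf : 1 / 2 ≤ nu.real T := half_vv i
  -- lower bound
  have hlow : (a - δ) / 2 - δ ≤ nu.real (A ∩ T) := by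
    have h1 : C ∩ T ⊆ (A ∩ T) ∪ (C \ A) := by
      rintro z ⟨hz1, hz2⟩
      by_cases h : z ∈ A
      exacts [Or.inl ⟨h, hz2⟩, Or.inr ⟨hz1, h⟩]
    have h2 : nu.real (C ∩ T) ≤ nu.real (A ∩ T) + nu.real (C \ A) :=
      (measureReal_mono h1).trans (measureReal_union_le _ _)
    have h3 : (a - δ) / 2 ≤ nu.real (C ∩ T) := by
      rw [hCT]
      have : 0 ≤ nu.real C := measureReal_nonneg
      nlinarith
    linarith
  -- upper bound
  have hup : nu.real (A ∩ T) ≤ δ + (L * δ + Real.exp 32 / L) := by
    have h1 : A ∩ T ⊆ (A ∩ τ ⁻¹' A ∩ T) ∪ ((A \ C) ∪ τ ⁻¹' (C \ A)) := by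
      rintro z ⟨hz1, hz2⟩
      by_cases hza : τ z ∈ A
      · exact Or.inl ⟨⟨hz1, hza⟩, hz2⟩
      · by_cases hzc : z ∈ C
        · exact Or.inr (Or.inr ⟨hCinv z hzc, hza⟩)
        · exact Or.inr (Or.inl ⟨hz1, hzc⟩)
    have h2 : nu.real (A ∩ τ ⁻¹' A ∩ T) = 0 := by rw [measureReal_def, h i]; rfl
    have h3 := shift_small i (hCm.diff hA) hL0
    have h4 : nu.real (A ∩ T) ≤ nu.real (A ∩ τ ⁻¹' A ∩ T) + (nu.real (A \ C) + nu.real (τ ⁻¹' (C \ A))) :=
      (measureReal_mono h1).trans ((measureReal_union_le _ _).trans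
        (add_le_add le_rfl (measureReal_union_le _ _)))
    have h5 : L * nu.real (C \ A) ≤ L * δ := mul_le_mul_of_nonneg_left hCA1 hL0.le
    have h6 : nu.real (τ ⁻¹' (C \ A)) ≤ L * nu.real (C \ A) + Real.exp 32 / L := h3
    linarith
  have hK : Real.exp 32 / L = a / 8 := by
    rw [hL]; have := (Real.exp_pos 32).ne'; field_simp
  have hδ2 : (3 + L) * δ = a / 16 := by
    rw [hδ]; field_simp
  nlinarith

end H878L
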