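import Pool.Agent.H878.Levy10

/-! The action on the fundamental domain: nonsingular, ergodic, and without equivalent invariant
measure. -/

open Finset Filter Topology MeasureTheory ProbabilityTheory

namespace H878L

/-- the embedding of the fundamental domain is measurable -/
lemma emb : MeasurableEmbedding (Subtype.val : XX → ZZ) := MeasurableEmbedding.subtype_coe DD_meas

/-- the trace of a measure on the fundamental domain -/
noncomputable def tX (lam : Measure ZZ) : Measure XX := lam.comap Subtype.val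

lemma tX_apply (lam : Measure ZZ) (A : Set XX) : tX lam A = lam (Subtype.val '' A) :=
  emb.comap_apply lam A

/-- measures on `ZZ` whose null sets are invariant under summable translations -/
def QI (lam : Measure ZZ) : Prop :=
  ∀ c : ZZ, (Summable fun i => ‖c i‖) → lam.map (fun z => z + c) ≪ lam

lemma QI_preimage {lam : Measure ZZ} (h : QI lam) {c : ZZ} (hc : Summable fun i => ‖c i‖) {A : Set ZZ}
    (hA : MeasurableSet A) (h0 : lam A = 0) : lam ((fun z => z + c) ⁻¹' A) = 0 := by
  rw [← Measure.map_apply (meas_add_const c) hA]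
  exact h c hc h0

lemma nu_QI : QI nu := fun c hc => nu_ac c hc

lemma cE_NN_summable (e : EE) {c : ZZ} (hc : c ∈ NN) : Summable fun i => ‖(cE e + c) i‖ := by
  refine Summable.of_nonneg_of_le (fun i => norm_nonneg _) (fun i => norm_add_le _ _)
    ((EE_summable e).add (FF_summable (NN_le_FF hc)))

attribute [local irreducible] actG in
lemma actG_meas_fix (g : GG) : Measurable (actG g) := by
  have h := actG_meas.comp (measurable_prodMk_left (x := g) (β := XX))
  exact h

lemma tX_qi {lam : Measure ZZ} (h : QI lam) (g : GG) : (tX lam).map (actG g) ≪ tX lam := by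
  refine Measure.AbsolutelyContinuous.mk fun A hA h0 => ?_
  rw [Measure.map_apply (actG_meas_fix g) hA, tX_apply]
  rw [tX_apply] at h0
  obtain ⟨e, rfl⟩ := QuotientAddGroup.mk_surjective g
  have hA' : MeasurableSet (Subtype.val '' A : Set ZZ) := emb.measurableSet_image.2 hA
  refine measure_mono_null (t := ⋃ c : NN, (fun z => z + (cE e + (c : ZZ))) ⁻¹' (Subtype.val '' A)) ?_ ?_
  · rintro _ ⟨x, hx, rfl⟩
    rw [Set.mem_preimage, actG_mk] at hx
    obtain ⟨_, c, hc, h2⟩ := rr_spec (Z1_add_E (DD_sub x.2) e)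
    refine Set.mem_iUnion.2 ⟨⟨c, hc⟩, ?_⟩
    refine ⟨actE e x, hx, ?_⟩
    rw [actE_coe, h2]; simp only [add_assoc]
  · exact measure_iUnion_null fun c => QI_preimage h (cE_NN_summable e c.2) hA' h0

lemma tX_qi' {lam : Measure ZZ} (h : QI lam) (g : GG) : tX lam ≪ (tX lam).map (actG g) := by
  refine Measure.AbsolutelyContinuous.mk fun A hA h0 => ?_
  rw [Measure.map_apply (actG_meas_fix g) hA] at h0
  have h2 := tX_qi h (-g) h0
  rw [Measure.map_apply (actG_meas_fix _) (actG_meas_fix g hA)] at h2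
  have h3 : (actG (-g)) ⁻¹' ((actG g) ⁻¹' A) = A := by
    ext x
    rw [Set.mem_preimage, Set.mem_preimage, ← actG_add, add_neg_cancel, actG_zero]
  rwa [h3] at h2

lemma exists_cE {c : ZZ} (hc : c ∈ FF) : ∃ e : EE, cE e = c := by
  obtain ⟨J, hJ⟩ := hc
  refine ⟨tr J (fun i => c i), ?_⟩
  unfold tr
  rw [map_sum]
  simp_rw [cE_single]
  funext n
  rw [Finset.sum_apply]
  by_cases hn : n < J
  · rw [Finset.sum_eq_single (⟨n, hn⟩ : Fin J)]
    · simp
    · intro b _ hb
      rw [Pi.single_eq_of_ne]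
      intro h; apply hb; ext; exact h.symm
    · simp
  · rw [hJ n (by omega)]
    refine Finset.sum_eq_zero fun b _ => ?_
    rw [Pi.single_eq_of_ne]
    intro h; have := b.2; omega

/-- ergodicity is inherited from the zero-one law -/
lemma erg_of {lam : Measure ZZ}
    (h01 : ∀ B : Set ZZ, MeasurableSet B → (∀ c ∈ FF, ∀ z, z ∈ B → z + c ∈ B) → lam B = 0 ∨ lam Bᶜ = 0)
    {A : Set XX} (hA : MeasurableSet A) (hinv : ∀ g x, x ∈ A → actG g x ∈ A) :
    tX lam A = 0 ∨ tX lam Aᶜ = 0 := by
  have hA' : MeasurableSet (Subtype.val '' A : Set ZZ) := emb.measurableSet_image.2 hA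
  set B : Set ZZ := Z1 ∩ rr ⁻¹' (Subtype.val '' A) with hB
  have hBm : MeasurableSet B := Z1_meas.inter (rr_meas hA')
  have hBinv : ∀ c ∈ FF, ∀ z, z ∈ B → z + c ∈ B := by
    rintro c hc z ⟨hz, x, hx, hxz⟩
    refine ⟨Z1_add_FF hz hc, ?_⟩
    obtain ⟨e, rfl⟩ := exists_cE hc
    obtain ⟨h1, c0, hc0, h2⟩ := rr_spec hz
    refine ⟨actG (e : GG) x, hinv _ x hx, ?_⟩
    rw [actG_mk, actE_coe, hxz, h2]
    have : z + c0 + cE e = z + cE e + c0 := by abel
    rw [this, rr_add (Z1_add_E hz e) hc0]
  rcases h01 B hBm hBinv with h | h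
  · left
    rw [tX_apply]
    refine measure_mono_null ?_ h
    rintro _ ⟨x, hx, rfl⟩
    exact ⟨DD_sub x.2, x, hx, (rr_of_DD x.2).symm⟩
  · right
    rw [tX_apply]
    refine measure_mono_null ?_ h
    rintro _ ⟨x, hx, rfl⟩ ⟨_, y, hy, hyx⟩
    rw [rr_of_DD x.2] at hyx
    exact hx (Subtype.ext hyx ▸ hy)

lemma tX_ne_zero {lam : Measure ZZ} (hq : QI lam) (hZ : ∀ᵐ z ∂lam, z ∈ Z1) (h0 : lam ≠ 0) :
    tX lam ≠ 0 := by
  intro h
  apply h0
  have h1 : lam DD = 0 := by
    have := tX_apply lam Set.univ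
    rw [h] at this
    simpa using this.symm
  have h2 : lam Z1 = 0 := by
    refine measure_mono_null (t := ⋃ c : NN, (fun z => z + (c : ZZ)) ⁻¹' DD) ?_ ?_
    · intro z hz
      obtain ⟨c, hc, hcD⟩ := exists_DD hz
      exact Set.mem_iUnion.2 ⟨⟨c, hc⟩, hcD⟩
    · exact measure_iUnion_null fun c =>
        QI_preimage hq (FF_summable (NN_le_FF c.2)) DD_meas h1
  have h3 : lam Z1ᶜ = 0 := hZ
  rw [← Measure.measure_univ_eq_zero, ← Set.union_compl_self Z1]
  exact measure_union_null h2 h3

/-- the orbit counting function -/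
noncomputable def oc (A : Set ZZ) (z : ZZ) : ENNReal := ∑' c : NN, A.indicator 1 (z + (c : ZZ))

lemma oc_meas {A : Set ZZ} (hA : MeasurableSet A) : Measurable (oc A) := by
  refine Measurable.tsum fun c => ?_
  exact (measurable_one.indicator hA).comp (meas_add_const _)

lemma oc_add {A : Set ZZ} (z : ZZ) (c : NN) : oc A (z + (c : ZZ)) = oc A z := by
  unfold oc
  rw [← (Equiv.addLeft c).tsum_eq (fun c' : NN => A.indicator 1 (z + (c' : ZZ)))]
  refine tsum_congr fun c' => ?_
  simp [add_assoc]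

/-- the lift of a measure on `X` to an `N`-invariant measure on `Z` -/
noncomputable def lift (m : Measure XX) : Measure ZZ :=
  Measure.sum fun c : NN => m.map (fun x : XX => (x : ZZ) + (c : ZZ))

lemma val_add_meas (c : ZZ) : Measurable (fun x : XX => (x : ZZ) + c) :=
  (meas_add_const c).comp measurable_subtype_coe

lemma lift_apply (m : Measure XX) {A : Set ZZ} (hA : MeasurableSet A) :
    lift m A = ∫⁻ x, oc A (x : ZZ) ∂m := by
  unfold lift oc
  rw [Measure.sum_apply _ hA, lintegral_tsum]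
  · refine tsum_congr fun c => ?_
    rw [Measure.map_apply (val_add_meas c) hA, ← lintegral_indicator_one (val_add_meas c hA)]
    rfl
  · intro c
    exact ((measurable_one.indicator hA).comp (val_add_meas c)).aemeasurable

lemma lift_inv (m : Measure XX) (hm : ∀ g, m.map (actG g) = m) {c : ZZ} (hc : c ∈ FF) :
    (lift m).map (fun z => z + c) = lift m := by
  obtain ⟨e, rfl⟩ := exists_cE hc
  ext A hA
  rw [Measure.map_apply (meas_add_const _) hA, lift_apply m (meas_add_const _ hA), lift_apply m hA]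
  have h1 : ∀ x : XX, oc ((fun z => z + cE e) ⁻¹' A) (x : ZZ) = oc A (actG (e : GG) x : ZZ) := by
    intro x
    have h2 : oc ((fun z => z + cE e) ⁻¹' A) (x : ZZ) = oc A ((x : ZZ) + cE e) := by
      unfold oc
      refine tsum_congr fun c => ?_
      have : (x : ZZ) + cE e + (c : ZZ) = (x : ZZ) + (c : ZZ) + cE e := by abel
      rw [this]; rfl
    rw [h2, actG_mk, actE_coe]
    obtain ⟨_, c0, hc0, h3⟩ := rr_spec (Z1_add_E (DD_sub x.2) e)
    rw [h3, oc_add _ ⟨c0, hc0⟩]
  simp_rw [h1]
  have h4 : Measurable (fun x : XX => oc A (x : ZZ)) := (oc_meas hA).comp measurable_subtype_coe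
  conv_rhs => rw [← hm (e : GG)]
  rw [lintegral_map h4 (actG_meas_fix _)]

lemma lift_ac {lam : Measure ZZ} (hq : QI lam) {m : Measure XX} (hm : m ≪ tX lam) : lift m ≪ lam := by
  refine Measure.AbsolutelyContinuous.mk fun A hA h0 => ?_
  unfold lift
  rw [Measure.sum_apply _ hA, ENNReal.tsum_eq_zero]
  intro c
  rw [Measure.map_apply (val_add_meas c) hA]
  apply hm
  rw [tX_apply]
  refine measure_mono_null ?_ (QI_preimage hq (FF_summable (NN_le_FF c.2)) hA h0)
  rintro _ ⟨x, hx, rfl⟩
  exact hx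

lemma lift_DD (m : Measure XX) {S : Set XX} (hS : MeasurableSet S) : lift m (Subtype.val '' S) = m S := by
  have hS' : MeasurableSet (Subtype.val '' S : Set ZZ) := emb.measurableSet_image.2 hS
  rw [lift_apply m hS', ← lintegral_indicator_one hS]
  refine lintegral_congr fun x => ?_
  unfold oc
  rw [tsum_eq_single 0]
  · simp only [ZeroMemClass.coe_zero, add_zero]
    by_cases hx : x ∈ S
    · rw [Set.indicator_of_mem hx, Set.indicator_of_mem (Set.mem_image_of_mem _ hx)]; rfl
    · rw [Set.indicator_of_notMem hx, Set.indicator_of_notMem]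
      rintro ⟨y, hy, hyx⟩
      exact hx (Subtype.ext hyx ▸ hy)
  · intro c hc
    rw [Set.indicator_of_notMem]
    rintro ⟨y, hy, hyx⟩
    have := unique_DD x.2 y.2 c.2 hyx
    apply hc
    apply Subtype.ext
    have h2 : (x : ZZ) + (c : ZZ) = (x : ZZ) + 0 := by rw [← hyx, ← this, add_zero]
    exact add_left_cancel h2

instance (m : Measure XX) [SFinite m] : SFinite (lift m) := by
  unfold lift; infer_instance

/-- there is no `σ`-finite invariant measure equivalent to the trace of `nu` -/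
theorem no_inv (m : Measure XX) [SigmaFinite m] (hinv : ∀ g, m.map (actG g) = m)
    (h1 : m ≪ tX nu) (h2 : tX nu ≪ m) : False := by
  have hnu0 : nu ≠ 0 := IsProbabilityMeasure.ne_zero nu
  have hX0 : tX nu ≠ 0 := tX_ne_zero nu_QI nu_Z1 hnu0
  set M := lift m with hM
  have hMac : M ≪ nu := lift_ac nu_QI h1
  set f := M.rnDeriv nu with hf
  have hfm : Measurable f := Measure.measurable_rnDeriv _ _
  have hMf : nu.withDensity f = M := Measure.withDensity_rnDeriv_eq M nu hMac
  -- the functional equation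
  have hfe : ∀ i, ∀ᵐ z ∂nu, f z = f (z + sg (i+1) (vv i)) * ENNReal.ofReal (rho (vv i) (z (i+1))) := by
    intro i
    set τ : ZZ → ZZ := fun z => z + sg (i+1) (vv i) with hτ
    have hτm : Measurable τ := meas_add_const _
    have hττ : ∀ z, τ (τ z) = z := fun z => sg_add_sg _ _ _
    have hrm : Measurable (fun z : ZZ => ENNReal.ofReal (rho (vv i) (z (i+1)))) :=
      (Measurable.of_discrete (f := fun x : KK (i+1) => ENNReal.ofReal (rho (vv i) x))).comp
        (measurable_pi_apply (i+1))
    refine ae_eq_of_forall_setLIntegral_eq_of_sigmaFinite hfm ((hfm.comp hτm).mul hrm) ?_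
    intro A hA _
    have e1 : ∫⁻ z in A, f z ∂nu = M A := by rw [← hMf, withDensity_apply _ hA]
    have e2 : M A = M (τ ⁻¹' A) := by
      rw [← Measure.map_apply hτm hA, hM, lift_inv m hinv (sg_mem _ _)]
    have e3 : M (τ ⁻¹' A) = ∫⁻ z, A.indicator (fun y => f (τ y)) (τ z) ∂nu := by
      rw [← hMf, withDensity_apply _ (hτm hA), ← lintegral_indicator (hτm hA)]
      refine lintegral_congr fun z => ?_
      by_cases hz : τ z ∈ A
      · rw [Set.indicator_of_mem hz, Set.indicator_of_mem (show z ∈ τ ⁻¹' A from hz), hττ]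
      · rw [Set.indicator_of_notMem hz, Set.indicator_of_notMem (show z ∉ τ ⁻¹' A from hz)]
    have hgm : Measurable (A.indicator (fun y => f (τ y))) := (hfm.comp hτm).indicator hA
    have e4 : ∫⁻ z, A.indicator (fun y => f (τ y)) (τ z) ∂nu
        = ∫⁻ z, A.indicator (fun y => f (τ y)) z ∂(nu.map τ) := (lintegral_map hgm hτm).symm
    rw [e1, e2, e3, e4, hτ, nu_map_single, lintegral_withDensity_eq_lintegral_mul _ hrm hgm,
      ← lintegral_indicator hA]
    refine lintegral_congr fun z => ?_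
    by_cases hz : z ∈ A
    · simp only [Pi.mul_apply, Set.indicator_of_mem hz]; rw [mul_comm]
    · simp only [Pi.mul_apply, Set.indicator_of_notMem hz, mul_zero]
  -- a set of positive measure on which the density is finite and positive
  obtain ⟨S, hSm, hSpos, hSfin⟩ : ∃ S : Set XX, MeasurableSet S ∧ 0 < tX nu S ∧ m S < ⊤ := by
    by_contra hcon
    push Not at hcon
    apply hX0
    rw [← Measure.measure_univ_eq_zero, ← iUnion_spanningSets m]
    refine measure_iUnion_null fun n => ?_
    by_contra hne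
    have := hcon (spanningSets m n) (measurableSet_spanningSets m n) (pos_iff_ne_zero.2 hne)
    exact absurd (measure_spanningSets_lt_top m n) (not_lt.2 this)
  set S' : Set ZZ := Subtype.val '' S with hS'
  have hS'm : MeasurableSet S' := emb.measurableSet_image.2 hSm
  have hMS : M S' < ⊤ := by rw [hM, hS', lift_DD m hSm]; exact hSfin
  have hnuS : 0 < nu S' := by rw [hS', ← tX_apply]; exact hSpos
  have hffin : ∀ᵐ z ∂(nu.restrict S'), f z < ⊤ := by
    refine ae_lt_top hfm ?_
    rw [← withDensity_apply _ hS'm, hMf]; exact hMS.ne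
  have hfpos : ∀ᵐ z ∂(nu.restrict S'), f z ≠ 0 := by
    rw [ae_iff, Measure.restrict_apply' hS'm]
    set F0 : Set ZZ := {z | ¬ f z ≠ 0} with hF0
    have hF0m : MeasurableSet F0 := by
      have : F0 = f ⁻¹' {0} := by ext z; simp [hF0]
      rw [this]; exact hfm (measurableSet_singleton 0)
    have h0 : M (F0 ∩ S') = 0 := by
      rw [← hMf, withDensity_apply _ (hF0m.inter hS'm)]
      have : ∀ z ∈ F0 ∩ S', f z = 0 := by
        rintro z ⟨hz, _⟩
        simpa [hF0] using hz
      rw [setLIntegral_congr_fun (hF0m.inter hS'm) this]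
      simp
    set T : Set XX := (Subtype.val ⁻¹' F0) ∩ S with hT
    have hTm : MeasurableSet T := (measurable_subtype_coe hF0m).inter hSm
    have hTimg : Subtype.val '' T = F0 ∩ S' := by
      rw [hT, hS', Set.inter_comm F0, ← Set.image_inter_preimage, Set.inter_comm]
    have h3 : m T = 0 := by
      rw [← lift_DD m hTm, hTimg]; exact h0
    have h4 := h2 h3
    rw [tX_apply, hTimg] at h4
    exact h4
  -- a level set
  have hcover : ∀ᵐ z ∂(nu.restrict S'), ∃ n : ℤ, (2:ENNReal) ^ n ≤ f z ∧ f z < (2:ENNReal) ^ (n + 1) := by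
    filter_upwards [hffin, hfpos] with z hz1 hz2
    exact ENNReal.exists_mem_Ico_zpow hz2 hz1.ne (by norm_num) (by norm_num)
  obtain ⟨n, hn⟩ : ∃ n : ℤ, 0 < nu {z | (2:ENNReal) ^ n ≤ f z ∧ f z < (2:ENNReal) ^ (n + 1)} := by
    by_contra hcon
    push Not at hcon
    have h3 : nu (⋃ n : ℤ, {z | (2:ENNReal) ^ n ≤ f z ∧ f z < (2:ENNReal) ^ (n + 1)}) = 0 :=
      measure_iUnion_null fun n => le_antisymm (hcon n) (by simp)
    have h4 : ∀ᵐ z ∂(nu.restrict S'), ¬ ∃ n : ℤ, (2:ENNReal) ^ n ≤ f z ∧ f z < (2:ENNReal) ^ (n + 1) := by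
      refine ae_restrict_of_ae ?_
      rw [ae_iff]
      refine measure_mono_null ?_ h3
      intro z hz
      simp only [Set.mem_ofPred_eq, not_not] at hz
      obtain ⟨n, hn⟩ := hz
      exact Set.mem_iUnion.2 ⟨n, hn⟩
    have h5 : ∀ᵐ z ∂(nu.restrict S'), False := by
      filter_upwards [hcover, h4] with z a b
      exact b a
    have h6 : nu.restrict S' = 0 := by
      rw [← ae_eq_bot]
      exact Filter.eventually_false_iff_eq_bot.1 h5
    rw [Measure.restrict_eq_zero] at h6
    exact hnuS.ne' h6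
  refine no_level (A := {z | (2:ENNReal) ^ n ≤ f z ∧ f z < (2:ENNReal) ^ (n + 1)}) ?_ hn ?_
  · exact (hfm measurableSet_Ici).inter (hfm measurableSet_Iio)
  · intro i
    have h3 := hfe i
    rw [ae_iff] at h3
    refine measure_mono_null ?_ h3
    rintro z ⟨⟨⟨hz1, _⟩, ⟨_, hz2⟩⟩, hz3⟩ heq
    have hz3' : rho (vv i) (z (i+1)) ≤ 1 / 2 := hz3
    have h5 : ENNReal.ofReal (rho (vv i) (z (i+1))) * 2 ≤ 1 := by
      calc ENNReal.ofReal (rho (vv i) (z (i+1))) * 2 ≤ ENNReal.ofReal (1 / 2) * 2 := by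
            gcongr
        _ = ENNReal.ofReal (1 / 2) * ENNReal.ofReal 2 := by norm_num
        _ = 1 := by rw [← ENNReal.ofReal_mul (by norm_num)]; norm_num
    have h6 : f z * 2 ≤ f (z + sg (i+1) (vv i)) := by
      rw [heq, mul_assoc]
      calc f (z + sg (i+1) (vv i)) * (ENNReal.ofReal (rho (vv i) (z (i+1))) * 2)
          ≤ f (z + sg (i+1) (vv i)) * 1 := by gcongr
        _ = _ := mul_one _
    have h7 : (2:ENNReal) ^ (n + 1) = 2 ^ n * 2 := by
      rw [ENNReal.zpow_add (by norm_num) (by norm_num), zpow_one]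
    have h8 : f (z + sg (i+1) (vv i)) < 2 ^ (n + 1) := hz2
    have h9 : (2:ENNReal) ^ n * 2 ≤ f z * 2 := by gcongr
    rw [h7] at h8
    exact absurd (lt_of_le_of_lt (h9.trans h6) h8) (lt_irrefl _)

end H878L
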