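import Pool.Agent.H878.Levy11

/-! Second moments on symmetric subsets of the cube. -/

open Finset

namespace H878L

/-- signs -/
def ys (b : ZMod 2) : ℝ := if b = 0 then 1 else -1

lemma ys_zero : ys 0 = 1 := by simp [ys]
lemma ys_one : ys 1 = -1 := by simp [ys]

lemma ys_add (a b : ZMod 2) : ys (a + b) = ys a * ys b := by
  have e1 : (1 : ZMod 2) + 1 = 0 := by decide
  rcases zmod2_cases a with rfl | rfl <;> rcases zmod2_cases b with rfl | rfl <;>
    simp [ys_zero, ys_one, e1]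

lemma ys_sq (b : ZMod 2) : ys b * ys b = 1 := by
  rcases zmod2_cases b with rfl | rfl <;> simp [ys_zero, ys_one]

lemma hn_ys {n : ℕ} (x : Fin n → ZMod 2) : ∑ i, ys (x i) = n - 2 * hammingNorm x := by
  rw [hn_sum, Finset.mul_sum]
  have : (n : ℝ) = ∑ _i : Fin n, (1:ℝ) := by simp
  rw [this, ← Finset.sum_sub_distrib]
  refine Finset.sum_congr rfl fun i _ => ?_
  rcases zmod2_cases (x i) with h | h <;> rw [h] <;> simp [ys_zero, ys_one]
  norm_num

lemma hn_add_ys {n : ℕ} (x v : Fin n → ZMod 2) :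
    ∑ i, ys (v i) * ys (x i) = n - 2 * hammingNorm (x + v) := by
  rw [← hn_ys]
  refine Finset.sum_congr rfl fun i _ => ?_
  rw [Pi.add_apply, ys_add, mul_comm]

/-- invariance under permutations of the coordinates -/
def Sym {n : ℕ} (S : Finset (Fin n → ZMod 2)) : Prop :=
  ∀ (σ : Equiv.Perm (Fin n)) (x : Fin n → ZMod 2), x ∈ S → x ∘ σ ∈ S

lemma hn_comp {n : ℕ} (σ : Equiv.Perm (Fin n)) (x : Fin n → ZMod 2) :
    hammingNorm (x ∘ σ) = hammingNorm x := by
  have h : (hammingNorm (x ∘ σ) : ℝ) = hammingNorm x := by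
    rw [hn_sum, hn_sum]
    exact Equiv.sum_comp σ (fun i => if x i = 0 then (0:ℝ) else 1)
  exact_mod_cast h

lemma sym_pair {n : ℕ} {S : Finset (Fin n → ZMod 2)} (hS : Sym S) (σ : Equiv.Perm (Fin n)) (a b : Fin n) :
    ∑ x ∈ S, ys (x (σ a)) * ys (x (σ b)) = ∑ x ∈ S, ys (x a) * ys (x b) := by
  refine Finset.sum_nbij' (fun x => x ∘ σ) (fun x => x ∘ σ.symm) ?_ ?_ ?_ ?_ ?_
  · intro x hx; exact hS σ x hx
  · intro x hx; exact hS σ.symm x hx
  · intro x _; funext i; simp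
  · intro x _; funext i; simp
  · intro x _; rfl

lemma sym_const {n : ℕ} {S : Finset (Fin n → ZMod 2)} (hS : Sym S) {a b a' b' : Fin n} (h : a ≠ b)
    (h' : a' ≠ b') :
    ∑ x ∈ S, ys (x a') * ys (x b') = ∑ x ∈ S, ys (x a) * ys (x b) := by
  set τ1 := Equiv.swap a a' with hτ1
  have h1 : τ1 a = a' := Equiv.swap_apply_left _ _
  have h2 : τ1 b ≠ a' := fun hc => h (τ1.injective (h1.trans hc.symm))
  set τ2 := Equiv.swap (τ1 b) b' with hτ2
  have h3 : τ2 a' = a' := Equiv.swap_apply_of_ne_of_ne h2.symm h'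
  have h4 : τ2 (τ1 b) = b' := Equiv.swap_apply_left _ _
  have := sym_pair hS (τ1.trans τ2) a b
  simp only [Equiv.trans_apply, h1, h3, h4] at this
  exact this

lemma sym_moment {n : ℕ} {S : Finset (Fin n → ZMod 2)} (hS : Sym S) :
    ∃ g : ℝ, ∀ w : Fin n → ℝ, ∑ x ∈ S, (∑ a, w a * ys (x a)) ^ 2 =
      (#S : ℝ) * ∑ a, w a ^ 2 + g * ((∑ a, w a) ^ 2 - ∑ a, w a ^ 2) := by
  obtain ⟨g, hg⟩ : ∃ g : ℝ, ∀ a b : Fin n, a ≠ b → ∑ x ∈ S, ys (x a) * ys (x b) = g := by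
    by_cases hex : ∃ a b : Fin n, a ≠ b
    · obtain ⟨a, b, hab⟩ := hex
      exact ⟨_, fun a' b' h' => sym_const hS hab h'⟩
    · push Not at hex
      exact ⟨0, fun a b h => absurd (hex a b) h⟩
  refine ⟨g, fun w => ?_⟩
  have h1 : ∀ x : Fin n → ZMod 2, (∑ a, w a * ys (x a)) ^ 2 =
      ∑ a, ∑ b, w a * w b * (ys (x a) * ys (x b)) := by
    intro x
    rw [sq, Finset.sum_mul_sum]
    refine Finset.sum_congr rfl fun a _ => Finset.sum_congr rfl fun b _ => ?_
    ring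
  simp_rw [h1]
  rw [Finset.sum_comm]
  have h2 : ∀ a, ∑ x ∈ S, ∑ b, w a * w b * (ys (x a) * ys (x b)) =
      ∑ b, w a * w b * (if a = b then (#S : ℝ) else g) := by
    intro a
    rw [Finset.sum_comm]
    refine Finset.sum_congr rfl fun b _ => ?_
    rw [← Finset.mul_sum]
    congr 1
    by_cases hab : a = b
    · subst hab; simp [ys_sq]
    · rw [if_neg hab, hg a b hab]
  simp_rw [h2]
  have h3 : ∀ a b, w a * w b * (if a = b then (#S : ℝ) else g) =
      g * (w a * w b) + (if a = b then ((#S : ℝ) - g) * w a ^ 2 else 0) := by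
    intro a b
    by_cases hab : a = b
    · subst hab; simp; ring
    · simp [hab]; ring
  simp_rw [h3, Finset.sum_add_distrib]
  simp only [Finset.sum_ite_eq, Finset.mem_univ, if_true]
  rw [sq (∑ a, w a), Finset.sum_mul_sum, ← Finset.mul_sum]
  simp_rw [← Finset.mul_sum]
  ring

/-- second moment of the weight of a half-weight translate -/
lemma sym_half {n : ℕ} (hn : 2 ≤ n) {S : Finset (Fin n → ZMod 2)} (hS : Sym S) (v : Fin n → ZMod 2)
    (hv : 2 * (hammingNorm v : ℝ) = n) :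
    ∑ x ∈ S, ((n : ℝ) - 2 * hammingNorm (x + v)) ^ 2 ≤ 2 * (n : ℝ) * (#S : ℝ) := by
  obtain ⟨g, hg⟩ := sym_moment hS
  have h1 := hg (fun a => ys (v a))
  have h2 := hg (fun _ => 1)
  have hsq : ∑ a, ys (v a) ^ 2 = n := by
    simp only [sq, ys_sq]; simp
  have hs0 : ∑ a, ys (v a) = 0 := by rw [hn_ys]; linarith
  simp_rw [hn_add_ys] at h1
  rw [hsq, hs0] at h1
  simp only [one_mul, one_pow, Finset.sum_const, Finset.card_univ, Fintype.card_fin, nsmul_eq_mul,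
    mul_one] at h2
  have h3 : 0 ≤ ∑ x ∈ S, (∑ a, ys (x a)) ^ 2 := Finset.sum_nonneg fun x _ => sq_nonneg _
  rw [h2] at h3
  rw [h1]
  have hn' : (2:ℝ) ≤ n := by exact_mod_cast hn
  have hc : (0:ℝ) ≤ #S := Nat.cast_nonneg _
  -- g (n - 1) ≥ - #S
  have h4 : - (#S : ℝ) ≤ g * (n - 1) := by
    have : 0 ≤ (n : ℝ) * ((#S : ℝ) + g * (n - 1)) := by nlinarith
    by_contra hcon
    push Not at hcon
    have : (n : ℝ) * ((#S : ℝ) + g * (n - 1)) < 0 := mul_neg_of_pos_of_neg (by linarith) (by linarith)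
    linarith
  have h5 : - g ≤ #S := by
    by_contra hcon
    push Not at hcon
    nlinarith
  nlinarith

/-- second moment of the change of weight on a sphere -/
lemma sph_moment {n : ℕ} (hn : 2 ≤ n) (m : ℕ) (v : Fin n → ZMod 2) (hv : v ≠ 0) :
    ∑ x : Fin n → ZMod 2 with hammingNorm x = m, ((hammingNorm (x + v) : ℝ) - hammingNorm x) ^ 2 ≤
      (#{x : Fin n → ZMod 2 | hammingNorm x = m} : ℝ) *
        ((hammingNorm v : ℝ) + (hammingNorm v : ℝ) ^ 2 * (((n : ℝ) - 2 * m) / n) ^ 2) := by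
  set S : Finset (Fin n → ZMod 2) := Finset.univ.filter (fun x => hammingNorm x = m) with hSdef
  have hS : Sym S := by
    intro σ x hx
    rw [hSdef, Finset.mem_filter] at hx ⊢
    exact ⟨Finset.mem_univ _, by rw [hn_comp]; exact hx.2⟩
  obtain ⟨g, hg⟩ := sym_moment hS
  have h1 := hg (fun a => if v a = 0 then (0:ℝ) else 1)
  have h2 := hg (fun _ => 1)
  set r : ℝ := (hammingNorm v : ℝ) with hr
  have hw1 : ∑ a, (if v a = 0 then (0:ℝ) else 1) = r := (hn_sum v).symm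
  have hw2 : ∑ a, (if v a = 0 then (0:ℝ) else 1) ^ 2 = r := by
    rw [← hw1]; refine Finset.sum_congr rfl fun a _ => ?_
    split_ifs <;> norm_num
  rw [hw1, hw2] at h1
  have hY : ∀ x : Fin n → ZMod 2, ∑ a, (if v a = 0 then (0:ℝ) else 1) * ys (x a) =
      (hammingNorm (x + v) : ℝ) - hammingNorm x := by
    intro x
    rw [hn_sum, hn_sum, ← Finset.sum_sub_distrib]
    refine Finset.sum_congr rfl fun a _ => ?_
    have e1 : (1 : ZMod 2) + 1 = 0 := by decide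
    rcases zmod2_cases (v a) with h | h <;> rcases zmod2_cases (x a) with h' | h' <;>
      simp [h, h', ys_zero, ys_one, e1]
  simp_rw [hY] at h1
  simp only [one_mul, one_pow, Finset.sum_const, Finset.card_univ, Fintype.card_fin, nsmul_eq_mul,
    mul_one] at h2
  have h3 : ∑ x ∈ S, (∑ a, ys (x a)) ^ 2 = #S * ((n : ℝ) - 2 * m) ^ 2 := by
    rw [Finset.card_eq_sum_ones]
    push_cast
    rw [Finset.sum_mul]
    refine Finset.sum_congr rfl fun x hx => ?_
    rw [hn_ys, (Finset.mem_filter.1 hx).2, one_mul]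
  rw [h3] at h2
  rw [h1]
  have hn' : (2:ℝ) ≤ n := by exact_mod_cast hn
  have hc : (0:ℝ) ≤ #S := Nat.cast_nonneg _
  have hr1 : 1 ≤ r := by
    rw [hr]; exact_mod_cast hammingNorm_pos_iff.2 hv
  have hrn : r ≤ n := by
    rw [hr]
    have := hammingNorm_le_card_fintype (x := v)
    simp only [Fintype.card_fin] at this
    exact_mod_cast this
  set D : ℝ := ((n : ℝ) - 2 * m) ^ 2 with hD
  have hD0 : 0 ≤ D := sq_nonneg _
  -- g (n ^ 2 - n) = #S (D - n)
  have h4 : g * ((n:ℝ) ^ 2 - n) = #S * (D - n) := by linarith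
  have hnn : (0:ℝ) < (n:ℝ) ^ 2 - n := by nlinarith
  have h5 : g * (r ^ 2 - r) ≤ #S * (r ^ 2 * (D / n ^ 2)) := by
    have h6 : g = #S * (D - n) / ((n:ℝ) ^ 2 - n) := by rw [eq_div_iff hnn.ne', h4]
    rw [h6, div_mul_eq_mul_div, div_le_iff₀ hnn, mul_assoc, mul_assoc]
    refine mul_le_mul_of_nonneg_left ?_ hc
    rw [← mul_div_assoc, div_mul_eq_mul_div, le_div_iff₀ (by positivity)]
    have h7 : (r ^ 2 - r) * n ^ 2 ≤ r ^ 2 * ((n:ℝ) ^ 2 - n) := by nlinarith [mul_nonneg (mul_nonneg (by linarith : (0:ℝ) ≤ r) (by linarith : (0:ℝ) ≤ (n:ℝ))) (by linarith : (0:ℝ) ≤ (n:ℝ) - r)]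
    have h8 : 0 ≤ (r ^ 2 - r) * (n:ℝ) ^ 2 := mul_nonneg (by nlinarith) (sq_nonneg _)
    calc (D - n) * (r ^ 2 - r) * n ^ 2 = (D - n) * ((r ^ 2 - r) * n ^ 2) := by ring
      _ ≤ D * ((r ^ 2 - r) * n ^ 2) := mul_le_mul_of_nonneg_right (by linarith) h8
      _ ≤ D * (r ^ 2 * ((n:ℝ) ^ 2 - n)) := mul_le_mul_of_nonneg_left h7 hD0
      _ = _ := by ring
  rw [div_pow, mul_add]
  linarith

end H878L
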