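import Pool.Agent.H878.Levy12

/-! Hamming balls: boundary estimates. -/

open Finset

namespace H878L

/-- the sphere of weight `m` -/
def sph (n m : ℕ) : Finset (Fin n → ZMod 2) := Finset.univ.filter fun x => hammingNorm x = m

/-- the ball of weight at most `m` -/
def bal (n m : ℕ) : Finset (Fin n → ZMod 2) := Finset.univ.filter fun x => hammingNorm x ≤ m

lemma mem_sph {n m : ℕ} {x : Fin n → ZMod 2} : x ∈ sph n m ↔ hammingNorm x = m := by simp [sph]
lemma mem_bal {n m : ℕ} {x : Fin n → ZMod 2} : x ∈ bal n m ↔ hammingNorm x ≤ m := by simp [bal]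

lemma card_sph (n m : ℕ) : #(sph n m) = n.choose m := by
  classical
  have h : #(Finset.powersetCard m (Finset.univ : Finset (Fin n))) = n.choose m := by
    rw [Finset.card_powersetCard, Finset.card_univ, Fintype.card_fin]
  rw [← h]
  refine Finset.card_bij' (fun x _ => Finset.univ.filter fun a => x a ≠ 0)
    (fun s _ => fun a => if a ∈ s then 1 else 0) ?_ ?_ ?_ ?_
  · intro x hx
    rw [Finset.mem_powersetCard]
    exact ⟨Finset.subset_univ _, mem_sph.1 hx⟩
  · intro s hs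
    rw [mem_sph, hammingNorm]
    rw [← (Finset.mem_powersetCard.1 hs).2]
    congr 1
    ext a
    simp
  · intro x _
    funext a
    rcases zmod2_cases (x a) with h | h <;> simp [h]
  · intro s _
    ext a
    simp

lemma sph_ratio (n m : ℕ) (hm : m ≤ n) :
    (#(sph n (m+1)) : ℝ) * (m + 1) = #(sph n m) * ((n : ℝ) - m) := by
  rw [card_sph, card_sph]
  have := Nat.choose_succ_right_eq n m
  have h2 : ((n.choose (m+1) * (m+1) : ℕ) : ℝ) = ((n.choose m * (n - m) : ℕ) : ℝ) := by rw [this]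
  push_cast at h2
  rw [Nat.cast_sub hm] at h2
  exact h2

lemma sph_mono {n : ℕ} {T : ℕ} (hT : 2 * T ≤ n) (j : ℕ) (hj : j ≤ T) :
    (#(sph n (T - j)) : ℝ) ≤ #(sph n T) := by
  induction j with
  | zero => simp
  | succ j ih =>
    refine le_trans ?_ (ih (by omega))
    have h := sph_ratio n (T - (j+1)) (by omega)
    have h1 : T - (j+1) + 1 = T - j := by omega
    rw [h1] at h
    have h2 : ((T - (j+1) : ℕ) : ℝ) = (T : ℝ) - (j + 1) := by
      rw [Nat.cast_sub hj]; push_cast; ring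
    rw [h2] at h
    have h3 : (2:ℝ) * T ≤ n := by exact_mod_cast hT
    have h4 : ((j:ℝ) + 1) ≤ T := by exact_mod_cast hj
    have h0 : (0:ℝ) ≤ #(sph n (T - (j+1))) := Nat.cast_nonneg _
    have h5 : (0:ℝ) ≤ #(sph n (T - j)) := Nat.cast_nonneg _
    -- a (n - m) = b (m + 1) with m + 1 ≤ n - m
    have hpos : (0:ℝ) < (n : ℝ) - (T - (j + 1)) := by linarith
    by_contra hcon
    push Not at hcon
    have h6 : (#(sph n (T - (j+1))) : ℝ) * ((n : ℝ) - (T - (j + 1))) ≤
        (#(sph n (T - j)) : ℝ) * ((n : ℝ) - (T - (j + 1))) := by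
      rw [← h]
      refine mul_le_mul_of_nonneg_left (by linarith) h5
    exact absurd (le_of_mul_le_mul_right h6 hpos) (not_le.2 hcon)

lemma sph_lower {n T J : ℕ} {e : ℝ} (he1 : 2 * e ≤ 1) (hJ : J ≤ T) (hTn : T ≤ n)
    (h : ∀ j : ℕ, j < J → (1 - 2 * e) * ((n : ℝ) - T + j + 1) ≤ (T : ℝ) - j) (j : ℕ) (hj : j ≤ J) :
    (1 - 2 * e * j) * #(sph n T) ≤ #(sph n (T - j)) := by
  induction j with
  | zero => simp
  | succ j ih =>
    have ih' := ih (by omega)
    have hr := sph_ratio n (T - (j+1)) (by omega)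
    have h1 : T - (j+1) + 1 = T - j := by omega
    rw [h1] at hr
    have h2 : ((T - (j+1) : ℕ) : ℝ) = (T : ℝ) - (j + 1) := by
      rw [Nat.cast_sub (by omega)]; push_cast; ring
    rw [h2] at hr
    have hj' := h j (by omega)
    have h5 : (0:ℝ) ≤ #(sph n (T - j)) := Nat.cast_nonneg _
    have h6 : (0:ℝ) ≤ #(sph n T) := Nat.cast_nonneg _
    have hTn' : (T : ℝ) ≤ n := by exact_mod_cast hTn
    have hpos : (0:ℝ) < (n : ℝ) - T + j + 1 := by
      have : (0:ℝ) ≤ j := Nat.cast_nonneg _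
      linarith
    -- b * (T - j) = a * (n - T + j + 1)
    have h7 : (#(sph n (T - j)) : ℝ) * ((T : ℝ) - j) = #(sph n (T - (j+1))) * ((n : ℝ) - T + j + 1) := by
      linarith
    have h8 : (1 - 2 * e) * #(sph n (T - j)) ≤ #(sph n (T - (j+1))) := by
      have h9 : ((1 - 2 * e) * #(sph n (T - j))) * ((n : ℝ) - T + j + 1) ≤
          #(sph n (T - (j+1))) * ((n : ℝ) - T + j + 1) := by
        rw [← h7]
        calc ((1 - 2 * e) * #(sph n (T - j))) * ((n : ℝ) - T + j + 1)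
            = #(sph n (T - j)) * ((1 - 2 * e) * ((n : ℝ) - T + j + 1)) := by ring
          _ ≤ _ := mul_le_mul_of_nonneg_left hj' h5
      exact le_of_mul_le_mul_right h9 hpos
    refine le_trans ?_ h8
    have h10 : (1 - 2 * e) * ((1 - 2 * e * j) * #(sph n T)) ≤ (1 - 2 * e) * #(sph n (T - j)) :=
      mul_le_mul_of_nonneg_left ih' (by linarith)
    refine le_trans ?_ h10
    push_cast
    have : 0 ≤ 4 * e ^ 2 * j * #(sph n T) := by positivity
    nlinarith

lemma bal_eq_sum (n T : ℕ) : #(bal n T) = ∑ j ∈ range (T + 1), #(sph n (T - j)) := by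
  rw [Finset.card_eq_sum_card_fiberwise (f := fun x => T - hammingNorm x) (t := range (T + 1))]
  · refine Finset.sum_congr rfl fun j hj => ?_
    have hj' := Finset.mem_range.1 hj
    congr 1
    ext x
    rw [Finset.mem_filter, mem_bal, mem_sph]
    omega
  · intro x _
    simp only [Finset.coe_range, Set.mem_Iio]
    omega

lemma top_le {n T J : ℕ} {e : ℝ} (he0 : 0 ≤ e) (he1 : 2 * e ≤ 1) (hJ : J ≤ T) (hTn : T ≤ n)
    (h : ∀ j : ℕ, j < J → (1 - 2 * e) * ((n : ℝ) - T + j + 1) ≤ (T : ℝ) - j)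
    (hJe : 2 * e * J ≤ 1 / 4) :
    (#(sph n T) : ℝ) * (J * (3 / 4)) ≤ #(bal n T) := by
  rw [bal_eq_sum]
  push_cast
  have h0 : (0:ℝ) ≤ #(sph n T) := Nat.cast_nonneg _
  calc (#(sph n T) : ℝ) * (J * (3 / 4)) = ∑ _j ∈ range J, (3 / 4) * (#(sph n T) : ℝ) := by
        rw [Finset.sum_const, Finset.card_range, nsmul_eq_mul]; ring
    _ ≤ ∑ j ∈ range J, (#(sph n (T - j)) : ℝ) := by
        refine Finset.sum_le_sum fun j hj => ?_
        have hj' := Finset.mem_range.1 hj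
        refine le_trans ?_ (sph_lower he1 hJ hTn h j hj'.le)
        refine mul_le_mul_of_nonneg_right ?_ h0
        have : (j:ℝ) ≤ J := by exact_mod_cast hj'.le
        nlinarith
    _ ≤ ∑ j ∈ range (T + 1), (#(sph n (T - j)) : ℝ) :=
        Finset.sum_le_sum_of_subset_of_nonneg (Finset.range_mono (by omega)) fun _ _ _ => Nat.cast_nonneg _

lemma tele (s : ℝ) (hs : 0 < s) (N : ℕ) :
    ∑ j ∈ range N, (1 / ((j:ℝ) + s) - 1 / ((j:ℝ) + s + 1)) ≤ 1 / s := by
  have h : ∑ j ∈ range N, (1 / ((j:ℝ) + s) - 1 / ((j:ℝ) + s + 1)) = 1 / s - 1 / (N + s) := by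
    induction N with
    | zero => simp
    | succ N ih =>
      rw [Finset.sum_range_succ, ih]
      push_cast
      have : (N:ℝ) + 1 + s = N + s + 1 := by ring
      rw [this]; ring
  rw [h]
  have : 0 ≤ 1 / ((N:ℝ) + s) := by positivity
  linarith

lemma min_le_tele {s : ℝ} (hs : 1 ≤ s) (j : ℕ) :
    min 1 (s ^ 2 / ((j:ℝ) + 1) ^ 2) ≤ 4 * s ^ 2 * (1 / ((j:ℝ) + s) - 1 / ((j:ℝ) + s + 1)) := by
  have hj : (0:ℝ) ≤ j := Nat.cast_nonneg _
  have e1 : 4 * s ^ 2 * (1 / ((j:ℝ) + s) - 1 / ((j:ℝ) + s + 1)) = 4 * s ^ 2 / (((j:ℝ) + s) * (j + s + 1)) := by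
    have : (j:ℝ) + s ≠ 0 := by positivity
    have : (j:ℝ) + s + 1 ≠ 0 := by positivity
    field_simp
    ring
  rw [e1]
  rcases le_total ((j:ℝ) + 1) s with h | h
  · refine (min_le_left _ _).trans ?_
    rw [le_div_iff₀ (by positivity)]
    nlinarith
  · refine (min_le_right _ _).trans ?_
    rw [div_le_div_iff₀ (by positivity) (by positivity)]
    have : ((j:ℝ) + s) * (j + s + 1) ≤ 4 * (j + 1) ^ 2 := by nlinarith
    nlinarith [sq_nonneg s]

/-- boundary estimate for Hamming balls -/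
lemma fail_bound {n T : ℕ} (hn : 2 ≤ n) (hT : 2 * T ≤ n) {v : Fin n → ZMod 2} (hv : v ≠ 0)
    (hD : (hammingNorm v : ℝ) * (((n : ℝ) - 2 * T) / n) ^ 2 ≤ 1) :
    (#{x : Fin n → ZMod 2 | hammingNorm x ≤ T ∧ T < hammingNorm (x + v)} : ℝ) ≤
      #(sph n T) * (4 * √(3 * hammingNorm v)) + 8 * ((hammingNorm v : ℝ) / n) ^ 2 * #(bal n T) := by
  set r : ℝ := (hammingNorm v : ℝ) with hr
  have hr1 : 1 ≤ r := by rw [hr]; exact_mod_cast hammingNorm_pos_iff.2 hv
  set s : ℝ := √(3 * r) with hs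
  have hs2 : s ^ 2 = 3 * r := Real.sq_sqrt (by positivity)
  have hs1 : 1 ≤ s := by
    rw [hs]; apply Real.le_sqrt_of_sq_le; linarith
  have hnpos : (0:ℝ) < n := by have : (2:ℝ) ≤ n := by exact_mod_cast hn
                               linarith
  set Fl : Finset (Fin n → ZMod 2) := Finset.univ.filter
    (fun x => hammingNorm x ≤ T ∧ T < hammingNorm (x + v)) with hFl
  have hfib : #Fl = ∑ j ∈ range (T + 1), #(Fl.filter fun x => T - hammingNorm x = j) := by
    refine Finset.card_eq_sum_card_fiberwise (f := fun x => T - hammingNorm x) ?_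
    intro x _
    simp only [Finset.coe_range, Set.mem_Iio]
    omega
  have hterm : ∀ j ∈ range (T + 1), (#(Fl.filter fun x => T - hammingNorm x = j) : ℝ) ≤
      #(sph n T) * (4 * s ^ 2 * (1 / ((j:ℝ) + s) - 1 / ((j:ℝ) + s + 1))) +
        8 * (r / n) ^ 2 * #(sph n (T - j)) := by
    intro j hj
    have hj' : j ≤ T := by have := Finset.mem_range.1 hj; omega
    set Gj := Fl.filter fun x => T - hammingNorm x = j with hGj
    have hGsub : Gj ⊆ sph n (T - j) := by
      intro x hx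
      rw [hGj, Finset.mem_filter, hFl, Finset.mem_filter] at hx
      rw [mem_sph]; omega
    have hc1 : (#Gj : ℝ) ≤ #(sph n (T - j)) := by exact_mod_cast Finset.card_le_card hGsub
    have hTj : ((T - j : ℕ) : ℝ) = (T : ℝ) - j := Nat.cast_sub hj'
    have hmom := sph_moment hn (T - j) v hv
    have hc2 : (#Gj : ℝ) * ((j:ℝ) + 1) ^ 2 ≤ #(sph n (T - j)) *
        (r + r ^ 2 * (((n : ℝ) - 2 * (T - j)) / n) ^ 2) := by
      rw [hTj] at hmom
      refine le_trans ?_ hmom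
      have : (#Gj : ℝ) * ((j:ℝ) + 1) ^ 2 = ∑ _x ∈ Gj, ((j:ℝ) + 1) ^ 2 := by
        rw [Finset.sum_const, nsmul_eq_mul]
      rw [this]
      calc ∑ _x ∈ Gj, ((j:ℝ) + 1) ^ 2 ≤ ∑ x ∈ Gj, ((hammingNorm (x + v) : ℝ) - hammingNorm x) ^ 2 := by
            refine Finset.sum_le_sum fun x hx => ?_
            rw [hGj, Finset.mem_filter, hFl, Finset.mem_filter] at hx
            have h1 : hammingNorm x + (j + 1) ≤ hammingNorm (x + v) := by omega
            have h2 : (hammingNorm x : ℝ) + (j + 1) ≤ hammingNorm (x + v) := by exact_mod_cast h1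
            have h3 : (0:ℝ) ≤ j := Nat.cast_nonneg _
            exact pow_le_pow_left₀ (by positivity) (by linarith) 2
        _ ≤ _ := Finset.sum_le_sum_of_subset_of_nonneg hGsub fun _ _ _ => sq_nonneg _
    set N : ℝ := (#(sph n (T - j)) : ℝ) with hN
    have hN0 : 0 ≤ N := Nat.cast_nonneg _
    have hj0 : (0:ℝ) ≤ j := Nat.cast_nonneg _
    -- bound on the moment
    have hDD : r + r ^ 2 * (((n : ℝ) - 2 * (T - j)) / n) ^ 2 ≤ s ^ 2 + 8 * (r / n) ^ 2 * (j + 1) ^ 2 := by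
      have e1 : ((n : ℝ) - 2 * (T - j)) / n = ((n : ℝ) - 2 * T) / n + 2 * j / n := by
        field_simp; ring
      rw [e1, hs2]
      set d := ((n : ℝ) - 2 * T) / n with hd
      have e2 : (d + 2 * j / n) ^ 2 ≤ 2 * d ^ 2 + 8 * (j / n) ^ 2 := by
        have : 2 * (j:ℝ) / n = 2 * (j / n) := by ring
        rw [this]
        nlinarith [sq_nonneg (d - 2 * (j / n))]
      have e3 : r ^ 2 * (d + 2 * j / n) ^ 2 ≤ r ^ 2 * (2 * d ^ 2 + 8 * (j / n) ^ 2) :=
        mul_le_mul_of_nonneg_left e2 (sq_nonneg _)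
      have e4 : r ^ 2 * (2 * d ^ 2) ≤ 2 * r := by nlinarith
      have e5 : r ^ 2 * (8 * ((j:ℝ) / n) ^ 2) ≤ 8 * (r / n) ^ 2 * (j + 1) ^ 2 := by
        have : r ^ 2 * (8 * ((j:ℝ) / n) ^ 2) = 8 * (r / n) ^ 2 * j ^ 2 := by
          field_simp
        rw [this]
        refine mul_le_mul_of_nonneg_left ?_ (by positivity)
        exact pow_le_pow_left₀ hj0 (by linarith) 2
      nlinarith
    have hc3 : (#Gj : ℝ) ≤ N * (s ^ 2 / ((j:ℝ) + 1) ^ 2) + N * (8 * (r / n) ^ 2) := by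
      have hp : (0:ℝ) < ((j:ℝ) + 1) ^ 2 := by positivity
      have h1 := hc2.trans (mul_le_mul_of_nonneg_left hDD hN0)
      rw [← le_div_iff₀ hp] at h1
      refine h1.trans (le_of_eq ?_)
      field_simp
    have hc4 : (#Gj : ℝ) ≤ N * min 1 (s ^ 2 / ((j:ℝ) + 1) ^ 2) + N * (8 * (r / n) ^ 2) := by
      rcases le_total 1 (s ^ 2 / ((j:ℝ) + 1) ^ 2) with h | h
      · rw [min_eq_left h, mul_one]
        have : 0 ≤ N * (8 * (r / n) ^ 2) := by positivity
        linarith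
      · rw [min_eq_right h]; exact hc3
    have hmono := sph_mono hT j hj'
    rw [← hN] at hmono
    have hml := min_le_tele hs1 j
    have hmn : 0 ≤ 4 * s ^ 2 * (1 / ((j:ℝ) + s) - 1 / ((j:ℝ) + s + 1)) :=
      (le_min zero_le_one (by positivity)).trans hml
    calc (#Gj : ℝ) ≤ N * min 1 (s ^ 2 / ((j:ℝ) + 1) ^ 2) + N * (8 * (r / n) ^ 2) := hc4
      _ ≤ N * (4 * s ^ 2 * (1 / ((j:ℝ) + s) - 1 / ((j:ℝ) + s + 1))) + N * (8 * (r / n) ^ 2) := by
          have := mul_le_mul_of_nonneg_left hml hN0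
          linarith
      _ ≤ #(sph n T) * (4 * s ^ 2 * (1 / ((j:ℝ) + s) - 1 / ((j:ℝ) + s + 1))) + N * (8 * (r / n) ^ 2) := by
          have := mul_le_mul_of_nonneg_right hmono hmn
          linarith
      _ = _ := by ring
  rw [hfib]
  push_cast
  refine (Finset.sum_le_sum hterm).trans ?_
  rw [Finset.sum_add_distrib, ← Finset.mul_sum, ← Finset.mul_sum, ← Finset.mul_sum, bal_eq_sum]
  push_cast
  have ht := tele s (by linarith) (T + 1)
  have h0 : (0:ℝ) ≤ #(sph n T) := Nat.cast_nonneg _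
  have h1 : 4 * s ^ 2 * ∑ j ∈ range (T + 1), (1 / ((j:ℝ) + s) - 1 / ((j:ℝ) + s + 1)) ≤ 4 * s := by
    calc 4 * s ^ 2 * ∑ j ∈ range (T + 1), (1 / ((j:ℝ) + s) - 1 / ((j:ℝ) + s + 1))
        ≤ 4 * s ^ 2 * (1 / s) := mul_le_mul_of_nonneg_left ht (by positivity)
      _ = 4 * s := by field_simp
  have h2 := mul_le_mul_of_nonneg_left h1 h0
  linarith

end H878L
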