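import Pool.Agent.H878.Levy13

/-! The uniform measures on the balls `BB j`. -/

open Finset Filter Topology MeasureTheory ProbabilityTheory

namespace H878L

/-- radius of the ball in block `i+1` -/
def TT (i : ℕ) : ℕ := 2 ^ (10 * kk i - 1) - 3 * 2 ^ (7 * kk i - 3)

lemma TT_real (i : ℕ) : (TT i : ℝ) = 2 ^ (10 * kk i) / 2 - 3 * 2 ^ (7 * kk i) / 8 := by
  have hk := kk_pos i
  have h1 : 3 * 2 ^ (7 * kk i - 3) ≤ 2 ^ (10 * kk i - 1) := by
    calc 3 * 2 ^ (7 * kk i - 3) ≤ 4 * 2 ^ (7 * kk i - 3) := by omega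
      _ = 2 ^ (7 * kk i - 1) := by
          rw [show 7 * kk i - 1 = (7 * kk i - 3) + 2 by omega, pow_add]; ring
      _ ≤ 2 ^ (10 * kk i - 1) := Nat.pow_le_pow_right (by norm_num) (by omega)
  unfold TT
  rw [Nat.cast_sub h1]
  push_cast
  have e1 : (2:ℝ) ^ (10 * kk i) = 2 ^ (10 * kk i - 1) * 2 := by
    rw [← pow_succ]; congr 1; omega
  have e2 : (2:ℝ) ^ (7 * kk i) = 2 ^ (7 * kk i - 3) * 8 := by
    rw [show (8:ℝ) = 2 ^ 3 by norm_num, ← pow_add]; congr 1; omega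
  rw [e1, e2]; ring

/-- the reference sets -/
def BB : ∀ j, Set (KK j)
  | 0 => Set.univ
  | (i+1) => {x | hw x ≤ TT i}

lemma mem_BB {i : ℕ} {x : KK (i+1)} : x ∈ BB (i+1) ↔ hw x ≤ TT i := Iff.rfl

lemma zero_mem_BB (j : ℕ) : (0 : KK j) ∈ BB j := by
  cases j with
  | zero => exact Set.mem_univ _
  | succ i => rw [mem_BB, hw_zero]; omega

/-- uniform probability on a block -/
noncomputable def uK (j : ℕ) : Measure (KK j) := bm 0 j

instance (j : ℕ) : IsProbabilityMeasure (uK j) := bm_prob le_rfl zero_le_one j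

lemma uK_apply (j : ℕ) (S : Set (KK j)) : uK j S = ENNReal.ofReal ((S.ncard : ℝ) * (1 / 2) ^ kk j) := by
  classical
  unfold uK
  rw [bm_apply le_rfl zero_le_one]
  congr 1
  have h : S = ((Finset.univ.filter fun x => x ∈ S : Finset (KK j)) : Set (KK j)) := by
    ext x; simp
  have h2 : S.ncard = #(Finset.univ.filter fun x => x ∈ S : Finset (KK j)) := by
    conv_lhs => rw [h]
    exact Set.ncard_coe_finset _
  rw [h2]
  simp_rw [wj_zero]
  rw [Finset.sum_const, nsmul_eq_mul]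

lemma uK_translate (j : ℕ) (v : KK j) (S : Set (KK j)) : uK j ((fun x => x + v) ⁻¹' S) = uK j S := by
  rw [uK_apply, uK_apply]
  have : ((fun x => x + v) ⁻¹' S).ncard = S.ncard :=
    Set.ncard_preimage_of_injective_subset_range (add_left_injective v) (by
      intro x _
      exact ⟨x - v, by simp⟩)
  rw [this]

lemma uK_BB_pos (j : ℕ) : 0 < uK j (BB j) := by
  rw [uK_apply, ENNReal.ofReal_pos]
  have : 0 < (BB j).ncard := (Set.ncard_pos (Set.toFinite _)).2 ⟨0, zero_mem_BB j⟩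
  positivity

/-- uniform probability on the reference set -/
noncomputable def uB (j : ℕ) : Measure (KK j) := ProbabilityTheory.cond (uK j) (BB j)

instance (j : ℕ) : IsProbabilityMeasure (uB j) := cond_isProbabilityMeasure (uK_BB_pos j).ne'

lemma uB_apply (j : ℕ) (S : Set (KK j)) : uB j S = (uK j (BB j))⁻¹ * uK j (BB j ∩ S) :=
  cond_apply MeasurableSet.of_discrete _ _

lemma uB_mul (j : ℕ) (S : Set (KK j)) : uK j (BB j) * uB j S = uK j (BB j ∩ S) := by
  rw [uB_apply, ← mul_assoc, ENNReal.mul_inv_cancel (uK_BB_pos j).ne' (measure_ne_top _ _), one_mul]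

lemma uB_BB (j : ℕ) : uB j (BB j)ᶜ = 0 := by
  rw [uB_apply, Set.inter_compl_self, measure_empty, mul_zero]

lemma uB_le {j : ℕ} {S : Set (KK j)} {c : ℝ} (_hc : 0 ≤ c)
    (h : ((BB j ∩ S).ncard : ℝ) ≤ c * (BB j).ncard) : uB j S ≤ ENNReal.ofReal c := by
  have hp := uK_BB_pos j
  have h1 : uK j (BB j) * uB j S ≤ uK j (BB j) * ENNReal.ofReal c := by
    rw [uB_mul, uK_apply, uK_apply, ← ENNReal.ofReal_mul (by positivity)]
    apply ENNReal.ofReal_le_ofReal
    calc ((BB j ∩ S).ncard : ℝ) * (1 / 2) ^ kk j ≤ (c * (BB j).ncard) * (1 / 2) ^ kk j :=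
          mul_le_mul_of_nonneg_right h (by positivity)
      _ = _ := by ring
  exact (ENNReal.mul_le_mul_iff_right hp.ne' (measure_ne_top _ _)).1 h1

lemma ncard_BB (i : ℕ) : (BB (i+1)).ncard = #(bal (kk (i+1)) (TT i)) := by
  have h := Set.ncard_coe_finset (bal (kk (i+1)) (TT i))
  rw [← h]
  have : ((bal (kk (i+1)) (TT i) : Finset (Fin (kk (i+1)) → ZMod 2)) : Set (Fin (kk (i+1)) → ZMod 2))
      = {x | hammingNorm x ≤ TT i} := by
    ext x
    rw [Finset.mem_coe, mem_bal]; rfl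
  rw [this]
  rfl

lemma two_TT (i : ℕ) : 2 * TT i ≤ kk (i+1) := by
  have h := TT_real i
  have h2 := kk_succ_real i
  have : (2 * TT i : ℝ) ≤ kk (i+1) := by
    rw [h, h2]
    have : (0:ℝ) < 2 ^ (7 * kk i) := by positivity
    linarith
  exact_mod_cast this

lemma kk_succ_ge_two (i : ℕ) : 2 ≤ kk (i+1) := by have := kk_ge (i+1); omega

lemma bal_sym (n T : ℕ) : Sym (bal n T) := by
  intro σ x hx
  rw [mem_bal] at hx ⊢
  rw [hn_comp]; exact hx

lemma uB_half (i : ℕ) {h : KK i} (hh : h ≠ 0) :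
    uB (i+1) {x : KK (i+1) | (hw (x + iota i h) : ℝ) < 2 ^ (10 * kk i) / 2 - 2 ^ (7 * kk i) / 8} ≤
      ENNReal.ofReal (32 * (1 / 2) ^ (4 * kk i)) := by
  refine uB_le (by positivity) ?_
  rw [ncard_BB]
  set v : Fin (kk (i+1)) → ZMod 2 := iota i h with hv
  set Fb : Finset (Fin (kk (i+1)) → ZMod 2) := (bal (kk (i+1)) (TT i)).filter
    (fun x => (hammingNorm (x + v) : ℝ) < 2 ^ (10 * kk i) / 2 - 2 ^ (7 * kk i) / 8) with hFb
  have hcard : (BB (i+1) ∩ {x : KK (i+1) | (hw (x + iota i h) : ℝ) < 2 ^ (10 * kk i) / 2 - 2 ^ (7 * kk i) / 8}).ncard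
      = #Fb := by
    rw [← Set.ncard_coe_finset Fb]
    have : ((Fb : Finset (Fin (kk (i+1)) → ZMod 2)) : Set (Fin (kk (i+1)) → ZMod 2)) =
        {x | hammingNorm x ≤ TT i} ∩ {x | (hammingNorm (x + v) : ℝ) < 2 ^ (10 * kk i) / 2 - 2 ^ (7 * kk i) / 8} := by
      ext x
      rw [Finset.mem_coe, hFb, Finset.mem_filter, mem_bal]; rfl
    rw [this]
    rfl
  rw [hcard]
  have hn := kk_succ_ge_two i
  have hhalf : 2 * (hammingNorm v : ℝ) = kk (i+1) := by
    have := hw_iota hh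
    exact_mod_cast this
  have hmom := sym_half hn (bal_sym (kk (i+1)) (TT i)) v hhalf
  have hk := kk_succ_real i
  have h1 : (#Fb : ℝ) * (2 ^ (7 * kk i) / 4) ^ 2 ≤ 2 * (kk (i+1) : ℝ) * #(bal (kk (i+1)) (TT i)) := by
    refine le_trans ?_ hmom
    have : (#Fb : ℝ) * (2 ^ (7 * kk i) / 4) ^ 2 = ∑ _x ∈ Fb, ((2:ℝ) ^ (7 * kk i) / 4) ^ 2 := by
      rw [Finset.sum_const, nsmul_eq_mul]
    rw [this]
    calc ∑ _x ∈ Fb, ((2:ℝ) ^ (7 * kk i) / 4) ^ 2
        ≤ ∑ x ∈ Fb, ((kk (i+1) : ℝ) - 2 * hammingNorm (x + v)) ^ 2 := by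
          refine Finset.sum_le_sum fun x hx => ?_
          have h2 := (Finset.mem_filter.1 hx).2
          refine pow_le_pow_left₀ (by positivity) ?_ 2
          rw [hk]; linarith
      _ ≤ _ := Finset.sum_le_sum_of_subset_of_nonneg (Finset.filter_subset _ _) fun _ _ _ => sq_nonneg _
  have h3 : (2:ℝ) * (kk (i+1) : ℝ) = 32 * (1 / 2) ^ (4 * kk i) * (2 ^ (7 * kk i) / 4) ^ 2 := by
    rw [hk, div_pow ((2:ℝ) ^ (7 * kk i)) 4, ← pow_mul]
    have e1 : (2:ℝ) ^ (7 * kk i * 2) = 2 ^ (10 * kk i) * 2 ^ (4 * kk i) := by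
      rw [← pow_add]; congr 1; ring
    have e2 : ((1:ℝ) / 2) ^ (4 * kk i) * 2 ^ (4 * kk i) = 1 := by rw [← mul_pow]; norm_num
    rw [e1]
    linear_combination (-2) * 2 ^ (10 * kk i) * e2
  rw [h3] at h1
  have hpos : (0:ℝ) < (2 ^ (7 * kk i) / 4) ^ 2 := by positivity
  have h4 : (#Fb : ℝ) * (2 ^ (7 * kk i) / 4) ^ 2 ≤
      (32 * (1 / 2) ^ (4 * kk i) * #(bal (kk (i+1)) (TT i))) * (2 ^ (7 * kk i) / 4) ^ 2 := by
    linarith
  exact le_of_mul_le_mul_right h4 hpos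

lemma uB_core (i : ℕ) : uB (i+1) {x | ¬ Core i x} ≤ ENNReal.ofReal (32 * (1 / 2) ^ i) := by
  classical
  have hsub : {x : KK (i+1) | ¬ Core i x} ⊆ (BB (i+1))ᶜ ∪
      ⋃ h ∈ (Finset.univ.filter fun h : KK i => h ≠ 0),
        {x : KK (i+1) | (hw (x + iota i h) : ℝ) < 2 ^ (10 * kk i) / 2 - 2 ^ (7 * kk i) / 8} := by
    intro x hx
    simp only [Finset.mem_filter, Finset.mem_univ, true_and, Set.mem_ofPred_eq, Set.mem_union,
      Set.mem_iUnion, exists_prop, Set.mem_compl_iff] at hx ⊢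
    by_contra hcon
    push Not at hcon
    refine hx ⟨?_, fun h hh => hcon.2 h hh⟩
    rw [← TT_real]
    exact_mod_cast mem_BB.1 hcon.1
  have hcard : (Finset.univ.filter fun h : KK i => h ≠ 0).card ≤ 2 ^ kk i := by
    rw [← card_KK]; exact Finset.card_le_univ _
  calc uB (i+1) {x : KK (i+1) | ¬ Core i x}
      ≤ uB (i+1) ((BB (i+1))ᶜ ∪
      ⋃ h ∈ (Finset.univ.filter fun h : KK i => h ≠ 0),
        {x : KK (i+1) | (hw (x + iota i h) : ℝ) < 2 ^ (10 * kk i) / 2 - 2 ^ (7 * kk i) / 8}) :=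
        measure_mono hsub
    _ ≤ uB (i+1) (BB (i+1))ᶜ +
      uB (i+1) (⋃ h ∈ (Finset.univ.filter fun h : KK i => h ≠ 0),
        {x : KK (i+1) | (hw (x + iota i h) : ℝ) < 2 ^ (10 * kk i) / 2 - 2 ^ (7 * kk i) / 8}) :=
        measure_union_le _ _
    _ ≤ 0 + ∑ h ∈ (Finset.univ.filter fun h : KK i => h ≠ 0), ENNReal.ofReal (32 * (1 / 2) ^ (4 * kk i)) := by
        refine add_le_add (uB_BB _).le ((measure_biUnion_finset_le _ _).trans ?_)
        exact Finset.sum_le_sum fun h hh => uB_half i (Finset.mem_filter.1 hh).2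
    _ ≤ ENNReal.ofReal (2 ^ kk i * (32 * (1 / 2) ^ (4 * kk i))) := by
        rw [zero_add, Finset.sum_const, nsmul_eq_mul, ENNReal.ofReal_mul (p := (2:ℝ) ^ kk i) (by positivity)]
        have hc : ((Finset.univ.filter fun h : KK i => h ≠ 0).card : ENNReal) ≤ ENNReal.ofReal (2 ^ kk i) := by
          rw [ENNReal.ofReal_pow (by norm_num), ENNReal.ofReal_ofNat]
          exact_mod_cast hcard
        exact mul_le_mul_left hc _
    _ ≤ ENNReal.ofReal (32 * (1 / 2) ^ i) := by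
        apply ENNReal.ofReal_le_ofReal
        have h2 : (2:ℝ) ^ kk i * (32 * (1 / 2) ^ (4 * kk i)) = 32 * (1 / 2) ^ (3 * kk i) := by
          rw [show 4 * kk i = kk i + 3 * kk i by ring, pow_add]
          have : (2:ℝ) ^ kk i * (1 / 2) ^ kk i = 1 := by rw [← mul_pow]; norm_num
          linear_combination 32 * (1 / 2) ^ (3 * kk i) * this
        rw [h2]
        have hk1 := kk_ge i
        have h4 : ((1:ℝ) / 2) ^ (3 * kk i) ≤ (1 / 2) ^ i :=
          pow_le_pow_of_le_one (by norm_num) (by norm_num) (by omega)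
        linarith

/-- the top sphere is a small part of the ball -/
lemma top_small (i : ℕ) : (#(sph (kk (i+1)) (TT i)) : ℝ) ≤ 32 / 3 * ee (i+1) * #(bal (kk (i+1)) (TT i)) := by
  have hk := kk_pos i
  have hn := kk_succ_real i
  have hT := TT_real i
  set J : ℕ := 2 ^ (3 * kk i - 3) with hJ
  have hJr : (J : ℝ) * 8 = 2 ^ (3 * kk i) := by
    rw [hJ]; push_cast
    rw [show (8:ℝ) = 2 ^ 3 by norm_num, ← pow_add]; congr 1; omega
  have hee : ee (i+1) * 2 ^ (3 * kk i) = 1 := by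
    rw [ee_succ, ← mul_pow]; norm_num
  have heJ : ee (i+1) * J = 1 / 8 := by
    rw [← hJr] at hee; linarith
  have h37 : (2:ℝ) ^ (7 * kk i) = 2 ^ (3 * kk i) * 2 ^ (4 * kk i) := by rw [← pow_add]; congr 1; ring
  have h310 : (2:ℝ) ^ (10 * kk i) = 2 ^ (7 * kk i) * 2 ^ (3 * kk i) := by rw [← pow_add]; congr 1; ring
  have h4 : (16:ℝ) ≤ 2 ^ (4 * kk i) := by
    calc (16:ℝ) = 2 ^ 4 := by norm_num
      _ ≤ 2 ^ (4 * kk i) := pow_le_pow_right₀ (by norm_num) (by omega)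
  have h3 : (8:ℝ) ≤ 2 ^ (3 * kk i) := by
    calc (8:ℝ) = 2 ^ 3 := by norm_num
      _ ≤ 2 ^ (3 * kk i) := pow_le_pow_right₀ (by norm_num) (by omega)
  have hJpos : (0:ℝ) < J := by rw [hJ]; positivity
  have h78 : 16 * (2:ℝ) ^ (3 * kk i) ≤ 2 ^ (7 * kk i) := by
    rw [h37]; nlinarith
  have h710 : 8 * (2:ℝ) ^ (7 * kk i) ≤ 2 ^ (10 * kk i) := by
    rw [h310]; nlinarith [pow_pos (show (0:ℝ) < 2 by norm_num) (7 * kk i)]
  have hJT : J ≤ TT i := by
    have : (J : ℝ) ≤ TT i := by rw [hT]; nlinarith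
    exact_mod_cast this
  have hTn : TT i ≤ kk (i+1) := by have := two_TT i; omega
  have hmul := ee_mul i
  have htop := top_le (n := kk (i+1)) (T := TT i) (J := J) (e := ee (i+1)) (ee_nonneg _)
    (by have := ee_le (i+1); linarith) hJT hTn ?_ (by rw [mul_assoc, heJ]; norm_num)
  · have h5 : (#(sph (kk (i+1)) (TT i)) : ℝ) = (#(sph (kk (i+1)) (TT i)) : ℝ) * (J * (3 / 4)) * (32 / 3 * ee (i+1)) := by
      have : (J:ℝ) * (3 / 4) * (32 / 3 * ee (i+1)) = 1 := by
        calc (J:ℝ) * (3 / 4) * (32 / 3 * ee (i+1)) = 8 * (ee (i+1) * J) := by ring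
          _ = 1 := by rw [heJ]; norm_num
      rw [mul_assoc, this, mul_one]
    rw [h5]
    have := mul_le_mul_of_nonneg_right htop (show 0 ≤ 32 / 3 * ee (i+1) by have := ee_nonneg (i+1); positivity)
    linarith
  · intro j hj
    have hj' : (j:ℝ) + 1 ≤ J := by exact_mod_cast hj
    have hj0 : (0:ℝ) ≤ j := Nat.cast_nonneg _
    rw [hn, hT]
    have he := ee_nonneg (i+1)
    -- ε (stuff) ≥ ε n / 2
    have h6 : 2 ^ (7 * kk i) ≤ 2 * ee (i+1) * ((2:ℝ) ^ (10 * kk i) - (2 ^ (10 * kk i) / 2 - 3 * 2 ^ (7 * kk i) / 8) + j + 1) := by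
      have : 2 * ee (i+1) * ((2:ℝ) ^ (10 * kk i) - (2 ^ (10 * kk i) / 2 - 3 * 2 ^ (7 * kk i) / 8) + j + 1)
        = ee (i+1) * 2 ^ (10 * kk i) + 2 * ee (i+1) * (3 * 2 ^ (7 * kk i) / 8 + j + 1) := by ring
      rw [this, hmul]
      have : 0 ≤ 2 * ee (i+1) * (3 * 2 ^ (7 * kk i) / 8 + j + 1) := by positivity
      linarith
    nlinarith

/-- translations by short vectors hardly move the ball -/
lemma uB_shift (j : ℕ) (v : KK j) : uB j {x | x + v ∉ BB j} ≤ ENNReal.ofReal (100 * ‖v‖) := by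
  rcases lt_or_ge 1 ‖v‖ with h1 | h1
  · refine prob_le_one.trans ?_
    rw [← ENNReal.ofReal_one]
    apply ENNReal.ofReal_le_ofReal; linarith
  cases j with
  | zero =>
    have : {x : KK 0 | x + v ∉ BB 0} = ∅ := by
      ext x; simp [BB]
    rw [this]; simp
  | succ i =>
    by_cases hv0 : v = 0
    · subst hv0
      have : {x : KK (i+1) | x + 0 ∉ BB (i+1)} = (BB (i+1))ᶜ := by ext x; simp
      rw [this, uB_BB]; simp
    refine uB_le (by positivity) ?_
    rw [ncard_BB]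
    rw [norm_KK] at h1 ⊢
    have hr1 : 1 ≤ hw v := by
      rcases Nat.eq_zero_or_pos (hw v) with h | h
      · exact absurd (hw_eq_zero.1 h) hv0
      · exact h
    set v' : Fin (kk (i+1)) → ZMod 2 := v with hv'
    have hcard : (BB (i+1) ∩ {x : KK (i+1) | x + v ∉ BB (i+1)}).ncard =
        #{x : Fin (kk (i+1)) → ZMod 2 | hammingNorm x ≤ TT i ∧ TT i < hammingNorm (x + v')} := by
      rw [← Set.ncard_coe_finset]
      have : ((Finset.univ.filter fun x : Fin (kk (i+1)) → ZMod 2 => hammingNorm x ≤ TT i ∧ TT i < hammingNorm (x + v')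
        : Finset (Fin (kk (i+1)) → ZMod 2)) : Set (Fin (kk (i+1)) → ZMod 2)) =
        {x | hammingNorm x ≤ TT i} ∩ {x | ¬ (hammingNorm (x + v') ≤ TT i)} := by
        ext x
        rw [Finset.mem_coe, Finset.mem_filter]
        simp
      rw [this]
      rfl
    rw [hcard]
    set r : ℝ := (hw v : ℝ) with hr
    have hr1' : 1 ≤ r := by rw [hr]; exact_mod_cast hr1
    have hrv : (hammingNorm v' : ℝ) = r := rfl
    have he0 := ee_pos (i+1)
    have hn := kk_succ_real i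
    have hT := TT_real i
    have hmul := ee_mul i
    have hsq : ee (i+1) ^ 2 * r ≤ 1 := by
      have : (ee (i+1) * √r) ^ 2 ≤ 1 ^ 2 := pow_le_pow_left₀ (by positivity) h1 2
      rw [mul_pow, Real.sq_sqrt (by linarith)] at this
      linarith
    have hD : ((kk (i+1) : ℝ) - 2 * TT i) / kk (i+1) = 3 / 4 * ee (i+1) := by
      rw [hn, hT, div_eq_iff (by positivity)]
      linear_combination (-(3:ℝ) / 4) * hmul
    have hfail := fail_bound (n := kk (i+1)) (T := TT i) (kk_succ_ge_two i) (two_TT i) (v := v') hv0 (by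
      rw [hD, hrv]; nlinarith)
    rw [hrv] at hfail
    refine hfail.trans ?_
    have htop := top_small i
    have hb0 : (0:ℝ) ≤ #(bal (kk (i+1)) (TT i)) := Nat.cast_nonneg _
    have hsqrt3 : √3 ≤ 7 / 4 := by
      rw [Real.sqrt_le_left (by norm_num)]; norm_num
    have hsr : √(3 * r) ≤ 7 / 4 * √r := by
      rw [Real.sqrt_mul (by norm_num)]
      exact mul_le_mul_of_nonneg_right hsqrt3 (Real.sqrt_nonneg _)
    have hsr1 : 1 ≤ √r := Real.one_le_sqrt.2 hr1'
    -- r / n ≤ ε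
    have hrn : r / kk (i+1) ≤ ee (i+1) := by
      rw [hn, div_le_iff₀ (by positivity), hmul]
      have e1 : ee (i+1) ^ 2 * 2 ^ (6 * kk i) = 1 := by
        rw [ee_succ, ← pow_mul, show 3 * kk i * 2 = 6 * kk i by ring, ← mul_pow]; norm_num
      have e2 : r ≤ 2 ^ (6 * kk i) := by
        have hp : 0 < ee (i+1) ^ 2 := by positivity
        have : ee (i+1) ^ 2 * r ≤ ee (i+1) ^ 2 * 2 ^ (6 * kk i) := by rw [e1]; exact hsq
        exact le_of_mul_le_mul_left this hp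
      exact e2.trans (pow_le_pow_right₀ (by norm_num) (by omega))
    have hrn0 : 0 ≤ r / kk (i+1) := by positivity
    have hrn2 : (r / kk (i+1)) ^ 2 ≤ ee (i+1) := by
      have := ee_le (i+1)
      nlinarith
    have c1 : (#(sph (kk (i+1)) (TT i)) : ℝ) * (4 * √(3 * r)) ≤
        (32 / 3 * ee (i+1) * #(bal (kk (i+1)) (TT i))) * (4 * (7 / 4 * √r)) := by
      refine mul_le_mul htop (by linarith) (by positivity) (by positivity)
    have c2 : 8 * (r / kk (i+1)) ^ 2 * (#(bal (kk (i+1)) (TT i)) : ℝ) ≤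
        8 * (ee (i+1) * √r) * #(bal (kk (i+1)) (TT i)) := by
      refine mul_le_mul_of_nonneg_right ?_ hb0
      have : ee (i+1) ≤ ee (i+1) * √r := by nlinarith
      linarith
    have c3 : 0 ≤ ee (i+1) * √r * #(bal (kk (i+1)) (TT i)) := by positivity
    nlinarith

/-- points have small mass -/
lemma uB_point (i : ℕ) (x : KK (i+1)) : uB (i+1) {x} ≤ ENNReal.ofReal (11 * (1 / 2) ^ i) := by
  refine uB_le (by positivity) ?_
  rw [ncard_BB]
  have h1 : ((BB (i+1) ∩ {x}).ncard : ℝ) ≤ 1 := by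
    have : (BB (i+1) ∩ {x}).ncard ≤ ({x} : Set (KK (i+1))).ncard :=
      Set.ncard_le_ncard Set.inter_subset_right (Set.finite_singleton x)
    rw [Set.ncard_singleton] at this
    exact_mod_cast this
  have h2 : (1:ℝ) ≤ #(sph (kk (i+1)) (TT i)) := by
    rw [card_sph]
    have := Nat.choose_pos (n := kk (i+1)) (k := TT i) (by have := two_TT i; omega)
    exact_mod_cast this
  have h3 := top_small i
  have h4 : ee (i+1) ≤ (1 / 2) ^ i := by
    rw [ee_succ]
    exact pow_le_pow_of_le_one (by norm_num) (by norm_num) (by have := kk_ge i; omega)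
  have hb0 : (0:ℝ) ≤ #(bal (kk (i+1)) (TT i)) := Nat.cast_nonneg _
  have h5 : 32 / 3 * ee (i+1) * #(bal (kk (i+1)) (TT i)) ≤ 11 * (1 / 2) ^ i * #(bal (kk (i+1)) (TT i)) := by
    refine mul_le_mul_of_nonneg_right ?_ hb0
    have := ee_nonneg (i+1)
    linarith
  linarith

/-- the reference sets are small -/
lemma uK_BB_le (i : ℕ) : uK (i+1) (BB (i+1)) ≤ ENNReal.ofReal (2 * (1 / 2) ^ (4 * kk i)) := by
  have h := bm_cheb (e := 0) le_rfl zero_le_one (0 : KK (i+1)) (s := 3 * 2 ^ (7 * kk i) / 8) (by positivity)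
    (fun x => hw x ≤ TT i) (by
      intro x hx
      rw [add_zero, hw_zero, kk_succ_real]
      have h1 : (hw x : ℝ) ≤ TT i := by exact_mod_cast hx
      rw [TT_real] at h1
      rw [abs_sub_comm]
      refine le_trans ?_ (le_abs_self _)
      simp only [Nat.cast_zero]
      linarith)
  refine h.trans ?_
  apply ENNReal.ofReal_le_ofReal
  rw [kk_succ_real, div_pow, mul_pow, ← pow_mul]
  have e1 : (2:ℝ) ^ (7 * kk i * 2) = 2 ^ (10 * kk i) * 2 ^ (4 * kk i) := by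
    rw [← pow_add]; congr 1; ring
  have e2 : ((1:ℝ) / 2) ^ (4 * kk i) = 1 / 2 ^ (4 * kk i) := by rw [one_div, inv_pow, one_div]
  rw [e1, e2]
  have p1 : (0:ℝ) < 2 ^ (10 * kk i) := by positivity
  have p2 : (0:ℝ) < 2 ^ (4 * kk i) := by positivity
  have : (2:ℝ) ^ (10 * kk i) / 4 / (3 ^ 2 * (2 ^ (10 * kk i) * 2 ^ (4 * kk i)) / 8 ^ 2)
      = (16 / 9) * (1 / 2 ^ (4 * kk i)) := by
    field_simp
    norm_num
  rw [this]
  have : (0:ℝ) < 1 / 2 ^ (4 * kk i) := by positivity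
  linarith

end H878L
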