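import Pool.Agent.H878.Levy14

/-! The infinite invariant measure `lam`. -/

open Finset Filter Topology MeasureTheory ProbabilityTheory

namespace H878L

/-- uniform on the whole block below `n`, uniform on the reference set from `n` on -/
noncomputable def qq (n j : ℕ) : Measure (KK j) := if j < n then uK j else uB j

lemma qq_lt {n j : ℕ} (h : j < n) : qq n j = uK j := by simp [qq, h]
lemma qq_ge {n j : ℕ} (h : n ≤ j) : qq n j = uB j := by simp [qq, not_lt.2 h]

instance (n j : ℕ) : IsProbabilityMeasure (qq n j) := by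
  unfold qq; split_ifs <;> infer_instance

/-- probability measures -/
noncomputable def QQ (n : ℕ) : Measure ZZ := Measure.infinitePi (qq n)

instance (n : ℕ) : IsProbabilityMeasure (QQ n) := by unfold QQ; infer_instance

lemma QQ_eval (n j : ℕ) (S : Set (KK j)) : QQ n {z | z j ∈ S} = qq n j S :=
  (measurePreserving_eval_infinitePi (qq n) j).measure_preimage
    (MeasurableSet.of_discrete (s := S)).nullMeasurableSet

/-- normalising constants -/
noncomputable def cc (n : ℕ) : ENNReal := ∏ i ∈ range n, (uK i (BB i))⁻¹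

lemma cc_ne_top (n : ℕ) : cc n ≠ ⊤ :=
  ENNReal.prod_ne_top fun i _ => ENNReal.inv_ne_top.2 (uK_BB_pos i).ne'

/-- eventually in the reference sets -/
def WB (n : ℕ) : Set ZZ := {z | ∀ i, n ≤ i → z i ∈ BB i}

lemma coord_meas (j : ℕ) (S : Set (KK j)) : MeasurableSet {z : ZZ | z j ∈ S} :=
  measurable_pi_apply j (MeasurableSet.of_discrete (s := S))

lemma WB_meas (n : ℕ) : MeasurableSet (WB n) := by
  have : WB n = ⋂ i : ℕ, ⋂ _ : n ≤ i, {z : ZZ | z i ∈ BB i} := by
    ext z
    simp [WB]
  rw [this]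
  exact MeasurableSet.iInter fun i => MeasurableSet.iInter fun _ => coord_meas i _

lemma WB_mono {m n : ℕ} (h : m ≤ n) : WB m ⊆ WB n := fun _ hz i hi => hz i (h.trans hi)

lemma QQ_WB (n : ℕ) : QQ n (WB n)ᶜ = 0 := by
  have : (WB n)ᶜ ⊆ ⋃ i : {i : ℕ // n ≤ i}, {z : ZZ | z i ∈ (BB (i : ℕ))ᶜ} := by
    intro z hz
    simp only [WB, Set.mem_compl_iff, Set.mem_ofPred_eq, not_forall] at hz
    obtain ⟨i, hi, hz⟩ := hz
    exact Set.mem_iUnion.2 ⟨⟨i, hi⟩, hz⟩
  refine measure_mono_null this (measure_iUnion_null fun i => ?_)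
  rw [QQ_eval, qq_ge i.2, uB_BB]

lemma one_step (n : ℕ) : (uK n (BB n))⁻¹ • (QQ (n+1)).restrict {z | z n ∈ BB n} = QQ n := by
  classical
  refine Measure.eq_infinitePi (qq n) fun s t ht => ?_
  have hG : MeasurableSet {z : ZZ | z n ∈ BB n} := coord_meas n _
  have hbox : MeasurableSet (Set.pi (s : Set ℕ) t) := MeasurableSet.pi s.countable_toSet fun i _ => ht i
  rw [Measure.smul_apply, Measure.restrict_apply hbox, smul_eq_mul]
  set t1 : ∀ i, Set (KK i) := fun i => if i ∈ s then t i else Set.univ with ht1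
  set t2 : ∀ i, Set (KK i) := fun i => t1 i ∩ (if i = n then BB i else Set.univ) with ht2
  set s' := insert n s with hs'
  have hset : Set.pi (s : Set ℕ) t ∩ {z | z n ∈ BB n} = Set.pi (s' : Set ℕ) t2 := by
    ext z
    simp only [Set.mem_inter_iff, Set.mem_pi, Set.mem_ofPred_eq]
    constructor
    · rintro ⟨h1, h2⟩ i _
      simp only [ht2, ht1]
      constructor
      · by_cases hi : i ∈ s
        · simp only [hi, if_true]; exact h1 i hi
        · simp [hi]
      · by_cases hi : i = n
        · subst hi; simp only [if_true]; exact h2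
        · simp [hi]
    · intro h
      constructor
      · intro i hi
        have hi' : i ∈ s := hi
        have := (h i (by simp [hs', hi'])).1
        simpa only [ht1, hi', if_true] using this
      · have := (h n (by simp [hs'])).2
        simpa using this
  rw [hset]
  unfold QQ
  rw [Measure.infinitePi_pi (qq (n+1)) (fun i _ => MeasurableSet.of_discrete)]
  have hn : n ∈ s' := by simp [hs']
  have hR : ∏ i ∈ s, qq n i (t i) = ∏ i ∈ s', qq n i (t1 i) := by
    have h1 : ∏ i ∈ s, qq n i (t i) = ∏ i ∈ s, qq n i (t1 i) := by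
      refine Finset.prod_congr rfl fun i hi => ?_
      simp only [ht1, hi, if_true]
    rw [h1, hs']
    by_cases hj : n ∈ s
    · rw [Finset.insert_eq_of_mem hj]
    · rw [Finset.prod_insert hj]
      simp only [ht1, hj, if_false, measure_univ, one_mul]
  rw [hR, ← Finset.mul_prod_erase s' _ hn, ← Finset.mul_prod_erase s' (fun i => qq n i (t1 i)) hn]
  have e1 : qq (n+1) n (t2 n) = uK n (BB n) * qq n n (t1 n) := by
    rw [qq_lt (Nat.lt_succ_self n), qq_ge le_rfl, uB_mul]
    simp only [ht2, if_true]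
    rw [Set.inter_comm]
  have e2 : ∏ x ∈ s'.erase n, qq (n+1) x (t2 x) = ∏ x ∈ s'.erase n, qq n x (t1 x) := by
    refine Finset.prod_congr rfl fun i hi => ?_
    have hin : i ≠ n := (Finset.mem_erase.1 hi).1
    have h3 : t2 i = t1 i := by simp [ht2, hin]
    rw [h3]
    rcases lt_or_gt_of_ne hin with h | h
    · rw [qq_lt (Nat.lt_succ_of_lt h), qq_lt h]
    · rw [qq_ge (by omega), qq_ge (by omega)]
  rw [e1, e2, mul_assoc, ← mul_assoc, ENNReal.inv_mul_cancel (uK_BB_pos n).ne' (measure_ne_top _ _),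
    one_mul]

lemma one_step' (n : ℕ) {A : Set ZZ} (hA : MeasurableSet A) :
    QQ (n+1) (A ∩ {z | z n ∈ BB n}) = uK n (BB n) * QQ n A := by
  rw [← one_step n, Measure.smul_apply, Measure.restrict_apply hA, smul_eq_mul, ← mul_assoc,
    ENNReal.mul_inv_cancel (uK_BB_pos n).ne' (measure_ne_top _ _), one_mul]

lemma QQ_inter_WB (n : ℕ) (A : Set ZZ) : QQ n (A ∩ WB n) = QQ n A := by
  refine le_antisymm (measure_mono Set.inter_subset_left) ?_
  calc QQ n A ≤ QQ n ((A ∩ WB n) ∪ (WB n)ᶜ) := by
        apply measure_mono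
        intro z hz
        by_cases h : z ∈ WB n
        exacts [Or.inl ⟨hz, h⟩, Or.inr h]
    _ ≤ QQ n (A ∩ WB n) + QQ n (WB n)ᶜ := measure_union_le _ _
    _ = _ := by rw [QQ_WB, add_zero]

lemma consist {m n : ℕ} (hmn : m ≤ n) {A : Set ZZ} (hA : MeasurableSet A) :
    cc n * QQ n (A ∩ WB m) = cc m * QQ m A := by
  induction n, hmn using Nat.le_induction with
  | base => rw [QQ_inter_WB]
  | succ n hmn ih =>
    rw [← ih]
    have h1 : A ∩ WB m = (A ∩ WB m) ∩ {z | z n ∈ BB n} := by
      ext z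
      constructor
      · intro hz; exact ⟨hz, hz.2 n hmn⟩
      · intro hz; exact hz.1
    rw [h1, one_step' n (hA.inter (WB_meas m)), ← h1, cc, Finset.prod_range_succ, ← cc, mul_assoc,
      ← mul_assoc (uK n (BB n))⁻¹, ENNReal.inv_mul_cancel (uK_BB_pos n).ne' (measure_ne_top _ _),
      one_mul]

/-- first entrance -/
def VV (n : ℕ) : Set ZZ := {z | z ∈ WB n ∧ ∀ m, m < n → z ∉ WB m}

lemma VV_meas (n : ℕ) : MeasurableSet (VV n) := by
  have : VV n = WB n ∩ ⋂ m : ℕ, ⋂ _ : m < n, (WB m)ᶜ := by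
    ext z; simp [VV]
  rw [this]
  exact (WB_meas n).inter (MeasurableSet.iInter fun m => MeasurableSet.iInter fun _ => (WB_meas m).compl)

lemma VV_disj : Pairwise (Function.onFun Disjoint VV) := by
  intro m n hmn
  rw [Function.onFun, Set.disjoint_left]
  rintro z ⟨h1, h2⟩ ⟨h3, h4⟩
  rcases lt_or_gt_of_ne hmn with h | h
  · exact h4 m h h1
  · exact h2 n h h3

lemma WB_VV {n : ℕ} {z : ZZ} (hz : z ∈ WB n) : ∃ m, m ≤ n ∧ z ∈ VV m := by
  classical
  have hex : ∃ m, z ∈ WB m := ⟨n, hz⟩
  refine ⟨Nat.find hex, Nat.find_min' hex hz, Nat.find_spec hex, fun m hm => Nat.find_min hex hm⟩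

/-- the infinite invariant measure -/
noncomputable def lam : Measure ZZ := Measure.sum fun n => cc n • (QQ n).restrict (VV n)

lemma lam_apply {A : Set ZZ} (hA : MeasurableSet A) : lam A = ∑' n, cc n * QQ n (A ∩ VV n) := by
  unfold lam
  rw [Measure.sum_apply _ hA]
  refine tsum_congr fun n => ?_
  rw [Measure.smul_apply, Measure.restrict_apply hA, smul_eq_mul]

lemma lam_WB (n : ℕ) {A : Set ZZ} (hA : MeasurableSet A) : lam (A ∩ WB n) = cc n * QQ n A := by
  rw [lam_apply (hA.inter (WB_meas n))]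
  have h1 : ∀ m, cc m * QQ m (A ∩ WB n ∩ VV m) = cc n * QQ n (A ∩ WB n ∩ VV m) := by
    intro m
    rcases le_or_gt m n with h | h
    · rw [← consist h ((hA.inter (WB_meas n)).inter (VV_meas m))]
      congr 2
      ext z
      constructor
      · rintro ⟨h1, h2⟩; exact h1
      · intro hz; exact ⟨hz, hz.2.1⟩
    · have : A ∩ WB n ∩ VV m = ∅ := by
        ext z
        simp only [Set.mem_inter_iff, Set.mem_empty_iff_false, iff_false, not_and]
        rintro ⟨_, h2⟩ h3
        exact h3.2 n h h2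
      rw [this, measure_empty, measure_empty, mul_zero, mul_zero]
  simp_rw [h1]
  rw [ENNReal.tsum_mul_left, ← measure_iUnion]
  · rw [← Set.inter_iUnion]
    have : A ∩ WB n ∩ ⋃ m, VV m = A ∩ WB n := by
      refine Set.inter_eq_left.2 ?_
      intro z hz
      obtain ⟨m, _, hm⟩ := WB_VV hz.2
      exact Set.mem_iUnion.2 ⟨m, hm⟩
    rw [this, QQ_inter_WB]
  · intro a b hab
    exact (VV_disj hab).mono Set.inter_subset_right Set.inter_subset_right
  · intro m; exact (hA.inter (WB_meas n)).inter (VV_meas m)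

lemma lam_null {A : Set ZZ} (hA : MeasurableSet A) (h : ∀ n, QQ n A = 0) : lam A = 0 := by
  rw [lam_apply hA, ENNReal.tsum_eq_zero]
  intro n
  rw [measure_mono_null Set.inter_subset_left (h n), mul_zero]

/-- the invariance on the good part -/
lemma QQ_inv (n : ℕ) (c : ZZ) {A : Set ZZ} (hA : MeasurableSet A) :
    QQ n ((fun z => z + c) ⁻¹' A ∩ (WB n ∩ (fun z => z + c) ⁻¹' WB n)) =
      QQ n (A ∩ (WB n ∩ (fun z => z + c) ⁻¹' WB n)) := by
  classical
  set τ : ZZ → ZZ := fun z => z + c with hτ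
  have hτm : Measurable τ := meas_add_const c
  set S : Set ZZ := WB n ∩ τ ⁻¹' WB n with hS
  have hSm : MeasurableSet S := (WB_meas n).inter (hτm (WB_meas n))
  have hτS : τ ⁻¹' S = S := by
    ext z
    simp only [hS, hτ, Set.mem_preimage, Set.mem_inter_iff]
    rw [add_assoc, ZZ_add_self, add_zero]
    exact and_comm
  have hmeq : ((QQ n).restrict S).map τ = (QQ n).restrict S := by
    have hbox : ∀ (s : Finset ℕ) (t : ∀ i, Set (KK i)),
        ((QQ n).restrict S).map τ (Set.pi (s : Set ℕ) t) = (QQ n).restrict S (Set.pi (s : Set ℕ) t) := by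
      intro s t
      have hb : MeasurableSet (Set.pi (s : Set ℕ) t) :=
        MeasurableSet.pi s.countable_toSet fun i _ => MeasurableSet.of_discrete
      rw [Measure.map_apply hτm hb, Measure.restrict_apply (hτm hb), Measure.restrict_apply hb]
      have e1 : τ ⁻¹' (Set.pi (s : Set ℕ) t) ∩ S = Set.pi Set.univ (fun i =>
          {x : KK i | (i ∈ s → x + c i ∈ t i) ∧ (n ≤ i → x ∈ BB i ∧ x + c i ∈ BB i)}) := by
        ext z
        simp only [hS, hτ, WB, Set.mem_inter_iff, Set.mem_preimage, Set.mem_pi, Set.mem_univ,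
          Set.mem_ofPred_eq, Pi.add_apply, true_implies, Finset.mem_coe]
        constructor
        · rintro ⟨h1, h2, h3⟩ i
          exact ⟨h1 i, fun hi => ⟨h2 i hi, h3 i hi⟩⟩
        · intro h
          exact ⟨fun i => (h i).1, fun i hi => ((h i).2 hi).1, fun i hi => ((h i).2 hi).2⟩
      have e2 : Set.pi (s : Set ℕ) t ∩ S = Set.pi Set.univ (fun i =>
          {x : KK i | (i ∈ s → x ∈ t i) ∧ (n ≤ i → x ∈ BB i ∧ x + c i ∈ BB i)}) := by
        ext z
        simp only [hS, hτ, WB, Set.mem_inter_iff, Set.mem_preimage, Set.mem_pi, Set.mem_univ,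
          Set.mem_ofPred_eq, Pi.add_apply, true_implies, Finset.mem_coe]
        constructor
        · rintro ⟨h1, h2, h3⟩ i
          exact ⟨h1 i, fun hi => ⟨h2 i hi, h3 i hi⟩⟩
        · intro h
          exact ⟨fun i => (h i).1, fun i hi => ((h i).2 hi).1, fun i hi => ((h i).2 hi).2⟩
      rw [e1, e2]
      unfold QQ
      rw [Measure.infinitePi_pi_univ (qq n) (fun i => MeasurableSet.of_discrete),
        Measure.infinitePi_pi_univ (qq n) (fun i => MeasurableSet.of_discrete)]
      refine tprod_congr fun i => ?_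
      have hcc : ∀ x : KK i, x + c i + c i = x := fun x => by rw [add_assoc, KK_add_self, add_zero]
      rcases lt_or_ge i n with h | h
      · rw [qq_lt h]
        rw [← uK_translate i (c i) {x : KK i | (i ∈ s → x ∈ t i) ∧ (n ≤ i → x ∈ BB i ∧ x + c i ∈ BB i)}]
        congr 1
        ext x
        simp only [Set.mem_ofPred_eq, Set.mem_preimage, not_le.2 h, false_implies, and_true]
      · rw [qq_ge h, uB_apply, uB_apply]
        congr 1
        rw [← uK_translate i (c i) (BB i ∩ {x : KK i | (i ∈ s → x ∈ t i) ∧ (n ≤ i → x ∈ BB i ∧ x + c i ∈ BB i)})]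
        congr 1
        ext x
        simp only [Set.mem_ofPred_eq, Set.mem_preimage, Set.mem_inter_iff, h, true_implies, hcc]
        tauto
    refine MeasureTheory.ext_of_generate_finite
      (squareCylinders fun i => {s : Set (KK i) | MeasurableSet s}) generateFrom_squareCylinders.symm
      (isPiSystem_squareCylinders (fun i => MeasurableSpace.isPiSystem_measurableSet)
        (fun i => by simp)) ?_ ?_
    · rintro _ ⟨s, t, _, rfl⟩
      exact hbox s t
    · have := hbox ∅ (fun i => Set.univ)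
      simpa using this
  have h1 : ((QQ n).restrict S).map τ A = (QQ n).restrict S A := by rw [hmeq]
  rw [Measure.map_apply hτm hA, Measure.restrict_apply (hτm hA), Measure.restrict_apply hA] at h1
  exact h1

lemma lam_good {c : ZZ} (hc : Summable fun i => ‖c i‖) :
    lam (⋃ n, (WB n ∩ (fun z => z + c) ⁻¹' WB n))ᶜ = 0 := by
  have hm : MeasurableSet (⋃ n, (WB n ∩ (fun z : ZZ => z + c) ⁻¹' WB n)) :=
    MeasurableSet.iUnion fun n => (WB_meas n).inter (meas_add_const c (WB_meas n))
  refine lam_null hm.compl fun m => ?_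
  have hsum : ∑' i, QQ m {z | m ≤ i ∧ z i + c i ∉ BB i} ≠ ⊤ := by
    refine ne_top_of_le_ne_top ?_ (ENNReal.tsum_le_tsum (g := fun i => ENNReal.ofReal (100 * ‖c i‖)) fun i => ?_)
    · rw [← ENNReal.ofReal_tsum_of_nonneg (fun i => by positivity) (hc.mul_left 100)]
      exact ENNReal.ofReal_ne_top
    · rcases le_or_gt m i with h | h
      · calc QQ m {z | m ≤ i ∧ z i + c i ∉ BB i} ≤ QQ m {z | z i ∈ {x | x + c i ∉ BB i}} :=
              measure_mono fun z hz => hz.2
          _ = uB i {x | x + c i ∉ BB i} := by rw [QQ_eval, qq_ge h]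
          _ ≤ _ := uB_shift i (c i)
      · have : {z : ZZ | m ≤ i ∧ z i + c i ∉ BB i} = ∅ := by
          ext z; simp [not_le.2 h]
        rw [this, measure_empty]; simp
  have h1 := ae_eventually_notMem hsum
  have h2 : ∀ᵐ z ∂(QQ m), z ∈ WB m := QQ_WB m
  have h3 : ∀ᵐ z ∂(QQ m), z ∈ ⋃ n, (WB n ∩ (fun z : ZZ => z + c) ⁻¹' WB n) := by
    filter_upwards [h1, h2] with z hz hzm
    obtain ⟨N, hN⟩ := eventually_atTop.1 hz
    refine Set.mem_iUnion.2 ⟨max m N, WB_mono (le_max_left _ _) hzm, ?_⟩
    intro i hi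
    have h4 := hN i ((le_max_right _ _).trans hi)
    simp only [not_and, not_not] at h4
    exact h4 ((le_max_left _ _).trans hi)
  exact h3

theorem lam_inv {c : ZZ} (hc : Summable fun i => ‖c i‖) : lam.map (fun z => z + c) = lam := by
  ext A hA
  set τ : ZZ → ZZ := fun z => z + c with hτ
  have hτm : Measurable τ := meas_add_const c
  rw [Measure.map_apply hτm hA]
  set S : ℕ → Set ZZ := fun n => WB n ∩ τ ⁻¹' WB n with hS
  have hSm : ∀ n, MeasurableSet (S n) := fun n => (WB_meas n).inter (hτm (WB_meas n))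
  have hmono : Monotone S := fun a b hab =>
    Set.inter_subset_inter (WB_mono hab) (Set.preimage_mono (WB_mono hab))
  have hgood := lam_good hc
  have key : ∀ B : Set ZZ, MeasurableSet B → lam B = ⨆ n, cc n * QQ n (B ∩ S n) := by
    intro B hB
    have h1 : lam B = lam (B ∩ ⋃ n, S n) := by
      refine le_antisymm ?_ (measure_mono Set.inter_subset_left)
      calc lam B ≤ lam ((B ∩ ⋃ n, S n) ∪ (⋃ n, S n)ᶜ) := by
            apply measure_mono
            intro z hz
            by_cases h : z ∈ ⋃ n, S n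
            exacts [Or.inl ⟨hz, h⟩, Or.inr h]
        _ ≤ lam (B ∩ ⋃ n, S n) + lam (⋃ n, S n)ᶜ := measure_union_le _ _
        _ = _ := by rw [hgood, add_zero]
    rw [h1, Set.inter_iUnion, Monotone.measure_iUnion]
    · refine iSup_congr fun n => ?_
      have : B ∩ S n = (B ∩ S n) ∩ WB n := by
        ext z; constructor
        · intro hz; exact ⟨hz, hz.2.1⟩
        · intro hz; exact hz.1
      rw [this, lam_WB n (hB.inter (hSm n)), ← this]
    · intro a b hab
      exact Set.inter_subset_inter le_rfl (hmono hab)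
  rw [key _ (hτm hA), key _ hA]
  refine iSup_congr fun n => ?_
  rw [QQ_inv n c hA]

lemma lam_QI : QI lam := by
  intro c hc
  rw [lam_inv hc]

lemma lam_Z1 : ∀ᵐ z ∂lam, z ∈ Z1 := by
  refine lam_null Z1_meas.compl fun m => ?_
  have hsum : ∑' i, QQ m {z | m ≤ i + 1 ∧ ¬ Core i (z (i+1))} ≠ ⊤ := by
    refine ne_top_of_le_ne_top ?_ (ENNReal.tsum_le_tsum (g := fun i => ENNReal.ofReal (32 * (1 / 2) ^ i)) fun i => ?_)
    · rw [← ENNReal.ofReal_tsum_of_nonneg (fun i => by positivity)]
      · exact ENNReal.ofReal_ne_top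
      · exact (summable_geometric_of_lt_one (by norm_num) (by norm_num)).mul_left 32
    · rcases le_or_gt m (i+1) with h | h
      · calc QQ m {z | m ≤ i + 1 ∧ ¬ Core i (z (i+1))} ≤ QQ m {z | z (i+1) ∈ {x | ¬ Core i x}} :=
              measure_mono fun z hz => hz.2
          _ = uB (i+1) {x | ¬ Core i x} := by rw [QQ_eval, qq_ge h]
          _ ≤ _ := uB_core i
      · have : {z : ZZ | m ≤ i + 1 ∧ ¬ Core i (z (i+1))} = ∅ := by
          ext z; simp [not_le.2 h]
        rw [this, measure_empty]; simp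
  have h3 : ∀ᵐ z ∂(QQ m), z ∈ Z1 := by
    filter_upwards [ae_eventually_notMem hsum] with z hz
    refine mem_Z1_of_core ?_
    filter_upwards [hz, eventually_ge_atTop m] with i hi him
    simp only [not_and, not_not] at hi
    exact hi (by omega)
  exact h3

lemma QQ_zero_ac (n : ℕ) {A : Set ZZ} (hA : MeasurableSet A) (h : QQ n A = 0) : QQ 0 A = 0 := by
  have h1 := consist (Nat.zero_le n) hA
  have h2 : QQ n (A ∩ WB 0) = 0 := measure_mono_null Set.inter_subset_left h
  rw [h2, mul_zero] at h1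
  simpa [cc] using h1.symm

lemma lam_01 (B : Set ZZ) (hB : MeasurableSet B) (hinv : ∀ c ∈ FF, ∀ z, z ∈ B → z + c ∈ B) :
    lam B = 0 ∨ lam Bᶜ = 0 := by
  have h01 : ∀ n, QQ n B = 0 ∨ QQ n Bᶜ = 0 := by
    intro n
    rcases zero_one (qq n) hB hinv with h | h
    · exact Or.inl h
    · exact Or.inr ((prob_compl_eq_zero_iff hB).2 h)
  rcases h01 0 with h | h
  · left
    refine lam_null hB fun n => ?_
    rcases h01 n with h' | h'
    · exact h'
    · exfalso
      have h2 := QQ_zero_ac n hB.compl h'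
      have h3 : QQ 0 Set.univ = 0 := by
        rw [← Set.union_compl_self B]; exact measure_union_null h h2
      rw [measure_univ] at h3
      exact one_ne_zero h3
  · right
    refine lam_null hB.compl fun n => ?_
    rcases h01 n with h' | h'
    · exfalso
      have h2 := QQ_zero_ac n hB h'
      have h3 : QQ 0 Set.univ = 0 := by
        rw [← Set.union_compl_self B]; exact measure_union_null h2 h
      rw [measure_univ] at h3
      exact one_ne_zero h3
    · exact h'

lemma lam_atom (z : ZZ) : lam {z} = 0 := by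
  refine lam_null (measurableSet_singleton z) fun m => ?_
  have h : ∀ i, m ≤ i → QQ m {z} ≤ ENNReal.ofReal (11 * (1 / 2) ^ i) := by
    intro i hi
    calc QQ m {z} ≤ QQ m {y | y (i+1) ∈ ({z (i+1)} : Set (KK (i+1)))} := by
          apply measure_mono
          intro y hy
          rw [Set.mem_singleton_iff] at hy
          simp [hy]
      _ = uB (i+1) {z (i+1)} := by rw [QQ_eval, qq_ge (by omega)]
      _ ≤ _ := uB_point i _
  have hlim : Tendsto (fun j : ℕ => ENNReal.ofReal (11 * ((1:ℝ) / 2) ^ j)) atTop (𝓝 (ENNReal.ofReal (11 * 0))) :=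
    ENNReal.tendsto_ofReal ((tendsto_pow_atTop_nhds_zero_of_lt_one (by norm_num) (by norm_num)).const_mul 11)
  rw [mul_zero, ENNReal.ofReal_zero] at hlim
  refine le_antisymm (ge_of_tendsto hlim ?_) (by simp)
  filter_upwards [eventually_ge_atTop m] with i hi
  exact h i hi

end H878L
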