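import Pool.Agent.H878.Levy15

/-! The infinite invariant measure on the fundamental domain. -/

open Finset Filter Topology MeasureTheory ProbabilityTheory

namespace H878L

lemma add_add_cancel (z c : ZZ) : z + c + c = z := by rw [add_assoc, ZZ_add_self, add_zero]

/-- moving a set by an admissible translation -/
lemma lam_swap {c : ZZ} (hc : Summable fun i => ‖c i‖) {A B : Set ZZ} (hA : MeasurableSet A)
    (hB : MeasurableSet B) : lam (A ∩ (fun z => z + c) ⁻¹' B) = lam ((fun z => z + c) ⁻¹' A ∩ B) := by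
  have h1 : lam.map (fun z => z + c) ((fun z => z + c) ⁻¹' A ∩ B) = lam ((fun z => z + c) ⁻¹' A ∩ B) := by
    rw [lam_inv hc]
  rw [Measure.map_apply (meas_add_const c) ((meas_add_const c hA).inter hB)] at h1
  rw [← h1]
  congr 1
  ext z
  simp only [Set.mem_inter_iff, Set.mem_preimage, add_add_cancel]

lemma tX_inv (g : GG) : (tX lam).map (actG g) = tX lam := by
  ext A hA
  rw [Measure.map_apply (actG_meas_fix g) hA, tX_apply, tX_apply]
  obtain ⟨e, rfl⟩ := QuotientAddGroup.mk_surjective g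
  have hA' : MeasurableSet (Subtype.val '' A : Set ZZ) := emb.measurableSet_image.2 hA
  set A' : Set ZZ := Subtype.val '' A with hA'def
  have hsum : ∀ c : NN, Summable fun i => ‖(cE e + (c : ZZ)) i‖ := fun c => cE_NN_summable e c.2
  have e1 : Subtype.val '' ((actG (e : GG)) ⁻¹' A) =
      ⋃ c : NN, (DD ∩ (fun z => z + (cE e + (c : ZZ))) ⁻¹' A') := by
    ext z
    constructor
    · rintro ⟨x, hx, rfl⟩
      rw [Set.mem_preimage, actG_mk] at hx
      obtain ⟨_, c, hc, h2⟩ := rr_spec (Z1_add_E (DD_sub x.2) e)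
      refine Set.mem_iUnion.2 ⟨⟨c, hc⟩, x.2, ?_⟩
      refine ⟨actE e x, hx, ?_⟩
      rw [actE_coe, h2]; simp only [add_assoc]
    · intro hz
      obtain ⟨c, hzD, y, hy, hyz⟩ := Set.mem_iUnion.1 hz
      refine ⟨⟨z, hzD⟩, ?_, rfl⟩
      rw [Set.mem_preimage, actG_mk]
      have : actE e ⟨z, hzD⟩ = y := by
        apply Subtype.ext
        rw [actE_coe]
        refine rr_eq (Z1_add_E (DD_sub hzD) e) y.2 c.2 ?_
        rw [hyz]; simp only [add_assoc]
      rw [this]; exact hy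
  have e2 : A' = ⋃ c : NN, ((fun z => z + (cE e + (c : ZZ))) ⁻¹' DD ∩ A') := by
    ext z
    constructor
    · rintro ⟨x, hx, rfl⟩
      obtain ⟨c, hc, hcD⟩ := exists_DD (Z1_add_E (DD_sub x.2) e)
      refine Set.mem_iUnion.2 ⟨⟨c, hc⟩, ?_, x, hx, rfl⟩
      rw [Set.mem_preimage, ← add_assoc]; exact hcD
    · intro hz
      obtain ⟨c, _, h⟩ := Set.mem_iUnion.1 hz
      exact h
  have d1 : Pairwise (Function.onFun Disjoint fun c : NN => (DD ∩ (fun z => z + (cE e + (c : ZZ))) ⁻¹' A')) := by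
    intro c c' hcc'
    rw [Function.onFun, Set.disjoint_left]
    rintro z ⟨_, y, hy, hyz⟩ ⟨_, y', hy', hyz'⟩
    apply hcc'
    have h1 : (y' : ZZ) = (y : ZZ) + ((c' : ZZ) - (c : ZZ)) := by
      have a1 : (y : ZZ) = z + (cE e + (c : ZZ)) := hyz
      have a2 : (y' : ZZ) = z + (cE e + (c' : ZZ)) := hyz'
      rw [a1, a2]; abel
    have h2 := unique_DD y.2 y'.2 (NN.sub_mem c'.2 c.2) h1
    rw [← h2] at h1
    have h3 : (c' : ZZ) - (c : ZZ) = 0 := by
      have : (y : ZZ) + 0 = (y : ZZ) + ((c' : ZZ) - (c : ZZ)) := by rw [add_zero]; exact h1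
      exact (add_left_cancel this).symm
    exact (Subtype.ext (sub_eq_zero.1 h3)).symm
  have d2 : Pairwise (Function.onFun Disjoint fun c : NN => ((fun z => z + (cE e + (c : ZZ))) ⁻¹' DD ∩ A')) := by
    intro c c' hcc'
    rw [Function.onFun, Set.disjoint_left]
    rintro z ⟨h1, _⟩ ⟨h2, _⟩
    apply hcc'
    rw [Set.mem_preimage] at h1 h2
    have h3 : z + (cE e + (c' : ZZ)) = z + (cE e + (c : ZZ)) + ((c' : ZZ) - (c : ZZ)) := by abel
    have h4 := unique_DD h1 h2 (NN.sub_mem c'.2 c.2) h3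
    have h5 : (c : ZZ) = c' := add_left_cancel (add_left_cancel h4)
    exact Subtype.ext h5
  rw [e1, measure_iUnion d1 (fun c => DD_meas.inter (meas_add_const _ hA'))]
  conv_rhs => rw [e2, measure_iUnion d2 (fun c => (meas_add_const _ DD_meas).inter hA')]
  refine tsum_congr fun c => ?_
  exact lam_swap (hsum c) DD_meas hA'

lemma lam_WB_fin (n : ℕ) : lam (WB n) < ⊤ := by
  have := lam_WB n MeasurableSet.univ
  rw [Set.univ_inter, measure_univ, mul_one] at this
  rw [this]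
  exact lt_top_iff_ne_top.2 (cc_ne_top n)

instance : SigmaFinite (tX lam) := by
  have hnull : lam (⋃ n, WB n)ᶜ = 0 := by
    refine lam_null (MeasurableSet.iUnion WB_meas).compl fun n => ?_
    refine measure_mono_null ?_ (QQ_WB n)
    exact Set.compl_subset_compl.2 (Set.subset_iUnion WB n)
  refine ⟨⟨{ set := fun n => Subtype.val ⁻¹' (WB n ∪ (⋃ n, WB n)ᶜ), set_mem := fun _ => trivial,
             finite := fun n => ?_, spanning := ?_ }⟩⟩
  · rw [tX_apply]
    calc lam (Subtype.val '' ((Subtype.val : XX → ZZ) ⁻¹' (WB n ∪ (⋃ n, WB n)ᶜ)))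
        ≤ lam (WB n ∪ (⋃ n, WB n)ᶜ) := measure_mono (Set.image_preimage_subset _ _)
      _ ≤ lam (WB n) + lam (⋃ n, WB n)ᶜ := measure_union_le _ _
      _ < ⊤ := by rw [hnull, add_zero]; exact lam_WB_fin n
  · rw [← Set.preimage_iUnion, ← Set.iUnion_union, Set.union_compl_self, Set.preimage_univ]

lemma iota_inj {j : ℕ} {h : KK j} (hh : iota j h = 0) : h = 0 := by
  by_contra hne
  have := norm_iota hne
  rw [hh, norm_zero] at this
  linarith

lemma Phi_supp {h : ZZ} (hF : h ∈ FF) {n : ℕ} (h0 : ∀ m, n + 1 ≤ m → Phi h m = 0) :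
    ∀ j, n ≤ j → h j = 0 := by
  obtain ⟨J, hJ⟩ := hF
  have key : ∀ d j, n ≤ j → J ≤ j + d → h j = 0 := by
    intro d
    induction d with
    | zero => intro j _ hj; exact hJ j (by omega)
    | succ d ih =>
      intro j hnj hj
      have h1 := ih (j+1) (by omega) (by omega)
      have h2 := h0 (j+1) (by omega)
      rw [Phi_succ, h1, zero_add] at h2
      exact iota_inj h2
  intro j hj
  exact key J j hj (by omega)

/-- the elements of `N` supported up to `n` -/
def FN (n : ℕ) : Set NN := {c | ∀ m, n + 1 ≤ m → (c : ZZ) m = 0}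

lemma FN_card (n : ℕ) : (FN n).encard ≤ (2 ^ (∑ i ∈ range n, kk i) : ℕ) := by
  classical
  have hch : ∀ c : NN, ∃ h : ZZ, h ∈ FF ∧ Phi h = c := fun c => c.2
  choose hh hF hP using hch
  set f : NN → (∀ i : Fin n, KK i) := fun c i => hh c i with hf
  have hinj : Set.InjOn f (FN n) := by
    intro c hc c' hc' hcc'
    have h1 : ∀ j, n ≤ j → hh c j = 0 := Phi_supp (hF c) (fun m hm => by rw [hP]; exact hc m hm)
    have h2 : ∀ j, n ≤ j → hh c' j = 0 := Phi_supp (hF c') (fun m hm => by rw [hP]; exact hc' m hm)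
    have h3 : hh c = hh c' := by
      funext j
      rcases lt_or_ge j n with h | h
      · exact congrFun hcc' ⟨j, h⟩
      · rw [h1 j h, h2 j h]
    apply Subtype.ext
    rw [← hP c, ← hP c', h3]
  rw [← hinj.encard_image]
  have hcardF : Fintype.card (∀ i : Fin n, KK i) = 2 ^ (∑ i ∈ range n, kk i) := by
    rw [Fintype.card_pi]
    simp_rw [card_KK]
    rw [Finset.prod_pow_eq_pow_sum, ← Finset.sum_range (fun i => kk i)]
  calc (f '' FN n).encard ≤ (Set.univ : Set (∀ i : Fin n, KK i)).encard := Set.encard_le_encard (Set.subset_univ _)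
    _ = (2 ^ (∑ i ∈ range n, kk i) : ℕ) := by
        rw [Set.encard_univ, ENat.card_eq_coe_fintype_card, hcardF]

lemma sum_kk (i : ℕ) : ∑ j ∈ range (i+1), kk j ≤ 2 * kk i := by
  induction i with
  | zero => simp; omega
  | succ i ih =>
    rw [Finset.sum_range_succ]
    have h1 : 2 * kk i ≤ kk (i+1) := by
      rw [kk_succ]
      have : 10 * kk i < 2 ^ (10 * kk i) := Nat.lt_two_pow_self
      omega
    omega

/-- orbits meet the good part of level `n` in few points -/
lemma oc_le (n : ℕ) (x : ZZ) : oc (W n) x ≤ (2 ^ (∑ i ∈ range n, kk i) : ℕ) := by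
  by_cases hex : ∃ c : NN, x + (c : ZZ) ∈ W n
  · obtain ⟨c0, hc0⟩ := hex
    rw [← oc_add x c0]
    set y := x + (c0 : ZZ) with hy
    have h1 : ∀ c : NN, (W n).indicator (1 : ZZ → ENNReal) (y + (c : ZZ)) ≤ (FN n).indicator 1 c := by
      intro c
      by_cases hc : y + (c : ZZ) ∈ W n
      · have : c ∈ FN n := W_NN hc0 c.2 hc
        rw [Set.indicator_of_mem hc, Set.indicator_of_mem this]; simp
      · rw [Set.indicator_of_notMem hc]; simp
    unfold oc
    refine (ENNReal.tsum_le_tsum h1).trans ?_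
    rw [← tsum_subtype (FN n) (1 : NN → ENNReal)]
    have h2 : ∑' _ : FN n, (1 : ENNReal) = (FN n).encard := ENNReal.tsum_set_one _
    calc ∑' c : FN n, (1 : NN → ENNReal) c = ∑' _ : FN n, (1 : ENNReal) := rfl
      _ = (FN n).encard := h2
      _ ≤ _ := by
          have := FN_card n
          exact_mod_cast this
  · push Not at hex
    unfold oc
    have : ∀ c : NN, (W n).indicator (1 : ZZ → ENNReal) (x + (c : ZZ)) = 0 := fun c =>
      Set.indicator_of_notMem (hex c) _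
    simp_rw [this]; simp

lemma lam_le_oc {A : Set ZZ} (hA : MeasurableSet A) : lam A ≤ ∫⁻ x : XX, oc A (x : ZZ) ∂(tX lam) := by
  have h0 : lam A ≤ lam (A ∩ Z1) := by
    calc lam A ≤ lam ((A ∩ Z1) ∪ Z1ᶜ) := by
          apply measure_mono
          intro z hz
          by_cases h : z ∈ Z1
          exacts [Or.inl ⟨hz, h⟩, Or.inr h]
      _ ≤ lam (A ∩ Z1) + lam Z1ᶜ := measure_union_le _ _
      _ = lam (A ∩ Z1) := by
          have : lam Z1ᶜ = 0 := lam_Z1
          rw [this, add_zero]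
  refine h0.trans ?_
  have h1 : A ∩ Z1 ⊆ ⋃ c : NN, ((fun z => z + (c : ZZ)) ⁻¹' DD ∩ A) := by
    rintro z ⟨hz, hz1⟩
    obtain ⟨c, hc, hcD⟩ := exists_DD hz1
    exact Set.mem_iUnion.2 ⟨⟨c, hc⟩, hcD, hz⟩
  refine (measure_mono h1).trans ((measure_iUnion_le _).trans ?_)
  unfold oc
  rw [lintegral_tsum]
  · refine ENNReal.tsum_le_tsum fun c => ?_
    rw [← lam_swap (FF_summable (NN_le_FF c.2)) DD_meas hA]
    have h2 : ∫⁻ x : XX, A.indicator 1 ((x : ZZ) + (c : ZZ)) ∂(tX lam) =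
        tX lam ((fun x : XX => (x : ZZ) + (c : ZZ)) ⁻¹' A) := by
      rw [← lintegral_indicator_one (val_add_meas c hA)]
      rfl
    rw [h2, tX_apply]
    apply measure_mono
    rintro z ⟨hz, hz2⟩
    exact ⟨⟨z, hz⟩, hz2, rfl⟩
  · intro c
    exact ((measurable_one.indicator hA).comp (val_add_meas c)).aemeasurable

lemma QQ_W (i : ℕ) (hi : 7 ≤ i) : 1 / 2 ≤ QQ (i+1) (W i) := by
  have h1 : QQ (i+1) (W i)ᶜ ≤ 1 / 2 := by
    have hsub : (W i)ᶜ ⊆ ⋃ j : ℕ, {z : ZZ | z (i + j + 1) ∈ {x | ¬ Core (i+j) x}} := by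
      intro z hz
      simp only [W, Set.mem_compl_iff, Set.mem_ofPred_eq, not_forall] at hz
      obtain ⟨j, hj, hz⟩ := hz
      obtain ⟨d, rfl⟩ := Nat.exists_eq_add_of_le hj
      refine Set.mem_iUnion.2 ⟨d, fun hcore => hz ?_⟩
      exact hcore.good (by simp)
    refine (measure_mono hsub).trans ((measure_iUnion_le _).trans ?_)
    have h2 : ∀ j, QQ (i+1) {z : ZZ | z (i + j + 1) ∈ {x | ¬ Core (i+j) x}} ≤
        ENNReal.ofReal (32 * (1 / 2) ^ i * (1 / 2) ^ j) := by
      intro j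
      rw [QQ_eval, qq_ge (by omega)]
      refine (uB_core (i+j)).trans (ENNReal.ofReal_le_ofReal ?_)
      rw [pow_add, mul_assoc]
    refine (ENNReal.tsum_le_tsum h2).trans ?_
    rw [← ENNReal.ofReal_tsum_of_nonneg (fun j => by positivity)
      ((summable_geometric_of_lt_one (by norm_num) (by norm_num)).mul_left _), tsum_mul_left,
      tsum_geometric_of_lt_one (by norm_num) (by norm_num)]
    have h3 : ((1:ℝ) / 2) ^ i ≤ (1 / 2) ^ 7 := pow_le_pow_of_le_one (by norm_num) (by norm_num) hi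
    calc ENNReal.ofReal (32 * (1 / 2) ^ i * (1 - 1 / 2)⁻¹) ≤ ENNReal.ofReal (1 / 2) := by
          apply ENNReal.ofReal_le_ofReal
          norm_num at h3 ⊢
          linarith
      _ = 1 / 2 := by
          rw [ENNReal.ofReal_div_of_pos (by norm_num)]; simp
  have hWm := W_meas i
  have h3 : (1 : ENNReal) = QQ (i+1) (W i) + QQ (i+1) (W i)ᶜ := by
    rw [prob_add_prob_compl hWm]
  have h4 : (1 : ENNReal) ≤ QQ (i+1) (W i) + 1 / 2 := by
    calc (1 : ENNReal) = QQ (i+1) (W i) + QQ (i+1) (W i)ᶜ := h3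
      _ ≤ _ := by gcongr
  have h5 : (1 : ENNReal) / 2 + 1 / 2 ≤ QQ (i+1) (W i) + 1 / 2 := by rw [ENNReal.add_halves]; exact h4
  exact (ENNReal.add_le_add_iff_right (by simp)).1 h5

lemma cc_ge (i : ℕ) : ENNReal.ofReal (2 ^ (4 * kk i) / 2) ≤ cc (i+2) := by
  unfold cc
  rw [Finset.prod_range_succ]
  have h1 : (1 : ENNReal) ≤ ∏ x ∈ range (i+1), (uK x (BB x))⁻¹ :=
    Finset.one_le_prod' fun x _ => by
      rw [ENNReal.one_le_inv]; exact prob_le_one
  have h2 : ENNReal.ofReal (2 ^ (4 * kk i) / 2) ≤ (uK (i+1) (BB (i+1)))⁻¹ := by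
    have h3 := uK_BB_le i
    have h4 : (ENNReal.ofReal (2 * (1 / 2) ^ (4 * kk i)))⁻¹ ≤ (uK (i+1) (BB (i+1)))⁻¹ :=
      ENNReal.inv_le_inv.2 h3
    refine le_trans (le_of_eq ?_) h4
    rw [← ENNReal.ofReal_inv_of_pos (by positivity)]
    congr 1
    rw [mul_inv, one_div, inv_pow, inv_inv]
    ring
  calc ENNReal.ofReal (2 ^ (4 * kk i) / 2) = 1 * ENNReal.ofReal (2 ^ (4 * kk i) / 2) := (one_mul _).symm
    _ ≤ _ := mul_le_mul' h1 h2

theorem tX_infinite : tX lam Set.univ = ⊤ := by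
  by_contra hne
  have key : ∀ i, 7 ≤ i → ENNReal.ofReal ((2:ℝ) ^ i / 4) ≤ tX lam Set.univ := by
    intro i hi
    have h1 : cc (i+2) * QQ (i+2) (W (i+1)) ≤ lam (W (i+1)) := by
      rw [← lam_WB (i+2) (W_meas (i+1))]
      exact measure_mono Set.inter_subset_left
    have h2 : lam (W (i+1)) ≤ (2 ^ (∑ j ∈ range (i+1), kk j) : ℕ) * tX lam Set.univ := by
      refine (lam_le_oc (W_meas (i+1))).trans ?_
      calc ∫⁻ x : XX, oc (W (i+1)) (x : ZZ) ∂(tX lam)
          ≤ ∫⁻ _x : XX, ((2 ^ (∑ j ∈ range (i+1), kk j) : ℕ) : ENNReal) ∂(tX lam) :=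
            lintegral_mono fun x => oc_le (i+1) _
        _ = _ := by rw [lintegral_const]
    have h3 := QQ_W (i+1) (by omega)
    have h4 := cc_ge i
    have h5 : ENNReal.ofReal (2 ^ (4 * kk i) / 2) * (1 / 2) ≤
        (2 ^ (∑ j ∈ range (i+1), kk j) : ℕ) * tX lam Set.univ :=
      (mul_le_mul' h4 h3).trans (h1.trans h2)
    have h6 : ((2 ^ (∑ j ∈ range (i+1), kk j) : ℕ) : ENNReal) ≤ ENNReal.ofReal (2 ^ (2 * kk i)) := by
      have : (2 ^ (∑ j ∈ range (i+1), kk j) : ℕ) ≤ 2 ^ (2 * kk i) :=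
        Nat.pow_le_pow_right (by norm_num) (sum_kk i)
      rw [ENNReal.ofReal_pow (by norm_num), ENNReal.ofReal_ofNat]
      exact_mod_cast this
    have h7 : ENNReal.ofReal (2 ^ (2 * kk i)) * ENNReal.ofReal ((2:ℝ) ^ i / 4) ≤
        ENNReal.ofReal (2 ^ (2 * kk i)) * tX lam Set.univ := by
      calc ENNReal.ofReal (2 ^ (2 * kk i)) * ENNReal.ofReal ((2:ℝ) ^ i / 4)
          ≤ ENNReal.ofReal (2 ^ (4 * kk i) / 2) * ENNReal.ofReal (1 / 2) := by
            rw [← ENNReal.ofReal_mul (by positivity), ← ENNReal.ofReal_mul (by positivity)]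
            apply ENNReal.ofReal_le_ofReal
            have e1 : (2:ℝ) ^ (4 * kk i) = 2 ^ (2 * kk i) * 2 ^ (2 * kk i) := by
              rw [← pow_add]; congr 1; ring
            have e2 : (2:ℝ) ^ i ≤ 2 ^ (2 * kk i) :=
              pow_le_pow_right₀ (by norm_num) (by have := kk_ge i; omega)
            rw [e1]
            have e3 : (0:ℝ) < 2 ^ (2 * kk i) := by positivity
            nlinarith
        _ = ENNReal.ofReal (2 ^ (4 * kk i) / 2) * (1 / 2) := by
            congr 1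
            rw [ENNReal.ofReal_div_of_pos (by norm_num)]; simp
        _ ≤ (2 ^ (∑ j ∈ range (i+1), kk j) : ℕ) * tX lam Set.univ := h5
        _ ≤ _ := mul_le_mul_left h6 _
    exact (ENNReal.mul_le_mul_iff_right (by
      simp only [ne_eq, ENNReal.ofReal_eq_zero, not_le]; positivity) ENNReal.ofReal_ne_top).1 h7
  have hlim : Tendsto (fun i : ℕ => ENNReal.ofReal ((2:ℝ) ^ i / 4)) atTop (𝓝 ⊤) := by
    rw [ENNReal.tendsto_ofReal_nhds_top]
    exact (tendsto_pow_atTop_atTop_of_one_lt (by norm_num)).atTop_div_const (by norm_num)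
  have hle : (⊤ : ENNReal) ≤ tX lam Set.univ := by
    refine le_of_tendsto hlim ?_
    filter_upwards [eventually_ge_atTop 7] with i hi
    exact key i hi
  exact hne (top_le_iff.1 hle)

end H878L
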