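import Pool.Agent.H878.Levy1

/-! Weights of translates: means, Hellinger affinity, chi-square, total variation. -/

open Finset

namespace H878L

lemma cube_add_self {n : ℕ} (x : Fin n → ZMod 2) : x + x = 0 := by
  funext i; exact zmod2_add_self _

lemma cube_neg {n : ℕ} (x : Fin n → ZMod 2) : -x = x := by
  have := cube_add_self x
  exact neg_eq_of_add_eq_zero_left this

lemma hn_sum {n : ℕ} (x : Fin n → ZMod 2) :
    (hammingNorm x : ℝ) = ∑ i, if x i = 0 then (0:ℝ) else 1 := by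
  simp only [hammingNorm, Finset.card_filter]
  push_cast
  refine Finset.sum_congr rfl fun i _ => ?_
  by_cases h : x i = 0 <;> simp [h]

lemma hn_add_le {n : ℕ} (x y : Fin n → ZMod 2) :
    hammingNorm (x + y) ≤ hammingNorm x + hammingNorm y := by
  have h := hammingDist_triangle x 0 (-y)
  rw [hammingDist_zero_right, hammingDist_zero_left, hammingDist_eq_hammingNorm] at h
  simpa only [cube_neg] using h

lemma hd_eq {n : ℕ} (x y : Fin n → ZMod 2) : hammingDist x y = hammingNorm (x + y) := by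
  rw [hammingDist_eq_hammingNorm, cube_neg]

lemma hn_lip {n : ℕ} (v x y : Fin n → ZMod 2) :
    |(hammingNorm (x + v) : ℝ) - hammingNorm (y + v)| ≤ hammingDist x y := by
  have h1 : hammingNorm (x + v) ≤ hammingNorm (y + v) + hammingDist x y := by
    have : x + v = (y + v) + (x + y) := by
      have := cube_add_self y
      calc x + v = x + v + (y + y) := by rw [this, add_zero]
        _ = _ := by abel
    rw [this, hd_eq]; exact hn_add_le _ _
  have h2 : hammingNorm (y + v) ≤ hammingNorm (x + v) + hammingDist x y := by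
    have : y + v = (x + v) + (x + y) := by
      have := cube_add_self x
      calc y + v = y + v + (x + x) := by rw [this, add_zero]
        _ = _ := by abel
    rw [this, hd_eq]; exact hn_add_le _ _
  have h1' : (hammingNorm (x + v) : ℝ) ≤ hammingNorm (y + v) + hammingDist x y := by exact_mod_cast h1
  have h2' : (hammingNorm (y + v) : ℝ) ≤ hammingNorm (x + v) + hammingDist x y := by exact_mod_cast h2
  rw [abs_le]; constructor <;> linarith

/-- mean weight of a translate -/
lemma mean_hn (e : ℝ) {n : ℕ} (v : Fin n → ZMod 2) :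
    ∑ x : Fin n → ZMod 2, wt e x * hammingNorm (x + v) = n * (1 - e) / 2 + e * hammingNorm v := by
  have h1 : ∀ x : Fin n → ZMod 2, wt e x * (hammingNorm (x + v) : ℝ)
      = ∑ i, wt e x * (if x i + v i = 0 then (0:ℝ) else 1) := by
    intro x; rw [hn_sum, Finset.mul_sum]; rfl
  simp_rw [h1]
  rw [Finset.sum_comm]
  have h2 : ∀ i, ∑ x : Fin n → ZMod 2, wt e x * (if x i + v i = 0 then (0:ℝ) else 1)
      = (1 - e) / 2 + e * (if v i = 0 then 0 else 1) := by
    intro i
    rw [wt_marginal e i (fun b => if b + v i = 0 then (0:ℝ) else 1), sum_zmod2, pb_zero, pb_one]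
    rcases zmod2_cases (v i) with h | h
    · rw [h]; simp
    · rw [h]
      have : (1 : ZMod 2) + 1 = 0 := by decide
      simp [this]; ring
  simp_rw [h2]
  rw [Finset.sum_add_distrib, ← Finset.mul_sum, hn_sum]
  simp
  ring

/-- general product for pairs -/
lemma pair_prod {n : ℕ} (v : Fin n → ZMod 2) (F : ZMod 2 → ZMod 2 → ℝ) (c : ℝ)
    (h0 : ∑ b, F b b = 1) (h1 : ∑ b, F b (b + 1) = c) :
    ∑ x : Fin n → ZMod 2, ∏ i, F (x i) (x i + v i) = c ^ hammingNorm v := by
  rw [prod_formula (fun i b => F b (b + v i))]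
  have : ∀ i, ∑ b, F b (b + v i) = if v i ≠ 0 then c else 1 := by
    intro i
    rcases zmod2_cases (v i) with h | h
    · rw [h]; simp [h0]
    · rw [h]; simp [h1]
  simp_rw [this]
  rw [Finset.prod_ite]
  simp [hammingNorm]

lemma hell {e : ℝ} (h0 : 0 ≤ e) (h1 : e ≤ 1) {n : ℕ} (v : Fin n → ZMod 2) :
    ∑ x : Fin n → ZMod 2, √(wt e x * wt e (x + v)) = √(1 - e ^ 2) ^ hammingNorm v := by
  have : ∀ x : Fin n → ZMod 2, √(wt e x * wt e (x + v)) =
      ∏ i, (fun a b => √(pb e a * pb e b)) (x i) (x i + v i) := by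
    intro x
    unfold wt
    rw [← Finset.prod_mul_distrib, Real.sqrt_prod]
    · rfl
    · intro i _
      exact mul_nonneg (pb_nonneg h0 h1 _) (pb_nonneg h0 h1 _)
  simp_rw [this]
  refine pair_prod v (fun a b => √(pb e a * pb e b)) _ ?_ ?_
  · rw [sum_zmod2, Real.sqrt_mul_self (pb_nonneg h0 h1 _), Real.sqrt_mul_self (pb_nonneg h0 h1 _),
      ← sum_zmod2, pb_sum]
  · have e1 : (1 : ZMod 2) + 1 = 0 := by decide
    rw [sum_zmod2, zero_add, e1, mul_comm (pb e 1), ← two_mul, pb_zero, pb_one]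
    rw [show (1 + e) / 2 * ((1 - e) / 2) = (1 - e ^ 2) / 2 ^ 2 by ring, Real.sqrt_div' _ (by positivity),
      Real.sqrt_sq (by norm_num)]
    ring

lemma chi2 {e : ℝ} (h0 : 0 ≤ e) (h1 : e < 1) {n : ℕ} (v : Fin n → ZMod 2) :
    ∑ x : Fin n → ZMod 2, wt e (x + v) ^ 2 / wt e x = ((1 + 3 * e ^ 2) / (1 - e ^ 2)) ^ hammingNorm v := by
  have : ∀ x : Fin n → ZMod 2, wt e (x + v) ^ 2 / wt e x =
      ∏ i, (fun a b => pb e b ^ 2 / pb e a) (x i) (x i + v i) := by
    intro x
    unfold wt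
    rw [← Finset.prod_pow, ← Finset.prod_div_distrib]
    rfl
  simp_rw [this]
  refine pair_prod v (fun a b => pb e b ^ 2 / pb e a) _ ?_ ?_
  · have : ∀ b, pb e b ^ 2 / pb e b = pb e b := by
      intro b
      have := (pb_pos h0 h1 b).ne'
      field_simp
    simp_rw [this]; exact pb_sum e
  · have e1 : (1 : ZMod 2) + 1 = 0 := by decide
    rw [sum_zmod2, zero_add, e1, pb_zero, pb_one]
    have h2 : (1:ℝ) - e ≠ 0 := by linarith
    have h3 : (1:ℝ) + e ≠ 0 := by linarith
    have h4 : (1:ℝ) - e ^ 2 ≠ 0 := by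
      rw [show (1:ℝ) - e ^ 2 = (1 - e) * (1 + e) by ring]; exact mul_ne_zero h2 h3
    field_simp
    ring

/-- total variation of a translate -/
lemma tv_le {e : ℝ} (h0 : 0 ≤ e) (h1 : e ≤ 1) {n : ℕ} (v : Fin n → ZMod 2) :
    ∑ x : Fin n → ZMod 2, |wt e (x + v) - wt e x| ≤ 2 * (e * √(hammingNorm v)) := by
  have hH := hell h0 h1 v
  set H := √(1 - e ^ 2) ^ hammingNorm v with hHdef
  have he2 : 0 ≤ 1 - e ^ 2 := by nlinarith
  have hHsq : 1 - hammingNorm v * e ^ 2 ≤ H ^ 2 := by
    have : H ^ 2 = (1 - e ^ 2) ^ hammingNorm v := by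
      rw [hHdef, ← pow_mul, mul_comm, pow_mul, Real.sq_sqrt he2]
    rw [this]
    have := one_add_mul_le_pow (a := -e ^ 2) (by nlinarith) (hammingNorm v)
    calc (1:ℝ) - hammingNorm v * e ^ 2 = 1 + hammingNorm v * (-e ^ 2) := by ring
      _ ≤ (1 + -e ^ 2) ^ hammingNorm v := this
      _ = _ := by ring
  have hshift : ∑ x : Fin n → ZMod 2, wt e (x + v) = 1 := by
    have := Equiv.sum_comp (Equiv.addRight v) (fun x : Fin n → ZMod 2 => wt e x)
    rw [wt_sum] at this
    exact this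
  have hA : ∑ x : Fin n → ZMod 2, (√(wt e (x + v)) - √(wt e x)) ^ 2 = 2 - 2 * H := by
    have : ∀ x : Fin n → ZMod 2, (√(wt e (x + v)) - √(wt e x)) ^ 2
        = wt e (x + v) + wt e x - 2 * √(wt e x * wt e (x + v)) := by
      intro x
      rw [Real.sqrt_mul (wt_nonneg h0 h1 x)]
      have a1 := Real.sq_sqrt (wt_nonneg h0 h1 x)
      have a2 := Real.sq_sqrt (wt_nonneg h0 h1 (x + v))
      linear_combination a1 + a2
    simp_rw [this]
    rw [Finset.sum_sub_distrib, Finset.sum_add_distrib, ← Finset.mul_sum, hH, hshift, wt_sum]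
    ring
  have hB : ∑ x : Fin n → ZMod 2, (√(wt e (x + v)) + √(wt e x)) ^ 2 = 2 + 2 * H := by
    have : ∀ x : Fin n → ZMod 2, (√(wt e (x + v)) + √(wt e x)) ^ 2
        = wt e (x + v) + wt e x + 2 * √(wt e x * wt e (x + v)) := by
      intro x
      rw [Real.sqrt_mul (wt_nonneg h0 h1 x)]
      have a1 := Real.sq_sqrt (wt_nonneg h0 h1 x)
      have a2 := Real.sq_sqrt (wt_nonneg h0 h1 (x + v))
      linear_combination a1 + a2
    simp_rw [this]
    rw [Finset.sum_add_distrib, Finset.sum_add_distrib, ← Finset.mul_sum, hH, hshift, wt_sum]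
    ring
  have hCS := Finset.sum_mul_sq_le_sq_mul_sq (Finset.univ : Finset (Fin n → ZMod 2))
    (fun x => |√(wt e (x + v)) - √(wt e x)|) (fun x => √(wt e (x + v)) + √(wt e x))
  simp only [sq_abs] at hCS
  rw [hA, hB] at hCS
  have hLHS : ∑ x : Fin n → ZMod 2, |√(wt e (x + v)) - √(wt e x)| * (√(wt e (x + v)) + √(wt e x))
      = ∑ x : Fin n → ZMod 2, |wt e (x + v) - wt e x| := by
    refine Finset.sum_congr rfl fun x _ => ?_
    have a1 := Real.sq_sqrt (wt_nonneg h0 h1 x)
    have a2 := Real.sq_sqrt (wt_nonneg h0 h1 (x + v))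
    have a3 : wt e (x + v) - wt e x = (√(wt e (x + v)) - √(wt e x)) * (√(wt e (x + v)) + √(wt e x)) := by
      linear_combination a1 - a2
    rw [a3, abs_mul, abs_of_nonneg (add_nonneg (Real.sqrt_nonneg _) (Real.sqrt_nonneg _))]
  rw [hLHS] at hCS
  have hfin : (∑ x : Fin n → ZMod 2, |wt e (x + v) - wt e x|) ^ 2 ≤ (2 * (e * √(hammingNorm v))) ^ 2 := by
    refine hCS.trans ?_
    rw [mul_pow, mul_pow, Real.sq_sqrt (Nat.cast_nonneg _)]
    nlinarith
  exact abs_le_of_sq_le_sq' hfin (by positivity) |>.2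

/-- the derivative is usually smaller than one half after a large translation -/
lemma half_le {e : ℝ} (h0 : 0 ≤ e) (h1 : e < 1) {n : ℕ} (v : Fin n → ZMod 2)
    (hv : 4 ≤ (hammingNorm v : ℝ) * e ^ 2) :
    ∑ x with wt e x / 2 < wt e (x + v), wt e x ≤ 1 / 2 := by
  have hH := hell h0 h1.le v
  have he2 : 0 ≤ 1 - e ^ 2 := by nlinarith
  have hH2 : (√(1 - e ^ 2) ^ hammingNorm v) ≤ Real.exp (-2) := by
    have h3 : √(1 - e ^ 2) ≤ Real.exp (-(e ^ 2 / 2)) := by
      rw [Real.sqrt_le_left (Real.exp_pos _).le, ← Real.exp_nat_mul]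
      have := Real.add_one_le_exp (-(e ^ 2))
      calc 1 - e ^ 2 = -(e ^ 2) + 1 := by ring
        _ ≤ _ := this
        _ = _ := by congr 1; push_cast; ring
    calc (√(1 - e ^ 2) ^ hammingNorm v) ≤ Real.exp (-(e ^ 2 / 2)) ^ hammingNorm v :=
          pow_le_pow_left₀ (Real.sqrt_nonneg _) h3 _
      _ = Real.exp (hammingNorm v * -(e ^ 2 / 2)) := by rw [← Real.exp_nat_mul]
      _ ≤ Real.exp (-2) := by
          apply Real.exp_le_exp.2
          nlinarith
  have hexp : Real.exp (-2) ≤ 1 / 4 := by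
    rw [Real.exp_neg, show (2:ℝ) = 1 + 1 by norm_num, Real.exp_add]
    have := Real.exp_one_gt_d9
    rw [inv_le_comm₀ (by positivity) (by norm_num)]
    nlinarith
  have h2 : ∀ x : Fin n → ZMod 2, wt e x / 2 < wt e (x + v) → wt e x ≤ 2 * √(wt e x * wt e (x + v)) := by
    intro x hx
    have hp := wt_pos h0 h1 x
    have : (wt e x / 2) ≤ √(wt e x * wt e (x + v)) := by
      apply Real.le_sqrt_of_sq_le
      nlinarith
    linarith
  calc ∑ x with wt e x / 2 < wt e (x + v), wt e x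
      ≤ ∑ x with wt e x / 2 < wt e (x + v), 2 * √(wt e x * wt e (x + v)) :=
        Finset.sum_le_sum fun x hx => h2 x (Finset.mem_filter.1 hx).2
    _ ≤ ∑ x, 2 * √(wt e x * wt e (x + v)) :=
        Finset.sum_le_sum_of_subset_of_nonneg (Finset.filter_subset _ _)
          fun x _ _ => by positivity
    _ = 2 * (√(1 - e ^ 2) ^ hammingNorm v) := by rw [← Finset.mul_sum, hH]
    _ ≤ 1 / 2 := by linarith

end H878L
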