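import Pool.Agent.H878.Levy2

/-! The blocks, the Hadamard embeddings, the Polish group `E` and its discrete subgroup. -/

open Finset Filter Topology

namespace H878L

/-- block sizes -/
def kk : ℕ → ℕ
  | 0 => 1
  | (j+1) => 2 ^ (10 * kk j)

lemma kk_succ (j : ℕ) : kk (j+1) = 2 ^ (10 * kk j) := rfl

lemma kk_ge (j : ℕ) : j + 1 ≤ kk j := by
  induction j with
  | zero => simp [kk]
  | succ j ih =>
    rw [kk_succ]
    calc j + 1 + 1 ≤ 2 ^ (j + 1) := Nat.lt_two_pow_self
      _ ≤ 2 ^ (10 * kk j) := Nat.pow_le_pow_right (by norm_num) (by omega)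

lemma kk_pos (j : ℕ) : 0 < kk j := by have := kk_ge j; omega

attribute [irreducible] kk

/-- biases -/
noncomputable def ee : ℕ → ℝ
  | 0 => 1 / 2
  | (j+1) => (1 / 2) ^ (3 * kk j)

lemma ee_succ (j : ℕ) : ee (j+1) = (1 / 2) ^ (3 * kk j) := rfl
lemma ee_zero : ee 0 = 1 / 2 := rfl

lemma ee_pos (j : ℕ) : 0 < ee j := by
  cases j with
  | zero => rw [ee_zero]; norm_num
  | succ j => rw [ee_succ]; positivity

lemma ee_le (j : ℕ) : ee j ≤ 1 / 2 := by
  cases j with
  | zero => rw [ee_zero]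
  | succ j =>
    rw [ee_succ]
    have := kk_pos j
    calc ((1:ℝ) / 2) ^ (3 * kk j) ≤ (1 / 2) ^ 1 :=
          pow_le_pow_of_le_one (by norm_num) (by norm_num) (by omega)
      _ = 1 / 2 := by norm_num

lemma ee_lt (j : ℕ) : ee j < 1 := (ee_le j).trans_lt (by norm_num)

attribute [irreducible] ee

/-- blocks -/
def KK (j : ℕ) : Type := Fin (kk j) → ZMod 2

instance (j : ℕ) : AddCommGroup (KK j) := inferInstanceAs (AddCommGroup (Fin (kk j) → ZMod 2))
instance (j : ℕ) : Fintype (KK j) := inferInstanceAs (Fintype (Fin (kk j) → ZMod 2))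
instance (j : ℕ) : DecidableEq (KK j) := inferInstanceAs (DecidableEq (Fin (kk j) → ZMod 2))

/-- Hamming weight -/
def hw {j : ℕ} (x : KK j) : ℕ :=
  hammingNorm (β := fun _ : Fin (kk j) => ZMod 2) x

lemma KK_add_self {j : ℕ} (x : KK j) : x + x = 0 := cube_add_self (n := kk j) x
lemma KK_neg {j : ℕ} (x : KK j) : -x = x := cube_neg (n := kk j) x
lemma hw_add_le {j : ℕ} (x y : KK j) : hw (x + y) ≤ hw x + hw y := hn_add_le (n := kk j) x y
lemma hw_zero {j : ℕ} : hw (0 : KK j) = 0 := hammingNorm_zero (β := fun _ : Fin (kk j) => ZMod 2)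
lemma hw_eq_zero {j : ℕ} {x : KK j} : hw x = 0 ↔ x = 0 :=
  hammingNorm_eq_zero (β := fun _ : Fin (kk j) => ZMod 2)
lemma hw_le {j : ℕ} (x : KK j) : hw x ≤ kk j := by
  have := hammingNorm_le_card_fintype (β := fun _ : Fin (kk j) => ZMod 2) (x := x)
  simpa [hw] using this

lemma card_KK (j : ℕ) : Fintype.card (KK j) = 2 ^ kk j := by
  have : Fintype.card (KK j) = Fintype.card (Fin (kk j) → ZMod 2) := rfl
  rw [this]; simp [ZMod.card]

/-- norm on a block -/
noncomputable def knorm (j : ℕ) : AddGroupNorm (KK j) where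
  toFun x := ee j * √(hw x)
  map_zero' := by rw [hw_zero]; simp
  add_le' x y := by
    rw [← mul_add]
    refine mul_le_mul_of_nonneg_left ?_ (ee_pos j).le
    have h1 : √((hw (x + y) : ℕ) : ℝ) ≤ √((hw x : ℝ) + hw y) := by
      apply Real.sqrt_le_sqrt
      exact_mod_cast hw_add_le x y
    refine h1.trans ?_
    have a := Real.sq_sqrt (Nat.cast_nonneg (α := ℝ) (hw x))
    have b := Real.sq_sqrt (Nat.cast_nonneg (α := ℝ) (hw y))
    rw [Real.sqrt_le_left (by positivity)]
    nlinarith [mul_nonneg (Real.sqrt_nonneg (hw x : ℝ)) (Real.sqrt_nonneg (hw y : ℝ))]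
  neg' x := by rw [KK_neg]
  eq_zero_of_map_eq_zero' x hx := by
    have h1 : √((hw x : ℕ) : ℝ) = 0 := by
      rcases mul_eq_zero.1 hx with h | h
      · exact absurd h (ee_pos j).ne'
      · exact h
    have h2 := (Real.sqrt_eq_zero (Nat.cast_nonneg _)).1 h1
    exact hw_eq_zero.1 (by exact_mod_cast h2)

noncomputable instance (j : ℕ) : NormedAddCommGroup (KK j) := (knorm j).toNormedAddCommGroup

lemma norm_KK {j : ℕ} (x : KK j) : ‖x‖ = ee j * √(hw x) := rfl

instance (j : ℕ) : MeasurableSpace (KK j) := ⊤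
instance (j : ℕ) : DiscreteMeasurableSpace (KK j) := ⟨fun _ => trivial⟩

example (j : ℕ) : BorelSpace (KK j) := inferInstance
example : StandardBorelSpace (∀ j, KK j) := inferInstance

/-- decoding of the coordinates of block `j+1` -/
noncomputable def dec (j : ℕ) : Fin (kk (j+1)) ≃ KK j × Fin (2 ^ (9 * kk j)) :=
  Fintype.equivOfCardEq (by
    rw [Fintype.card_prod, card_KK, Fintype.card_fin, Fintype.card_fin, kk_succ, ← pow_add]
    congr 1; omega)

/-- the repeated Hadamard embedding -/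
noncomputable def iota (j : ℕ) : KK j →+ KK (j+1) where
  toFun h := fun a => ∑ i : Fin (kk j), (h i) * ((dec j a).1 i)
  map_zero' := by
    funext a
    exact Finset.sum_eq_zero fun i _ => zero_mul _
  map_add' x y := by
    funext a
    change ∑ i : Fin (kk j), (x i + y i) * ((dec j a).1 i) =
      ∑ i : Fin (kk j), (x i) * ((dec j a).1 i) + ∑ i : Fin (kk j), (y i) * ((dec j a).1 i)
    rw [← Finset.sum_add_distrib]
    exact Finset.sum_congr rfl fun i _ => add_mul _ _ _

lemma iota_apply {j : ℕ} (h : KK j) (a : Fin (kk (j+1))) :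
    iota j h a = ∑ i : Fin (kk j), (h i) * ((dec j a).1 i) := rfl

/-- coordinate vector -/
def ev (j : ℕ) (i : Fin (kk j)) : KK j := Pi.single (M := fun _ => ZMod 2) i 1

lemma hw_iota {j : ℕ} {h : KK j} (hh : h ≠ 0) : 2 * hw (iota j h) = kk (j+1) := by
  obtain ⟨i0, hi0⟩ : ∃ i0 : Fin (kk j), h i0 = 1 := by
    by_contra hcon
    push Not at hcon
    apply hh
    funext i
    rcases zmod2_cases (h i) with h' | h'
    · exact h'
    · exact absurd h' (hcon i)
  set τ : Fin (kk (j+1)) → Fin (kk (j+1)) := fun a => (dec j).symm ((dec j a).1 + ev j i0, (dec j a).2)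
    with hτ
  have hττ : ∀ a, τ (τ a) = a := by
    intro a
    simp only [hτ, Equiv.apply_symm_apply]
    rw [add_assoc, KK_add_self, add_zero]
    simp
  have hval : ∀ a, iota j h (τ a) = iota j h a + 1 := by
    intro a
    rw [iota_apply, iota_apply]
    simp only [hτ, Equiv.apply_symm_apply]
    have : ∀ i : Fin (kk j), h i * (((dec j a).1 + ev j i0) i) = h i * (dec j a).1 i +
        (if i = i0 then 1 else 0) := by
      intro i
      change h i * ((dec j a).1 i + ev j i0 i) = _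
      rw [mul_add]
      congr 1
      by_cases hi : i = i0
      · subst hi; simp [ev, hi0]
      · simp [ev, hi]
    rw [Finset.sum_congr rfl fun i _ => this i, Finset.sum_add_distrib]
    simp
  set g : Fin (kk (j+1)) → ZMod 2 := fun a => iota j h a with hg
  have hval' : ∀ a, g (τ a) = g a + 1 := hval
  have hc : hw (iota j h) = #{a : Fin (kk (j+1)) | g a ≠ 0} := rfl
  have h1 : #{a : Fin (kk (j+1)) | g a ≠ 0} = #{a : Fin (kk (j+1)) | g a = 0} := by
    refine Finset.card_bij' (fun a _ => τ a) (fun a _ => τ a) ?_ ?_ (fun a _ => hττ a) (fun a _ => hττ a)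
    · intro a ha
      simp only [Finset.mem_filter, Finset.mem_univ, true_and] at ha ⊢
      rw [hval']
      rcases zmod2_cases (g a) with h' | h'
      · exact absurd h' ha
      · rw [h']; decide
    · intro a ha
      simp only [Finset.mem_filter, Finset.mem_univ, true_and] at ha ⊢
      rw [hval', ha]; decide
  have h2 := Finset.card_filter_add_card_filter_not (s := (Finset.univ : Finset (Fin (kk (j+1)))))
    (fun a => g a = 0)
  rw [Finset.card_univ, Fintype.card_fin] at h2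
  rw [hc]
  have h3 : #{a : Fin (kk (j+1)) | ¬ g a = 0} = #{a : Fin (kk (j+1)) | g a ≠ 0} := rfl
  omega

/-- all sequences -/
abbrev ZZ : Type := ∀ j, KK j

/-- finitely supported sequences -/
def FF : AddSubgroup ZZ where
  carrier := {h | ∃ J, ∀ n, J ≤ n → h n = 0}
  zero_mem' := ⟨0, fun _ _ => rfl⟩
  add_mem' := by
    rintro a b ⟨J, hJ⟩ ⟨J', hJ'⟩
    refine ⟨max J J', fun n hn => ?_⟩
    simp [hJ n (le_trans (le_max_left _ _) hn), hJ' n (le_trans (le_max_right _ _) hn)]
  neg_mem' := by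
    rintro a ⟨J, hJ⟩
    exact ⟨J, fun n hn => by simp [hJ n hn]⟩

/-- the map `h ↦ (h_0, h_1 + ι h_0, h_2 + ι h_1, …)` -/
noncomputable def Phi : ZZ →+ ZZ where
  toFun h := fun n => match n with
    | 0 => h 0
    | (n+1) => h (n+1) + iota n (h n)
  map_zero' := by
    funext n
    cases n with
    | zero => rfl
    | succ n => simp
  map_add' x y := by
    funext n
    cases n with
    | zero => rfl
    | succ n => simp; abel

lemma Phi_zero' (h : ZZ) : Phi h 0 = h 0 := rfl
lemma Phi_succ (h : ZZ) (n : ℕ) : Phi h (n+1) = h (n+1) + iota n (h n) := rfl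

/-- the relation subgroup, as a group of sequences -/
noncomputable def NN : AddSubgroup ZZ := FF.map Phi

lemma NN_last {c : ZZ} (hc : c ∈ NN) (h0 : c ≠ 0) :
    ∃ J, ∃ h : KK J, h ≠ 0 ∧ c (J+1) = iota J h ∧ ∀ n, J + 1 < n → c n = 0 := by
  obtain ⟨h, ⟨J, hJ⟩, rfl⟩ := hc
  classical
  have hne : ∃ n, h n ≠ 0 := by
    by_contra hcon
    push Not at hcon
    exact h0 (by rw [show h = 0 from funext hcon]; simp)
  -- the last nonzero index
  have hex : ∃ J, ∀ n, J ≤ n → h n = 0 := ⟨J, hJ⟩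
  set J0 := Nat.find hex with hJ0
  have hJ0s := Nat.find_spec hex
  rw [← hJ0] at hJ0s
  have hpos : J0 ≠ 0 := by
    intro hz
    obtain ⟨n, hn⟩ := hne
    exact hn (hJ0s n (by omega))
  obtain ⟨J1, hJ1⟩ := Nat.exists_eq_succ_of_ne_zero hpos
  have hlast : h J1 ≠ 0 := by
    intro hz
    have : ¬ (∀ n, J1 ≤ n → h n = 0) := Nat.find_min hex (by omega)
    apply this
    intro n hn
    rcases Nat.eq_or_lt_of_le hn with h' | h'
    · rw [← h']; exact hz
    · exact hJ0s n (by omega)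
  refine ⟨J1, h J1, hlast, ?_, ?_⟩
  · rw [Phi_succ, hJ0s (J1+1) (by omega), zero_add]
  · intro n hn
    obtain ⟨n', rfl⟩ := Nat.exists_eq_succ_of_ne_zero (show n ≠ 0 by omega)
    change Phi h (n'+1) = 0
    rw [Phi_succ, hJ0s (n'+1) (by omega), hJ0s n' (by omega)]
    simp

instance : Fact ((1 : ENNReal) ≤ 1) := ⟨le_refl _⟩

/-- the Polish group `E`, the `ℓ¹`-sum of the blocks -/
noncomputable abbrev EE := lp KK 1

/-- coordinates of an element of `E` -/
noncomputable def cE : EE →+ ZZ where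
  toFun f := fun n => (f : ∀ n, KK n) n
  map_zero' := rfl
  map_add' _ _ := rfl

lemma cE_apply (f : EE) (n : ℕ) : cE f n = f n := rfl

/-- the discrete subgroup of `E` -/
noncomputable def NE : AddSubgroup EE := NN.comap cE

lemma mem_NE {f : EE} : f ∈ NE ↔ cE f ∈ NN := Iff.rfl

lemma norm_iota {j : ℕ} {h : KK j} (hh : h ≠ 0) : 1 ≤ ‖iota j h‖ := by
  rw [norm_KK]
  have h1 : (hw (iota j h) : ℝ) = kk (j+1) / 2 := by
    have : (2 * hw (iota j h) : ℝ) = kk (j+1) := by exact_mod_cast hw_iota hh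
    linarith
  rw [h1, ee_succ, kk_succ]
  have hk := kk_pos j
  have h2 : ((2:ℝ) ^ (3 * kk j)) ≤ √(((2 ^ (10 * kk j) : ℕ) : ℝ) / 2) := by
    apply Real.le_sqrt_of_sq_le
    push_cast
    rw [le_div_iff₀ (by norm_num), ← pow_mul]
    calc (2:ℝ) ^ (3 * kk j * 2) * 2 = 2 ^ (3 * kk j * 2 + 1) := by rw [pow_succ]
      _ ≤ 2 ^ (10 * kk j) := pow_le_pow_right₀ (by norm_num) (by omega)
  calc (1:ℝ) = (1 / 2) ^ (3 * kk j) * 2 ^ (3 * kk j) := by rw [← mul_pow]; norm_num
    _ ≤ _ := mul_le_mul_of_nonneg_left h2 (by positivity)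

lemma norm_ge_coord (f : EE) (n : ℕ) : ‖cE f n‖ ≤ ‖f‖ :=
  lp.norm_apply_le_norm one_ne_zero f n

lemma NE_norm {f : EE} (hf : f ∈ NE) (h0 : f ≠ 0) : 1 ≤ ‖f‖ := by
  have hc : cE f ≠ 0 := by
    intro h
    apply h0
    ext n
    exact congrFun h n
  obtain ⟨J, h, hh, hJ, _⟩ := NN_last hf hc
  exact (norm_iota hh).trans (hJ ▸ norm_ge_coord f (J+1))

instance NE_closed : IsClosed (NE : Set EE) := by
  apply Metric.isClosed_of_pairwise_le_dist (ε := 1) one_pos
  intro x hx y hy hxy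
  rw [dist_eq_norm]
  exact NE_norm (NE.sub_mem hx hy) (sub_ne_zero.2 hxy)

end H878L
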