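import Pool.Agent.H878.Levy3

/-! The Polish group `G = E / N`, its finite subgroups, concentration of measure. -/

open Finset Filter Topology MeasureTheory

namespace H878L

/-- concentration on the cube -/
lemma conc {e : ℝ} (h0 : 0 ≤ e) (h1 : e ≤ 1) {n : ℕ} (A : Finset (Fin n → ZMod 2)) {a : ℝ} (ha0 : 0 < a)
    (ha : a ≤ ∑ x ∈ A, wt e x) {s : ℝ} (hs : 0 < s) (P : (Fin n → ZMod 2) → Prop) [DecidablePred P]
    (hP : ∀ x, P x → ∀ y ∈ A, s ≤ hammingDist x y) :
    ∑ x with P x, wt e x ≤ n / 4 * (1 + 1 / a) / s ^ 2 := by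
  have hne : A.Nonempty := by
    by_contra hcon
    rw [Finset.not_nonempty_iff_eq_empty] at hcon
    rw [hcon] at ha; simp at ha; linarith
  set f : (Fin n → ZMod 2) → ℝ := fun x => ((A.inf' hne (fun y => hammingDist x y) : ℕ) : ℝ) with hf
  have hf1 : ∀ x x', f x ≤ f x' + hammingDist x x' := by
    intro x x'
    obtain ⟨y, hy, hy'⟩ := Finset.exists_mem_eq_inf' hne (fun y => hammingDist x' y)
    have h2 : A.inf' hne (fun y => hammingDist x y) ≤ hammingDist x y := Finset.inf'_le _ hy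
    have h3 := hammingDist_triangle x x' y
    simp only [hf]
    rw [hy']
    have : A.inf' hne (fun y => hammingDist x y) ≤ hammingDist x' y + hammingDist x x' := by omega
    exact_mod_cast this
  have hlip : ∀ x x', |f x - f x'| ≤ hammingDist x x' := by
    intro x x'
    have a1 := hf1 x x'
    have a2 := hf1 x' x
    rw [hammingDist_comm x' x] at a2
    rw [abs_le]; constructor <;> linarith
  have hfA : ∀ x ∈ A, f x = 0 := by
    intro x hx
    have : A.inf' hne (fun y => hammingDist x y) ≤ hammingDist x x := Finset.inf'_le _ hx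
    rw [hammingDist_self] at this
    simp only [hf]
    have h0 : A.inf' hne (fun y => hammingDist x y) = 0 := by omega
    rw [h0]; simp
  have hv := var_lip h0 h1 n f hlip
  set m := ∑ x, wt e x * f x with hm
  have h2 : ∑ x, wt e x * (f x - m) ^ 2 ≤ n / 4 := by
    have : ∑ x, wt e x * (f x - m) ^ 2
        = ∑ x, wt e x * f x ^ 2 - 2 * m * ∑ x, wt e x * f x + m ^ 2 * ∑ x : Fin n → ZMod 2, wt e x := by
      rw [Finset.mul_sum (s := Finset.univ) (a := 2 * m), Finset.mul_sum (s := Finset.univ) (a := m ^ 2),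
        ← Finset.sum_sub_distrib, ← Finset.sum_add_distrib]
      refine Finset.sum_congr rfl fun x _ => ?_
      ring
    rw [this, wt_sum, ← hm]
    nlinarith
  have h3 : a * m ^ 2 ≤ n / 4 := by
    calc a * m ^ 2 ≤ (∑ x ∈ A, wt e x) * m ^ 2 := mul_le_mul_of_nonneg_right ha (sq_nonneg _)
      _ = ∑ x ∈ A, wt e x * (f x - m) ^ 2 := by
          rw [Finset.sum_mul]
          refine Finset.sum_congr rfl fun x hx => ?_
          rw [hfA x hx]; ring
      _ ≤ ∑ x, wt e x * (f x - m) ^ 2 :=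
          Finset.sum_le_sum_of_subset_of_nonneg (Finset.subset_univ _)
            fun x _ _ => mul_nonneg (wt_nonneg h0 h1 x) (sq_nonneg _)
      _ ≤ _ := h2
  have h4 : ∑ x, wt e x * f x ^ 2 ≤ n / 4 * (1 + 1 / a) := by
    have : m ^ 2 ≤ n / 4 * (1 / a) := by
      rw [mul_one_div, le_div_iff₀ ha0]; linarith
    linarith
  rw [le_div_iff₀ (by positivity)]
  calc (∑ x with P x, wt e x) * s ^ 2 = ∑ x with P x, wt e x * s ^ 2 := by rw [Finset.sum_mul]
    _ ≤ ∑ x with P x, wt e x * f x ^ 2 := by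
        refine Finset.sum_le_sum fun x hx => ?_
        have hx' := hP x (Finset.mem_filter.1 hx).2
        obtain ⟨y, hy, hy'⟩ := Finset.exists_mem_eq_inf' hne (fun y => hammingDist x y)
        have : s ≤ f x := by
          simp only [hf]; rw [hy']; exact hx' y hy
        refine mul_le_mul_of_nonneg_left ?_ (wt_nonneg h0 h1 x)
        exact pow_le_pow_left₀ hs.le this 2
    _ ≤ ∑ x, wt e x * f x ^ 2 :=
        Finset.sum_le_sum_of_subset_of_nonneg (Finset.filter_subset _ _)
          fun x _ _ => mul_nonneg (wt_nonneg h0 h1 x) (sq_nonneg _)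
    _ ≤ _ := h4

/-- the weight on a block -/
noncomputable def wj (e : ℝ) {j : ℕ} (x : KK j) : ℝ := wt (n := kk j) e x

lemma wj_nonneg {e : ℝ} (h0 : 0 ≤ e) (h1 : e ≤ 1) {j : ℕ} (x : KK j) : 0 ≤ wj e x :=
  wt_nonneg (n := kk j) h0 h1 x

lemma wj_pos {e : ℝ} (h0 : 0 ≤ e) (h1 : e < 1) {j : ℕ} (x : KK j) : 0 < wj e x :=
  wt_pos (n := kk j) h0 h1 x

lemma wj_sum (e : ℝ) (j : ℕ) : ∑ x : KK j, wj e x = 1 := wt_sum e (kk j)

open Classical in
lemma wj_conc {e : ℝ} (h0 : 0 ≤ e) (h1 : e ≤ 1) {j : ℕ} (A : Set (KK j)) {a : ℝ} (ha0 : 0 < a)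
    (ha : a ≤ ∑ x with x ∈ A, wj e x) {s : ℝ} (hs : 0 < s) (P : KK j → Prop)
    (hP : ∀ x, P x → ∀ y ∈ A, s ≤ hw (x + y)) :
    ∑ x with P x, wj e x ≤ kk j / 4 * (1 + 1 / a) / s ^ 2 := by
  have := @conc e h0 h1 (kk j) (@Finset.filter (KK j) (fun x => x ∈ A)
    (fun x => Classical.propDecidable _) Finset.univ) a ha0 ha s hs P
    (fun x => Classical.propDecidable (P x)) ?_
  · exact this
  intro x hx y hy
  have hy' : y ∈ A := (@Finset.mem_filter (KK j) (fun x => x ∈ A)
    (fun x => Classical.propDecidable _) Finset.univ y |>.1 hy).2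
  have := hP x hx y hy'
  rw [hd_eq]
  exact this

/-- the block measures -/
noncomputable def bm (e : ℝ) (j : ℕ) : Measure (KK j) :=
  ∑ x : KK j, ENNReal.ofReal (wj e x) • Measure.dirac x

open Classical in
lemma bm_apply {e : ℝ} (h0 : 0 ≤ e) (h1 : e ≤ 1) (j : ℕ) (S : Set (KK j)) :
    bm e j S = ENNReal.ofReal (∑ x with x ∈ S, wj e x) := by
  unfold bm
  rw [Measure.finsetSum_apply, ENNReal.ofReal_sum_of_nonneg (fun x _ => wj_nonneg h0 h1 x),
    Finset.sum_filter]
  refine Finset.sum_congr rfl fun x _ => ?_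
  rw [Measure.smul_apply, Measure.dirac_apply]
  by_cases hx : x ∈ S <;> simp [hx]

lemma bm_singleton {e : ℝ} (h0 : 0 ≤ e) (h1 : e ≤ 1) (j : ℕ) (x : KK j) :
    bm e j {x} = ENNReal.ofReal (wj e x) := by
  classical
  rw [bm_apply h0 h1]
  congr 1
  rw [Finset.sum_filter]
  simp

lemma bm_prob {e : ℝ} (h0 : 0 ≤ e) (h1 : e ≤ 1) (j : ℕ) : IsProbabilityMeasure (bm e j) := by
  classical
  constructor
  rw [bm_apply h0 h1]
  simp [wj_sum]

/-- the Polish group -/
abbrev GG : Type := EE ⧸ NE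

noncomputable example : NormedAddCommGroup GG := inferInstance

/-- truncations -/
noncomputable def tr (n : ℕ) (h : ∀ i : Fin n, KK i) : EE := ∑ i : Fin n, lp.single 1 (i : ℕ) (h i)

lemma tr_tendsto (f : EE) : Tendsto (fun n => tr n (fun i => f i)) atTop (𝓝 f) := by
  have h := (lp.hasSum_single (E := KK) (p := 1) ENNReal.one_ne_top f).tendsto_sum_nat
  refine h.congr fun n => ?_
  unfold tr
  rw [Finset.sum_range (fun i => lp.single (E := KK) 1 i (f i))]

instance : TopologicalSpace.SeparableSpace EE := by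
  refine ⟨⋃ n, Set.range (tr n), Set.countable_iUnion fun n => Set.countable_range _, ?_⟩
  intro f
  refine mem_closure_of_tendsto (tr_tendsto f) (Eventually.of_forall fun n => ?_)
  exact Set.mem_iUnion.2 ⟨n, _, rfl⟩

instance : PolishSpace EE := inferInstance

instance : CompleteSpace GG := QuotientAddGroup.completeSpace_left EE NE
instance : TopologicalSpace.SeparableSpace GG := inferInstance
instance : PolishSpace GG := inferInstance

end H878L
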