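import Pool.Agent.H878.Levy4

/-! The group `G` is a Levy group. -/

open Finset Filter Topology MeasureTheory

namespace H878L

noncomputable instance : MeasurableSpace EE := borel EE
instance : BorelSpace EE := ⟨rfl⟩
instance : BorelSpace GG := QuotientAddGroup.borelSpace

/-- the embedding of block `n` into `G` -/
noncomputable def jj (n : ℕ) : KK n →+ GG := (QuotientAddGroup.mk' NE).comp (lp.singleAddMonoidHom 1 n)

lemma jj_apply (n : ℕ) (x : KK n) : jj n x = ((lp.single 1 n x : EE) : GG) := rfl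

/-- the finite subgroups -/
noncomputable def Kn (n : ℕ) : AddSubgroup GG := (jj n).range

lemma single_mem_FF (n : ℕ) (h : KK n) : (Pi.single n h : ZZ) ∈ FF := by
  refine ⟨n + 1, fun m hm => ?_⟩
  rw [Pi.single_eq_of_ne (by omega)]

lemma cE_single (n : ℕ) (h : KK n) : cE (lp.single 1 n h) = Pi.single n h := by
  funext m
  rw [cE_apply, lp.coeFn_single]

lemma Phi_single (n : ℕ) (h : KK n) :
    Phi (Pi.single n h) = Pi.single n h + Pi.single (n+1) (iota n h) := by
  funext m
  cases m with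
  | zero =>
    rw [Phi_zero']
    simp
  | succ m =>
    rw [Phi_succ]
    by_cases hm : m = n
    · subst hm; simp
    · simp [Pi.single_eq_of_ne hm, Pi.single_eq_of_ne (show m + 1 ≠ n + 1 by omega)]

lemma jj_succ (n : ℕ) (h : KK n) : jj n h = jj (n+1) (iota n h) := by
  rw [jj_apply, jj_apply, QuotientAddGroup.eq, mem_NE]
  refine ⟨Pi.single n h, single_mem_FF n h, ?_⟩
  rw [Phi_single, map_add, map_neg, cE_single, cE_single]
  congr 1
  rw [← Pi.single_neg, KK_neg]

lemma Kn_mono : Monotone Kn := by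
  refine monotone_nat_of_le_succ fun n => ?_
  rintro _ ⟨h, rfl⟩
  exact ⟨iota n h, (jj_succ n h).symm⟩

lemma Kn_finite (n : ℕ) : (Kn n : Set GG).Finite := by
  have : (Kn n : Set GG) = Set.range (jj n) := rfl
  rw [this]; exact Set.finite_range _

lemma Kn_dense : Dense (⋃ n, (Kn n : Set GG)) := by
  have hD : DenseRange (QuotientAddGroup.mk : EE → GG) := by
    exact (QuotientAddGroup.mk_surjective).denseRange
  have hS : Dense (⋃ n, Set.range (tr n)) := by
    intro f
    refine mem_closure_of_tendsto (tr_tendsto f) (Eventually.of_forall fun n => ?_)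
    exact Set.mem_iUnion.2 ⟨n, _, rfl⟩
  have h := hD.dense_image (QuotientAddGroup.continuous_mk) hS
  refine h.mono ?_
  rintro _ ⟨f, hf, rfl⟩
  obtain ⟨n, x, rfl⟩ := Set.mem_iUnion.1 hf
  refine Set.mem_iUnion.2 ⟨n, ?_⟩
  unfold tr
  have : ((∑ i : Fin n, lp.single 1 (i : ℕ) (x i) : EE) : GG) = ∑ i : Fin n, jj i (x i) := by
    have := map_sum (QuotientAddGroup.mk' NE) (fun i : Fin n => (lp.single 1 (i : ℕ) (x i) : EE)) Finset.univ
    exact this
  rw [this]
  refine (Kn n).sum_mem fun i _ => ?_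
  exact Kn_mono i.2.le ⟨x i, rfl⟩

lemma dist_jj (n : ℕ) (x y : KK n) : dist (jj n x) (jj n y) ≤ ee n * √(hw (x + y)) := by
  rw [dist_eq_norm, ← map_sub]
  have h1 : ‖jj n (x - y)‖ ≤ ‖(lp.single 1 n (x - y) : EE)‖ := by
    rw [jj_apply]
    exact QuotientAddGroup.norm_mk_le_norm
  refine h1.trans ?_
  rw [lp.norm_single one_pos, norm_KK, sub_eq_add_neg, KK_neg]

/-- Haar probability of `Kn n`, as a measure on `G` -/
noncomputable def mG (n : ℕ) : Measure GG := (bm 0 n).map (jj n)

lemma meas_jj (n : ℕ) : Measurable (jj n) := Measurable.of_discrete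

instance (n : ℕ) : IsProbabilityMeasure (mG n) := by
  have := bm_prob (e := 0) le_rfl zero_le_one n
  exact Measure.isProbabilityMeasure_map (meas_jj n).aemeasurable

lemma mG_supp (n : ℕ) : mG n (Kn n : Set GG)ᶜ = 0 := by
  unfold mG
  rw [Measure.map_apply (meas_jj n) (Kn_finite n).measurableSet.compl]
  have : (jj n) ⁻¹' ((Kn n : Set GG)ᶜ) = ∅ := by
    ext x
    simp only [Set.mem_preimage, Set.mem_compl_iff, Set.mem_empty_iff_false, iff_false, not_not]
    exact ⟨x, rfl⟩
  rw [this]; simp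

lemma wj_zero {j : ℕ} (x : KK j) : wj 0 x = (1 / 2) ^ kk j := by
  unfold wj wt
  have : ∀ b, pb 0 b = 1 / 2 := by
    intro b; unfold pb; split_ifs <;> norm_num
  simp [this]

lemma mG_inv (n : ℕ) {g : GG} (hg : g ∈ Kn n) : (mG n).map (fun x => g + x) = mG n := by
  obtain ⟨h, rfl⟩ := hg
  unfold mG
  rw [Measure.map_map (measurable_const_add _) (meas_jj n)]
  have h1 : (fun x => jj n h + x) ∘ (jj n) = (jj n) ∘ (fun x => h + x) := by
    funext x; simp
  rw [h1, ← Measure.map_map (meas_jj n) Measurable.of_discrete]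
  congr 1
  refine Measure.ext_of_singleton fun x => ?_
  rw [Measure.map_apply Measurable.of_discrete (MeasurableSet.of_discrete)]
  have : (fun x => h + x) ⁻¹' {x} = {-h + x} := by
    ext y
    simp only [Set.mem_preimage, Set.mem_singleton_iff]
    constructor
    · intro hy; rw [← hy]; abel
    · intro hy; rw [hy]; abel
  rw [this, bm_singleton le_rfl zero_le_one, bm_singleton le_rfl zero_le_one, wj_zero, wj_zero]

lemma kk_ee (n : ℕ) : (kk (n+1) : ℝ) * ee (n+1) ^ 4 = (1 / 2) ^ (2 * kk n) := by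
  rw [kk_succ, ee_succ, ← pow_mul]
  push_cast
  rw [show 3 * kk n * 4 = 10 * kk n + 2 * kk n by ring, pow_add, ← mul_assoc, ← mul_pow]
  norm_num

lemma kk_ee_tendsto : Tendsto (fun n => (kk n : ℝ) * ee n ^ 4) atTop (𝓝 0) := by
  rw [← tendsto_add_atTop_iff_nat 1]
  simp_rw [kk_ee]
  have h : Tendsto (fun n : ℕ => ((1:ℝ) / 2) ^ n) atTop (𝓝 0) :=
    tendsto_pow_atTop_nhds_zero_of_lt_one (by norm_num) (by norm_num)
  refine h.comp ?_
  refine tendsto_atTop_mono (fun n => ?_) tendsto_id
  have := kk_ge n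
  simp only [id]; omega

theorem levy_main (A : ℕ → Set GG) (hAm : ∀ n, MeasurableSet (A n))
    (hlim : 0 < liminf (fun n => mG n (A n)) atTop) {ε : ℝ} (hε : 0 < ε) :
    Tendsto (fun n => mG n {x | ∃ y ∈ A n, dist x y < ε}) atTop (𝓝 1) := by
  classical
  obtain ⟨a, ha0, ha⟩ := exists_between hlim
  have hev := Filter.eventually_lt_of_lt_liminf ha
  have hatop : a ≠ ⊤ := ne_top_of_lt ha
  set a' := a.toReal with ha'
  have ha'0 : 0 < a' := ENNReal.toReal_pos ha0.ne' hatop
  have hopen : ∀ n, IsOpen {x : GG | ∃ y ∈ A n, dist x y < ε} := by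
    intro n
    have : {x : GG | ∃ y ∈ A n, dist x y < ε} = ⋃ y ∈ A n, Metric.ball y ε := by
      ext x; simp [Metric.mem_ball]
    rw [this]
    exact isOpen_biUnion fun y _ => Metric.isOpen_ball
  have hlow : ∀ᶠ n in atTop, 1 - ENNReal.ofReal ((kk n : ℝ) * ee n ^ 4 * ((1 + 1 / a') / (4 * ε ^ 4)))
      ≤ mG n {x | ∃ y ∈ A n, dist x y < ε} := by
    filter_upwards [hev] with n hn
    have hP := wj_conc (e := 0) le_rfl zero_le_one (j := n) ((jj n) ⁻¹' (A n)) ha'0 ?_
      (s := ε ^ 2 / ee n ^ 2) (div_pos (by positivity) (pow_pos (ee_pos n) 2))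
      (fun x => ¬ ∃ y ∈ A n, dist (jj n x) y < ε) ?_
    · have hcompl : mG n ({x | ∃ y ∈ A n, dist x y < ε}ᶜ)
          ≤ ENNReal.ofReal ((kk n : ℝ) * ee n ^ 4 * ((1 + 1 / a') / (4 * ε ^ 4))) := by
        unfold mG
        rw [Measure.map_apply (meas_jj n) (hopen n).measurableSet.compl, bm_apply le_rfl zero_le_one]
        apply ENNReal.ofReal_le_ofReal
        refine (le_of_eq ?_).trans (hP.trans (le_of_eq ?_))
        · refine Finset.sum_congr ?_ (fun _ _ => rfl)
          ext x
          simp only [Finset.mem_filter, Finset.mem_univ, true_and, Set.mem_preimage,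
            Set.mem_compl_iff, Set.mem_ofPred_eq]
        have := (ee_pos n).ne'
        field_simp
      have h1 := prob_compl_eq_one_sub (μ := mG n) (hopen n).measurableSet
      have h3 : (1 : ENNReal) = mG n {x | ∃ y ∈ A n, dist x y < ε} + mG n ({x | ∃ y ∈ A n, dist x y < ε}ᶜ) := by
        rw [prob_add_prob_compl (hopen n).measurableSet]
      rw [tsub_le_iff_right]
      calc (1 : ENNReal) = mG n {x | ∃ y ∈ A n, dist x y < ε} + mG n ({x | ∃ y ∈ A n, dist x y < ε}ᶜ) := h3
        _ ≤ _ := by gcongr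
    · have h4 : a < mG n (A n) := hn
      unfold mG at h4
      rw [Measure.map_apply (meas_jj n) (hAm n), bm_apply le_rfl zero_le_one] at h4
      have h5 := (ENNReal.lt_ofReal_iff_toReal_lt hatop).1 h4
      rw [← ha'] at h5
      refine h5.le.trans (le_of_eq ?_)
      congr 1
    · intro x hx y hy
      by_contra hcon
      push Not at hcon
      apply hx
      refine ⟨jj n y, hy, ?_⟩
      refine (dist_jj n x y).trans_lt ?_
      have he := ee_pos n
      rw [lt_div_iff₀ (by positivity)] at hcon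
      have : (ee n * √(hw (x + y) : ℝ)) ^ 2 < ε ^ 2 := by
        rw [mul_pow, Real.sq_sqrt (Nat.cast_nonneg _)]; linarith
      exact lt_of_pow_lt_pow_left₀ 2 hε.le this
  have hlim1 : Tendsto (fun n => 1 - ENNReal.ofReal ((kk n : ℝ) * ee n ^ 4 * ((1 + 1 / a') / (4 * ε ^ 4))))
      atTop (𝓝 (1 : ENNReal)) := by
    have h1 : Tendsto (fun n => ENNReal.ofReal ((kk n : ℝ) * ee n ^ 4 * ((1 + 1 / a') / (4 * ε ^ 4))))
        atTop (𝓝 (ENNReal.ofReal (0 * ((1 + 1 / a') / (4 * ε ^ 4))))) :=
      ENNReal.tendsto_ofReal (kk_ee_tendsto.mul_const _)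
    rw [zero_mul, ENNReal.ofReal_zero] at h1
    have := ENNReal.Tendsto.sub (tendsto_const_nhds (x := (1 : ENNReal))) h1 (Or.inl ENNReal.one_ne_top)
    rwa [tsub_zero] at this
  refine tendsto_of_tendsto_of_tendsto_of_le_of_le' hlim1 tendsto_const_nhds hlow
    (Eventually.of_forall fun n => prob_le_one)

end H878L
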