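import Pool.Agent.H878.Levy5

/-! The Borel set `Z1`, invariant under `E`, on which `N` acts smoothly; the fundamental domain `DD`
and the action of `G` on it. -/

open Finset Filter Topology MeasureTheory

namespace H878L

/-- threshold for the weight in block `i+1` -/
noncomputable def th (i : ℕ) : ℝ := 2 ^ (10 * kk i) / 2 - 2 ^ (7 * kk i) / 4

/-- `x` has weight below the threshold, all its Hadamard translates have weight above it,
with margin `R * 2 ^ (6 κ)` -/
def Good (R : ℕ) (i : ℕ) (x : KK (i+1)) : Prop :=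
  (hw x : ℝ) + R * 2 ^ (6 * kk i) < th i ∧
    ∀ h : KK i, h ≠ 0 → th i + R * 2 ^ (6 * kk i) < hw (x + iota i h)

lemma Good.shift {R S i : ℕ} {x e : KK (i+1)} (hx : Good (R + S) i x)
    (he : (hw e : ℝ) ≤ S * 2 ^ (6 * kk i)) : Good R i (x + e) := by
  obtain ⟨h1, h2⟩ := hx
  push_cast at h1 h2
  constructor
  · have : (hw (x + e) : ℝ) ≤ hw x + hw e := by exact_mod_cast hw_add_le x e
    linarith
  · intro h hh
    have h3 := h2 h hh
    have : (hw (x + iota i h) : ℝ) ≤ hw (x + e + iota i h) + hw e := by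
      have h4 : x + iota i h = (x + e + iota i h) + e := by
        have := KK_add_self e
        calc x + iota i h = x + iota i h + (e + e) := by rw [this, add_zero]
          _ = _ := by abel
      have h5 : hw (x + iota i h) ≤ hw (x + e + iota i h) + hw e := by
        conv_lhs => rw [h4]
        exact hw_add_le _ _
      exact_mod_cast h5
    linarith

lemma Good.mono {R S i : ℕ} {x : KK (i+1)} (hx : Good S i x) (hRS : R ≤ S) : Good R i x := by
  have : Good R i (x + 0) := by
    obtain ⟨T, rfl⟩ := Nat.exists_eq_add_of_le hRS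
    exact hx.shift (by simp only [hw_zero, Nat.cast_zero]; positivity)
  simpa using this

/-- the invariant set -/
def Z1 : Set ZZ := {z | ∀ R : ℕ, ∀ᶠ i in atTop, Good R i (z (i+1))}

lemma Z1_meas : MeasurableSet Z1 := by
  have : Z1 = ⋂ R : ℕ, ⋃ n : ℕ, ⋂ i : ℕ, ⋂ _ : n ≤ i, {z : ZZ | Good R i (z (i+1))} := by
    ext z
    simp [Z1, eventually_atTop]
  rw [this]
  refine MeasurableSet.iInter fun R => MeasurableSet.iUnion fun n => MeasurableSet.iInter fun i =>
    MeasurableSet.iInter fun _ => ?_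
  exact measurable_pi_apply (i+1) (MeasurableSet.of_discrete (s := {x : KK (i+1) | Good R i x}))

lemma hw_le_of_norm (e : EE) (i : ℕ) : (hw (cE e (i+1)) : ℝ) ≤ ⌈‖e‖ ^ 2⌉₊ * 2 ^ (6 * kk i) := by
  have h1 := norm_ge_coord e (i+1)
  rw [norm_KK] at h1
  have h2 : (ee (i+1) * √(hw (cE e (i+1)))) ^ 2 ≤ ‖e‖ ^ 2 := by
    have := ee_pos (i+1)
    exact pow_le_pow_left₀ (by positivity) h1 2
  rw [mul_pow, Real.sq_sqrt (Nat.cast_nonneg _), ee_succ, ← pow_mul] at h2
  have h3 : ‖e‖ ^ 2 ≤ ⌈‖e‖ ^ 2⌉₊ := Nat.le_ceil _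
  have h4 : ((1:ℝ) / 2) ^ (3 * kk i * 2) * 2 ^ (6 * kk i) = 1 := by
    rw [show 3 * kk i * 2 = 6 * kk i by ring, ← mul_pow]; norm_num
  calc (hw (cE e (i+1)) : ℝ) = (((1:ℝ) / 2) ^ (3 * kk i * 2) * hw (cE e (i+1))) * 2 ^ (6 * kk i) := by
        rw [mul_right_comm, h4, one_mul]
    _ ≤ ‖e‖ ^ 2 * 2 ^ (6 * kk i) := mul_le_mul_of_nonneg_right h2 (by positivity)
    _ ≤ _ := mul_le_mul_of_nonneg_right h3 (by positivity)

lemma Z1_add_E {z : ZZ} (hz : z ∈ Z1) (e : EE) : z + cE e ∈ Z1 := by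
  intro R
  filter_upwards [hz (R + ⌈‖e‖ ^ 2⌉₊)] with i hi
  exact hi.shift (hw_le_of_norm e i)

lemma Z1_add_FF {z : ZZ} (hz : z ∈ Z1) {c : ZZ} (hc : c ∈ FF) : z + c ∈ Z1 := by
  obtain ⟨J, hJ⟩ := hc
  intro R
  filter_upwards [hz R, eventually_ge_atTop J] with i hi hiJ
  rw [Pi.add_apply, hJ (i+1) (by omega), add_zero]
  exact hi

lemma NN_le_FF {c : ZZ} (hc : c ∈ NN) : c ∈ FF := by
  obtain ⟨h, ⟨J, hJ⟩, rfl⟩ := hc
  refine ⟨J + 1, fun n hn => ?_⟩
  obtain ⟨n', rfl⟩ := Nat.exists_eq_succ_of_ne_zero (show n ≠ 0 by omega)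
  change Phi h (n'+1) = 0
  rw [Phi_succ, hJ (n'+1) (by omega), hJ n' (by omega)]
  simp

lemma supp_finite (n : ℕ) : {c : ZZ | ∀ m, n ≤ m → c m = 0}.Finite := by
  classical
  have : {c : ZZ | ∀ m, n ≤ m → c m = 0} ⊆
      Set.range (fun (x : ∀ i : Fin n, KK i) => (fun m => if h : m < n then x ⟨m, h⟩ else 0 : ZZ)) := by
    intro c hc
    refine ⟨fun i => c i, ?_⟩
    funext m
    by_cases hm : m < n
    · simp [hm]
    · simp only [hm, dite_false]
      exact (hc m (by omega)).symm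
  exact (Set.finite_range _).subset this

lemma FF_countable : (FF : Set ZZ).Countable := by
  have : (FF : Set ZZ) ⊆ ⋃ n, {c : ZZ | ∀ m, n ≤ m → c m = 0} := by
    rintro c ⟨J, hJ⟩
    exact Set.mem_iUnion.2 ⟨J, hJ⟩
  exact (Set.countable_iUnion fun n => (supp_finite n).countable).mono this

lemma NN_countable : (NN : Set ZZ).Countable := FF_countable.mono fun _ hc => NN_le_FF hc

instance : Countable NN := NN_countable.to_subtype
instance : Countable FF := FF_countable.to_subtype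

/-- `z` is good from level `n` on -/
def W (n : ℕ) : Set ZZ := {z | ∀ i, n ≤ i → Good 0 i (z (i+1))}

lemma W_meas (n : ℕ) : MeasurableSet (W n) := by
  have : W n = ⋂ i : ℕ, ⋂ _ : n ≤ i, {z : ZZ | Good 0 i (z (i+1))} := by
    ext z
    simp [W]
  rw [this]
  refine MeasurableSet.iInter fun i => MeasurableSet.iInter fun _ => ?_
  exact measurable_pi_apply (i+1) (MeasurableSet.of_discrete (s := {x : KK (i+1) | Good 0 i x}))

lemma Z1_W {z : ZZ} (hz : z ∈ Z1) : ∃ n, z ∈ W n := by
  obtain ⟨n, hn⟩ := eventually_atTop.1 (hz 0)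
  exact ⟨n, hn⟩

lemma W_NN {n : ℕ} {z c : ZZ} (hz : z ∈ W n) (hc : c ∈ NN) (hzc : z + c ∈ W n) :
    ∀ m, n + 1 ≤ m → c m = 0 := by
  by_cases h0 : c = 0
  · intro m _; rw [h0]; rfl
  obtain ⟨J, h, hh, hJ, hJ'⟩ := NN_last hc h0
  have hJn : J < n := by
    by_contra hcon
    push Not at hcon
    have h1 := (hz J hcon).2 h hh
    have h2 := (hzc J hcon).1
    rw [Pi.add_apply, hJ] at h2
    have : (0:ℝ) ≤ ((0:ℕ):ℝ) * 2 ^ (6 * kk J) := by positivity
    linarith
  intro m hm
  exact hJ' m (by omega)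

open Classical in
/-- the first level from which `z` is good -/
noncomputable def j0 (z : ZZ) : ℕ :=
  Nat.find (p := fun N => z ∈ W N ∨ ∀ M, z ∉ W M) (by
    by_cases h : ∃ N, z ∈ W N
    · obtain ⟨N, hN⟩ := h
      exact ⟨N, Or.inl hN⟩
    · push Not at h
      exact ⟨0, Or.inr h⟩)

lemma j0_meas : Measurable j0 := by
  classical
  unfold j0
  refine measurable_find _ fun k => ?_
  have : {x : ZZ | x ∈ W k ∨ ∀ M, x ∉ W M} = W k ∪ ⋂ M, (W M)ᶜ := by
    ext x; simp
  rw [this]
  exact (W_meas k).union (MeasurableSet.iInter fun M => (W_meas M).compl)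

lemma j0_spec {z : ZZ} (hz : z ∈ Z1) : z ∈ W (j0 z) := by
  classical
  have h := Nat.find_spec (p := fun N => z ∈ W N ∨ ∀ M, z ∉ W M) (by
    obtain ⟨N, hN⟩ := Z1_W hz
    exact ⟨N, Or.inl hN⟩)
  rcases h with h | h
  · exact h
  · obtain ⟨N, hN⟩ := Z1_W hz
    exact absurd hN (h N)

lemma W_mono {m n : ℕ} (h : m ≤ n) : W m ⊆ W n := fun _ hz i hi => hz i (h.trans hi)

/-- tie breaking -/
noncomputable def tb (z : ZZ) : ℝ := 1 / 2 + Real.arctan (embeddingReal ZZ z) / 4

lemma tb_meas : Measurable tb := by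
  unfold tb
  exact measurable_const.add ((Real.measurable_arctan.comp
    (measurableEmbedding_embeddingReal ZZ).measurable).div_const _)

lemma tb_inj : Function.Injective tb := by
  intro a b h
  unfold tb at h
  have : Real.arctan (embeddingReal ZZ a) = Real.arctan (embeddingReal ZZ b) := by linarith
  exact (measurableEmbedding_embeddingReal ZZ).injective (Real.arctan_injective this)

lemma tb_mem (z : ZZ) : 0 < tb z ∧ tb z < 1 := by
  unfold tb
  have h1 := Real.arctan_lt_pi_div_two (embeddingReal ZZ z)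
  have h2 := Real.neg_pi_div_two_lt_arctan (embeddingReal ZZ z)
  have h3 := Real.pi_lt_d2
  constructor <;> linarith

/-- the selection function -/
noncomputable def psi (z : ZZ) : ℝ := j0 z + tb z

lemma psi_meas : Measurable psi :=
  (measurable_from_top.comp j0_meas : Measurable fun z => ((j0 z : ℕ) : ℝ)).add tb_meas

lemma psi_inj {a b : ZZ} (h : psi a = psi b) : a = b := by
  unfold psi at h
  have ha := tb_mem a
  have hb := tb_mem b
  have h1 : (j0 a : ℝ) < j0 b + 1 := by linarith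
  have h2 : (j0 b : ℝ) < j0 a + 1 := by linarith
  have h1' : j0 a < j0 b + 1 := by exact_mod_cast h1
  have h2' : j0 b < j0 a + 1 := by exact_mod_cast h2
  have h3 : j0 a = j0 b := by omega
  rw [h3] at h
  exact tb_inj (by linarith)

/-- the fundamental domain -/
def DD : Set ZZ := Z1 ∩ ⋂ c : NN, {z | psi z ≤ psi (z + c)}

lemma meas_add_const (c : ZZ) : Measurable (fun z : ZZ => z + c) := by
  refine measurable_pi_iff.2 fun n => ?_
  have : (fun z : ZZ => (z + c) n) = (fun x : KK n => x + c n) ∘ (fun z : ZZ => z n) := rfl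
  rw [this]
  exact Measurable.of_discrete.comp (measurable_pi_apply n)

lemma DD_meas : MeasurableSet DD := by
  refine Z1_meas.inter (MeasurableSet.iInter fun c => ?_)
  exact measurableSet_le psi_meas (psi_meas.comp (meas_add_const c))

lemma DD_sub : DD ⊆ Z1 := Set.inter_subset_left

lemma mem_DD {z : ZZ} : z ∈ DD ↔ z ∈ Z1 ∧ ∀ c ∈ NN, psi z ≤ psi (z + c) := by
  simp [DD]

lemma exists_DD {z : ZZ} (hz : z ∈ Z1) : ∃ c ∈ NN, z + c ∈ DD := by
  set n := j0 z with hn
  have hfin : {c : ZZ | c ∈ NN ∧ j0 (z + c) ≤ n}.Finite := by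
    refine (supp_finite (n+1)).subset ?_
    rintro c ⟨hc, hcn⟩
    have hzc : z + c ∈ Z1 := Z1_add_FF hz (NN_le_FF hc)
    exact W_NN (j0_spec hz) hc (W_mono hcn (j0_spec hzc))
  obtain ⟨c, ⟨hc, hcn⟩, hmin⟩ := Set.exists_min_image _ (fun c => psi (z + c)) hfin
    ⟨0, NN.zero_mem, by rw [add_zero]⟩
  refine ⟨c, hc, mem_DD.2 ⟨Z1_add_FF hz (NN_le_FF hc), fun c' hc' => ?_⟩⟩
  rw [add_assoc]
  by_cases h : j0 (z + (c + c')) ≤ n
  · exact hmin (c + c') ⟨NN.add_mem hc hc', h⟩
  · push Not at h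
    have h1 := hmin 0 ⟨NN.zero_mem, by rw [add_zero]⟩
    rw [add_zero] at h1
    refine h1.trans ?_
    unfold psi
    have a1 := tb_mem z
    have a2 := tb_mem (z + (c + c'))
    have h2 : (n : ℝ) + 1 ≤ j0 (z + (c + c')) := by exact_mod_cast h
    rw [← hn]; linarith

lemma unique_DD {x y : ZZ} (hx : x ∈ DD) (hy : y ∈ DD) {c : ZZ} (hc : c ∈ NN) (h : y = x + c) :
    x = y := by
  apply psi_inj
  apply le_antisymm
  · rw [h]; exact (mem_DD.1 hx).2 c hc
  · have := (mem_DD.1 hy).2 (-c) (NN.neg_mem hc)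
    rwa [h, add_neg_cancel_right, ← h] at this

open Classical in
/-- the retraction onto the fundamental domain -/
noncomputable def rr (z : ZZ) : ZZ :=
  if h : ∃ c ∈ NN, z + c ∈ DD then z + h.choose else z

lemma rr_spec {z : ZZ} (hz : z ∈ Z1) : rr z ∈ DD ∧ ∃ c ∈ NN, rr z = z + c := by
  classical
  have h := exists_DD hz
  unfold rr
  rw [dif_pos h]
  exact ⟨h.choose_spec.2, h.choose, h.choose_spec.1, rfl⟩

lemma rr_eq {z x : ZZ} (hz : z ∈ Z1) (hx : x ∈ DD) {c : ZZ} (hc : c ∈ NN) (h : x = z + c) : rr z = x := by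
  obtain ⟨h1, c', hc', h2⟩ := rr_spec hz
  refine unique_DD h1 hx (c := c - c') (NN.sub_mem hc hc') ?_
  rw [h, h2]; abel

lemma rr_of_DD {x : ZZ} (hx : x ∈ DD) : rr x = x :=
  rr_eq (DD_sub hx) hx NN.zero_mem (by simp)

lemma rr_add {z c : ZZ} (hz : z ∈ Z1) (hc : c ∈ NN) : rr (z + c) = rr z := by
  obtain ⟨h1, c', hc', h2⟩ := rr_spec hz
  refine rr_eq (Z1_add_FF hz (NN_le_FF hc)) h1 (c := c' - c) (NN.sub_mem hc' hc) ?_
  rw [h2]; abel

lemma rr_meas : Measurable rr := by
  intro A hA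
  have : rr ⁻¹' A = (Z1 ∩ ⋃ c : NN, (fun z : ZZ => z + (c : ZZ)) ⁻¹' (DD ∩ A)) ∪
      (Z1ᶜ ∩ A) := by
    ext z
    simp only [Set.mem_preimage, Set.mem_union, Set.mem_inter_iff, Set.mem_iUnion, Set.mem_compl_iff]
    by_cases hz : z ∈ Z1
    · simp only [hz, true_and, not_true, false_and, or_false]
      obtain ⟨h1, c, hc, h2⟩ := rr_spec hz
      constructor
      · intro h
        exact ⟨⟨c, hc⟩, by rw [← h2]; exact ⟨h1, h⟩⟩
      · rintro ⟨c', h3, h4⟩
        rwa [rr_eq hz h3 c'.2 rfl]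
    · simp only [hz, false_and, not_false_iff, true_and, false_or]
      have : rr z = z := by
        unfold rr
        rw [dif_neg]
        rintro ⟨c, hc, hcD⟩
        apply hz
        have := Z1_add_FF (DD_sub hcD) (FF.neg_mem (NN_le_FF hc))
        rwa [add_neg_cancel_right] at this
      rw [this]
  rw [this]
  refine (Z1_meas.inter (MeasurableSet.iUnion fun c => ?_)).union (Z1_meas.compl.inter hA)
  exact meas_add_const c (DD_meas.inter hA)

/-- the phase space -/
abbrev XX : Type := ↥DD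

instance : StandardBorelSpace XX := DD_meas.standardBorel

/-- the map of `E × X → X` -/
noncomputable def actE (e : EE) (x : XX) : XX :=
  ⟨rr (x.1 + cE e), (rr_spec (Z1_add_E (DD_sub x.2) e)).1⟩

lemma actE_coe (e : EE) (x : XX) : (actE e x : ZZ) = rr (x.1 + cE e) := rfl

lemma actE_mod {e e' : EE} (h : -e + e' ∈ NE) (x : XX) : actE e x = actE e' x := by
  apply Subtype.ext
  rw [actE_coe, actE_coe]
  have h1 : cE (-e + e') ∈ NN := h
  have h2 : x.1 + cE e' = x.1 + cE e + cE (-e + e') := by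
    rw [map_add, map_neg]; abel
  rw [h2, rr_add (Z1_add_E (DD_sub x.2) e) h1]

lemma actE_add (e e' : EE) (x : XX) : actE (e + e') x = actE e (actE e' x) := by
  apply Subtype.ext
  rw [actE_coe, actE_coe, actE_coe]
  obtain ⟨h1, c, hc, h2⟩ := rr_spec (Z1_add_E (DD_sub x.2) e')
  rw [h2]
  have h3 : x.1 + cE e' + c + cE e = x.1 + cE (e + e') + c := by
    rw [map_add]; abel
  rw [h3, rr_add (Z1_add_E (DD_sub x.2) (e + e')) hc]

lemma actE_zero (x : XX) : actE 0 x = x := by
  apply Subtype.ext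
  rw [actE_coe, map_zero, add_zero, rr_of_DD x.2]

/-- the action of `G` -/
noncomputable def actG (g : GG) (x : XX) : XX := actE (Quotient.out g) x

lemma actG_mk (e : EE) (x : XX) : actG (e : GG) x = actE e x := by
  unfold actG
  apply actE_mod
  have := QuotientAddGroup.eq (s := NE) (a := Quotient.out (e : GG)) (b := e)
  rw [← this]
  exact QuotientAddGroup.out_eq' _

lemma actG_zero (x : XX) : actG 0 x = x := by
  have := actG_mk 0 x
  rw [actE_zero] at this
  exact this

lemma actG_add (g g' : GG) (x : XX) : actG (g + g') x = actG g (actG g' x) := by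
  obtain ⟨e, rfl⟩ := QuotientAddGroup.mk_surjective g
  obtain ⟨e', rfl⟩ := QuotientAddGroup.mk_surjective g'
  rw [← QuotientAddGroup.mk_add, actG_mk, actG_mk, actG_mk, actE_add]

lemma cE_meas : Measurable (fun e : EE => cE e) := by
  refine measurable_pi_iff.2 fun n => ?_
  have : Continuous (fun e : EE => cE e n) := by
    refine Metric.continuous_iff.2 fun b ε hε => ⟨ε, hε, fun a ha => ?_⟩
    rw [dist_eq_norm] at ha ⊢
    have h1 : cE a n - cE b n = cE (a - b) n := by rw [map_sub]; rfl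
    rw [h1]
    exact (norm_ge_coord _ _).trans_lt ha
  exact this.measurable

lemma add_meas : Measurable (fun p : ZZ × ZZ => p.1 + p.2) := by
  refine measurable_pi_iff.2 fun n => ?_
  have h1 : Measurable (fun p : ZZ × ZZ => (p.1 n, p.2 n)) :=
    ((measurable_pi_apply n).comp measurable_fst).prodMk ((measurable_pi_apply n).comp measurable_snd)
  have : (fun p : ZZ × ZZ => (p.1 + p.2) n) = (fun q : KK n × KK n => q.1 + q.2) ∘
    (fun p : ZZ × ZZ => (p.1 n, p.2 n)) := rfl
  rw [this]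
  exact Measurable.of_discrete.comp h1

lemma actE_meas : Measurable (fun p : EE × XX => actE p.1 p.2) := by
  refine Measurable.subtype_mk (rr_meas.comp ?_)
  have h : Measurable (fun p : EE × XX => ((p.2 : ZZ), cE p.1)) :=
    (measurable_subtype_coe.comp measurable_snd).prodMk (cE_meas.comp measurable_fst)
  exact add_meas.comp h

lemma actG_meas : Measurable (fun p : GG × XX => actG p.1 p.2) := by
  have hf : Measurable (fun p : EE × XX => ((p.1 : GG), p.2)) :=
    (QuotientAddGroup.continuous_mk.measurable.comp measurable_fst).prodMk measurable_snd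
  have hs : Function.Surjective (fun p : EE × XX => ((p.1 : GG), p.2)) := by
    rintro ⟨g, x⟩
    obtain ⟨e, rfl⟩ := QuotientAddGroup.mk_surjective g
    exact ⟨(e, x), rfl⟩
  rw [← hf.measurable_comp_iff_of_surjective hs]
  have : (fun p : GG × XX => actG p.1 p.2) ∘ (fun p : EE × XX => ((p.1 : GG), p.2))
      = fun p : EE × XX => actE p.1 p.2 := by
    funext p
    exact actG_mk p.1 p.2
  rw [this]
  exact actE_meas

end H878L
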