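import Pool.Agent.H878.Levy6

/-! The product measure `nu`; `nu`-almost every point lies in `Z1`. -/

open Finset Filter Topology MeasureTheory

namespace H878L

lemma ee_nonneg (j : ℕ) : 0 ≤ ee j := (ee_pos j).le
lemma ee_le_one (j : ℕ) : ee j ≤ 1 := (ee_lt j).le

/-- block measures -/
noncomputable def bj (j : ℕ) : Measure (KK j) := bm (ee j) j

instance (j : ℕ) : IsProbabilityMeasure (bj j) := bm_prob (ee_nonneg j) (ee_le_one j) j

/-- the product measure -/
noncomputable def nu : Measure ZZ := Measure.infinitePi bj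

instance : IsProbabilityMeasure nu := by unfold nu; infer_instance

lemma nu_eval (j : ℕ) (S : Set (KK j)) : nu {z | z j ∈ S} = bj j S := by
  have := (measurePreserving_eval_infinitePi bj j).measure_preimage
    (MeasurableSet.of_discrete (s := S)).nullMeasurableSet
  exact this

/-- core event in block `i+1` -/
def Core (i : ℕ) (x : KK (i+1)) : Prop :=
  (hw x : ℝ) ≤ 2 ^ (10 * kk i) / 2 - 3 * 2 ^ (7 * kk i) / 8 ∧
    ∀ h : KK i, h ≠ 0 → 2 ^ (10 * kk i) / 2 - 2 ^ (7 * kk i) / 8 ≤ (hw (x + iota i h) : ℝ)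

lemma Core.good {R i : ℕ} {x : KK (i+1)} (hx : Core i x) (hR : (8 * R : ℝ) < 2 ^ kk i) : Good R i x := by
  obtain ⟨h1, h2⟩ := hx
  have h3 : (R : ℝ) * 2 ^ (6 * kk i) < 2 ^ (7 * kk i) / 8 := by
    have : (2:ℝ) ^ (7 * kk i) = 2 ^ kk i * 2 ^ (6 * kk i) := by rw [← pow_add]; congr 1; ring
    rw [this]
    have h4 : (0:ℝ) < 2 ^ (6 * kk i) := by positivity
    nlinarith
  constructor
  · unfold th; linarith
  · intro h hh
    have := h2 h hh
    unfold th; linarith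

lemma mem_Z1_of_core {z : ZZ} (hz : ∀ᶠ i in atTop, Core i (z (i+1))) : z ∈ Z1 := by
  intro R
  have h : ∀ᶠ i : ℕ in atTop, (8 * R : ℝ) < 2 ^ kk i := by
    filter_upwards [eventually_ge_atTop (8 * R)] with i hi
    have h1 : 8 * R < 2 ^ kk i := by
      calc 8 * R ≤ i := hi
        _ < kk i := by have := kk_ge i; omega
        _ < 2 ^ kk i := Nat.lt_two_pow_self
    exact_mod_cast h1
  filter_upwards [hz, h] with i hi hi'
  exact hi.good hi'

lemma hw_lip {j : ℕ} (v x y : KK j) : |(hw (x + v) : ℝ) - hw (y + v)| ≤ (hw (x + y) : ℝ) := by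
  have h := hn_lip (n := kk j) v x y
  rw [hd_eq (n := kk j) x y] at h
  exact h

lemma wj_mean (e : ℝ) {j : ℕ} (v : KK j) :
    ∑ x : KK j, wj e x * hw (x + v) = kk j * (1 - e) / 2 + e * hw v :=
  mean_hn e (n := kk j) v

lemma bm_cheb {e : ℝ} (h0 : 0 ≤ e) (h1 : e ≤ 1) {j : ℕ} (v : KK j) {s : ℝ} (hs : 0 < s)
    (P : KK j → Prop)
    (hP : ∀ x, P x → s ≤ |(hw (x + v) : ℝ) - (kk j * (1 - e) / 2 + e * hw v)|) :
    bm e j {x | P x} ≤ ENNReal.ofReal (kk j / 4 / s ^ 2) := by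
  classical
  rw [bm_apply h0 h1]
  apply ENNReal.ofReal_le_ofReal
  have hlip : ∀ x y : Fin (kk j) → ZMod 2, |(fun x : KK j => (hw (x + v) : ℝ)) x -
      (fun x : KK j => (hw (x + v) : ℝ)) y| ≤ hammingDist x y := by
    intro x y
    rw [hd_eq]
    exact hw_lip v x y
  have hm := wj_mean e v
  have := @cheb e h0 h1 (kk j) (fun x : KK j => (hw (x + v) : ℝ)) hlip s hs P
    (fun x => Classical.propDecidable (P x)) (by
      intro x hx
      refine (hP x hx).trans (le_of_eq ?_)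
      rw [← hm]
      rfl)
  refine (le_of_eq ?_).trans this
  refine Finset.sum_congr ?_ (fun _ _ => rfl)
  refine Finset.ext fun x => ⟨fun h => ?_, fun h => ?_⟩
  · exact (@Finset.mem_filter (Fin (kk j) → ZMod 2) P (fun x => Classical.propDecidable (P x))
      Finset.univ x).2 ⟨@Finset.mem_univ (Fin (kk j) → ZMod 2) _ x, (Finset.mem_filter.1 h).2⟩
  · exact Finset.mem_filter.2 ⟨Finset.mem_univ _, (@Finset.mem_filter (Fin (kk j) → ZMod 2) P
      (fun x => Classical.propDecidable (P x)) Finset.univ x |>.1 h).2⟩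

lemma kk_succ_real (i : ℕ) : (kk (i+1) : ℝ) = 2 ^ (10 * kk i) := by rw [kk_succ]; push_cast; rfl

lemma ee_mul (i : ℕ) : ee (i+1) * 2 ^ (10 * kk i) = 2 ^ (7 * kk i) := by
  rw [ee_succ, show 10 * kk i = 3 * kk i + 7 * kk i by ring, pow_add, ← mul_assoc, ← mul_pow]
  norm_num

lemma hw_iota_real {i : ℕ} {h : KK i} (hh : h ≠ 0) : (hw (iota i h) : ℝ) = 2 ^ (10 * kk i) / 2 := by
  have : (2 * hw (iota i h) : ℝ) = kk (i+1) := by exact_mod_cast hw_iota hh
  rw [kk_succ_real] at this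
  linarith

lemma quarter (i : ℕ) : (kk (i+1) : ℝ) / 4 / (2 ^ (7 * kk i) / 8) ^ 2 = 16 * (1 / 2) ^ (4 * kk i) := by
  rw [kk_succ_real, div_pow, ← pow_mul]
  have h1 : (2:ℝ) ^ (7 * kk i * 2) = 2 ^ (10 * kk i) * 2 ^ (4 * kk i) := by
    rw [← pow_add]; congr 1; ring
  have h2 : ((1:ℝ) / 2) ^ (4 * kk i) = 1 / 2 ^ (4 * kk i) := by rw [one_div, inv_pow, one_div]
  rw [h1, h2]
  field_simp
  norm_num

lemma core_fail (i : ℕ) : bj (i+1) {x | ¬ Core i x} ≤ ENNReal.ofReal (32 * (1 / 2) ^ i) := by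
  classical
  have he0 := ee_nonneg (i+1)
  have he1 := ee_le_one (i+1)
  have hm := ee_mul i
  have hk := kk_succ_real i
  have hpos : (0:ℝ) < 2 ^ (7 * kk i) / 8 := by positivity
  -- the first failure
  have hA : bj (i+1) {x : KK (i+1) | 2 ^ (10 * kk i) / 2 - 3 * 2 ^ (7 * kk i) / 8 < (hw x : ℝ)}
      ≤ ENNReal.ofReal (16 * (1 / 2) ^ (4 * kk i)) := by
    rw [← quarter]
    refine bm_cheb he0 he1 (0 : KK (i+1)) hpos _ ?_
    intro x hx
    rw [add_zero, hw_zero, hk]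
    have : (2:ℝ) ^ (10 * kk i) * (1 - ee (i+1)) / 2 = 2 ^ (10 * kk i) / 2 - 2 ^ (7 * kk i) / 2 := by
      rw [← hm]; ring
    rw [this]
    refine le_trans ?_ (le_abs_self _)
    simp only [Nat.cast_zero]
    linarith
  have hB : ∀ h : KK i, h ≠ 0 →
      bj (i+1) {x : KK (i+1) | (hw (x + iota i h) : ℝ) < 2 ^ (10 * kk i) / 2 - 2 ^ (7 * kk i) / 8}
      ≤ ENNReal.ofReal (16 * (1 / 2) ^ (4 * kk i)) := by
    intro h hh
    rw [← quarter]
    refine bm_cheb he0 he1 (iota i h) hpos _ ?_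
    intro x hx
    rw [hw_iota_real hh, hk]
    have : (2:ℝ) ^ (10 * kk i) * (1 - ee (i+1)) / 2 + ee (i+1) * (2 ^ (10 * kk i) / 2) = 2 ^ (10 * kk i) / 2 := by
      ring
    rw [this, abs_sub_comm]
    refine le_trans ?_ (le_abs_self _)
    linarith
  have hsub : {x : KK (i+1) | ¬ Core i x} ⊆
      {x : KK (i+1) | 2 ^ (10 * kk i) / 2 - 3 * 2 ^ (7 * kk i) / 8 < (hw x : ℝ)} ∪
      ⋃ h ∈ (Finset.univ.filter fun h : KK i => h ≠ 0),
        {x : KK (i+1) | (hw (x + iota i h) : ℝ) < 2 ^ (10 * kk i) / 2 - 2 ^ (7 * kk i) / 8} := by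
    intro x hx
    simp only [Finset.mem_filter, Finset.mem_univ, true_and, Set.mem_ofPred_eq, Set.mem_union,
      Set.mem_iUnion, exists_prop] at hx ⊢
    by_contra hcon
    push Not at hcon
    exact hx ⟨hcon.1, fun h hh => hcon.2 h hh⟩
  have hcard : (Finset.univ.filter fun h : KK i => h ≠ 0).card ≤ 2 ^ kk i := by
    rw [← card_KK]; exact Finset.card_le_univ _
  calc bj (i+1) {x : KK (i+1) | ¬ Core i x}
      ≤ bj (i+1) ({x : KK (i+1) | 2 ^ (10 * kk i) / 2 - 3 * 2 ^ (7 * kk i) / 8 < (hw x : ℝ)} ∪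
      ⋃ h ∈ (Finset.univ.filter fun h : KK i => h ≠ 0),
        {x : KK (i+1) | (hw (x + iota i h) : ℝ) < 2 ^ (10 * kk i) / 2 - 2 ^ (7 * kk i) / 8}) :=
        measure_mono hsub
    _ ≤ bj (i+1) {x : KK (i+1) | 2 ^ (10 * kk i) / 2 - 3 * 2 ^ (7 * kk i) / 8 < (hw x : ℝ)} +
      bj (i+1) (⋃ h ∈ (Finset.univ.filter fun h : KK i => h ≠ 0),
        {x : KK (i+1) | (hw (x + iota i h) : ℝ) < 2 ^ (10 * kk i) / 2 - 2 ^ (7 * kk i) / 8}) :=
        measure_union_le _ _
    _ ≤ ENNReal.ofReal (16 * (1 / 2) ^ (4 * kk i)) +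
        ∑ h ∈ (Finset.univ.filter fun h : KK i => h ≠ 0), ENNReal.ofReal (16 * (1 / 2) ^ (4 * kk i)) := by
        refine add_le_add hA ((measure_biUnion_finset_le _ _).trans ?_)
        exact Finset.sum_le_sum fun h hh => hB h (Finset.mem_filter.1 hh).2
    _ ≤ ENNReal.ofReal (16 * (1 / 2) ^ (4 * kk i)) +
        ENNReal.ofReal (2 ^ kk i * (16 * (1 / 2) ^ (4 * kk i))) := by
        refine add_le_add le_rfl ?_
        rw [Finset.sum_const, nsmul_eq_mul, ENNReal.ofReal_mul (p := (2:ℝ) ^ kk i) (by positivity)]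
        have hc : ((Finset.univ.filter fun h : KK i => h ≠ 0).card : ENNReal) ≤ ENNReal.ofReal (2 ^ kk i) := by
          rw [ENNReal.ofReal_pow (by norm_num), ENNReal.ofReal_ofNat]
          exact_mod_cast hcard
        exact mul_le_mul_left hc _
    _ ≤ ENNReal.ofReal (32 * (1 / 2) ^ i) := by
        rw [← ENNReal.ofReal_add (by positivity) (by positivity)]
        apply ENNReal.ofReal_le_ofReal
        have h2 : (2:ℝ) ^ kk i * (16 * (1 / 2) ^ (4 * kk i)) = 16 * (1 / 2) ^ (3 * kk i) := by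
          rw [show 4 * kk i = kk i + 3 * kk i by ring, pow_add]
          have : (2:ℝ) ^ kk i * (1 / 2) ^ kk i = 1 := by rw [← mul_pow]; norm_num
          linear_combination 16 * (1 / 2) ^ (3 * kk i) * this
        rw [h2]
        have hk1 := kk_ge i
        have h3 : ((1:ℝ) / 2) ^ (4 * kk i) ≤ (1 / 2) ^ i :=
          pow_le_pow_of_le_one (by norm_num) (by norm_num) (by omega)
        have h4 : ((1:ℝ) / 2) ^ (3 * kk i) ≤ (1 / 2) ^ i :=
          pow_le_pow_of_le_one (by norm_num) (by norm_num) (by omega)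
        linarith

/-- Borel-Cantelli for product-type families -/
lemma ae_core_of (μ : Measure ZZ)
    (h : ∀ i, μ {z | ¬ Core i (z (i+1))} ≤ ENNReal.ofReal (32 * (1 / 2) ^ i)) :
    ∀ᵐ z ∂μ, z ∈ Z1 := by
  have hsum : ∑' i, μ {z | ¬ Core i (z (i+1))} ≠ ⊤ := by
    refine ne_top_of_le_ne_top ?_ (ENNReal.tsum_le_tsum h)
    rw [← ENNReal.ofReal_tsum_of_nonneg (fun i => by positivity)]
    · exact ENNReal.ofReal_ne_top
    · exact (summable_geometric_of_lt_one (by norm_num) (by norm_num)).mul_left 32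
  filter_upwards [ae_eventually_notMem hsum] with z hz
  refine mem_Z1_of_core ?_
  filter_upwards [hz] with i hi
  simpa using hi

lemma nu_Z1 : ∀ᵐ z ∂nu, z ∈ Z1 := by
  refine ae_core_of nu fun i => ?_
  have := nu_eval (i+1) {x | ¬ Core i x}
  calc nu {z | ¬ Core i (z (i+1))} = bj (i+1) {x | ¬ Core i x} := this
    _ ≤ _ := core_fail i

end H878L
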