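import Mathlib

/-! A Kakutani-type criterion: infinite products with summable `L¹` distance are absolutely
continuous. -/

open Finset Filter Topology MeasureTheory

namespace H878L

section
variable {X : ℕ → Type*} [∀ i, MeasurableSpace (X i)] (μ : ∀ i, Measure (X i))
  [∀ i, IsProbabilityMeasure (μ i)]

lemma integrable_prod_coord (s : Finset ℕ) {f : ∀ i, X i → ℝ} (hf : ∀ i, Integrable (f i) (μ i)) :
    Integrable (fun z : ∀ i, X i => ∏ i ∈ s, f i (z i)) (Measure.infinitePi μ) := by
  have h1 : Integrable (fun y : ∀ i : s, X i => ∏ i : s, f i (y i)) (Measure.pi fun i : s => μ i) :=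
    Integrable.fintype_prod_dep (fun i => hf i)
  have h2 : MeasurePreserving (s.restrict (π := X)) (Measure.infinitePi μ) (Measure.pi fun i : s => μ i) :=
    ⟨Finset.measurable_restrict s, Measure.infinitePi_map_restrict μ⟩
  have h3 := h2.integrable_comp_of_integrable h1
  refine h3.congr (Eventually.of_forall fun z => ?_)
  simp only [Function.comp_def, Finset.restrict]
  exact Finset.prod_coe_sort s (fun i => f i (z i))

lemma integral_prod_coord (s : Finset ℕ) {f : ∀ i, X i → ℝ} (hf : ∀ i, Integrable (f i) (μ i)) :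
    ∫ z : ∀ i, X i, ∏ i ∈ s, f i (z i) ∂(Measure.infinitePi μ) = ∏ i ∈ s, ∫ x, f i x ∂(μ i) := by
  have h1 : Integrable (fun y : ∀ i : s, X i => ∏ i : s, f i (y i)) (Measure.pi fun i : s => μ i) :=
    Integrable.fintype_prod_dep (fun i => hf i)
  have h2 := integral_restrict_infinitePi (μ := μ) (s := s) (f := fun y : ∀ i : s, X i => ∏ i : s, f i (y i))
    h1.aestronglyMeasurable
  have h3 := integral_fintype_prod_eq_prod (μ := fun i : s => μ i) (fun i : s => f i)
  rw [h3] at h2
  rw [Finset.prod_coe_sort s (fun i => ∫ x, f i x ∂(μ i))] at h2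
  rw [← h2]
  refine integral_congr_ae (Eventually.of_forall fun z => ?_)
  simp only [Finset.restrict]
  exact (Finset.prod_coe_sort s (fun i => f i (z i))).symm

theorem kakutani_ac (μ' : ∀ i, Measure (X i)) [∀ i, IsProbabilityMeasure (μ' i)] (ρ : ∀ i, X i → ℝ)
    (hρ0 : ∀ i x, 0 ≤ ρ i x) (hint : ∀ i, Integrable (ρ i) (μ i))
    (hμ' : ∀ i, μ' i = (μ i).withDensity (fun x => ENNReal.ofReal (ρ i x)))
    (hsum : Summable fun i => ∫ x, |ρ i x - 1| ∂(μ i)) :
    Measure.infinitePi μ' ≪ Measure.infinitePi μ := by
  classical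
  set ν := Measure.infinitePi μ with hν
  have hset : ∀ i (t : Set (X i)), MeasurableSet t → μ' i t = ENNReal.ofReal (∫ x in t, ρ i x ∂(μ i)) := by
    intro i t ht
    rw [hμ' i, withDensity_apply _ ht, ofReal_integral_eq_lintegral_ofReal (hint i).integrableOn
      (Eventually.of_forall fun x => hρ0 i x)]
  have h1 : ∀ i, ∫ x, ρ i x ∂(μ i) = 1 := by
    intro i
    have := hset i Set.univ MeasurableSet.univ
    rw [measure_univ, setIntegral_univ] at this
    have h0 : 0 ≤ ∫ x, ρ i x ∂(μ i) := integral_nonneg fun x => hρ0 i x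
    have h2 := congrArg ENNReal.toReal this
    rw [ENNReal.toReal_one, ENNReal.toReal_ofReal h0] at h2
    exact h2.symm
  set M : ℕ → (∀ i, X i) → ℝ := fun n z => ∏ i ∈ range n, ρ i (z i) with hM
  have hM0 : ∀ n z, 0 ≤ M n z := fun n z => Finset.prod_nonneg fun i _ => hρ0 i _
  have hMint : ∀ n, Integrable (M n) ν := fun n => integrable_prod_coord μ (range n) hint
  set g : ℕ → (∀ i, X i) → ℝ := fun n z => M (n+1) z - M n z with hg
  have hgint : ∀ n, Integrable (g n) ν := fun n => (hMint (n+1)).sub (hMint n)
  have hnorm : ∀ n, ∫ z, ‖g n z‖ ∂ν = ∫ x, |ρ n x - 1| ∂(μ n) := by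
    intro n
    set f : ∀ i, X i → ℝ := fun i => if i = n then (fun x => |ρ i x - 1|) else ρ i with hf
    have hfint : ∀ i, Integrable (f i) (μ i) := by
      intro i
      by_cases hi : i = n
      · subst hi
        simp only [hf, if_true]
        exact ((hint i).sub (integrable_const 1)).abs
      · simp only [hf, hi, if_false]; exact hint i
    have h3 : ∀ z, ‖g n z‖ = ∏ i ∈ range (n+1), f i (z i) := by
      intro z
      have h4 : g n z = M n z * (ρ n (z n) - 1) := by
        simp only [hg, hM]; rw [Finset.prod_range_succ]; ring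
      rw [h4, norm_mul, Real.norm_eq_abs, Real.norm_eq_abs, abs_of_nonneg (hM0 n z),
        Finset.prod_range_succ]
      congr 1
      · simp only [hM]
        refine Finset.prod_congr rfl fun i hi => ?_
        have : i ≠ n := by have := Finset.mem_range.1 hi; omega
        simp [hf, this]
      · simp [hf]
    rw [integral_congr_ae (Eventually.of_forall h3), integral_prod_coord μ (range (n+1)) hfint,
      Finset.prod_range_succ]
    have h5 : ∏ i ∈ range n, ∫ x, f i x ∂(μ i) = 1 := by
      refine Finset.prod_eq_one fun i hi => ?_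
      have : i ≠ n := by have := Finset.mem_range.1 hi; omega
      simp only [hf, this, if_false]; exact h1 i
    rw [h5, one_mul]
    simp [hf]
  have hsum' : Summable fun n => ∫ z, ‖g n z‖ ∂ν := by simp_rw [hnorm]; exact hsum
  -- almost everywhere summability
  have hfin : ∫⁻ z, ∑' n, ‖g n z‖ₑ ∂ν ≠ ⊤ := by
    rw [lintegral_tsum (fun n => (hgint n).aestronglyMeasurable.enorm)]
    have : ∀ n, ∫⁻ z, ‖g n z‖ₑ ∂ν = ENNReal.ofReal (∫ z, ‖g n z‖ ∂ν) := by
      intro n
      rw [ofReal_integral_norm_eq_lintegral_enorm (hgint n)]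
    simp_rw [this]
    rw [← ENNReal.ofReal_tsum_of_nonneg (fun n => integral_nonneg fun z => norm_nonneg _) hsum']
    exact ENNReal.ofReal_ne_top
  have hmeas : AEMeasurable (fun z => ∑' n, ‖g n z‖ₑ) ν :=
    AEMeasurable.tsum fun n => (hgint n).aestronglyMeasurable.enorm
  have hae0 : ∀ᵐ z ∂ν, Summable fun n => ‖g n z‖ := by
    filter_upwards [ae_lt_top' hmeas hfin] with z hz
    have h7 : ∑' n, ((‖g n z‖₊ : NNReal) : ENNReal) ≠ ⊤ := by
      simpa [enorm_eq_nnnorm] using hz.ne
    have := ENNReal.tsum_coe_ne_top_iff_summable.1 h7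
    exact NNReal.summable_coe.2 this
  have hae : ∀ᵐ z ∂ν, Summable fun n => g n z := by
    filter_upwards [hae0] with z hz
    exact hz.of_norm
  set F : (∀ i, X i) → ℝ := fun z => 1 + ∑' n, g n z with hF
  have htel : ∀ N z, 1 + ∑ n ∈ range N, g n z = M N z := by
    intro N z
    simp only [hg]
    rw [Finset.sum_range_sub (fun n => M n z)]
    simp [hM]
  have hlimF : ∀ᵐ z ∂ν, Tendsto (fun N => M N z) atTop (𝓝 (F z)) := by
    filter_upwards [hae] with z hz
    have := (hz.hasSum.tendsto_sum_nat).const_add 1
    refine this.congr fun N => htel N z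
  have hF0 : ∀ᵐ z ∂ν, 0 ≤ F z := by
    filter_upwards [hlimF] with z hz
    exact ge_of_tendsto' hz fun N => hM0 N z
  have hFmeas : AEStronglyMeasurable F ν :=
    aestronglyMeasurable_of_tendsto_ae atTop (fun N => (hMint N).aestronglyMeasurable) hlimF
  have hTint : Integrable (fun z => ∑' n, g n z) ν := by
    have hT : (fun z => ∑' n, g n z) = fun z => F z - 1 := by
      funext z; simp only [hF]; ring
    refine ⟨by rw [hT]; exact hFmeas.sub aestronglyMeasurable_const, ?_⟩
    refine lt_of_le_of_lt ?_ (lt_top_iff_ne_top.2 hfin)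
    refine lintegral_mono_ae ?_
    filter_upwards [hae0] with z hz
    have h8 := norm_tsum_le_tsum_norm hz
    calc ‖∑' n, g n z‖ₑ = ENNReal.ofReal ‖∑' n, g n z‖ := (ofReal_norm _).symm
      _ ≤ ENNReal.ofReal (∑' n, ‖g n z‖) := ENNReal.ofReal_le_ofReal h8
      _ = ∑' n, ENNReal.ofReal ‖g n z‖ := ENNReal.ofReal_tsum_of_nonneg (fun n => norm_nonneg _) hz
      _ = _ := by simp_rw [ofReal_norm]
  have hFint : Integrable F ν := by
    simp only [hF]; exact (integrable_const 1).add hTint
  have hsumInt : ∀ B : Set (∀ i, X i), MeasurableSet B →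
      Tendsto (fun N => ∫ z in B, M N z ∂ν) atTop (𝓝 (∫ z in B, F z ∂ν)) := by
    intro B hB
    have ha : ∀ n, Integrable (g n) (ν.restrict B) := fun n => (hgint n).integrableOn
    have hb : Summable fun n => ∫ z, ‖g n z‖ ∂(ν.restrict B) := by
      refine Summable.of_nonneg_of_le (fun n => integral_nonneg fun z => norm_nonneg _) (fun n => ?_) hsum'
      exact setIntegral_le_integral (hgint n).norm (Eventually.of_forall fun z => norm_nonneg _)
    have hc := (hasSum_integral_of_summable_integral_norm ha hb).tendsto_sum_nat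
    have hInt : Integrable (fun z => ∑' n, g n z) (ν.restrict B) := hTint.integrableOn
    have hd : ∫ z in B, F z ∂ν = (∫ z in B, (1:ℝ) ∂ν) + ∫ z in B, (∑' n, g n z) ∂ν := by
      simp only [hF]
      rw [integral_add (integrable_const _) hInt]
    rw [hd]
    have he := hc.const_add (∫ z in B, (1:ℝ) ∂ν)
    refine he.congr fun N => ?_
    rw [← integral_finsetSum _ (fun n _ => ha n), ← integral_add (integrable_const _)
      (integrable_finsetSum _ fun n _ => ha n)]
    exact integral_congr_ae (Eventually.of_forall fun z => htel N z)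
  have hprob : Measure.infinitePi μ' = ν.withDensity (fun z => ENNReal.ofReal (F z)) := by
    symm
    refine Measure.eq_infinitePi μ' fun s t ht => ?_
    have hBm : MeasurableSet (Set.pi (s : Set ℕ) t) := MeasurableSet.pi s.countable_toSet fun i _ => ht i
    rw [withDensity_apply _ hBm, ← ofReal_integral_eq_lintegral_ofReal hFint.integrableOn
      (ae_restrict_of_ae hF0)]
    obtain ⟨n0, hn0⟩ : ∃ n0, s ⊆ range n0 := by
      refine ⟨s.sup id + 1, fun i hi => Finset.mem_range.2 ?_⟩
      have := Finset.le_sup (f := id) hi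
      simp only [id] at this; omega
    have hval : ∀ N, n0 ≤ N → ∫ z in Set.pi (s : Set ℕ) t, M N z ∂ν = ∏ i ∈ s, ∫ x in t i, ρ i x ∂(μ i) := by
      intro N hN
      set f : ∀ i, X i → ℝ := fun i => if i ∈ s then (t i).indicator (ρ i) else ρ i with hf
      have hfint : ∀ i, Integrable (f i) (μ i) := by
        intro i
        by_cases hi : i ∈ s
        · simp only [hf, hi, if_true]
          exact (hint i).indicator (ht i)
        · simp only [hf, hi, if_false]; exact hint i
      rw [← integral_indicator hBm]
      have h9 : ∀ z, (Set.pi (s : Set ℕ) t).indicator (M N) z = ∏ i ∈ range N, f i (z i) := by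
        intro z
        by_cases hz : z ∈ Set.pi (s : Set ℕ) t
        · rw [Set.indicator_of_mem hz]
          simp only [hM]
          refine Finset.prod_congr rfl fun i _ => ?_
          by_cases hi : i ∈ s
          · simp only [hf, hi, if_true]
            rw [Set.indicator_of_mem (hz i hi)]
          · simp only [hf, hi, if_false]
        · rw [Set.indicator_of_notMem hz]
          simp only [Set.mem_pi, not_forall] at hz
          obtain ⟨i, hi, hzi⟩ := hz
          symm
          refine Finset.prod_eq_zero (i := i) (Finset.range_mono hN (hn0 hi)) ?_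
          have hi' : i ∈ s := hi
          simp only [hf, hi', if_true]
          rw [Set.indicator_of_notMem hzi]
      rw [integral_congr_ae (Eventually.of_forall h9), integral_prod_coord μ (range N) hfint]
      rw [← Finset.prod_subset (hn0.trans (Finset.range_mono hN))]
      · refine Finset.prod_congr rfl fun i hi => ?_
        simp only [hf, hi, if_true]
        rw [integral_indicator (ht i)]
      · intro i _ hi
        simp only [hf, hi, if_false]; exact h1 i
    have hlim2 := hsumInt _ hBm
    have hconst : Tendsto (fun N => ∫ z in Set.pi (s : Set ℕ) t, M N z ∂ν) atTop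
        (𝓝 (∏ i ∈ s, ∫ x in t i, ρ i x ∂(μ i))) := by
      refine tendsto_const_nhds.congr' ?_
      filter_upwards [eventually_ge_atTop n0] with N hN
      exact (hval N hN).symm
    rw [tendsto_nhds_unique hlim2 hconst, ENNReal.ofReal_prod_of_nonneg
      (fun i _ => integral_nonneg fun x => hρ0 i x)]
    exact Finset.prod_congr rfl fun i _ => (hset i (t i) (ht i)).symm
  rw [hprob]
  exact withDensity_absolutelyContinuous _ _

end

end H878L
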