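import Pool.Agent.H878.Levy7
import Pool.Agent.H878.Levy8

/-! Quasi-invariance of `nu` under `E`, zero-one law, no atoms. -/

open Finset Filter Topology MeasureTheory ProbabilityTheory

namespace H878L

lemma EE_summable (e : EE) : Summable fun i => ‖cE e i‖ := by
  have h := lp.memℓp e
  have h2 := (memℓp_gen_iff (p := 1) (by simp)).1 h
  simp only [ENNReal.toReal_one, Real.rpow_one] at h2
  exact h2

/-- density of the translate of a block measure -/
noncomputable def rho {j : ℕ} (v x : KK j) : ℝ := wj (ee j) (x + v) / wj (ee j) x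

lemma wje_pos {j : ℕ} (x : KK j) : 0 < wj (ee j) x := wj_pos (ee_nonneg j) (ee_lt j) x

lemma rho_nonneg {j : ℕ} (v x : KK j) : 0 ≤ rho v x := div_nonneg (wje_pos _).le (wje_pos _).le

lemma bj_singleton {j : ℕ} (x : KK j) : bj j {x} = ENNReal.ofReal (wj (ee j) x) :=
  bm_singleton (ee_nonneg j) (ee_le_one j) j x

lemma bj_real {j : ℕ} (x : KK j) : (bj j).real {x} = wj (ee j) x := by
  rw [measureReal_def, bj_singleton, ENNReal.toReal_ofReal (wje_pos x).le]

lemma bj_integral {j : ℕ} (f : KK j → ℝ) : ∫ x, f x ∂(bj j) = ∑ x, wj (ee j) x * f x := by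
  rw [integral_fintype (Integrable.of_finite)]
  simp_rw [bj_real, smul_eq_mul]

lemma bj_map {j : ℕ} (v : KK j) :
    (bj j).map (fun x => x + v) = (bj j).withDensity (fun x => ENNReal.ofReal (rho v x)) := by
  refine Measure.ext_of_singleton fun x => ?_
  rw [Measure.map_apply Measurable.of_discrete MeasurableSet.of_discrete,
    withDensity_apply _ MeasurableSet.of_discrete, Measure.restrict_singleton, lintegral_smul_measure,
    lintegral_dirac]
  have : (fun x => x + v) ⁻¹' {x} = {x + v} := by
    ext y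
    simp only [Set.mem_preimage, Set.mem_singleton_iff]
    constructor
    · intro hy; rw [← hy, add_assoc, KK_add_self, add_zero]
    · intro hy; rw [hy, add_assoc, KK_add_self, add_zero]
  rw [this, bj_singleton, bj_singleton, smul_eq_mul, ← ENNReal.ofReal_mul (wje_pos x).le]
  congr 1
  unfold rho
  have := (wje_pos x).ne'
  field_simp

lemma rho_tv {j : ℕ} (v : KK j) : ∫ x, |rho v x - 1| ∂(bj j) ≤ 2 * ‖v‖ := by
  rw [bj_integral, norm_KK]
  have h := tv_le (ee_nonneg j) (ee_le_one j) (n := kk j) v
  refine (le_of_eq ?_).trans h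
  refine Finset.sum_congr rfl fun x _ => ?_
  have hp := wje_pos x
  have h2 : wj (ee j) x * |rho v x - 1| = |wj (ee j) (x + v) - wj (ee j) x| := by
    rw [← abs_of_pos hp, ← abs_mul, abs_of_pos hp]
    congr 1
    unfold rho
    field_simp
  exact h2

lemma nu_map (c : ZZ) : nu.map (fun z => z + c) = Measure.infinitePi fun i => (bj i).map (fun x => x + c i) := by
  have := Measure.infinitePi_map_pi bj (f := fun i x => x + c i) (fun i => Measurable.of_discrete)
  exact this

theorem nu_ac (c : ZZ) (hc : Summable fun i => ‖c i‖) : nu.map (fun z => z + c) ≪ nu := by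
  rw [nu_map]
  have : ∀ i, IsProbabilityMeasure ((bj i).map (fun x => x + c i)) := fun i =>
    Measure.isProbabilityMeasure_map (Measurable.of_discrete).aemeasurable
  refine kakutani_ac bj (fun i => (bj i).map (fun x => x + c i)) (fun i => rho (c i))
    (fun i x => rho_nonneg _ _) (fun i => Integrable.of_finite) (fun i => bj_map _) ?_
  refine Summable.of_nonneg_of_le (fun i => integral_nonneg fun x => abs_nonneg _)
    (fun i => rho_tv (c i)) (hc.mul_left 2)

lemma FF_summable {c : ZZ} (hc : c ∈ FF) : Summable fun i => ‖c i‖ := by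
  obtain ⟨J, hJ⟩ := hc
  refine summable_of_ne_finset_zero (s := range J) fun i hi => ?_
  rw [hJ i (by simpa using hi), norm_zero]

/-- zero-one law for sets invariant under finitely supported translations -/
theorem zero_one (μ : ∀ j, Measure (KK j)) [∀ j, IsProbabilityMeasure (μ j)] {B : Set ZZ}
    (hB : MeasurableSet B) (hinv : ∀ c ∈ FF, ∀ z, z ∈ B → z + c ∈ B) :
    Measure.infinitePi μ B = 0 ∨ Measure.infinitePi μ B = 1 := by
  classical
  have hinv' : ∀ c ∈ FF, ∀ z, z + c ∈ B ↔ z ∈ B := by
    intro c hc z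
    refine ⟨fun h => ?_, hinv c hc z⟩
    have := hinv (-c) (FF.neg_mem hc) _ h
    rwa [add_neg_cancel_right] at this
  set s : ℕ → MeasurableSpace ZZ := fun n => MeasurableSpace.comap (fun z : ZZ => z n) ⊤ with hs
  have hle : ∀ n, s n ≤ MeasurableSpace.pi := fun n => (measurable_pi_apply n).comap_le
  have hind : iIndep s (Measure.infinitePi μ) := by
    have := iIndepFun_infinitePi (P := μ) (X := fun i (x : KK i) => x) (fun i => measurable_id)
    exact this
  refine measure_zero_or_one_of_measurableSet_limsup_atTop hle hind ?_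
  rw [limsup_eq_iInf_iSup_of_nat]
  rw [MeasurableSpace.measurableSet_iInf]
  intro n
  -- projection killing the first `n` coordinates
  set pr : ZZ → ZZ := fun z i => if i < n then 0 else z i with hpr
  have hBpr : B = pr ⁻¹' B := by
    ext z
    rw [Set.mem_preimage]
    have hc : pr z - z ∈ FF := by
      refine ⟨n, fun m hm => ?_⟩
      simp [hpr, show ¬ m < n by omega]
    have := hinv' _ hc z
    rw [add_sub_cancel] at this
    exact this.symm
  have hprm : @Measurable ZZ ZZ (⨆ i, ⨆ (_ : n ≤ i), s i) MeasurableSpace.pi pr := by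
    refine @measurable_pi_iff ZZ ℕ KK (⨆ i, ⨆ (_ : n ≤ i), s i) _ pr |>.2 fun i => ?_
    by_cases hi : i < n
    · have : (fun z => pr z i) = fun _ => 0 := by funext z; simp [hpr, hi]
      rw [this]
      exact measurable_const
    · have : (fun z => pr z i) = fun z : ZZ => z i := by funext z; simp [hpr, hi]
      rw [this]
      have h1 : s i ≤ ⨆ i, ⨆ (_ : n ≤ i), s i := le_iSup₂_of_le i (by omega) le_rfl
      have h2 : @Measurable ZZ (KK i) (s i) ⊤ (fun z : ZZ => z i) := comap_measurable _
      exact h2.mono h1 le_rfl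
  rw [hBpr]
  exact hprm hB

lemma pb_le (e : ℝ) (h0 : 0 ≤ e) (h1 : e ≤ 1 / 2) (b : ZMod 2) : pb e b ≤ 3 / 4 := by
  rcases zmod2_cases b with rfl | rfl
  · rw [pb_zero]; linarith
  · rw [pb_one]; linarith

lemma wje_le {j : ℕ} (x : KK j) : wj (ee j) x ≤ (3 / 4) ^ j := by
  unfold wj wt
  calc ∏ i : Fin (kk j), pb (ee j) (x i) ≤ ∏ _i : Fin (kk j), (3 / 4 : ℝ) :=
        Finset.prod_le_prod (fun i _ => pb_nonneg (ee_nonneg j) (ee_le_one j) _)
          (fun i _ => pb_le _ (ee_nonneg j) (ee_le j) _)
    _ = (3 / 4) ^ kk j := by rw [Finset.prod_const, Finset.card_univ, Fintype.card_fin]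
    _ ≤ (3 / 4) ^ j := pow_le_pow_of_le_one (by norm_num) (by norm_num) (by have := kk_ge j; omega)

lemma nu_atom (z : ZZ) : nu {z} = 0 := by
  have h : ∀ j, nu {z} ≤ ENNReal.ofReal ((3 / 4) ^ j) := by
    intro j
    calc nu {z} ≤ nu {y | y j ∈ ({z j} : Set (KK j))} := by
          apply measure_mono
          intro y hy
          rw [Set.mem_singleton_iff] at hy
          simp [hy]
      _ = bj j {z j} := nu_eval j _
      _ = ENNReal.ofReal (wj (ee j) (z j)) := bj_singleton _
      _ ≤ _ := ENNReal.ofReal_le_ofReal (wje_le _)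
  have hlim : Tendsto (fun j : ℕ => ENNReal.ofReal (((3:ℝ) / 4) ^ j)) atTop (𝓝 (ENNReal.ofReal 0)) :=
    ENNReal.tendsto_ofReal (tendsto_pow_atTop_nhds_zero_of_lt_one (by norm_num) (by norm_num))
  rw [ENNReal.ofReal_zero] at hlim
  exact le_antisymm (ge_of_tendsto' hlim h) (by simp)

end H878L
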