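import Pool.Agent.H878.Fun

open MeasureTheory Set Filter Topology
open scoped Pointwise ENNReal

namespace Pool.Agent.H878

open Heis

theorem flo_add (s t : ℝ) (x : Nil) : flo (s + t) x = flo s (flo t x) := by
  unfold flo
  rw [ex_add, mul_smul]

theorem flo_zero (x : Nil) : flo 0 x = x := by
  unfold flo
  rw [ex_zero, one_smul]

theorem continuous_flo : Continuous (fun p : ℝ × Nil => flo p.1 p.2) :=
  ((continuous_ex bet).comp _root_.continuous_fst).smul _root_.continuous_snd

/-- the additive cocycle defining the new time -/
noncomputable def aa (t : ℝ) (x : Nil) : ℝ := ∫ s in (0:ℝ)..t, alp (flo s x)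

theorem alp_flo_cont (x : Nil) : Continuous (fun s => alp (flo s x)) :=
  continuous_alp.comp (continuous_flo_left x)

theorem aa_zero (x : Nil) : aa 0 x = 0 := by simp [aa]

theorem aa_add (s t : ℝ) (x : Nil) : aa (s + t) x = aa t x + aa s (flo t x) := by
  unfold aa
  have h1 : ∫ r in (0:ℝ)..s, alp (flo r (flo t x)) = ∫ r in t..(s + t), alp (flo r x) := by
    have := intervalIntegral.integral_comp_add_right (a := 0) (b := s)
      (fun r => alp (flo r x)) t
    rw [zero_add] at this
    rw [← this]
    refine intervalIntegral.integral_congr (fun r _ => ?_)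
    simp only [flo_add]
  rw [h1, intervalIntegral.integral_add_adjacent_intervals]
  · exact (alp_flo_cont x).intervalIntegrable _ _
  · exact (alp_flo_cont x).intervalIntegrable _ _

theorem continuous_aa : Continuous (fun p : ℝ × Nil => aa p.1 p.2) := by
  unfold aa
  refine intervalIntegral.continuous_parametric_intervalIntegral_of_continuous
    (X := ℝ × Nil) (f := fun p s => alp (flo s p.2)) (s := fun p => p.1) ?_
    _root_.continuous_fst
  have : Continuous (fun q : (ℝ × Nil) × ℝ => flo q.2 q.1.2) :=
    continuous_flo.comp (_root_.continuous_snd.prodMk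
      (_root_.continuous_snd.comp _root_.continuous_fst))
  exact continuous_alp.comp this

theorem aa_diff (x : Nil) {s t : ℝ} (h : s ≤ t) : (t - s) / 2 ≤ aa t x - aa s x := by
  have h1 : aa t x - aa s x = ∫ r in s..t, alp (flo r x) := by
    unfold aa
    rw [intervalIntegral.integral_interval_sub_left]
    · exact (alp_flo_cont x).intervalIntegrable _ _
    · exact (alp_flo_cont x).intervalIntegrable _ _
  rw [h1]
  have h2 : ∫ _ in s..t, (1 / 2 : ℝ) ≤ ∫ r in s..t, alp (flo r x) :=
    intervalIntegral.integral_mono_on h (continuous_const.intervalIntegrable _ _)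
      ((alp_flo_cont x).intervalIntegrable _ _) (fun r _ => alp_ge _)
  rw [intervalIntegral.integral_const, smul_eq_mul] at h2
  linarith

theorem aa_strictMono (x : Nil) : StrictMono (fun t => aa t x) := by
  intro s t h
  have := aa_diff x h.le
  simp only
  linarith

theorem continuous_aa_left (x : Nil) : Continuous (fun t => aa t x) :=
  continuous_aa.comp (continuous_id.prodMk continuous_const)

theorem continuous_aa_right (t : ℝ) : Continuous (fun x => aa t x) :=
  continuous_aa.comp (continuous_const.prodMk continuous_id)

theorem aa_surj (x : Nil) : Function.Surjective (fun t => aa t x) := by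
  refine (continuous_aa_left x).surjective ?_ ?_
  · refine tendsto_atTop_mono' atTop ?_ (tendsto_id.atTop_div_const (by norm_num : (0:ℝ) < 2))
    filter_upwards [eventually_ge_atTop 0] with t ht
    have := aa_diff x ht
    rw [aa_zero] at this
    simp only [id]
    linarith
  · refine tendsto_atBot_mono' atBot ?_ (tendsto_id.atBot_div_const (by norm_num : (0:ℝ) < 2))
    filter_upwards [eventually_le_atBot 0] with t ht
    have := aa_diff x ht
    rw [aa_zero] at this
    simp only [id]
    linarith

/-- the inverse of the new time -/
noncomputable def bb (τ : ℝ) (x : Nil) : ℝ := (aa_surj x τ).choose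

theorem aa_bb (τ : ℝ) (x : Nil) : aa (bb τ x) x = τ := (aa_surj x τ).choose_spec

theorem bb_aa (t : ℝ) (x : Nil) : bb (aa t x) x = t :=
  (aa_strictMono x).injective (aa_bb (aa t x) x)

theorem bb_eq {τ t : ℝ} {x : Nil} (h : aa t x = τ) : bb τ x = t := by rw [← h, bb_aa]

theorem continuous_bb : Continuous (fun p : ℝ × Nil => bb p.1 p.2) := by
  rw [continuous_iff_lower_upperSemicontinuous, lowerSemicontinuous_iff_isOpen_preimage,
    upperSemicontinuous_iff_isOpen_preimage]
  constructor
  · intro c
    have : (fun p : ℝ × Nil => bb p.1 p.2) ⁻¹' Ioi c = {p : ℝ × Nil | aa c p.2 < p.1} := by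
      ext p
      simp only [mem_preimage, mem_Ioi, mem_ofPred_eq]
      constructor
      · intro h
        have := aa_strictMono p.2 h
        simp only [aa_bb] at this
        exact this
      · intro h
        rw [← aa_bb p.1 p.2] at h
        exact (aa_strictMono p.2).lt_iff_lt.1 h
    rw [this]
    exact isOpen_lt ((continuous_aa_right c).comp _root_.continuous_snd) _root_.continuous_fst
  · intro c
    have : (fun p : ℝ × Nil => bb p.1 p.2) ⁻¹' Iio c = {p : ℝ × Nil | p.1 < aa c p.2} := by
      ext p
      simp only [mem_preimage, mem_Iio, mem_ofPred_eq]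
      constructor
      · intro h
        have := aa_strictMono p.2 h
        simp only [aa_bb] at this
        exact this
      · intro h
        rw [← aa_bb p.1 p.2] at h
        exact (aa_strictMono p.2).lt_iff_lt.1 h
    rw [this]
    exact isOpen_lt _root_.continuous_fst ((continuous_aa_right c).comp _root_.continuous_snd)

/-- the time-changed flow -/
noncomputable def psi (τ : ℝ) (x : Nil) : Nil := flo (bb τ x) x

theorem continuous_psi : Continuous (fun p : ℝ × Nil => psi p.1 p.2) :=
  continuous_flo.comp (continuous_bb.prodMk _root_.continuous_snd)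

theorem psi_aa (t : ℝ) (x : Nil) : psi (aa t x) x = flo t x := by
  unfold psi; rw [bb_aa]

theorem psi_zero (x : Nil) : psi 0 x = x := by
  have := psi_aa 0 x
  rwa [aa_zero, flo_zero] at this

theorem psi_add (σ τ : ℝ) (x : Nil) : psi (σ + τ) x = psi σ (psi τ x) := by
  have h : bb (σ + τ) x = bb σ (psi τ x) + bb τ x := by
    apply bb_eq
    rw [aa_add]
    change aa (bb τ x) x + aa (bb σ (psi τ x)) (psi τ x) = σ + τ
    rw [aa_bb, aa_bb, add_comm]
  unfold psi at h ⊢
  rw [h, flo_add]

theorem measurePreserving_flo (t : ℝ) : MeasurePreserving (flo t) mu mu :=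
  measurePreserving_smul (ex bet t) mu

attribute [local irreducible] psi flo bb aa

theorem continuous_psi_left (x : Nil) : Continuous (fun t => psi t x) :=
  continuous_psi.comp (f := fun t : ℝ => (t, x)) (continuous_id.prodMk continuous_const)
theorem continuous_psi_right (t : ℝ) : Continuous (psi t) :=
  continuous_psi.comp (f := fun x : Nil => (t, x)) (continuous_const.prodMk continuous_id)

theorem hasDerivAt_aa (s : ℝ) (x : Nil) : HasDerivAt (fun s => aa s x) (alp (flo s x)) s := by
  have e : (fun s => aa s x) = fun s => ∫ r in (0:ℝ)..s, alp (flo r x) := by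
    funext s; unfold aa; rfl
  rw [e]
  exact intervalIntegral.integral_hasDerivAt_right
    ((alp_flo_cont x).intervalIntegrable 0 s)
    ((alp_flo_cont x).stronglyMeasurableAtFilter _ _) (alp_flo_cont x).continuousAt

/-- invariance of the measure `α μ` under the time-changed flow, tested on continuous functions -/
theorem integral_psi (f : BoundedContinuousFunction Nil ℝ) (τ : ℝ) :
    ∫ x, f (psi τ x) * alp x ∂mu = ∫ x, f x * alp x ∂mu := by
  set I : ℝ → ℝ := fun τ => ∫ x, f (psi τ x) * alp x ∂mu with hI
  have hI0 : I 0 = ∫ x, f x * alp x ∂mu := by simp only [hI, psi_zero]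
  -- the key estimate
  have key : ∀ T : ℝ, 0 < T → |I τ - I 0| * T ≤ 2 * |τ| * ‖f‖ := by
    intro T hT
    -- rewrite T * I σ
    have h1 : ∀ σ : ℝ, I σ * T = ∫ x, (∫ r in σ..(σ + aa T x), f (psi r x)) ∂mu := by
      intro σ
      have e1 : ∀ s : ℝ, I σ = ∫ x, f (psi σ (flo s x)) * alp (flo s x) ∂mu := by
        intro s
        have h2 := integral_map (μ := mu) (φ := flo s)
          (f := fun x => f (psi σ x) * alp x) (measurePreserving_flo s).measurable.aemeasurable
          (((f.continuous.comp (continuous_psi_right σ)).mul
            continuous_alp).aestronglyMeasurable)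
        rw [(measurePreserving_flo s).map_eq] at h2
        exact h2
      have hcont : Continuous (fun p : ℝ × Nil => f (psi σ (flo p.1 p.2)) * alp (flo p.1 p.2)) :=
        (f.continuous.comp ((continuous_psi_right σ).comp continuous_flo)).mul
          (continuous_alp.comp continuous_flo)
      have e2 : I σ * T = ∫ s in (0:ℝ)..T, I σ := by
        rw [intervalIntegral.integral_const, smul_eq_mul, sub_zero, mul_comm]
      have e3 : ∫ s in (0:ℝ)..T, I σ =
          ∫ s in (0:ℝ)..T, (∫ x, f (psi σ (flo s x)) * alp (flo s x) ∂mu) :=
        intervalIntegral.integral_congr (fun s _ => e1 s)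
      rw [e2, e3]
      rw [intervalIntegral.integral_of_le hT.le]
      rw [integral_integral_swap]
      · refine integral_congr_ae (ae_of_all _ (fun x => ?_))
        simp only
        rw [← intervalIntegral.integral_of_le hT.le]
        have e4 : ∀ s, f (psi σ (flo s x)) = f (psi (σ + aa s x) x) := by
          intro s
          rw [← psi_aa, ← psi_add]
        simp_rw [e4]
        have hF : Continuous (fun r => f (psi r x)) := f.continuous.comp (continuous_psi_left x)
        have hder : ∀ s ∈ uIcc (0:ℝ) T, HasDerivAt (fun s => σ + aa s x) (alp (flo s x)) s := by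
          intro s _
          exact (hasDerivAt_aa s x).const_add σ
        have := intervalIntegral.integral_comp_mul_deriv hder
          (alp_flo_cont x).continuousOn hF
        simp only [Function.comp_apply, aa_zero, add_zero] at this
        exact this
      · have hb : ∀ p : ℝ × Nil, ‖f (psi σ (flo p.1 p.2)) * alp (flo p.1 p.2)‖ ≤ ‖f‖ * (3/2) := by
          intro p
          rw [norm_mul]
          refine mul_le_mul (f.norm_coe_le_norm _) ?_ (norm_nonneg _) (norm_nonneg _)
          rw [Real.norm_eq_abs, abs_of_nonneg (by linarith [alp_ge (flo p.1 p.2)])]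
          exact alp_le _
        exact Integrable.of_bound hcont.aestronglyMeasurable _ (ae_of_all _ hb)
    have hint : ∀ σ : ℝ, Integrable (fun x => ∫ r in σ..(σ + aa T x), f (psi r x)) mu := by
      intro σ
      have hc : Continuous (fun x : Nil => ∫ r in σ..(σ + aa T x), f (psi r x)) := by
        refine intervalIntegral.continuous_parametric_intervalIntegral_of_continuous
          (X := Nil) (f := fun x r => f (psi r x)) (s := fun x => σ + aa T x) ?_
          (continuous_const.add (continuous_aa_right T))
        exact f.continuous.comp (continuous_psi.comp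
          (_root_.continuous_snd.prodMk _root_.continuous_fst))
      obtain ⟨C, hC⟩ := (isCompact_range hc).isBounded.exists_norm_le
      exact Integrable.of_bound hc.aestronglyMeasurable C
        (ae_of_all _ (fun x => hC _ (mem_range_self x)))
    have h2 : (I τ - I 0) * T = ∫ x, ((∫ r in τ..(τ + aa T x), f (psi r x)) -
        ∫ r in (0:ℝ)..(0 + aa T x), f (psi r x)) ∂mu := by
      rw [integral_sub (hint τ) (hint 0), ← h1, ← h1]; ring
    have h3 : ‖(I τ - I 0) * T‖ ≤ 2 * |τ| * ‖f‖ := by
      rw [h2]
      refine (norm_integral_le_of_norm_le_const (C := 2 * |τ| * ‖f‖) (ae_of_all _ (fun x => ?_))).trans ?_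
      · have hF : Continuous (fun r => f (psi r x)) := f.continuous.comp (continuous_psi_left x)
        have e5 : (∫ r in τ..(τ + aa T x), f (psi r x)) - ∫ r in (0:ℝ)..(0 + aa T x), f (psi r x) =
            (∫ r in (0 + aa T x)..(τ + aa T x), f (psi r x)) - ∫ r in (0:ℝ)..τ, f (psi r x) := by
          have a1 := intervalIntegral.integral_add_adjacent_intervals
            (hF.intervalIntegrable (μ := volume) 0 τ)
            (hF.intervalIntegrable (μ := volume) τ (τ + aa T x))
          have a2 := intervalIntegral.integral_add_adjacent_intervals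
            (hF.intervalIntegrable (μ := volume) 0 (0 + aa T x))
            (hF.intervalIntegrable (μ := volume) (0 + aa T x) (τ + aa T x))
          linarith
        rw [e5]
        have b1 := intervalIntegral.norm_integral_le_of_norm_le_const (a := 0 + aa T x)
          (b := τ + aa T x) (f := fun r => f (psi r x)) (C := ‖f‖)
          (fun r _ => f.norm_coe_le_norm _)
        have b2 := intervalIntegral.norm_integral_le_of_norm_le_const (a := 0)
          (b := τ) (f := fun r => f (psi r x)) (C := ‖f‖)
          (fun r _ => f.norm_coe_le_norm _)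
        have b3 : |τ + aa T x - (0 + aa T x)| = |τ| := by congr 1; ring
        rw [b3] at b1
        rw [sub_zero] at b2
        refine (norm_sub_le _ _).trans ?_
        linarith
      · simp
    rw [norm_mul, Real.norm_eq_abs, Real.norm_eq_abs, abs_of_pos hT] at h3
    exact h3
  have hzero : |I τ - I 0| ≤ 0 := by
    by_contra hcon
    push Not at hcon
    have h := key ((2 * |τ| * ‖f‖ + 1) / |I τ - I 0|) (by positivity)
    rw [mul_div_cancel₀ _ hcon.ne'] at h
    linarith
  have : I τ = I 0 := by
    have := abs_nonneg (I τ - I 0)
    have h0 : |I τ - I 0| = 0 := le_antisymm hzero this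
    linarith [abs_eq_zero.1 h0]
  rw [hI0] at this
  exact this

/-- the measure `α μ` -/
noncomputable def rho : Measure Nil := mu.withDensity (fun x => ENNReal.ofReal (alp x))

theorem measurable_ofReal_alp : Measurable (fun x => ENNReal.ofReal (alp x)) :=
  continuous_alp.measurable.ennreal_ofReal

theorem rho_univ_le : rho univ ≤ ENNReal.ofReal (3 / 2) := by
  unfold rho
  rw [withDensity_apply _ MeasurableSet.univ, Measure.restrict_univ]
  calc ∫⁻ x, ENNReal.ofReal (alp x) ∂mu ≤ ∫⁻ _, ENNReal.ofReal (3 / 2) ∂mu :=
        lintegral_mono (fun x => ENNReal.ofReal_le_ofReal (alp_le x))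
    _ = _ := by simp

theorem rho_univ_ge : ENNReal.ofReal (1 / 2) ≤ rho univ := by
  unfold rho
  rw [withDensity_apply _ MeasurableSet.univ, Measure.restrict_univ]
  calc ENNReal.ofReal (1 / 2) = ∫⁻ _ : Nil, ENNReal.ofReal (1 / 2) ∂mu := by simp
    _ ≤ ∫⁻ x, ENNReal.ofReal (alp x) ∂mu :=
        lintegral_mono (fun x => ENNReal.ofReal_le_ofReal (alp_ge x))

instance : IsFiniteMeasure rho := ⟨lt_of_le_of_lt rho_univ_le (by simp)⟩

theorem rho_ac : rho ≪ mu := withDensity_absolutelyContinuous _ _

theorem integral_rho (f : Nil → ℝ) : ∫ x, f x ∂rho = ∫ x, f x * alp x ∂mu := by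
  unfold rho
  rw [integral_withDensity_eq_integral_toReal_smul measurable_ofReal_alp
    (ae_of_all _ (fun x => by simp))]
  refine integral_congr_ae (ae_of_all _ (fun x => ?_))
  simp only [smul_eq_mul]
  rw [ENNReal.toReal_ofReal (by linarith [alp_ge x])]
  ring

theorem map_psi_rho (τ : ℝ) : Measure.map (psi τ) rho = rho := by
  have hm : Measurable (psi τ) := (continuous_psi_right τ).measurable
  refine ext_of_forall_integral_eq_of_IsFiniteMeasure (fun f => ?_)
  rw [integral_map hm.aemeasurable f.continuous.aestronglyMeasurable, integral_rho, integral_rho]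
  exact integral_psi f τ

end Pool.Agent.H878
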